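import Pool.Agent.H69.LB.Frb

/-!
# ZDF: definitions for the zero side

`Zer` collects the facts on the zeros which are used (they hold under RH with `γ`, `w` = ordinates and
multiplicities of the zeros of zeta); everything is proved from this structure.
-/

open Filter Topology
open scoped ContDiff

namespace H69LB

/-- Poisson kernel `a/(a²+v²)` -/
noncomputable def pk (a v : ℝ) : ℝ := a / (a ^ 2 + v ^ 2)

/-- parameters of the archimedean factor -/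
noncomputable def bj (j : ℕ) : ℝ := 2 * ((j : ℝ) + 1) + 3 / 2

/-- the facts on the zeros -/
structure Zer {ι : Type} (γ w : ι → ℝ) (F : ℝ → Finset ι) (A : ℝ → ℝ) (k0 : ℝ) : Prop where
  w_nonneg : ∀ i, 0 ≤ w i
  mem_F : ∀ T i, i ∈ F T ↔ 0 < γ i ∧ γ i ≤ T
  hasSum : ∀ t, HasSum (fun i => w i * pk 1 (t - γ i))
    (A t - ∑' n : ℕ, ArithmeticFunction.vonMangoldt n * (n : ℝ) ^ (-(3 / 2) : ℝ) * Real.cos (t * Real.log n))
  cont : Continuous A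
  boundA : ∃ C : ℝ, 0 ≤ C ∧ ∀ t, |A t| ≤ C * (1 + |t|) ^ (1 / 4 : ℝ)
  boundW : ∃ C : ℝ, 0 ≤ C ∧ ∀ t, ∑' i, w i / (1 + (t - γ i) ^ 2) ≤ C * (1 + |t|) ^ (1 / 4 : ℝ)
  arch : ∀ t, Tendsto (fun n : ℕ => ∑ j ∈ Finset.range n, (pk (bj j) 0 - pk (bj j) t)) atTop
    (𝓝 (A t - k0 - pk (1 / 2) t))

/-- `Ψ(γ) = ∫ F(ξ) e^{iξγ} dξ` -/
noncomputable def PsiF (F : ℝ → ℂ) (g : ℝ) : ℂ := ∫ ξ, F ξ * Complex.exp (Complex.I * ((ξ * g : ℝ) : ℂ))

/-- the form factor of the system -/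
noncomputable def FFz {ι : Type} (γ w : ι → ℝ) (F : ℝ → Finset ι) (T α : ℝ) : ℝ :=
  (T * Real.log T)⁻¹ * (2 * Real.pi) * ∑ i ∈ F T, ∑ j ∈ F T,
    w i * w j * (Real.cos (α * Real.log T * (γ i - γ j)) * (4 / (4 + (γ i - γ j) ^ 2)))

/-- a piece: a smooth bump `0 ≤ χ ≤ 1` which vanishes outside the interval `(η1, η2)`, and `0` is not
in that open interval -/
structure Pc (η1 η2 : ℝ) (χ : ℝ → ℝ) : Prop where
  lt : η1 < η2
  side : η2 ≤ 0 ∨ 0 ≤ η1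
  smooth : ContDiff ℝ ∞ χ
  zero : ∀ η, η ≤ η1 ∨ η2 ≤ η → χ η = 0
  nonneg : ∀ η, 0 ≤ χ η
  le_one : ∀ η, χ η ≤ 1

/-- `W = e^{-2|η|} χ(η)` -/
noncomputable def Wof (χ : ℝ → ℝ) (η : ℝ) : ℝ := Real.exp (-(2 * |η|)) * χ η

/-- the comparison function of one piece -/
noncomputable def bP (χ : ℝ → ℝ) (P : Par) (T α ξ : ℝ) : ℂ :=
  -(((Real.exp (ξ / 2) * Real.exp (-|ξ - α * Real.log T|) * χ (ξ - α * Real.log T) : ℝ) : ℂ) *
    ∑ p ∈ Th P T α, (cf p : ℂ) * ee ((p.1 : ℝ) / p.2 * Real.exp ξ))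

/-- the test function which belongs to a comparison function `b` -/
noncomputable def Fof (b : ℝ → ℂ) (y ξ : ℝ) : ℂ :=
  2 * Real.pi * ((Real.exp (-|ξ - y|) : ℝ) : ℂ) * (starRingEnd ℂ) (b ξ)

end H69LB
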