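import Pool.Agent.H6.Glue
import Pool.Agent.H6.Gam
import Pool.Agent.H5.ModuleA
import Pool.Agent.H69.LB.Zdf

/-!
# BRG: the zeros of zeta satisfy `Zer` under RH (from the library of helper4, helper5, helper6)
-/

open Filter Topology
open Pool.Agent Pool.Agent.H6

namespace H69LB

theorem brg_pk (a v : ℝ) : H69LB.pk a v = Pool.Agent.H6.pk a v := rfl

theorem brg_bj (j : ℕ) : H69LB.bj j = Pool.Agent.H6.bj 1 j := by
  unfold H69LB.bj Pool.Agent.H6.bj
  ring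

theorem zfacts (RH : RiemannHypothesis) : ZetaFacts :=
  ⟨Pool.Agent.H5.Z_countable, fun _ ha t => Pool.Agent.H5.hasSum_poisson RH ha t⟩

instance countable_Z : Countable PC.Z := Pool.Agent.H5.Z_countable.to_subtype

theorem zer (RH : RiemannHypothesis) : Zer gZ wZ FZ (PC.arch 1) (ka 1) := by
  have hP := poissonInput (zfacts RH) (a := 1) (by norm_num)
  obtain ⟨CR, I⟩ := inputs (zfacts RH)
  refine ⟨wZ_nonneg, mem_FZ, ?_, hP.cont, hP.bound_A, ?_, ?_⟩
  · intro t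
    have h := hP.hasSum t
    simp only [brg_pk]
    convert h using 5
    norm_num
  · refine ⟨|CR|, abs_nonneg _, fun t => ?_⟩
    exact (I.ord.bound t).trans (mul_le_mul_of_nonneg_right (le_abs_self _) (by positivity))
  · intro t
    have h := arch_tendsto (a := 1) (by norm_num) t
    simp only [brg_pk, brg_bj]
    have e : (1 : ℝ) - 1 / 2 = 1 / 2 := by norm_num
    rw [e] at h
    exact h

open Classical in
/-- ordered pairs of zeros up to height `T` -/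
theorem zerosProd (RH : RiemannHypothesis) (T : ℝ) :
    {p : ℂ × ℂ | p.1 ∈ PC.zerosUpTo T ∧ p.2 ∈ PC.zerosUpTo T} =
      toPair '' ((FZ T ×ˢ FZ T : Finset (PC.Z × PC.Z)) : Set (PC.Z × PC.Z)) := by
  ext ⟨ρ, ρ'⟩
  simp only [Set.mem_ofPred_eq, Set.mem_image, Finset.coe_product, Set.mem_prod, Finset.mem_coe, mem_FZ]
  constructor
  · rintro ⟨h1, h2⟩
    obtain ⟨a1, a2, a3, a4, a5⟩ := h1
    obtain ⟨b1, b2, b3, b4, b5⟩ := h2
    have e1 := re_eq_half RH a1 a2 a3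
    have e2 := re_eq_half RH b1 b2 b3
    have z1 : ρ.im ∈ PC.Z := by unfold PC.Z; simp only [Set.mem_ofPred_eq]; rw [← e1]; exact a1
    have z2 : ρ'.im ∈ PC.Z := by unfold PC.Z; simp only [Set.mem_ofPred_eq]; rw [← e2]; exact b1
    refine ⟨(⟨ρ.im, z1⟩, ⟨ρ'.im, z2⟩), ⟨⟨a4, a5⟩, ⟨b4, b5⟩⟩, ?_⟩
    unfold toPair
    simp only
    rw [← e1, ← e2]
  · rintro ⟨⟨i, j⟩, ⟨⟨a1, a2⟩, ⟨b1, b2⟩⟩, h⟩
    unfold toPair at h
    simp only [Prod.mk.injEq] at h
    obtain ⟨rfl, rfl⟩ := h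
    have him : ∀ i : PC.Z, ((1 / 2 : ℂ) + ((i : ℝ) : ℂ) * Complex.I).im = gZ i := by
      intro i; simp [gZ]
    have hre : ∀ i : PC.Z, ((1 / 2 : ℂ) + ((i : ℝ) : ℂ) * Complex.I).re = 1 / 2 := by
      intro i; simp
    refine ⟨⟨i.2, ?_, ?_, ?_, ?_⟩, ⟨j.2, ?_, ?_, ?_, ?_⟩⟩
    · rw [hre]; norm_num
    · rw [hre]; norm_num
    · rw [him]; exact a1
    · rw [him]; exact a2
    · rw [hre]; norm_num
    · rw [hre]; norm_num
    · rw [him]; exact b1
    · rw [him]; exact b2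

/-- sums over pairs of zeros as double sums over ordinates -/
theorem finsum_zeros (RH : RiemannHypothesis) (T : ℝ) (f : ℝ → ℝ) :
    ∑ᶠ p ∈ {p : ℂ × ℂ | p.1 ∈ PC.zerosUpTo T ∧ p.2 ∈ PC.zerosUpTo T},
      (analyticOrderNatAt riemannZeta p.1 : ℝ) * (analyticOrderNatAt riemannZeta p.2 : ℝ) * f (p.1.im - p.2.im)
      = ∑ i ∈ FZ T, ∑ j ∈ FZ T, wZ i * wZ j * f (gZ i - gZ j) := by
  rw [zerosProd RH, finsum_mem_image toPair_injective.injOn, finsum_mem_coe_finset, Finset.sum_product]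
  apply Finset.sum_congr rfl
  intro i _
  apply Finset.sum_congr rfl
  intro j _
  have him : ∀ i : PC.Z, ((1 / 2 : ℂ) + ((i : ℝ) : ℂ) * Complex.I).im = gZ i := by
    intro i; simp [gZ]
  unfold toPair
  simp only
  rw [him, him]
  rfl

end H69LB
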