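import Mathlib

/-!
# Lower bound for Montgomery's form factor beyond 1: shared definitions

Overview: /team-store/H69_PCLB.md
-/

open Finset
open scoped ContDiff

namespace H69LB

/-- `e(t) = exp(2πit)` -/
noncomputable def ee (t : ℝ) : ℂ := Complex.exp (2 * Real.pi * t * Complex.I)

/-- smooth functions vanishing outside `(-M, M)` -/
structure WS (M : ℝ) (W : ℝ → ℝ) : Prop where
  smooth : ContDiff ℝ ∞ W
  zero : ∀ η, M ≤ |η| → W η = 0

/-- the cutoff `⌊x e^M⌋` -/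
noncomputable def NN (M x : ℝ) : ℕ := ⌊x * Real.exp M⌋₊

/-- `∑ Λ(n) W(log (n/x)) g(n)` -/
noncomputable def psW (W : ℝ → ℝ) (M x : ℝ) (g : ℕ → ℂ) : ℂ :=
  ∑ n ∈ Icc 1 (NN M x), ((ArithmeticFunction.vonMangoldt n * W (Real.log (n / x)) : ℝ) : ℂ) * g n

/-- `∑ (log p) W(log (p/x)) g(p)`, sum over primes -/
noncomputable def thW (W : ℝ → ℝ) (M x : ℝ) (g : ℕ → ℂ) : ℂ :=
  ∑ p ∈ (Icc 1 (NN M x)).filter Nat.Prime, ((Real.log p * W (Real.log (p / x)) : ℝ) : ℂ) * g p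

open Classical in
/-- the primitive characters modulo `q`, without the trivial one -/
noncomputable def pc (q : ℕ) : Finset (DirichletCharacter ℂ q) :=
  univ.filter fun χ => χ.IsPrimitive ∧ χ ≠ 1

/-- the coefficients `∑_{d ∣ k, d > V} μ(d)` -/
noncomputable def betaV (V k : ℕ) : ℝ := ∑ d ∈ k.divisors.filter (V < ·), (ArithmeticFunction.moebius d : ℝ)

/-- the coefficients `∑_{md = l, m ≤ U, d ≤ V} Λ(m) μ(d)` -/
noncomputable def cUV (U V l : ℕ) : ℝ :=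
  ∑ p ∈ l.divisorsAntidiagonal.filter (fun p => p.1 ≤ U ∧ p.2 ≤ V),
    ArithmeticFunction.vonMangoldt p.1 * (ArithmeticFunction.moebius p.2 : ℝ)

/-- parameters of the comparison function -/
structure Par where
  κ : ℝ
  ε : ℝ
  δ : ℝ
  cH : ℝ

/-- admissible parameters -/
structure Par.Ok (P : Par) : Prop where
  κ_pos : 0 < P.κ
  κ_le : P.κ ≤ 1 / 4
  ε_pos : 0 < P.ε
  ε_le : P.ε ≤ 1 / 4
  δ_pos : 0 < P.δ
  δ_lt : P.δ < 1
  cH_pos : 0 < P.cH

/-- `h₁ = T^(α-1) (log T)^120` -/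
noncomputable def h1 (T α : ℝ) : ℝ := T ^ (α - 1) * Real.log T ^ 120

/-- endpoints of the boxes of denominators -/
noncomputable def Rk (P : Par) (T α : ℝ) (k : ℕ) : ℕ := ⌈h1 T α * (1 + P.κ) ^ k⌉₊

/-- the number of boxes -/
noncomputable def KK (P : Par) (T α : ℝ) : ℕ :=
  ⌊Real.log (T ^ (1 / 2 - P.ε) / 2 / h1 T α) / Real.log (1 + P.κ)⌋₊

/-- right endpoint of the range of numerators in the box `k` -/
noncomputable def A2 (P : Par) (T α : ℝ) (k : ℕ) : ℕ := ⌊(Rk P T α k : ℝ) / (P.cH * T ^ (α - 1))⌋₊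

/-- left endpoint of the range of numerators in the box `k` -/
noncomputable def A1 (P : Par) (T α : ℝ) (k : ℕ) : ℕ :=
  ⌊P.δ * ((Rk P T α k : ℝ) / (P.cH * T ^ (α - 1)))⌋₊

/-- the frequencies `a/r` in the box `k`, as pairs `(a, r)` -/
noncomputable def Bx (P : Par) (T α : ℝ) (k : ℕ) : Finset (ℕ × ℕ) :=
  (Ioc (A1 P T α k) (A2 P T α k) ×ˢ Ioc (Rk P T α k) (Rk P T α (k + 1))).filter
    fun p => Squarefree p.2 ∧ Nat.Coprime p.1 p.2

/-- all frequencies, as pairs `(a, r)` -/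
noncomputable def Th (P : Par) (T α : ℝ) : Finset (ℕ × ℕ) := (range (KK P T α)).biUnion (Bx P T α)

/-- the coefficients `μ(r)/φ(r)` -/
noncomputable def cf (p : ℕ × ℕ) : ℝ := (ArithmeticFunction.moebius p.2 : ℝ) / (Nat.totient p.2 : ℝ)

/-- `∑ c_θ²` -/
noncomputable def S2 (P : Par) (T α : ℝ) : ℝ := ∑ p ∈ Th P T α, cf p ^ 2

end H69LB
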