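import Pool.Agent.H69.LB.Defs

/-!
# VAU: Vaughan's identity

In the ring of arithmetic functions (real valued): `Λ_{>U} = Λ_{>U} * 1 * μ`,
`μ = μ_{≤V} + μ_{>V}`, `1 * μ_{>V} = betaV V` and
`Λ_{>U} * 1 * μ_{≤V} = (Λ - Λ_{≤U}) * 1 * μ_{≤V} = log * μ_{≤V} - (Λ_{≤U} * μ_{≤V}) * 1`
(`ArithmeticFunction.vonMangoldt_mul_zeta`, `ArithmeticFunction.moebius_mul_coe_zeta`). So for every `n`
`Λ_{>U} n = ∑_{dk = n, d ≤ V} μ(d) log k - ∑_{lk = n} cUV U V l + ∑_{mk = n, m > U} Λ(m) betaV V k`.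
Multiply by `g n` and sum over `1 ≤ n ≤ N` (pairs `d k = n ≤ N` correspond to `d ≥ 1`, `1 ≤ k ≤ N/d`). In the
second sum `cUV U V l = 0` for `l > U V`. The terms `n ≤ U` of the left side vanish since `g n = 0` there.

* `betaV_abs_le`: at most `k.divisors.card` summands of absolute value `≤ 1`.
* `betaV_eq_zero`: a divisor of `k ≥ 1` is at most `k ≤ V`; for `k = 0` the set of divisors is empty.
* `cUV_abs_le`: `|cUV| ≤ ∑_{m ∣ l} Λ(m) = log l` (`ArithmeticFunction.vonMangoldt_sum`).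
-/

namespace H69LB

open Finset ArithmeticFunction
open scoped ArithmeticFunction.zeta ArithmeticFunction.Moebius ArithmeticFunction.vonMangoldt

/-- the small part of the Moebius function -/
private noncomputable def vauMS (V : ℕ) : ArithmeticFunction ℝ :=
  ⟨fun d => if d ≤ V then (ArithmeticFunction.moebius d : ℝ) else 0, by simp⟩

/-- the large part of the Moebius function -/
private noncomputable def vauML (V : ℕ) : ArithmeticFunction ℝ :=
  ⟨fun d => if V < d then (ArithmeticFunction.moebius d : ℝ) else 0, by simp⟩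

/-- the small part of the von Mangoldt function -/
private noncomputable def vauLS (U : ℕ) : ArithmeticFunction ℝ :=
  ⟨fun d => if d ≤ U then ArithmeticFunction.vonMangoldt d else 0, by simp⟩

/-- the large part of the von Mangoldt function -/
private noncomputable def vauLL (U : ℕ) : ArithmeticFunction ℝ :=
  ⟨fun d => if U < d then ArithmeticFunction.vonMangoldt d else 0, by simp⟩

private theorem vauMS_apply (V d : ℕ) :
    vauMS V d = if d ≤ V then (ArithmeticFunction.moebius d : ℝ) else 0 := rfl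

private theorem vauML_apply (V d : ℕ) :
    vauML V d = if V < d then (ArithmeticFunction.moebius d : ℝ) else 0 := rfl

private theorem vauLS_apply (U d : ℕ) :
    vauLS U d = if d ≤ U then ArithmeticFunction.vonMangoldt d else 0 := rfl

private theorem vauLL_apply (U d : ℕ) :
    vauLL U d = if U < d then ArithmeticFunction.vonMangoldt d else 0 := rfl

private theorem vau_split_mu (V : ℕ) : vauMS V + vauML V = (μ : ArithmeticFunction ℝ) := by
  ext d
  rw [ArithmeticFunction.add_apply, vauMS_apply, vauML_apply, ArithmeticFunction.intCoe_apply]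
  by_cases h : d ≤ V
  · rw [if_pos h, if_neg (not_lt.2 h), add_zero]
  · rw [if_neg h, if_pos (not_le.1 h), zero_add]

private theorem vau_split_la (U : ℕ) : vauLS U + vauLL U = ArithmeticFunction.vonMangoldt := by
  ext d
  rw [ArithmeticFunction.add_apply, vauLS_apply, vauLL_apply]
  by_cases h : d ≤ U
  · rw [if_pos h, if_neg (not_lt.2 h), add_zero]
  · rw [if_neg h, if_pos (not_le.1 h), zero_add]

private theorem vau_beta (V k : ℕ) : ((ζ : ArithmeticFunction ℝ) * vauML V) k = betaV V k := by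
  rw [ArithmeticFunction.coe_zeta_mul_apply, betaV, sum_filter]
  rfl

private theorem vau_cUV (U V l : ℕ) : (vauLS U * vauMS V) l = cUV U V l := by
  rw [ArithmeticFunction.mul_apply, cUV, sum_filter]
  refine sum_congr rfl fun p _ => ?_
  rw [vauLS_apply, vauMS_apply]
  by_cases h1 : p.1 ≤ U
  · by_cases h2 : p.2 ≤ V
    · rw [if_pos h1, if_pos h2, if_pos ⟨h1, h2⟩]
    · rw [if_neg h2, mul_zero, if_neg (fun h => h2 h.2)]
  · rw [if_neg h1, zero_mul, if_neg (fun h => h1 h.1)]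

/-- The identity in the ring of arithmetic functions. -/
private theorem vau_identity (U V : ℕ) :
    vauLL U = vauMS V * ArithmeticFunction.log - (vauLS U * vauMS V) * (ζ : ArithmeticFunction ℝ)
      + vauLL U * ((ζ : ArithmeticFunction ℝ) * vauML V) := by
  have h1 : vauLL U = ArithmeticFunction.vonMangoldt - vauLS U := by
    rw [← vau_split_la U]; ring
  have h2 : (ζ : ArithmeticFunction ℝ) * (vauMS V + vauML V) = 1 := by
    rw [vau_split_mu]; exact ArithmeticFunction.coe_zeta_mul_coe_moebius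
  have h3 : ArithmeticFunction.vonMangoldt * (ζ : ArithmeticFunction ℝ) = ArithmeticFunction.log :=
    ArithmeticFunction.vonMangoldt_mul_zeta
  calc vauLL U = vauLL U * ((ζ : ArithmeticFunction ℝ) * (vauMS V + vauML V)) := by
        rw [h2, mul_one]
    _ = vauLL U * (ζ : ArithmeticFunction ℝ) * vauMS V
        + vauLL U * ((ζ : ArithmeticFunction ℝ) * vauML V) := by ring
    _ = (ArithmeticFunction.vonMangoldt - vauLS U) * (ζ : ArithmeticFunction ℝ) * vauMS V
        + vauLL U * ((ζ : ArithmeticFunction ℝ) * vauML V) := by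
        congr 3
    _ = _ := by rw [← h3]; ring

private theorem vau_swap (N : ℕ) (F : ℕ → ℕ → ℂ) :
    ∑ n ∈ Icc 1 N, ∑ p ∈ n.divisorsAntidiagonal, F p.1 p.2
      = ∑ d ∈ Icc 1 N, ∑ k ∈ Icc 1 (N / d), F d k := by
  rw [sum_sigma', sum_sigma']
  refine sum_bij' (fun x _ => ⟨x.2.1, x.2.2⟩) (fun y _ => ⟨y.1 * y.2, (y.1, y.2)⟩) ?_ ?_ ?_ ?_ ?_
  · rintro ⟨n, p⟩ h
    rw [mem_sigma, mem_Icc, Nat.mem_divisorsAntidiagonal] at h
    obtain ⟨⟨h1, h2⟩, h3, h4⟩ := h
    dsimp only at h1 h2 h3 h4 ⊢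
    have hp1 : 0 < p.1 := Nat.pos_of_ne_zero (by rintro h; rw [h, zero_mul] at h3; omega)
    have hp2 : 0 < p.2 := Nat.pos_of_ne_zero (by rintro h; rw [h, mul_zero] at h3; omega)
    rw [mem_sigma, mem_Icc, mem_Icc]
    refine ⟨⟨hp1, ?_⟩, hp2, ?_⟩
    · dsimp only
      calc p.1 ≤ p.1 * p.2 := Nat.le_mul_of_pos_right _ hp2
        _ ≤ N := by rw [h3]; exact h2
    · dsimp only
      rw [Nat.le_div_iff_mul_le hp1, mul_comm, h3]
      exact h2
  · rintro ⟨d, k⟩ h
    rw [mem_sigma, mem_Icc, mem_Icc] at h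
    obtain ⟨⟨h1, h2⟩, h3, h4⟩ := h
    dsimp only at h1 h2 h3 h4 ⊢
    rw [Nat.le_div_iff_mul_le h1, mul_comm] at h4
    rw [mem_sigma, mem_Icc, Nat.mem_divisorsAntidiagonal]
    exact ⟨⟨Nat.mul_pos h1 h3, h4⟩, rfl, (Nat.mul_pos h1 h3).ne'⟩
  · rintro ⟨n, p⟩ h
    rw [mem_sigma, mem_Icc, Nat.mem_divisorsAntidiagonal] at h
    obtain ⟨⟨h1, h2⟩, h3, h4⟩ := h
    dsimp only at h3 ⊢
    subst h3
    rfl
  · rintro ⟨d, k⟩ _
    rfl
  · rintro ⟨n, p⟩ _
    rfl

private theorem vau_conv (N : ℕ) (f h : ArithmeticFunction ℝ) (g : ℕ → ℂ) :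
    ∑ n ∈ Icc 1 N, (((f * h) n : ℝ) : ℂ) * g n
      = ∑ d ∈ Icc 1 N, ((f d : ℝ) : ℂ) * ∑ k ∈ Icc 1 (N / d), ((h k : ℝ) : ℂ) * g (d * k) := by
  have h1 := vau_swap N (fun d k => ((f d : ℝ) : ℂ) * (((h k : ℝ) : ℂ) * g (d * k)))
  simp only [mul_sum]
  rw [← h1]
  refine sum_congr rfl fun n _ => ?_
  rw [ArithmeticFunction.mul_apply, Complex.ofReal_sum, sum_mul]
  refine sum_congr rfl fun p hp => ?_
  rw [(Nat.mem_divisorsAntidiagonal.1 hp).1, Complex.ofReal_mul, mul_assoc]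

/-- changing the range of the outer sum -/
private theorem vau_range (N M : ℕ) (c : ℕ → ℂ) (S : ℕ → ℂ) (hS : ∀ d, N < d → S d = 0)
    (hc : ∀ d, M < d → c d = 0) :
    ∑ d ∈ Icc 1 N, c d * S d = ∑ d ∈ Icc 1 M, c d * S d := by
  have h1 : ∑ d ∈ Icc 1 N, c d * S d = ∑ d ∈ Icc 1 (max N M), c d * S d := by
    refine sum_subset (Icc_subset_Icc_right (le_max_left _ _)) fun d hd hd' => ?_
    rw [mem_Icc] at hd hd'
    rw [hS d (by omega), mul_zero]
  have h2 : ∑ d ∈ Icc 1 M, c d * S d = ∑ d ∈ Icc 1 (max N M), c d * S d := by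
    refine sum_subset (Icc_subset_Icc_right (le_max_right _ _)) fun d hd hd' => ?_
    rw [mem_Icc] at hd hd'
    rw [hc d (by omega), zero_mul]
  rw [h1, h2]

private theorem vau_inner (N d : ℕ) (hd : N < d) (S : ℕ → ℂ) : ∑ k ∈ Icc 1 (N / d), S k = 0 := by
  rw [Nat.div_eq_of_lt hd]
  simp

theorem vaughan (U V N : ℕ) (g : ℕ → ℂ) (hg : ∀ n ≤ U, g n = 0) :
    ∑ n ∈ Icc 1 N, (ArithmeticFunction.vonMangoldt n : ℂ) * g n
      = ∑ d ∈ Icc 1 V, (ArithmeticFunction.moebius d : ℂ) * ∑ k ∈ Icc 1 (N / d), (Real.log k : ℂ) * g (d * k)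
        - ∑ l ∈ Icc 1 (U * V), (cUV U V l : ℂ) * ∑ k ∈ Icc 1 (N / l), g (l * k)
        + ∑ m ∈ Ioc U N, (ArithmeticFunction.vonMangoldt m : ℂ) * ∑ k ∈ Icc 1 (N / m), (betaV V k : ℂ) * g (m * k) := by
  have h0 : ∑ n ∈ Icc 1 N, (ArithmeticFunction.vonMangoldt n : ℂ) * g n
      = ∑ n ∈ Icc 1 N, ((vauLL U n : ℝ) : ℂ) * g n := by
    refine sum_congr rfl fun n _ => ?_
    by_cases h : n ≤ U
    · rw [hg n h, mul_zero, mul_zero]
    · rw [vauLL_apply, if_pos (not_le.1 h)]
  have h1 : ∑ n ∈ Icc 1 N, ((vauLL U n : ℝ) : ℂ) * g n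
      = ∑ n ∈ Icc 1 N, (((vauMS V * ArithmeticFunction.log) n : ℝ) : ℂ) * g n
        - ∑ n ∈ Icc 1 N, ((((vauLS U * vauMS V) * (ζ : ArithmeticFunction ℝ)) n : ℝ) : ℂ) * g n
        + ∑ n ∈ Icc 1 N, (((vauLL U * ((ζ : ArithmeticFunction ℝ) * vauML V)) n : ℝ) : ℂ) * g n := by
    rw [← sum_sub_distrib, ← sum_add_distrib]
    refine sum_congr rfl fun n _ => ?_
    have h := congrArg (fun F : ArithmeticFunction ℝ => F n) (vau_identity U V)
    rw [sub_eq_add_neg, ArithmeticFunction.add_apply, ArithmeticFunction.add_apply,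
      ArithmeticFunction.neg_apply] at h
    rw [h]
    push_cast
    ring
  rw [h0, h1]
  congr 1
  · congr 1
    · rw [vau_conv, vau_range N V (fun d => ((vauMS V d : ℝ) : ℂ))
        (fun d => ∑ k ∈ Icc 1 (N / d), ((ArithmeticFunction.log k : ℝ) : ℂ) * g (d * k))
        (fun d hd => vau_inner N d hd _)
        (fun d hd => by rw [vauMS_apply, if_neg (not_le.2 hd), Complex.ofReal_zero])]
      refine sum_congr rfl fun d hd => ?_
      rw [vauMS_apply, if_pos (mem_Icc.1 hd).2, Complex.ofReal_intCast]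
      rfl
    · rw [vau_conv, vau_range N (U * V) (fun l => (((vauLS U * vauMS V) l : ℝ) : ℂ))
        (fun l => ∑ k ∈ Icc 1 (N / l), (((ζ : ArithmeticFunction ℝ) k : ℝ) : ℂ) * g (l * k))
        (fun d hd => vau_inner N d hd _) (fun l hl => ?_)]
      · refine sum_congr rfl fun l _ => ?_
        rw [vau_cUV]
        congr 1
        refine sum_congr rfl fun k hk => ?_
        rw [ArithmeticFunction.natCoe_apply, ArithmeticFunction.zeta_apply_ne
          (Nat.one_le_iff_ne_zero.1 (mem_Icc.1 hk).1)]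
        simp
      · rw [vau_cUV, cUV, Complex.ofReal_eq_zero]
        refine sum_eq_zero fun p hp => ?_
        exfalso
        rw [mem_filter, Nat.mem_divisorsAntidiagonal] at hp
        have := Nat.mul_le_mul hp.2.1 hp.2.2
        rw [hp.1.1] at this
        omega
  · have h2 : Ioc U N ⊆ Icc 1 N := fun m hm => by
      rw [mem_Ioc] at hm
      rw [mem_Icc]
      omega
    rw [vau_conv, ← sum_subset h2 (fun m hm hm' => ?_)]
    · refine sum_congr rfl fun m hm => ?_
      rw [vauLL_apply, if_pos (mem_Ioc.1 hm).1]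
      congr 1
      refine sum_congr rfl fun k _ => ?_
      rw [vau_beta]
    · rw [mem_Icc] at hm
      rw [mem_Ioc] at hm'
      rw [vauLL_apply, if_neg (by omega), Complex.ofReal_zero, zero_mul]

theorem betaV_abs_le (V k : ℕ) : |betaV V k| ≤ (k.divisors.card : ℝ) := by
  rw [betaV]
  calc |∑ d ∈ k.divisors.filter (V < ·), (ArithmeticFunction.moebius d : ℝ)|
      ≤ ∑ d ∈ k.divisors.filter (V < ·), |(ArithmeticFunction.moebius d : ℝ)| :=
        abs_sum_le_sum_abs _ _
    _ ≤ ∑ _d ∈ k.divisors.filter (V < ·), (1 : ℝ) := by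
        refine sum_le_sum fun d _ => ?_
        rw [← Int.cast_abs]
        exact_mod_cast ArithmeticFunction.abs_moebius_le_one
    _ ≤ ∑ _d ∈ k.divisors, (1 : ℝ) :=
        sum_le_sum_of_subset_of_nonneg (filter_subset _ _) (fun _ _ _ => zero_le_one)
    _ = (k.divisors.card : ℝ) := by rw [sum_const, nsmul_eq_mul, mul_one]

theorem betaV_eq_zero {V k : ℕ} (h : k ≤ V) : betaV V k = 0 := by
  rw [betaV]
  refine sum_eq_zero fun d hd => ?_
  exfalso
  rw [mem_filter] at hd
  have := Nat.divisor_le hd.1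
  omega

theorem cUV_abs_le (U V : ℕ) {l : ℕ} (hl : 1 ≤ l) : |cUV U V l| ≤ Real.log l := by
  rw [cUV, ← ArithmeticFunction.vonMangoldt_sum,
    ← Nat.sum_divisorsAntidiagonal (fun i _ => ArithmeticFunction.vonMangoldt i)]
  calc |∑ p ∈ l.divisorsAntidiagonal.filter (fun p => p.1 ≤ U ∧ p.2 ≤ V),
        ArithmeticFunction.vonMangoldt p.1 * (ArithmeticFunction.moebius p.2 : ℝ)|
      ≤ ∑ p ∈ l.divisorsAntidiagonal.filter (fun p => p.1 ≤ U ∧ p.2 ≤ V),
        |ArithmeticFunction.vonMangoldt p.1 * (ArithmeticFunction.moebius p.2 : ℝ)| :=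
        abs_sum_le_sum_abs _ _
    _ ≤ ∑ p ∈ l.divisorsAntidiagonal.filter (fun p => p.1 ≤ U ∧ p.2 ≤ V),
        ArithmeticFunction.vonMangoldt p.1 := by
        refine sum_le_sum fun p _ => ?_
        rw [abs_mul, abs_of_nonneg ArithmeticFunction.vonMangoldt_nonneg]
        refine mul_le_of_le_one_right ArithmeticFunction.vonMangoldt_nonneg ?_
        rw [← Int.cast_abs]
        exact_mod_cast ArithmeticFunction.abs_moebius_le_one
    _ ≤ ∑ p ∈ l.divisorsAntidiagonal, ArithmeticFunction.vonMangoldt p.1 :=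
        sum_le_sum_of_subset_of_nonneg (filter_subset _ _)
          (fun _ _ _ => ArithmeticFunction.vonMangoldt_nonneg)

end H69LB
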