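import Pool.Agent.H69.LB.Defs

/-!
# DIV: elementary sums and the totient

* `sum_inv_le`: `∑_{k ≤ N} 1/k ≤ 1 + log N` (`harmonic_le_one_add_log`).
* `sum_card_div_le`: `d(k)/k = ∑_{ab = k} (1/a)(1/b)`, so the sum over `k ≤ N` is at most `(∑_{a ≤ N} 1/a)²`.
* `sum_card_le`: `∑_{k ≤ N} d(k) = ∑_{a ≤ N} ⌊N/a⌋ ≤ N (1 + log N)`.
* `sum_card_sq_le`: by `d(ab) ≤ d(a) d(b)`,
  `∑_{k ≤ N} d(k)² = ∑_{ab ≤ N} d(ab) ≤ ∑_{a ≤ N} d(a) ∑_{b ≤ N/a} d(b) ≤ N (1 + log N) ∑_a d(a)/a`.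
* `le_totient`: `n / φ(n) = ∏_{p ∣ n} p/(p-1) ≤ ∏_{i=1}^{ω} (i+1)/i = ω(n) + 1` (the `i`-th prime factor is
  at least `i + 1`), `2^ω(n) ≤ n`, so `n ≤ (1 + log n / log 2) φ(n) ≤ 2 (1 + log n) φ(n)`. (By induction:
  for a finite set `s` of integers `≥ 2`, `∏_{p ∈ s} p/(p-1) ≤ card s + 1`: remove the largest element.)
-/

namespace H69LB

open Finset

theorem sum_inv_le (N : ℕ) : ∑ k ∈ Icc 1 N, ((k : ℝ))⁻¹ ≤ 1 + Real.log N := by
  have h := harmonic_le_one_add_log N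
  rw [harmonic_eq_sum_Icc] at h
  push_cast at h
  exact h

private theorem div_log_nonneg (N : ℕ) : (0 : ℝ) ≤ Real.log N := Real.log_natCast_nonneg N

/-- rearrangement of sums over the divisors -/
private theorem div_sum_antidiagonal (N : ℕ) (f : ℕ × ℕ → ℝ) :
    ∑ k ∈ Icc 1 N, ∑ x ∈ k.divisorsAntidiagonal, f x =
      ∑ a ∈ Icc 1 N, ∑ b ∈ Icc 1 (N / a), f (a, b) := by
  rw [Finset.sum_sigma', Finset.sum_sigma']
  refine Finset.sum_bij' (fun x _ => ⟨x.2.1, x.2.2⟩) (fun y _ => ⟨y.1 * y.2, (y.1, y.2)⟩)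
    ?_ ?_ ?_ ?_ ?_
  · rintro ⟨k, a, b⟩ h
    simp only [Finset.mem_sigma, Finset.mem_Icc, Nat.mem_divisorsAntidiagonal] at h ⊢
    obtain ⟨⟨hk1, hk2⟩, rfl, hk3⟩ := h
    have ha : 0 < a := Nat.pos_of_ne_zero (by rintro rfl; simp at hk3)
    have hb : 0 < b := Nat.pos_of_ne_zero (by rintro rfl; simp at hk3)
    refine ⟨⟨ha, ?_⟩, hb, ?_⟩
    · exact (Nat.le_mul_of_pos_right a hb).trans hk2
    · rw [Nat.le_div_iff_mul_le ha, mul_comm]; exact hk2
  · rintro ⟨a, b⟩ h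
    simp only [Finset.mem_sigma, Finset.mem_Icc, Nat.mem_divisorsAntidiagonal] at h ⊢
    obtain ⟨⟨ha1, ha2⟩, hb1, hb2⟩ := h
    rw [Nat.le_div_iff_mul_le ha1, mul_comm] at hb2
    have : 0 < a * b := Nat.mul_pos ha1 hb1
    exact ⟨⟨this, hb2⟩, trivial, this.ne'⟩
  · rintro ⟨k, a, b⟩ h
    simp only [Finset.mem_sigma, Finset.mem_Icc, Nat.mem_divisorsAntidiagonal] at h ⊢
    obtain ⟨⟨hk1, hk2⟩, rfl, hk3⟩ := h
    rfl
  · rintro ⟨a, b⟩ h
    rfl
  · rintro ⟨k, a, b⟩ h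
    rfl

private theorem div_card_eq (k : ℕ) :
    (k.divisors.card : ℝ) = ∑ _x ∈ k.divisorsAntidiagonal, (1 : ℝ) := by
  rw [Finset.sum_const, nsmul_eq_mul, mul_one, ← Nat.map_div_right_divisors, Finset.card_map]

theorem sum_card_div_le (N : ℕ) (hN : 1 ≤ N) :
    ∑ k ∈ Icc 1 N, (k.divisors.card : ℝ) / k ≤ (1 + Real.log N) ^ 2 := by
  have h1 : ∀ k ∈ Icc 1 N, (k.divisors.card : ℝ) / k =
      ∑ x ∈ k.divisorsAntidiagonal, ((x.1 : ℝ)⁻¹ * (x.2 : ℝ)⁻¹) := by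
    intro k hk
    rw [div_card_eq, Finset.sum_div]
    refine Finset.sum_congr rfl fun x hx => ?_
    rw [← (Nat.mem_divisorsAntidiagonal.1 hx).1]
    push_cast
    rw [one_div, mul_inv]
  rw [Finset.sum_congr rfl h1, div_sum_antidiagonal N (fun x => ((x.1 : ℝ)⁻¹ * (x.2 : ℝ)⁻¹))]
  calc ∑ a ∈ Icc 1 N, ∑ b ∈ Icc 1 (N / a), ((a : ℝ)⁻¹ * (b : ℝ)⁻¹)
      ≤ ∑ a ∈ Icc 1 N, ∑ b ∈ Icc 1 N, ((a : ℝ)⁻¹ * (b : ℝ)⁻¹) := by
        refine Finset.sum_le_sum fun a _ => ?_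
        refine Finset.sum_le_sum_of_subset_of_nonneg
          (Finset.Icc_subset_Icc_right (Nat.div_le_self N a)) fun b _ _ => by positivity
    _ = (∑ a ∈ Icc 1 N, (a : ℝ)⁻¹) ^ 2 := by rw [sq, Finset.sum_mul_sum]
    _ ≤ (1 + Real.log N) ^ 2 :=
        pow_le_pow_left₀ (Finset.sum_nonneg fun _ _ => by positivity) (sum_inv_le N) 2

theorem sum_card_le (N : ℕ) (hN : 1 ≤ N) :
    ∑ k ∈ Icc 1 N, (k.divisors.card : ℝ) ≤ N * (1 + Real.log N) := by
  rw [Finset.sum_congr rfl fun k _ => div_card_eq k, div_sum_antidiagonal N (fun _ => (1 : ℝ))]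
  calc ∑ a ∈ Icc 1 N, ∑ _b ∈ Icc 1 (N / a), (1 : ℝ)
      ≤ ∑ a ∈ Icc 1 N, (N : ℝ) * (a : ℝ)⁻¹ := by
        refine Finset.sum_le_sum fun a _ => ?_
        rw [Finset.sum_const, nsmul_eq_mul, mul_one, Nat.card_Icc, Nat.add_sub_cancel,
          ← div_eq_mul_inv]
        exact Nat.cast_div_le
    _ = N * ∑ a ∈ Icc 1 N, (a : ℝ)⁻¹ := by rw [Finset.mul_sum]
    _ ≤ N * (1 + Real.log N) := mul_le_mul_of_nonneg_left (sum_inv_le N) (Nat.cast_nonneg N)

theorem sum_card_sq_le (N : ℕ) (hN : 1 ≤ N) :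
    ∑ k ∈ Icc 1 N, (k.divisors.card : ℝ) ^ 2 ≤ N * (1 + Real.log N) ^ 3 := by
  have h1 : ∀ k ∈ Icc 1 N, (k.divisors.card : ℝ) ^ 2 ≤
      ∑ x ∈ k.divisorsAntidiagonal, ((x.1.divisors.card : ℝ) * (x.2.divisors.card : ℝ)) := by
    intro k hk
    rw [sq]
    nth_rw 1 [div_card_eq]
    rw [Finset.sum_mul]
    refine Finset.sum_le_sum fun x hx => ?_
    rw [← (Nat.mem_divisorsAntidiagonal.1 hx).1, one_mul, Nat.divisors_mul]
    exact_mod_cast Finset.card_mul_le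
  have hl := div_log_nonneg N
  refine (Finset.sum_le_sum h1).trans ?_
  rw [div_sum_antidiagonal N (fun x => ((x.1.divisors.card : ℝ) * (x.2.divisors.card : ℝ)))]
  calc ∑ a ∈ Icc 1 N, ∑ b ∈ Icc 1 (N / a), ((a.divisors.card : ℝ) * (b.divisors.card : ℝ))
      ≤ ∑ a ∈ Icc 1 N, (N * (1 + Real.log N)) * ((a.divisors.card : ℝ) / a) := by
        refine Finset.sum_le_sum fun a ha => ?_
        obtain ⟨ha1, ha2⟩ := Finset.mem_Icc.1 ha
        have ha0 : (0 : ℝ) < a := by exact_mod_cast ha1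
        rw [← Finset.mul_sum]
        have hpos : 1 ≤ N / a := (Nat.one_le_div_iff ha1).2 ha2
        have h2 := sum_card_le (N / a) hpos
        have h3 : ((N / a : ℕ) : ℝ) ≤ (N : ℝ) / a := Nat.cast_div_le
        have h4 : Real.log ((N / a : ℕ) : ℝ) ≤ Real.log N := by
          apply Real.log_le_log
          · exact_mod_cast hpos
          · exact_mod_cast Nat.div_le_self N a
        have h5 : ((N / a : ℕ) : ℝ) * (1 + Real.log ((N / a : ℕ) : ℝ)) ≤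
            (N : ℝ) / a * (1 + Real.log N) := by
          apply mul_le_mul h3 (by linarith) _ (by positivity)
          have := div_log_nonneg (N / a)
          linarith
        calc (a.divisors.card : ℝ) * ∑ b ∈ Icc 1 (N / a), (b.divisors.card : ℝ)
            ≤ (a.divisors.card : ℝ) * ((N : ℝ) / a * (1 + Real.log N)) :=
              mul_le_mul_of_nonneg_left (h2.trans h5) (Nat.cast_nonneg _)
          _ = (N * (1 + Real.log N)) * ((a.divisors.card : ℝ) / a) := by ring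
    _ = (N * (1 + Real.log N)) * ∑ a ∈ Icc 1 N, (a.divisors.card : ℝ) / a := by
        rw [Finset.mul_sum]
    _ ≤ (N * (1 + Real.log N)) * (1 + Real.log N) ^ 2 :=
        mul_le_mul_of_nonneg_left (sum_card_div_le N hN) (by positivity)
    _ = N * (1 + Real.log N) ^ 3 := by ring

private theorem div_prod_ge (s : Finset ℕ) (hs : ∀ p ∈ s, 2 ≤ p) :
    1 / ((s.card : ℝ) + 1) ≤ ∏ p ∈ s, (1 - (p : ℝ)⁻¹) := by
  induction s using Finset.induction_on_max with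
  | empty => simp
  | insert a s ha ih =>
    have hmem : a ∉ s := fun h => lt_irrefl _ (ha a h)
    rw [Finset.prod_insert hmem, Finset.card_insert_of_notMem hmem]
    have ih' := ih fun p hp => hs p (Finset.mem_insert_of_mem hp)
    have hsub : s ⊆ Finset.Ico 2 a := fun p hp =>
      Finset.mem_Ico.2 ⟨hs p (Finset.mem_insert_of_mem hp), ha p hp⟩
    have hcard := Finset.card_le_card hsub
    rw [Nat.card_Ico] at hcard
    have ha2 := hs a (Finset.mem_insert_self a s)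
    have hle : s.card + 2 ≤ a := by omega
    have hle' : (s.card : ℝ) + 2 ≤ a := by exact_mod_cast hle
    have hc : (0 : ℝ) ≤ s.card := Nat.cast_nonneg _
    have hinv : (a : ℝ)⁻¹ ≤ ((s.card : ℝ) + 2)⁻¹ := inv_anti₀ (by linarith) hle'
    have hinv1 : ((s.card : ℝ) + 2)⁻¹ ≤ 1 := inv_le_one_of_one_le₀ (by linarith)
    have h1 : 1 - ((s.card : ℝ) + 2)⁻¹ ≤ 1 - (a : ℝ)⁻¹ := by linarith
    calc 1 / (((s.card + 1 : ℕ) : ℝ) + 1)
        = (1 - ((s.card : ℝ) + 2)⁻¹) * (1 / ((s.card : ℝ) + 1)) := by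
          push_cast
          field_simp
          ring
      _ ≤ (1 - (a : ℝ)⁻¹) * ∏ p ∈ s, (1 - (p : ℝ)⁻¹) := by
          apply mul_le_mul h1 ih' (by positivity)
          linarith

theorem le_totient {n : ℕ} (hn : 1 ≤ n) : (n : ℝ) ≤ 2 * (1 + Real.log n) * Nat.totient n := by
  have h1 : (Nat.totient n : ℝ) = n * ∏ p ∈ n.primeFactors, (1 - (p : ℝ)⁻¹) := by
    have h := Nat.totient_eq_mul_prod_factors n
    have h' : ((Nat.totient n : ℚ) : ℝ) = ((n * ∏ p ∈ n.primeFactors, (1 - (p : ℚ)⁻¹) : ℚ) : ℝ) := by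
      rw [h]
    push_cast at h'
    exact h'
  have h2 := div_prod_ge n.primeFactors fun p hp => (Nat.prime_of_mem_primeFactors hp).two_le
  set w : ℝ := (n.primeFactors.card : ℝ) with hw
  have hw0 : 0 ≤ w := Nat.cast_nonneg _
  have hn0 : (0 : ℝ) < n := by exact_mod_cast hn
  have h3 : (2 : ℝ) ^ n.primeFactors.card ≤ n := by
    have h4 : 2 ^ n.primeFactors.card ≤ ∏ p ∈ n.primeFactors, p :=
      Finset.pow_card_le_prod _ _ _ fun p hp => (Nat.prime_of_mem_primeFactors hp).two_le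
    have h5 := Nat.le_of_dvd hn (Nat.prod_primeFactors_dvd n)
    exact_mod_cast h4.trans h5
  have h6 : w * Real.log 2 ≤ Real.log n := by
    have := Real.log_le_log (by positivity) h3
    rwa [Real.log_pow] at this
  have h7 : (1 / 2 : ℝ) ≤ Real.log 2 := by
    have := Real.log_two_gt_d9
    linarith
  have h8 : w + 1 ≤ 2 * (1 + Real.log n) := by nlinarith
  have h9 : (n : ℝ) ≤ (w + 1) * Nat.totient n := by
    rw [h1]
    have h10 : 1 ≤ (w + 1) * ∏ p ∈ n.primeFactors, (1 - (p : ℝ)⁻¹) := by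
      rw [div_le_iff₀ (by linarith)] at h2
      linarith
    nlinarith
  exact h9.trans (mul_le_mul_of_nonneg_right h8 (Nat.cast_nonneg _))

end H69LB
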