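import Pool.Agent.H69.LB.Defs

/-!
# GSP: Gauss sums of primitive characters

`∑_a ‖gaussSum χ (e.mulShift a)‖²` (sum over `a : ZMod q`, `e = ZMod.stdAddChar`), computed twice:
* by `gaussSum_mulShift_of_isPrimitive` it is `∑_a ‖χ⁻¹ a‖² ‖τ‖² = φ(q) ‖τ‖²` (`‖χ⁻¹ a‖ = 1` for units, `0`
  otherwise);
* expanding the square and summing over `a` (orthogonality of additive characters, `AddChar.sum_mulShift`
  with `ZMod.isPrimitive_stdAddChar`), it is `q ∑_b ‖χ b‖² = q φ(q)`.
-/

namespace H69LB

theorem norm_gaussSum_sq {q : ℕ} [NeZero q] {χ : DirichletCharacter ℂ q} (hχ : χ.IsPrimitive) :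
    ‖gaussSum χ (ZMod.stdAddChar (N := q))‖ ^ 2 = q := by
  classical
  have hstar : (starRingEnd ℂ) (gaussSum χ (ZMod.stdAddChar (N := q)))
      = gaussSum χ⁻¹ (ZMod.stdAddChar (N := q))⁻¹ := star_gaussSum_eq χ _
  have key : gaussSum χ (ZMod.stdAddChar (N := q)) *
      gaussSum χ⁻¹ (ZMod.stdAddChar (N := q))⁻¹ = (q : ℂ) := by
    calc gaussSum χ (ZMod.stdAddChar (N := q)) * gaussSum χ⁻¹ (ZMod.stdAddChar (N := q))⁻¹
        = ∑ b : ZMod q, (χ⁻¹ b * gaussSum χ (ZMod.stdAddChar (N := q))) *
            (ZMod.stdAddChar (N := q)) (-b) := by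
          rw [gaussSum.eq_1 χ⁻¹, Finset.mul_sum]
          refine Finset.sum_congr rfl fun b _ => ?_
          rw [AddChar.inv_apply]
          ring
      _ = ∑ b : ZMod q, ∑ a : ZMod q, χ a *
            (ZMod.stdAddChar (N := q)) (b * (a - 1)) := by
          refine Finset.sum_congr rfl fun b _ => ?_
          rw [← gaussSum_mulShift_of_isPrimitive (ZMod.stdAddChar (N := q)) hχ b,
            gaussSum, Finset.sum_mul]
          refine Finset.sum_congr rfl fun a _ => ?_
          rw [AddChar.mulShift_apply, mul_assoc, ← AddChar.map_add_eq_mul]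
          congr 2
          ring
      _ = ∑ a : ZMod q, χ a * ∑ b : ZMod q, (ZMod.stdAddChar (N := q)) (b * (a - 1)) := by
          rw [Finset.sum_comm]
          refine Finset.sum_congr rfl fun a _ => ?_
          rw [Finset.mul_sum]
      _ = ∑ a : ZMod q, (if a = 1 then (q : ℂ) else 0) := by
          refine Finset.sum_congr rfl fun a _ => ?_
          rw [AddChar.sum_mulShift _ (ZMod.isPrimitive_stdAddChar q)]
          by_cases ha : a = 1
          · simp [ha]
          · simp [ha, sub_eq_zero]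
      _ = (q : ℂ) := by simp
  rw [← hstar, Complex.mul_conj, Complex.normSq_eq_norm_sq] at key
  exact_mod_cast key

end H69LB
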