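import Pool.Agent.H69.LB.Lsa
import Pool.Agent.H69.LB.Gsp

/-!
# LSM: the multiplicative large sieve

Fix `q ≥ 1`, `e = ZMod.stdAddChar`, `S(t) = ∑ c n e(nt)`. For `χ` primitive, `χ n * τ(χ⁻¹) = ∑_a χ⁻¹ a * e (a n)`
for all `n` (`gaussSum_mulShift_of_isPrimitive` for the primitive character `χ⁻¹`,
`DirichletCharacter.conductor_inv`), so
`q ‖∑ c n χ n‖² = ‖∑_{a : ZMod q} χ⁻¹ a S(a/q)‖²` (`norm_gaussSum_sq`; `e (a n) = ee (n a / q)`).
Sum over ALL characters: `∑_χ ‖∑_a χ⁻¹ a z_a‖² = φ(q) ∑_{a unit} ‖z_a‖²`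
(`DirichletCharacter.sum_char_inv_mul_char_eq`). So
`∑_{χ ∈ pc q} ‖∑ c n χ n‖² ≤ (φ(q)/q) ∑_{a unit} ‖S(a/q)‖² ≤ ∑_{1≤a≤q, (a,q)=1} ‖S(a/q)‖²`. Now `LSA`.
-/

namespace H69LB

open Finset

private theorem lsm_parseval {q : ℕ} [NeZero q] (z : ZMod q → ℂ) :
    ∑ χ : DirichletCharacter ℂ q, ‖∑ a, χ⁻¹ a * z a‖ ^ 2
      = (q.totient : ℝ) * ∑ a, (if IsUnit a then ‖z a‖ ^ 2 else 0) := by
  classical
  have hC : (∑ χ : DirichletCharacter ℂ q, (∑ a, χ⁻¹ a * z a) * star (∑ a, χ⁻¹ a * z a))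
      = (q.totient : ℂ) * ∑ a, (if IsUnit a then z a * star (z a) else 0) := by
    have h1 : ∀ χ : DirichletCharacter ℂ q,
        (∑ a, χ⁻¹ a * z a) * star (∑ a, χ⁻¹ a * z a)
          = ∑ a, ∑ b, (χ⁻¹ a * χ b) * (z a * star (z b)) := by
      intro χ
      rw [star_sum, Finset.sum_mul_sum]
      refine Finset.sum_congr rfl fun a _ => Finset.sum_congr rfl fun b _ => ?_
      rw [StarMul.star_mul, MulChar.star_apply', inv_inv]
      ring
    simp_rw [h1]
    rw [Finset.sum_comm]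
    rw [Finset.mul_sum]
    refine Finset.sum_congr rfl fun a _ => ?_
    rw [Finset.sum_comm]
    by_cases ha : IsUnit a
    · rw [if_pos ha]
      have h2 : ∀ b : ZMod q, ∑ χ : DirichletCharacter ℂ q, (χ⁻¹ a * χ b) * (z a * star (z b))
          = (if a = b then (q.totient : ℂ) else 0) * (z a * star (z b)) := by
        intro b
        rw [← Finset.sum_mul, ← DirichletCharacter.sum_char_inv_mul_char_eq ℂ ha b]
        congr 1
        refine Finset.sum_congr rfl fun χ _ => ?_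
        congr 1
        rw [MulChar.inv_apply_eq_inv']
        obtain ⟨u, rfl⟩ := ha
        have : ((u : ZMod q))⁻¹ = ((u⁻¹ : (ZMod q)ˣ) : ZMod q) := by
          rw [ZMod.inv_coe_unit]
        rw [this]
        have hu : χ ((u⁻¹ : (ZMod q)ˣ) : ZMod q) * χ (u : ZMod q) = 1 := by
          rw [← map_mul, ← Units.val_mul, inv_mul_cancel, Units.val_one, map_one]
        exact (eq_inv_of_mul_eq_one_left hu).symm
      simp_rw [h2]
      simp
    · rw [if_neg ha]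
      simp [MulChar.map_nonunit _ ha]
  have hre : ∀ w : ℂ, w * star w = ((‖w‖ ^ 2 : ℝ) : ℂ) := by
    intro w
    rw [Complex.star_def, Complex.mul_conj, Complex.normSq_eq_norm_sq]
  simp_rw [hre] at hC
  have : ((∑ χ : DirichletCharacter ℂ q, ‖∑ a, χ⁻¹ a * z a‖ ^ 2 : ℝ) : ℂ)
      = (((q.totient : ℝ) * ∑ a, (if IsUnit a then ‖z a‖ ^ 2 else 0) : ℝ) : ℂ) := by
    push_cast
    push_cast at hC
    rw [hC]
    congr 1
    refine Finset.sum_congr rfl fun a _ => ?_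
    split_ifs <;> simp
  exact_mod_cast this

private theorem lsm_std {q : ℕ} [NeZero q] (a n : ℕ) :
    ZMod.stdAddChar (N := q) ((n : ZMod q) * (a : ZMod q)) = ee ((n : ℝ) * a / q) := by
  have h : ((n : ZMod q) * (a : ZMod q)) = (((n * a : ℕ) : ℤ) : ZMod q) := by push_cast; ring
  rw [h, ZMod.stdAddChar_coe, ee]
  congr 1
  push_cast
  ring

private theorem lsm_one {q N : ℕ} [NeZero q] (c : ℕ → ℂ) {χ : DirichletCharacter ℂ q}
    (hχ : χ.IsPrimitive) :
    (q : ℝ) * ‖∑ n ∈ Icc 1 N, c n * χ n‖ ^ 2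
      = ‖∑ a : ZMod q, χ⁻¹ a * ∑ n ∈ Icc 1 N, c n * ZMod.stdAddChar ((n : ZMod q) * a)‖ ^ 2 := by
  have hχ' : (χ⁻¹).IsPrimitive := by
    unfold DirichletCharacter.IsPrimitive at *
    rw [DirichletCharacter.conductor_inv]; exact hχ
  rw [← norm_gaussSum_sq hχ', ← mul_pow, ← norm_mul]
  congr 2
  rw [Finset.mul_sum]
  simp_rw [Finset.mul_sum]
  rw [Finset.sum_comm]
  refine Finset.sum_congr rfl fun n _ => ?_
  have h := gaussSum_mulShift_of_isPrimitive (e := ZMod.stdAddChar (N := q)) hχ' (n : ZMod q)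
  rw [inv_inv] at h
  calc gaussSum χ⁻¹ (ZMod.stdAddChar (N := q)) * (c n * χ n)
      = c n * (χ n * gaussSum χ⁻¹ (ZMod.stdAddChar (N := q))) := by ring
    _ = c n * gaussSum χ⁻¹ ((ZMod.stdAddChar (N := q)).mulShift (n : ZMod q)) := by rw [h]
    _ = _ := by
      rw [gaussSum, Finset.mul_sum]
      refine Finset.sum_congr rfl fun a _ => ?_
      rw [AddChar.mulShift_apply]; ring

private theorem lsm_units {q : ℕ} [NeZero q] (f : ZMod q → ℝ) :
    ∑ a : ZMod q, (if IsUnit a then f a else 0)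
      = ∑ a ∈ (Icc 1 q).filter (fun a => Nat.Coprime a q), f (a : ZMod q) := by
  classical
  rw [← Finset.sum_filter]
  symm
  refine Finset.sum_bij (fun (a : ℕ) _ => (a : ZMod q)) ?_ ?_ ?_ ?_
  · intro a ha
    simp only [mem_filter, mem_Icc, mem_univ, true_and] at ha ⊢
    exact (ZMod.isUnit_iff_coprime a q).2 ha.2
  · intro a ha b hb hab
    simp only [mem_filter, mem_Icc] at ha hb
    rw [ZMod.natCast_eq_natCast_iff] at hab
    have hq : 0 < q := Nat.pos_of_ne_zero (NeZero.ne q)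
    -- a, b in [1, q], congruent mod q
    have h1 : (a - 1) % q = a - 1 := Nat.mod_eq_of_lt (by omega)
    have h2 : (b - 1) % q = b - 1 := Nat.mod_eq_of_lt (by omega)
    have h3 : (a - 1) ≡ (b - 1) [MOD q] := by
      apply Nat.ModEq.add_right_cancel' 1
      rw [Nat.sub_add_cancel ha.1.1, Nat.sub_add_cancel hb.1.1]
      exact hab
    have h4 : (a - 1) % q = (b - 1) % q := h3
    omega
  · intro b hb
    simp only [mem_filter, mem_univ, true_and] at hb
    have hq : 0 < q := Nat.pos_of_ne_zero (NeZero.ne q)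
    by_cases h0 : b = 0
    · refine ⟨q, ?_, by simp [h0]⟩
      simp only [mem_filter, mem_Icc]
      refine ⟨⟨hq, le_rfl⟩, ?_⟩
      subst h0
      have := (ZMod.isUnit_iff_coprime q q).1 (by simpa using hb)
      exact this
    · refine ⟨b.val, ?_, by simp⟩
      simp only [mem_filter, mem_Icc]
      refine ⟨⟨?_, (ZMod.val_lt b).le⟩, ?_⟩
      · rw [Nat.succ_le_iff, Nat.pos_iff_ne_zero]
        intro h
        exact h0 ((ZMod.val_eq_zero b).1 h)
      · exact (ZMod.isUnit_iff_coprime b.val q).1 (by simpa using hb)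
  · intro a _; rfl

theorem LSM (Q N : ℕ) (c : ℕ → ℂ) :
    ∑ q ∈ Icc 1 Q, ∑ χ ∈ pc q, ‖∑ n ∈ Icc 1 N, c n * χ n‖ ^ 2
      ≤ ((Q : ℝ) ^ 2 + 13 * N) * ∑ n ∈ Icc 1 N, ‖c n‖ ^ 2 := by
  refine le_trans ?_ (LSA Q N c)
  refine Finset.sum_le_sum fun q hq => ?_
  rw [mem_Icc] at hq
  have : NeZero q := ⟨by omega⟩
  have hq0 : (0 : ℝ) < q := by exact_mod_cast (show 0 < q by omega)
  set z : ZMod q → ℂ := fun a => ∑ n ∈ Icc 1 N, c n * ZMod.stdAddChar ((n : ZMod q) * a) with hz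
  have h1 : (q : ℝ) * ∑ χ ∈ pc q, ‖∑ n ∈ Icc 1 N, c n * χ n‖ ^ 2
      ≤ (q : ℝ) * ∑ a, (if IsUnit a then ‖z a‖ ^ 2 else 0) := by
    calc (q : ℝ) * ∑ χ ∈ pc q, ‖∑ n ∈ Icc 1 N, c n * χ n‖ ^ 2
        = ∑ χ ∈ pc q, ‖∑ a : ZMod q, χ⁻¹ a * z a‖ ^ 2 := by
          rw [Finset.mul_sum]
          refine Finset.sum_congr rfl fun χ hχ => ?_
          classical
          simp only [pc, mem_filter, mem_univ, true_and] at hχ
          exact lsm_one c hχ.1
      _ ≤ ∑ χ : DirichletCharacter ℂ q, ‖∑ a : ZMod q, χ⁻¹ a * z a‖ ^ 2 := by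
          refine Finset.sum_le_sum_of_subset_of_nonneg (Finset.subset_univ _) ?_
          intro χ _ _; positivity
      _ = (q.totient : ℝ) * ∑ a, (if IsUnit a then ‖z a‖ ^ 2 else 0) := lsm_parseval z
      _ ≤ (q : ℝ) * ∑ a, (if IsUnit a then ‖z a‖ ^ 2 else 0) := by
          refine mul_le_mul_of_nonneg_right ?_ ?_
          · exact_mod_cast Nat.totient_le q
          · refine Finset.sum_nonneg fun a _ => ?_
            split_ifs <;> positivity
  have h2 := le_of_mul_le_mul_left h1 hq0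
  refine h2.trans (le_of_eq ?_)
  rw [lsm_units (fun a => ‖z a‖ ^ 2)]
  refine Finset.sum_congr rfl fun a _ => ?_
  simp only [hz]
  congr 2
  refine Finset.sum_congr rfl fun n _ => ?_
  rw [lsm_std]

end H69LB
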