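import Pool.Agent.H69.LB.Zdf

/-!
# DUL: duality

Let `y = α log T`, `S(ξ) = ∑_{i ∈ F T} w_i e^{iξγ_i}`. Since `4/(4+u²) = ∫ e^{-2|η|} e^{iηu} dη`
(`integral_exp_mul_complex_Ioi`, `integral_exp_mul_complex_Iic`), and `∫ e^{-2|η|} e^{iηu} e^{iyu} dη
= ∫ e^{-2|ξ-y|} e^{iξu} dξ`, and by the symmetry of the double sum,
`FFz * (T log T) = 2π ∑_{i,j} w_i w_j e^{iy(γ_i-γ_j)} 4/(4+(γ_i-γ_j)²) = 2π ∫ e^{-2|ξ-y|} ‖S(ξ)‖² dξ` (`T log T ≠ 0`).
With `s(ξ) = e^{-|ξ-y|} S(ξ)`: `0 ≤ ‖s - b‖² = ‖s‖² - 2 Re(s conj b) + ‖b‖²`, integrate: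
`∫ ‖s‖² ≥ 2 Re ∫ s conj b - ∫ ‖b‖²`, and `2π ∫ s(ξ) conj(b ξ) dξ = ∑ w_i PsiF (Fof b y) (γ_i)`.
-/

open MeasureTheory

namespace H69LB

private lemma dul_intg (u : ℝ) : Integrable
    (fun η : ℝ => ((Real.exp (-(2 * |η|)) : ℝ) : ℂ) * Complex.exp (Complex.I * ((η * u : ℝ) : ℂ))) := by
  have h1 : IntegrableOn (fun η : ℝ => ((Real.exp (-(2 * |η|)) : ℝ) : ℂ) *
      Complex.exp (Complex.I * ((η * u : ℝ) : ℂ))) (Set.Iic 0) := by
    refine (integrableOn_exp_mul_complex_Iic (a := 2 + Complex.I * u) (by simp) 0).congr_fun ?_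
      measurableSet_Iic
    intro η hη
    have hη' : η ≤ 0 := hη
    simp only [abs_of_nonpos hη']
    rw [Complex.ofReal_exp, ← Complex.exp_add]
    congr 1
    push_cast
    ring
  have h2 : IntegrableOn (fun η : ℝ => ((Real.exp (-(2 * |η|)) : ℝ) : ℂ) *
      Complex.exp (Complex.I * ((η * u : ℝ) : ℂ))) (Set.Ioi 0) := by
    refine (integrableOn_exp_mul_complex_Ioi (a := -2 + Complex.I * u) (by simp) 0).congr_fun ?_
      measurableSet_Ioi
    intro η hη
    have hη' : 0 < η := hη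
    simp only [abs_of_pos hη']
    rw [Complex.ofReal_exp, ← Complex.exp_add]
    congr 1
    push_cast
    ring
  have h3 := h1.union h2
  rwa [Set.Iic_union_Ioi, integrableOn_univ] at h3

private lemma dul_int (u : ℝ) : ∫ η : ℝ, ((Real.exp (-(2 * |η|)) : ℝ) : ℂ) *
    Complex.exp (Complex.I * ((η * u : ℝ) : ℂ)) = ((4 / (4 + u ^ 2) : ℝ) : ℂ) := by
  have hI := dul_intg u
  rw [← intervalIntegral.integral_Iic_add_Ioi (b := (0 : ℝ)) hI.integrableOn hI.integrableOn]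
  have e1 : ∫ η in Set.Iic (0 : ℝ), ((Real.exp (-(2 * |η|)) : ℝ) : ℂ) *
      Complex.exp (Complex.I * ((η * u : ℝ) : ℂ)) = 1 / (2 + Complex.I * u) := by
    rw [← show ∫ η : ℝ in Set.Iic 0, Complex.exp ((2 + Complex.I * u) * η) = 1 / (2 + Complex.I * u) by
      rw [integral_exp_mul_complex_Iic (by simp)]; simp]
    refine setIntegral_congr_fun measurableSet_Iic ?_
    intro η hη
    have hη' : η ≤ 0 := hη
    simp only [abs_of_nonpos hη']
    rw [Complex.ofReal_exp, ← Complex.exp_add]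
    congr 1
    push_cast
    ring
  have e2 : ∫ η in Set.Ioi (0 : ℝ), ((Real.exp (-(2 * |η|)) : ℝ) : ℂ) *
      Complex.exp (Complex.I * ((η * u : ℝ) : ℂ)) = -1 / (-2 + Complex.I * u) := by
    rw [← show ∫ η : ℝ in Set.Ioi 0, Complex.exp ((-2 + Complex.I * u) * η) = -1 / (-2 + Complex.I * u) by
      rw [integral_exp_mul_complex_Ioi (by simp)]; simp]
    refine setIntegral_congr_fun measurableSet_Ioi ?_
    intro η hη
    have hη' : 0 < η := hη
    simp only [abs_of_pos hη']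
    rw [Complex.ofReal_exp, ← Complex.exp_add]
    congr 1
    push_cast
    ring
  rw [e1, e2]
  have n1 : (2 + Complex.I * u : ℂ) ≠ 0 := by
    intro h
    have := congrArg Complex.re h
    simp at this
  have n2 : (-2 + Complex.I * u : ℂ) ≠ 0 := by
    intro h
    have := congrArg Complex.re h
    simp at this
  have n3 : (4 + (u : ℂ) ^ 2) ≠ 0 := by
    have : (4 + u ^ 2 : ℝ) ≠ 0 := by positivity
    exact_mod_cast this
  push_cast
  rw [div_add_div _ _ n1 n2, div_eq_div_iff (mul_ne_zero n1 n2) n3]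
  ring_nf
  simp only [Complex.I_sq]
  ring

/-- the real form, shifted -/
private lemma dul_cos (y u : ℝ) :
    Integrable (fun ξ : ℝ => Real.exp (-(2 * |ξ - y|)) * Real.cos (ξ * u)) ∧
    ∫ ξ : ℝ, Real.exp (-(2 * |ξ - y|)) * Real.cos (ξ * u) = Real.cos (y * u) * (4 / (4 + u ^ 2)) := by
  have hI := (dul_intg u).const_mul (Complex.exp (Complex.I * ((y * u : ℝ) : ℂ)))
  have hpt : ∀ η : ℝ, (Complex.exp (Complex.I * ((y * u : ℝ) : ℂ)) * (((Real.exp (-(2 * |η|)) : ℝ) : ℂ) *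
      Complex.exp (Complex.I * ((η * u : ℝ) : ℂ)))).re = Real.exp (-(2 * |η|)) * Real.cos ((η + y) * u) := by
    intro η
    rw [mul_left_comm, ← Complex.exp_add, Complex.re_ofReal_mul]
    congr 1
    rw [← mul_add, ← Complex.ofReal_add, mul_comm Complex.I, Complex.exp_ofReal_mul_I_re]
    congr 1
    ring
  have h1 : Integrable (fun η : ℝ => Real.exp (-(2 * |η|)) * Real.cos ((η + y) * u)) := by
    have := hI.re
    refine this.congr (Filter.Eventually.of_forall fun η => ?_)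
    exact hpt η
  have h2 : ∫ η : ℝ, Real.exp (-(2 * |η|)) * Real.cos ((η + y) * u) =
      Real.cos (y * u) * (4 / (4 + u ^ 2)) := by
    have e1 := integral_re hI
    have e2 : ∫ η : ℝ, Real.exp (-(2 * |η|)) * Real.cos ((η + y) * u) =
        ∫ η : ℝ, RCLike.re (Complex.exp (Complex.I * ((y * u : ℝ) : ℂ)) *
          (((Real.exp (-(2 * |η|)) : ℝ) : ℂ) * Complex.exp (Complex.I * ((η * u : ℝ) : ℂ)))) :=
      integral_congr_ae (Filter.Eventually.of_forall fun η => (hpt η).symm)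
    rw [e2, e1, integral_const_mul, dul_int]
    show (Complex.exp (Complex.I * ((y * u : ℝ) : ℂ)) * ((4 / (4 + u ^ 2) : ℝ) : ℂ)).re = _
    rw [Complex.re_mul_ofReal, mul_comm Complex.I, Complex.exp_ofReal_mul_I_re]
  constructor
  · have := h1.comp_sub_right y
    refine this.congr (Filter.Eventually.of_forall fun ξ => ?_)
    simp
  · rw [← h2, ← integral_sub_right_eq_self (fun η : ℝ => Real.exp (-(2 * |η|)) * Real.cos ((η + y) * u)) y]
    refine integral_congr_ae (Filter.Eventually.of_forall fun ξ => ?_)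
    simp

/-- the exponential sum -/
noncomputable def dulS {ι : Type} (γ w : ι → ℝ) (s : Finset ι) (ξ : ℝ) : ℂ :=
  ∑ i ∈ s, (w i : ℂ) * Complex.exp (Complex.I * ((ξ * γ i : ℝ) : ℂ))

private lemma dulS_sq {ι : Type} (γ w : ι → ℝ) (s : Finset ι) (ξ : ℝ) :
    ‖dulS γ w s ξ‖ ^ 2 = ∑ i ∈ s, ∑ j ∈ s, w i * w j * Real.cos (ξ * (γ i - γ j)) := by
  have h1 : ((‖dulS γ w s ξ‖ ^ 2 : ℝ) : ℂ) = dulS γ w s ξ * (starRingEnd ℂ) (dulS γ w s ξ) := by
    rw [Complex.mul_conj, Complex.normSq_eq_norm_sq]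
  have h2 : ‖dulS γ w s ξ‖ ^ 2 = (dulS γ w s ξ * (starRingEnd ℂ) (dulS γ w s ξ)).re := by
    rw [← h1, Complex.ofReal_re]
  rw [h2, dulS, map_sum, Finset.sum_mul_sum, Complex.re_sum]
  refine Finset.sum_congr rfl fun i _ => ?_
  rw [Complex.re_sum]
  refine Finset.sum_congr rfl fun j _ => ?_
  rw [map_mul, Complex.conj_ofReal, ← Complex.exp_conj, map_mul, Complex.conj_I, Complex.conj_ofReal,
    mul_mul_mul_comm, ← Complex.exp_add, ← Complex.ofReal_mul, Complex.re_ofReal_mul]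
  congr 1
  rw [show Complex.I * ((ξ * γ i : ℝ) : ℂ) + -Complex.I * ((ξ * γ j : ℝ) : ℂ) =
    ((ξ * (γ i - γ j) : ℝ) : ℂ) * Complex.I by push_cast; ring, Complex.exp_ofReal_mul_I_re]

theorem dual {ι : Type} {γ w : ι → ℝ} {F : ℝ → Finset ι} {T α : ℝ} (hT : 1 < T) {b : ℝ → ℂ}
    (hb : Continuous b) (hbc : HasCompactSupport b) :
    2 * (∑ i ∈ F T, (w i : ℂ) * PsiF (Fof b (α * Real.log T)) (γ i)).re - 2 * Real.pi * ∫ ξ, ‖b ξ‖ ^ 2
      ≤ FFz γ w F T α * (T * Real.log T) := by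
  set y := α * Real.log T with hy
  have hTL : T * Real.log T ≠ 0 := (mul_pos (by linarith) (Real.log_pos hT)).ne'
  set S := dulS γ w (F T) with hS
  have hScont : Continuous S := by
    rw [hS]
    unfold dulS
    fun_prop
  -- the square
  have hsq : ∀ ξ : ℝ, Real.exp (-(2 * |ξ - y|)) * ‖S ξ‖ ^ 2 =
      ∑ i ∈ F T, ∑ j ∈ F T, w i * w j * (Real.exp (-(2 * |ξ - y|)) * Real.cos (ξ * (γ i - γ j))) := by
    intro ξ
    rw [hS, dulS_sq, Finset.mul_sum]
    refine Finset.sum_congr rfl fun i _ => ?_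
    rw [Finset.mul_sum]
    refine Finset.sum_congr rfl fun j _ => ?_
    ring
  have hsqI : Integrable (fun ξ : ℝ => Real.exp (-(2 * |ξ - y|)) * ‖S ξ‖ ^ 2) := by
    simp_rw [hsq]
    exact integrable_finsetSum _ fun i _ => integrable_finsetSum _ fun j _ =>
      (dul_cos y (γ i - γ j)).1.const_mul _
  have hsqV : ∫ ξ : ℝ, Real.exp (-(2 * |ξ - y|)) * ‖S ξ‖ ^ 2 =
      ∑ i ∈ F T, ∑ j ∈ F T, w i * w j * (Real.cos (y * (γ i - γ j)) * (4 / (4 + (γ i - γ j) ^ 2))) := by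
    simp_rw [hsq]
    rw [integral_finsetSum _ fun i _ => integrable_finsetSum _ fun j _ =>
      (dul_cos y (γ i - γ j)).1.const_mul _]
    refine Finset.sum_congr rfl fun i _ => ?_
    rw [integral_finsetSum _ fun j _ => (dul_cos y (γ i - γ j)).1.const_mul _]
    refine Finset.sum_congr rfl fun j _ => ?_
    rw [integral_const_mul, (dul_cos y (γ i - γ j)).2]
  have hFF : FFz γ w F T α * (T * Real.log T) =
      2 * Real.pi * ∫ ξ : ℝ, Real.exp (-(2 * |ξ - y|)) * ‖S ξ‖ ^ 2 := by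
    rw [hsqV, FFz, ← hy, mul_comm, ← mul_assoc, ← mul_assoc, mul_inv_cancel₀ hTL, one_mul]
  -- the linear term
  have hcomp : ∀ g : ℝ, Integrable (fun ξ : ℝ => Fof b y ξ * Complex.exp (Complex.I * ((ξ * g : ℝ) : ℂ))) := by
    intro g
    apply Continuous.integrable_of_hasCompactSupport
    · unfold Fof
      have : Continuous (fun ξ => (starRingEnd ℂ) (b ξ)) := Complex.continuous_conj.comp hb
      fun_prop
    · apply HasCompactSupport.mul_right
      unfold Fof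
      apply HasCompactSupport.mul_left
      exact hbc.comp_left (g := starRingEnd ℂ) (map_zero _)
  have hlin : ∑ i ∈ F T, (w i : ℂ) * PsiF (Fof b y) (γ i) = ∫ ξ : ℝ, Fof b y ξ * S ξ := by
    simp_rw [hS, dulS, Finset.mul_sum]
    rw [integral_finsetSum]
    · refine Finset.sum_congr rfl fun i _ => ?_
      rw [PsiF, ← integral_const_mul]
      refine integral_congr_ae (Filter.Eventually.of_forall fun ξ => ?_)
      simp only
      ring
    · intro i _
      refine ((hcomp (γ i)).const_mul (w i : ℂ)).congr (Filter.Eventually.of_forall fun ξ => ?_)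
      simp only
      ring
  have hlinI : Integrable (fun ξ : ℝ => Fof b y ξ * S ξ) := by
    apply Continuous.integrable_of_hasCompactSupport
    · unfold Fof
      have : Continuous (fun ξ => (starRingEnd ℂ) (b ξ)) := Complex.continuous_conj.comp hb
      fun_prop
    · apply HasCompactSupport.mul_right
      unfold Fof
      apply HasCompactSupport.mul_left
      exact hbc.comp_left (g := starRingEnd ℂ) (map_zero _)
  have hbI : Integrable (fun ξ : ℝ => ‖b ξ‖ ^ 2) := by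
    apply Continuous.integrable_of_hasCompactSupport
    · fun_prop
    · exact hbc.comp_left (g := fun z : ℂ => ‖z‖ ^ 2) (by simp)
  -- the pointwise inequality
  have hpt : ∀ ξ : ℝ, 2 * (Fof b y ξ * S ξ).re - 2 * Real.pi * ‖b ξ‖ ^ 2 ≤
      2 * Real.pi * (Real.exp (-(2 * |ξ - y|)) * ‖S ξ‖ ^ 2) := by
    intro ξ
    have e1 : (Fof b y ξ * S ξ).re =
        2 * Real.pi * (((Real.exp (-|ξ - y|) : ℝ) : ℂ) * ((starRingEnd ℂ) (b ξ) * S ξ)).re := by
      have : Fof b y ξ * S ξ = ((2 * Real.pi : ℝ) : ℂ) *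
          (((Real.exp (-|ξ - y|) : ℝ) : ℂ) * ((starRingEnd ℂ) (b ξ) * S ξ)) := by
        unfold Fof
        push_cast
        ring
      rw [this, Complex.re_ofReal_mul]
    have e2 : (((Real.exp (-|ξ - y|) : ℝ) : ℂ) * ((starRingEnd ℂ) (b ξ) * S ξ)).re ≤
        Real.exp (-|ξ - y|) * (‖b ξ‖ * ‖S ξ‖) := by
      refine (Complex.re_le_norm _).trans ?_
      rw [norm_mul, norm_mul, Complex.norm_real, Real.norm_of_nonneg (Real.exp_pos _).le,
        RCLike.norm_conj]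
    have e3 : Real.exp (-(2 * |ξ - y|)) = Real.exp (-|ξ - y|) ^ 2 := by
      rw [← Real.exp_nat_mul]
      congr 1
      push_cast
      ring
    rw [e1, e3]
    have hpi := Real.pi_pos
    have h5 : 2 * (Real.exp (-|ξ - y|) * (‖b ξ‖ * ‖S ξ‖)) - ‖b ξ‖ ^ 2 ≤
        Real.exp (-|ξ - y|) ^ 2 * ‖S ξ‖ ^ 2 := by
      nlinarith [sq_nonneg (Real.exp (-|ξ - y|) * ‖S ξ‖ - ‖b ξ‖)]
    nlinarith [mul_le_mul_of_nonneg_left e2 hpi.le, mul_le_mul_of_nonneg_left h5 hpi.le]
  rw [hFF, hlin]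
  have hre : (∫ ξ : ℝ, Fof b y ξ * S ξ).re = ∫ ξ : ℝ, (Fof b y ξ * S ξ).re := (integral_re hlinI).symm
  rw [hre, ← integral_const_mul, ← integral_const_mul, ← integral_const_mul, ← integral_sub]
  · exact integral_mono ((hlinI.re.const_mul 2).sub (hbI.const_mul _)) (hsqI.const_mul _) hpt
  · exact hlinI.re.const_mul 2
  · exact hbI.const_mul _

end H69LB
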