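import Pool.Agent.H69.LB.Zdf

/-!
# PCS: a system of pieces

Fix `0 < τ ≤ 1/4`, `ν = τ`, `J` natural with `e^{-2Jν} ≤ τ`. Mesh points `s_j = (j - J) ν`, `j = 0..2J` (`s_J = 0`), pieces
`(η1, η2) = (s_j, s_{j+1})`, `j < 2J`, and `χ_j(η) = φ((η - s_j)/ν)` where `φ` is a smooth bump with `0 ≤ φ ≤ 1`, `φ = 0` outside
`(0,1)`, `φ = 1` on `[τ, 1-τ]` (`Real.smoothTransition (η/τ) * Real.smoothTransition ((1-η)/τ)`).
On the piece `j`, `e^{η-η2} ≥ e^{-ν}` and `e^{-2|η|} ≥ e^{-2ν} e^{-2|η'|}` for `η, η'` in the piece, so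
`e^{-η2} ∫ e^{-2|η|} e^η χ_j ≥ e^{-ν} e^{-2ν} (1-2τ) ∫_{piece} e^{-2|η|} dη`, and the sum over the pieces of the last integrals is
`∫_{-Jν}^{Jν} e^{-2|η|} = 1 - e^{-2Jν} ≥ 1 - τ`. Total `≥ e^{-3τ} (1-2τ)(1-τ) ≥ 1 - 6τ`.
-/

open MeasureTheory

namespace H69LB

/-- the bump of width one -/
private noncomputable def pcsPhi (τ u : ℝ) : ℝ :=
  Real.smoothTransition (u / τ) * Real.smoothTransition ((1 - u) / τ)

private theorem pcsPhi_smooth (τ : ℝ) : ContDiff ℝ (⊤ : ℕ∞) (pcsPhi τ) := by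
  unfold pcsPhi
  exact (Real.smoothTransition.contDiff.comp (by fun_prop)).mul
    (Real.smoothTransition.contDiff.comp (by fun_prop))

private theorem pcsPhi_nonneg (τ u : ℝ) : 0 ≤ pcsPhi τ u :=
  mul_nonneg (Real.smoothTransition.nonneg _) (Real.smoothTransition.nonneg _)

private theorem pcsPhi_le_one (τ u : ℝ) : pcsPhi τ u ≤ 1 :=
  mul_le_one₀ (Real.smoothTransition.le_one _) (Real.smoothTransition.nonneg _)
    (Real.smoothTransition.le_one _)

private theorem pcsPhi_zero {τ u : ℝ} (hτ : 0 < τ) (h : u ≤ 0 ∨ 1 ≤ u) : pcsPhi τ u = 0 := by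
  unfold pcsPhi
  rcases h with h | h
  · rw [Real.smoothTransition.zero_of_nonpos (div_nonpos_of_nonpos_of_nonneg h hτ.le), zero_mul]
  · rw [Real.smoothTransition.zero_of_nonpos
      (div_nonpos_of_nonpos_of_nonneg (by linarith : 1 - u ≤ 0) hτ.le), mul_zero]

private theorem pcsPhi_one {τ u : ℝ} (hτ : 0 < τ) (h1 : τ ≤ u) (h2 : u ≤ 1 - τ) :
    pcsPhi τ u = 1 := by
  unfold pcsPhi
  rw [Real.smoothTransition.one_of_one_le ((one_le_div hτ).2 h1),
    Real.smoothTransition.one_of_one_le ((one_le_div hτ).2 (by linarith)), mul_one]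

/-- one piece -/
private theorem pcs_piece {τ : ℝ} (hτ : 0 < τ) {s : ℝ}
    (hs : s + τ ≤ 0 ∨ 0 ≤ s) : Pc s (s + τ) (fun η => pcsPhi τ ((η - s) / τ)) where
  lt := by linarith
  side := hs
  smooth := (pcsPhi_smooth τ).comp (by fun_prop)
  zero := by
    intro η h
    refine pcsPhi_zero hτ ?_
    rcases h with h | h
    · left
      exact div_nonpos_of_nonpos_of_nonneg (by linarith) hτ.le
    · right
      rw [one_le_div hτ]
      linarith
  nonneg := fun η => pcsPhi_nonneg _ _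
  le_one := fun η => pcsPhi_le_one _ _

/-- the lower bound for one piece -/
private theorem pcs_lower {τ : ℝ} (hτ : 0 < τ) (hτ' : τ ≤ 1 / 4) {s c : ℝ}
    (hc : ∀ η, s ≤ η → η ≤ s + τ → |η| ≤ c) :
    τ * (1 - 2 * τ) * Real.exp (-τ) * Real.exp (-(2 * c)) ≤
      Real.exp (-(s + τ)) *
        ∫ η, Real.exp (-(2 * |η|)) * Real.exp η * pcsPhi τ ((η - s) / τ) := by
  have hcont : Continuous fun η : ℝ =>
      Real.exp (-(2 * |η|)) * Real.exp η * pcsPhi τ ((η - s) / τ) := by
    have h1 : Continuous (pcsPhi τ) := (pcsPhi_smooth τ).continuous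
    have h2 : Continuous fun η : ℝ => pcsPhi τ ((η - s) / τ) := h1.comp (by fun_prop)
    have h3 : Continuous fun η : ℝ => Real.exp (-(2 * |η|)) * Real.exp η := by fun_prop
    exact h3.mul h2
  have hsupp : HasCompactSupport fun η : ℝ =>
      Real.exp (-(2 * |η|)) * Real.exp η * pcsPhi τ ((η - s) / τ) := by
    refine HasCompactSupport.intro (K := Set.Icc s (s + τ)) isCompact_Icc fun η hη => ?_
    rw [Set.mem_Icc, not_and_or, not_le, not_le] at hη
    rw [pcsPhi_zero hτ, mul_zero]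
    rcases hη with h | h
    · left
      exact div_nonpos_of_nonpos_of_nonneg (by linarith) hτ.le
    · right
      rw [one_le_div hτ]
      linarith
  have hint := hcont.integrable_of_hasCompactSupport (μ := volume) hsupp
  have hτ2 : τ * τ ≤ τ / 4 := by nlinarith
  have hlen : volume.real (Set.Icc (s + τ * τ) (s + τ - τ * τ)) = τ * (1 - 2 * τ) := by
    rw [Real.volume_real_Icc_of_le (by nlinarith)]
    ring
  have key : τ * (1 - 2 * τ) * (Real.exp (-(2 * c)) * Real.exp s) ≤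
      ∫ η, Real.exp (-(2 * |η|)) * Real.exp η * pcsPhi τ ((η - s) / τ) := by
    have h1 : ∫ η, (Set.Icc (s + τ * τ) (s + τ - τ * τ)).indicator
        (fun _ => Real.exp (-(2 * c)) * Real.exp s) η =
        τ * (1 - 2 * τ) * (Real.exp (-(2 * c)) * Real.exp s) := by
      rw [integral_indicator_const _ measurableSet_Icc, hlen, smul_eq_mul]
    rw [← h1]
    refine integral_mono ?_ hint fun η => ?_
    · exact (integrable_indicator_iff measurableSet_Icc).2
        (integrableOn_const (by rw [Real.volume_Icc]; exact ENNReal.ofReal_ne_top))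
    · by_cases hη : η ∈ Set.Icc (s + τ * τ) (s + τ - τ * τ)
      · rw [Set.indicator_of_mem hη]
        obtain ⟨ha, hb⟩ := hη
        have h2 : pcsPhi τ ((η - s) / τ) = 1 := by
          apply pcsPhi_one hτ
          · rw [le_div_iff₀ hτ]; linarith
          · rw [div_le_iff₀ hτ]; nlinarith
        simp only [h2, mul_one]
        have h3 := hc η (by nlinarith) (by nlinarith)
        refine mul_le_mul (Real.exp_le_exp.2 (by linarith)) (Real.exp_le_exp.2 (by nlinarith))
          (Real.exp_pos _).le (Real.exp_pos _).le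
      · rw [Set.indicator_of_notMem hη]
        exact mul_nonneg (mul_nonneg (Real.exp_pos _).le (Real.exp_pos _).le) (pcsPhi_nonneg _ _)
  have h4 : τ * (1 - 2 * τ) * Real.exp (-τ) * Real.exp (-(2 * c)) =
      Real.exp (-(s + τ)) * (τ * (1 - 2 * τ) * (Real.exp (-(2 * c)) * Real.exp s)) := by
    have h5 : Real.exp (-τ) = Real.exp (-(s + τ)) * Real.exp s := by
      rw [← Real.exp_add]; congr 1; ring
    rw [h5]; ring
  rw [h4]
  exact mul_le_mul_of_nonneg_left key (Real.exp_pos _).le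

theorem exists_pieces {τ : ℝ} (hτ : 0 < τ) (hτ' : τ ≤ 1 / 4) :
    ∃ (n : ℕ) (s : ℕ → ℝ) (χ : ℕ → ℝ → ℝ), Monotone s ∧ (∀ j < n, Pc (s j) (s (j + 1)) (χ j)) ∧
      1 - 6 * τ ≤ ∑ j ∈ Finset.range n,
        Real.exp (-(s (j + 1))) * ∫ η, Real.exp (-(2 * |η|)) * Real.exp η * χ j η := by
  obtain ⟨J, hJ⟩ : ∃ J : ℕ, Real.exp (-(2 * τ)) ^ J ≤ τ := by
    have h1 : Real.exp (-(2 * τ)) < 1 := by
      rw [Real.exp_lt_one_iff]
      linarith
    obtain ⟨J, hJ⟩ := exists_pow_lt_of_lt_one hτ h1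
    exact ⟨J, hJ.le⟩
  set s : ℕ → ℝ := fun j => ((j : ℝ) - J) * τ with hs
  have hsucc : ∀ j, s (j + 1) = s j + τ := by
    intro j
    simp only [hs]
    push_cast
    ring
  refine ⟨J + J, s, fun j η => pcsPhi τ ((η - s j) / τ), ?_, ?_, ?_⟩
  · refine monotone_nat_of_le_succ fun j => ?_
    rw [hsucc]
    linarith
  · intro j _
    rw [hsucc]
    refine pcs_piece hτ ?_
    rcases Nat.lt_or_ge j J with h | h
    · left
      rw [← hsucc]
      simp only [hs]
      have : ((j + 1 : ℕ) : ℝ) ≤ J := by exact_mod_cast h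
      nlinarith
    · right
      simp only [hs]
      have : (J : ℝ) ≤ j := by exact_mod_cast h
      nlinarith
  · set x : ℝ := Real.exp (-(2 * τ)) with hx
    have hx0 : 0 < x := Real.exp_pos _
    set S : ℝ := ∑ i ∈ Finset.range J, x ^ i with hS
    have hS0 : 0 ≤ S := Finset.sum_nonneg fun i _ => pow_nonneg hx0.le i
    have hx1 : 1 - 2 * τ ≤ x := by
      have := Real.add_one_le_exp (-(2 * τ))
      rw [hx]
      linarith
    have hgeo : 1 - τ ≤ 2 * τ * S := by
      have h1 : (1 - x) * S = 1 - x ^ J := mul_neg_geom_sum x J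
      nlinarith
    have hterm : ∀ (j k : ℕ), (∀ η, s j ≤ η → η ≤ s j + τ → |η| ≤ k * τ) →
        τ * (1 - 2 * τ) * Real.exp (-τ) * x ^ k ≤
          Real.exp (-(s (j + 1))) *
            ∫ η, Real.exp (-(2 * |η|)) * Real.exp η * pcsPhi τ ((η - s j) / τ) := by
      intro j k hk
      have h1 := pcs_lower hτ hτ' hk
      rw [hsucc]
      have h2 : Real.exp (-(2 * ((k : ℝ) * τ))) = x ^ k := by
        rw [hx, ← Real.exp_nat_mul]
        congr 1
        ring
      rw [h2] at h1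
      exact h1
    have hleft : ∑ j ∈ Finset.range J, τ * (1 - 2 * τ) * Real.exp (-τ) * x ^ (J - 1 - j + 1) ≤
        ∑ j ∈ Finset.range J, Real.exp (-(s (j + 1))) *
            ∫ η, Real.exp (-(2 * |η|)) * Real.exp η * pcsPhi τ ((η - s j) / τ) := by
      refine Finset.sum_le_sum fun j hj => hterm j _ fun η h1 h2 => ?_
      rw [Finset.mem_range] at hj
      have h3 : J - 1 - j + 1 = J - j := by omega
      rw [h3, Nat.cast_sub hj.le]
      simp only [hs] at h1 h2
      have h4 : ((j + 1 : ℕ) : ℝ) ≤ J := by exact_mod_cast hj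
      push_cast at h4
      rw [abs_le]
      constructor
      · nlinarith
      · nlinarith
    have hright : ∑ j ∈ Finset.range J, τ * (1 - 2 * τ) * Real.exp (-τ) * x ^ (j + 1) ≤
        ∑ j ∈ Finset.range J, Real.exp (-(s (J + j + 1))) *
            ∫ η, Real.exp (-(2 * |η|)) * Real.exp η * pcsPhi τ ((η - s (J + j)) / τ) := by
      refine Finset.sum_le_sum fun j hj => hterm (J + j) _ fun η h1 h2 => ?_
      simp only [hs] at h1 h2
      push_cast at h1 h2 ⊢
      rw [abs_le]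
      constructor
      · nlinarith [mul_nonneg (Nat.cast_nonneg (α := ℝ) j) hτ.le]
      · nlinarith
    rw [Finset.sum_range_add]
    refine le_trans ?_ (add_le_add hleft hright)
    rw [← Finset.mul_sum, ← Finset.mul_sum,
      Finset.sum_range_reflect (fun i => x ^ (i + 1)) J]
    have hsum : ∑ i ∈ Finset.range J, x ^ (i + 1) = x * S := by
      rw [hS, Finset.mul_sum]
      exact Finset.sum_congr rfl fun i _ => by ring
    rw [hsum]
    have he : 1 - τ ≤ Real.exp (-τ) := by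
      have := Real.add_one_le_exp (-τ)
      linarith
    have h6 : (1 - 2 * τ) * (1 - τ) ≤ x * (2 * τ * S) :=
      mul_le_mul hx1 hgeo (by linarith) hx0.le
    have h7 : (1 - 2 * τ) * (1 - τ) ≤ (1 - 2 * τ) * Real.exp (-τ) :=
      mul_le_mul_of_nonneg_left he (by linarith)
    have h8 : ((1 - 2 * τ) * (1 - τ)) * ((1 - 2 * τ) * (1 - τ)) ≤
        ((1 - 2 * τ) * Real.exp (-τ)) * (x * (2 * τ * S)) :=
      mul_le_mul h7 h6 (mul_nonneg (by linarith) (by linarith))
        (mul_nonneg (by linarith) (Real.exp_pos _).le)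
    have h9 : τ * (1 - 2 * τ) * Real.exp (-τ) * (x * S) + τ * (1 - 2 * τ) * Real.exp (-τ) * (x * S)
        = ((1 - 2 * τ) * Real.exp (-τ)) * (x * (2 * τ * S)) := by ring
    rw [h9]
    refine le_trans ?_ h8
    nlinarith [mul_pos hτ hτ, mul_pos (mul_pos hτ hτ) hτ]

end H69LB
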