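import Pool.Agent.H69.LB.Pie
import Pool.Agent.H69.LB.Pcs
import Pool.Agent.H69.LB.Dul

/-!
# FIN: the theorem for an abstract system of zeros

* `FFz_nonneg`: `dual` with `b = 0` (`T log T > 0`). `FFz_neg`: `cos` is even.
* Let `0 < ε0 ≤ 1`. Choose `τ = ε0/100` and `P_j = ⟨κ, ε, δ, cH_j⟩`, `κ = δ = ε = ε0/100`, `cH_j = 2π e^{s_{j+1}}/(1-δ)` (`Ok`).
  `b = ∑_{j<n} bP (χ j) P_j T α`: at each `ξ` at most one summand is nonzero (the open intervals
  `(s_j, s_{j+1})` are disjoint), so `‖b‖² = ∑ ‖bP_j‖²`; `Fof`, `PsiF` are additive (`Fof b y` continuous with compact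
  support). `dual` and `piece` (with `b = 3/2`) give for `T` large, `α ∈ [1, 3/2]`:
  `FFz T log T ≥ T ∑_j (ρ_j (3/2-α-ε) log T - C log log T - C)`.
  If `3/2 - α - ε ≤ 0`, then `3/2 - α - ε0 < 0 ≤ FFz`. Otherwise `∑ ρ_j ≥ (1-δ)²/(1+2κ) (1-6τ) ≥ 1 - ε0/4`, `3/2-α-ε ≤ 1/2`, so
  `FFz ≥ 3/2 - α - ε - ε0/8 - n (C log log T + C)/log T ≥ 3/2 - α - ε0`.
* `α > 3/2`: `FFz ≥ 0`. `α ≤ -1`: evenness.
-/

open Filter

namespace H69LB

theorem FFz_nonneg {ι : Type} {γ w : ι → ℝ} {F : ℝ → Finset ι} {T : ℝ} (hT : 1 < T) (α : ℝ) :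
    0 ≤ FFz γ w F T α := by
  have h := dual (γ := γ) (w := w) (F := F) (α := α) hT (b := fun _ => 0) continuous_const
    (HasCompactSupport.intro isCompact_empty fun _ _ => rfl)
  have h1 : 0 < T * Real.log T := mul_pos (by linarith) (Real.log_pos hT)
  have h2 : ∀ g : ℝ, PsiF (Fof (fun _ => 0) (α * Real.log T)) g = 0 := by
    intro g
    simp [PsiF, Fof]
  simp only [h2, mul_zero, Finset.sum_const_zero, Complex.zero_re, norm_zero, ne_eq, OfNat.ofNat_ne_zero,
    not_false_eq_true, zero_pow, MeasureTheory.integral_zero, sub_zero] at h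
  exact nonneg_of_mul_nonneg_left h h1

theorem FFz_neg {ι : Type} (γ w : ι → ℝ) (F : ℝ → Finset ι) (T α : ℝ) :
    FFz γ w F T (-α) = FFz γ w F T α := by
  unfold FFz
  congr 1
  refine Finset.sum_congr rfl fun i _ => Finset.sum_congr rfl fun j _ => ?_
  rw [show -α * Real.log T * (γ i - γ j) = -(α * Real.log T * (γ i - γ j)) by ring, Real.cos_neg]

private theorem ee_cont : Continuous ee := by
  unfold ee
  fun_prop

private theorem bP_cont {χ : ℝ → ℝ} (hχ : Continuous χ) (P : Par) (T α : ℝ) :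
    Continuous (bP χ P T α) := by
  unfold bP
  have h := ee_cont
  fun_prop

private theorem bP_zero {χ : ℝ → ℝ} (P : Par) {T α ξ : ℝ} (h : χ (ξ - α * Real.log T) = 0) :
    bP χ P T α ξ = 0 := by
  simp [bP, h]

private theorem bP_supp {χ : ℝ → ℝ} {η1 η2 : ℝ} (h : Pc η1 η2 χ) (P : Par) {T α ξ : ℝ}
    (hξ : bP χ P T α ξ ≠ 0) : η1 < ξ - α * Real.log T ∧ ξ - α * Real.log T < η2 := by
  by_contra hcon
  rw [not_and_or, not_lt, not_lt] at hcon
  exact hξ (bP_zero P (h.zero _ hcon))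

private theorem bP_comp {χ : ℝ → ℝ} {η1 η2 : ℝ} (h : Pc η1 η2 χ) (P : Par) (T α : ℝ) :
    HasCompactSupport (bP χ P T α) := by
  refine HasCompactSupport.intro (K := Set.Icc (η1 + α * Real.log T) (η2 + α * Real.log T))
    isCompact_Icc fun ξ hξ => ?_
  by_contra hcon
  obtain ⟨h1, h2⟩ := bP_supp h P hcon
  exact hξ ⟨by linarith, by linarith⟩

/-- the sum of the comparison functions of the pieces -/
private noncomputable def bS (n : ℕ) (χ : ℕ → ℝ → ℝ) (P : ℕ → Par) (T α ξ : ℝ) : ℂ :=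
  ∑ j ∈ Finset.range n, bP (χ j) (P j) T α ξ

private theorem norm_bS {n : ℕ} {s : ℕ → ℝ} {χ : ℕ → ℝ → ℝ} (hs : Monotone s)
    (h : ∀ j < n, Pc (s j) (s (j + 1)) (χ j)) (P : ℕ → Par) (T α ξ : ℝ) :
    ‖bS n χ P T α ξ‖ ^ 2 = ∑ j ∈ Finset.range n, ‖bP (χ j) (P j) T α ξ‖ ^ 2 := by
  rw [bS]
  by_cases hex : ∃ j ∈ Finset.range n, bP (χ j) (P j) T α ξ ≠ 0
  · obtain ⟨j0, hj0, hne⟩ := hex
    have hz : ∀ j ∈ Finset.range n, j ≠ j0 → bP (χ j) (P j) T α ξ = 0 := by
      intro j hj hjj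
      by_contra hcon
      rw [Finset.mem_range] at hj hj0
      obtain ⟨h1, h2⟩ := bP_supp (h j hj) (P j) hcon
      obtain ⟨h3, h4⟩ := bP_supp (h j0 hj0) (P j0) hne
      rcases lt_or_gt_of_ne hjj with hlt | hlt
      · have := hs (show j + 1 ≤ j0 by omega)
        linarith
      · have := hs (show j0 + 1 ≤ j by omega)
        linarith
    rw [Finset.sum_eq_single_of_mem j0 hj0 hz, Finset.sum_eq_single_of_mem j0 hj0]
    intro j hj hjj
    rw [hz j hj hjj]
    simp
  · push Not at hex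
    rw [Finset.sum_eq_zero hex, Finset.sum_eq_zero]
    · simp
    · intro j hj
      rw [hex j hj]
      simp

private theorem PsiF_bS {n : ℕ} {s : ℕ → ℝ} {χ : ℕ → ℝ → ℝ}
    (h : ∀ j < n, Pc (s j) (s (j + 1)) (χ j)) (P : ℕ → Par) (T α y g : ℝ) :
    PsiF (Fof (bS n χ P T α) y) g = ∑ j ∈ Finset.range n, PsiF (Fof (bP (χ j) (P j) T α) y) g := by
  unfold PsiF
  rw [← MeasureTheory.integral_finsetSum]
  · refine MeasureTheory.integral_congr_ae (Filter.Eventually.of_forall fun ξ => ?_)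
    simp only [Fof, bS, map_sum, Finset.mul_sum, Finset.sum_mul]
  · intro j hj
    have hP := h j (Finset.mem_range.1 hj)
    have hc : Continuous (bP (χ j) (P j) T α) := bP_cont hP.smooth.continuous _ _ _
    refine Continuous.integrable_of_hasCompactSupport ?_ ?_
    · unfold Fof
      fun_prop
    · refine (bP_comp hP (P j) T α).mono fun ξ hξ => ?_
      rw [Function.mem_support] at hξ ⊢
      intro h0
      apply hξ
      simp [Fof, h0]

private theorem int_bS {n : ℕ} {s : ℕ → ℝ} {χ : ℕ → ℝ → ℝ} (hs : Monotone s)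
    (h : ∀ j < n, Pc (s j) (s (j + 1)) (χ j)) (P : ℕ → Par) (T α : ℝ) :
    ∫ ξ, ‖bS n χ P T α ξ‖ ^ 2 = ∑ j ∈ Finset.range n, ∫ ξ, ‖bP (χ j) (P j) T α ξ‖ ^ 2 := by
  rw [← MeasureTheory.integral_finsetSum]
  · refine MeasureTheory.integral_congr_ae (Filter.Eventually.of_forall fun ξ => ?_)
    exact norm_bS hs h P T α ξ
  · intro j hj
    have hP := h j (Finset.mem_range.1 hj)
    have hc : Continuous (bP (χ j) (P j) T α) := bP_cont hP.smooth.continuous _ _ _
    refine Continuous.integrable_of_hasCompactSupport (by fun_prop) ?_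
    refine (bP_comp hP (P j) T α).mono fun ξ hξ => ?_
    rw [Function.mem_support] at hξ ⊢
    intro h0
    apply hξ
    simp [h0]

/-- lower bound by the sum over the pieces -/
private theorem lower_sum {ι : Type} {γ w : ι → ℝ} {F : ℝ → Finset ι} {n : ℕ} {s : ℕ → ℝ}
    {χ : ℕ → ℝ → ℝ} (hs : Monotone s) (h : ∀ j < n, Pc (s j) (s (j + 1)) (χ j)) (P : ℕ → Par)
    {T α : ℝ} (hT : 1 < T) :
    ∑ j ∈ Finset.range n,
      (2 * (∑ i ∈ F T, (w i : ℂ) * PsiF (Fof (bP (χ j) (P j) T α) (α * Real.log T)) (γ i)).re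
          - 2 * Real.pi * ∫ ξ, ‖bP (χ j) (P j) T α ξ‖ ^ 2) ≤ FFz γ w F T α * (T * Real.log T) := by
  have hcont : Continuous (bS n χ P T α) := by
    unfold bS
    refine continuous_finsetSum _ fun j hj => ?_
    exact bP_cont (h j (Finset.mem_range.1 hj)).smooth.continuous _ _ _
  have hcomp : HasCompactSupport (bS n χ P T α) := by
    refine HasCompactSupport.intro (K := Set.Icc (s 0 + α * Real.log T) (s n + α * Real.log T))
      isCompact_Icc fun ξ hξ => ?_
    rw [bS]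
    refine Finset.sum_eq_zero fun j hj => ?_
    rw [Finset.mem_range] at hj
    by_contra hcon
    obtain ⟨h1, h2⟩ := bP_supp (h j hj) (P j) hcon
    have h3 := hs (Nat.zero_le j)
    have h4 := hs (show j + 1 ≤ n by omega)
    exact hξ ⟨by linarith, by linarith⟩
  have hd := dual (γ := γ) (w := w) (F := F) (α := α) hT hcont hcomp
  refine le_trans (le_of_eq ?_) hd
  rw [int_bS hs h, Finset.sum_sub_distrib, Finset.mul_sum, ← Finset.mul_sum _ _ (2 : ℝ)]
  congr 2
  rw [← Complex.re_sum, Finset.sum_comm]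
  congr 1
  refine Finset.sum_congr rfl fun i _ => ?_
  rw [PsiF_bS h, Finset.mul_sum]

private theorem growth2 {δ C : ℝ} (hδ : 0 < δ) :
    ∀ᶠ T : ℝ in atTop, 1 < T ∧ C * Real.log (Real.log T) + C ≤ δ * Real.log T := by
  have h1 : ∀ᶠ T : ℝ in atTop, 1 < T := eventually_gt_atTop 1
  have h2 : ∀ᶠ y : ℝ in atTop, ‖Real.log y‖ ≤ (δ / 2 / (|C| + 1)) * ‖y‖ := by
    have := (Real.isLittleO_log_id_atTop).bound (show 0 < δ / 2 / (|C| + 1) by positivity)
    simpa using this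
  have h3 : ∀ᶠ T : ℝ in atTop, ‖Real.log (Real.log T)‖ ≤ (δ / 2 / (|C| + 1)) * ‖Real.log T‖ :=
    Real.tendsto_log_atTop.eventually h2
  have h4 : ∀ᶠ T : ℝ in atTop, 2 * |C| / δ ≤ Real.log T :=
    Real.tendsto_log_atTop.eventually_ge_atTop _
  filter_upwards [h1, h3, h4] with T h1 h3 h4
  refine ⟨h1, ?_⟩
  have hL : 0 < Real.log T := Real.log_pos h1
  rw [Real.norm_of_nonneg hL.le, div_mul_eq_mul_div, le_div_iff₀ (by positivity), Real.norm_eq_abs] at h3
  rw [div_le_iff₀ hδ] at h4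
  have h5 : C * Real.log (Real.log T) ≤ |C| * |Real.log (Real.log T)| := by
    rw [← abs_mul]; exact le_abs_self _
  have h6 : C ≤ |C| := le_abs_self C
  have h7 : |C| * |Real.log (Real.log T)| ≤ |Real.log (Real.log T)| * (|C| + 1) := by
    nlinarith [abs_nonneg (Real.log (Real.log T))]
  linarith

private theorem main_aux {ι : Type} [Countable ι] {γ w : ι → ℝ} {F : ℝ → Finset ι} {A : ℝ → ℝ} {k0 : ℝ}
    (Z : Zer γ w F A k0) {e : ℝ} (he : 0 < e) (he' : e ≤ 1 / 100) :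
    ∀ᶠ T in atTop, ∀ α ∈ Set.Icc (1 : ℝ) (3 / 2), 3 / 2 - α - 100 * e ≤ FFz γ w F T α := by
  obtain ⟨n, s, χ, hs, hPc, hsum⟩ := exists_pieces he (by linarith)
  set P : ℕ → Par := fun j => ⟨e, e, e, 2 * Real.pi * Real.exp (s (j + 1)) / (1 - e)⟩ with hPdef
  have h1e : 0 < 1 - e := by linarith
  have hOk : ∀ j, (P j).Ok := by
    intro j
    refine ⟨he, by simp only [hPdef]; linarith, he, by simp only [hPdef]; linarith, he,
      by simp only [hPdef]; linarith, ?_⟩
    simp only [hPdef]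
    have := Real.pi_pos
    have := Real.exp_pos (s (j + 1))
    positivity
  have hpiece : ∀ j, ∃ C T0 : ℝ, j < n → 0 ≤ C ∧ ∀ T, T0 ≤ T → ∀ α ∈ Set.Icc (1 : ℝ) (3 / 2),
      T * (rho (P j) (s (j + 1)) (χ j) * ((3 / 2 - α - (P j).ε) * Real.log T) -
          C * Real.log (Real.log T) - C)
        ≤ 2 * (∑ i ∈ F T, (w i : ℂ) * PsiF (Fof (bP (χ j) (P j) T α) (α * Real.log T)) (γ i)).re
          - 2 * Real.pi * ∫ ξ, ‖bP (χ j) (P j) T α ξ‖ ^ 2 := by
    intro j
    by_cases hj : j < n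
    · obtain ⟨C, T0, h1, h2⟩ := piece Z (hPc j hj) (P j) (hOk j) rfl (b := 3 / 2) (by norm_num)
      exact ⟨C, T0, fun _ => ⟨h1, h2⟩⟩
    · exact ⟨0, 0, fun h => absurd h hj⟩
  choose C T0 hC using hpiece
  have hev : ∀ᶠ T : ℝ in atTop, ∀ j ∈ Finset.range n, T0 j ≤ T :=
    (Finset.eventually_all _).2 fun j _ => eventually_ge_atTop (T0 j)
  set C' : ℝ := ∑ j ∈ Finset.range n, C j with hC'
  filter_upwards [hev, growth2 (C := C') (show 0 < 50 * e by linarith)] with T hT1 hT2 α hα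
  obtain ⟨hT, hgr⟩ := hT2
  have hL : 0 < Real.log T := Real.log_pos hT
  have hTpos : 0 < T := by linarith
  have hFF := FFz_nonneg (γ := γ) (w := w) (F := F) hT α
  set D := 3 / 2 - α - e with hD
  rcases le_or_gt D 0 with hD0 | hD0
  · linarith
  have hD1 : D ≤ 1 / 2 := by
    have := hα.1
    linarith
  have hlow := lower_sum (γ := γ) (w := w) (F := F) hs hPc P (α := α) hT
  have hlow2 : ∑ j ∈ Finset.range n, T * (rho (P j) (s (j + 1)) (χ j) * (D * Real.log T) -
      C j * Real.log (Real.log T) - C j) ≤ FFz γ w F T α * (T * Real.log T) := by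
    refine le_trans (Finset.sum_le_sum fun j hj => ?_) hlow
    exact (hC j (Finset.mem_range.1 hj)).2 T (hT1 j hj) α hα
  -- the sum of the weights
  set S := ∑ j ∈ Finset.range n, rho (P j) (s (j + 1)) (χ j) with hS
  have hS1 : 1 - 10 * e ≤ S := by
    have h2 : S = (1 - e) ^ 2 / (1 + 2 * e) * ∑ j ∈ Finset.range n,
        Real.exp (-(s (j + 1))) * ∫ η, Real.exp (-(2 * |η|)) * Real.exp η * χ j η := by
      rw [hS, Finset.mul_sum]
      refine Finset.sum_congr rfl fun j _ => ?_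
      simp only [rho, hPdef]
      ring
    rw [h2]
    have h3 : 0 ≤ (1 - e) ^ 2 / (1 + 2 * e) := by positivity
    refine le_trans ?_ (mul_le_mul_of_nonneg_left hsum h3)
    rw [div_mul_eq_mul_div, le_div_iff₀ (by positivity)]
    nlinarith [mul_pos he he, mul_pos (mul_pos he he) he]
  have hsumeq : ∑ j ∈ Finset.range n, T * (rho (P j) (s (j + 1)) (χ j) * (D * Real.log T) -
      C j * Real.log (Real.log T) - C j) =
      T * (S * (D * Real.log T) - (C' * Real.log (Real.log T) + C')) := by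
    rw [← Finset.mul_sum, Finset.sum_sub_distrib, Finset.sum_sub_distrib, ← Finset.sum_mul,
      ← Finset.sum_mul, ← hS, ← hC']
    ring
  rw [hsumeq] at hlow2
  have h5 : S * (D * Real.log T) - (C' * Real.log (Real.log T) + C') ≤ FFz γ w F T α * Real.log T := by
    have h6 : T * (S * (D * Real.log T) - (C' * Real.log (Real.log T) + C')) ≤
        T * (FFz γ w F T α * Real.log T) := by linarith
    exact le_of_mul_le_mul_left h6 hTpos
  have h7 : (D - 5 * e) * Real.log T ≤ S * (D * Real.log T) := by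
    have h8 : D - 5 * e ≤ S * D := by nlinarith
    nlinarith
  have h9 : (D - 5 * e - 50 * e) * Real.log T ≤ FFz γ w F T α * Real.log T := by linarith
  have h10 := le_of_mul_le_mul_right h9 hL
  linarith

theorem main {ι : Type} [Countable ι] {γ w : ι → ℝ} {F : ℝ → Finset ι} {A : ℝ → ℝ} {k0 : ℝ}
    (Z : Zer γ w F A k0) :
    ∀ ε0 > 0, ∀ᶠ T in atTop, ∀ α : ℝ, 1 ≤ |α| → 3 / 2 - |α| - ε0 ≤ FFz γ w F T α := by
  intro ε0 hε0
  have he : 0 < min ε0 1 / 100 := by positivity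
  have he' : min ε0 1 / 100 ≤ 1 / 100 := by
    have := min_le_right ε0 1
    linarith
  filter_upwards [main_aux Z he he', eventually_gt_atTop 1] with T hT hT1 α hα
  have habs : FFz γ w F T α = FFz γ w F T |α| := by
    rcases abs_choice α with h | h
    · rw [h]
    · rw [h, FFz_neg]
  rw [habs]
  rcases le_or_gt |α| (3 / 2) with h | h
  · have h1 := hT |α| ⟨hα, h⟩
    have h2 := min_le_left ε0 1
    linarith
  · have h1 := FFz_nonneg (γ := γ) (w := w) (F := F) hT1 |α|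
    linarith

end H69LB
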