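import Pool.Agent.H69.LB.Co2

/-!
# CO3: the core estimate

`x = T^α`, `N = NN M x`, `A(χ) = ∑_{a ≤ NA} c_a χ(a)`.
1. `card (pc q) ≤ φ(q) ≤ q` (`DirichletCharacter.card_eq_totient_of_hasEnoughRootsOfUnity`), so the number of pairs
   `(q, χ)` is at most `(2Q)²`, and by Cauchy-Schwarz and `LSM`
   `∑ ‖A(χ)‖ ≤ 2Q ((4Q² + 13 NA) NA)^{1/2} ≤ 2Q (2 Q NA^{1/2} + 4 NA)`.
2. `thW - psW` is the sum over prime powers `p^k ≤ N`, `k ≥ 2`:
   `‖psW W M x g - thW W M x g‖ ≤ sup|W| (ψ(N) - θ(N)) ≤ C √x (1 + log x)` if `‖g n‖ ≤ 1`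
   (`Chebyshev.psi_sub_theta_le`; `Chebyshev.psi`, `Chebyshev.theta` as sums).
3. `psW W M x χ = ∑_{n ≤ N} Λ(n) g(n)`, `g = gW W x χ`; `g n = 0` for `n ≤ U = ⌊T^(α-1+ε/4)⌋`, since
   `U ≤ x e^{-M}` for `T` large (`n = 0`: `χ 0 = 0` for `q > 1`, `χ ∈ pc q` is nontrivial). `vaughan`, `coreI`, `coreII`.
So the left side is at most `∑ ‖A(χ)‖ (1 + C √x (1 + log x)) + C NA x Q^{1/2} L^{-8}`, and
`√x L · Q · Q NA^{1/2}` against `NA x Q^{1/2}`: the ratio is `L Q^{3/2}/(NA x)^{1/2} ≤ C L Q/T^{1/2} ≤ C L T^{-ε}`, because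
`NA x = NA h T ≥ c₀ Q T`; and `√x L Q NA / (NA x Q^{1/2}) = L Q^{1/2}/√x ≤ L T^{-1/4}`. For `T` large all is
`≤ C NA x Q^{1/2} L^{-8}`.
-/

namespace H69LB

open Finset

private theorem WS_bdd {M : ℝ} {W : ℝ → ℝ} (hW : WS M W) : ∃ K : ℝ, 0 ≤ K ∧ ∀ η, |W η| ≤ K := by
  obtain ⟨K, hK⟩ := (isCompact_Icc (a := -M) (b := M)).exists_bound_of_continuousOn
    (f := W) hW.smooth.continuous.continuousOn
  refine ⟨max K 0, le_max_right _ _, fun η => ?_⟩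
  by_cases h : M ≤ |η|
  · rw [hW.zero η h, abs_zero]; exact le_max_right _ _
  · have h1 : η ∈ Set.Icc (-M) M := by
      rw [not_le, abs_lt] at h
      exact ⟨h.1.le, h.2.le⟩
    exact (hK η h1).trans (le_max_left _ _)

theorem psW_sub_thW {M : ℝ} (hM : 0 < M) {W : ℝ → ℝ} (hW : WS M W) :
    ∃ C : ℝ, 0 ≤ C ∧ ∀ x : ℝ, 1 ≤ x → ∀ g : ℕ → ℂ, (∀ n, ‖g n‖ ≤ 1) →
      ‖psW W M x g - thW W M x g‖ ≤ C * Real.sqrt x * (1 + Real.log x) := by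
  obtain ⟨K, hK0, hK⟩ := WS_bdd hW
  refine ⟨K * (2 * Real.sqrt (Real.exp M) * (1 + M)), by positivity, fun x hx g hg => ?_⟩
  have hlog : 0 ≤ Real.log x := Real.log_nonneg hx
  have h1 : psW W M x g - thW W M x g = ∑ n ∈ (Icc 1 (NN M x)).filter (fun n => ¬ n.Prime),
      ((ArithmeticFunction.vonMangoldt n * W (Real.log (n / x)) : ℝ) : ℂ) * g n := by
    rw [psW, thW, ← sum_filter_add_sum_filter_not (Icc 1 (NN M x)) Nat.Prime]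
    rw [add_sub_assoc, add_comm, sub_add_eq_add_sub, add_sub_assoc]
    rw [sub_eq_zero.2, add_zero]
    refine sum_congr rfl fun p hp => ?_
    rw [ArithmeticFunction.vonMangoldt_apply_prime (mem_filter.1 hp).2]
  rw [h1]
  have h2 : ‖∑ n ∈ (Icc 1 (NN M x)).filter (fun n => ¬ n.Prime),
      ((ArithmeticFunction.vonMangoldt n * W (Real.log (n / x)) : ℝ) : ℂ) * g n‖
      ≤ K * (Chebyshev.psi (x * Real.exp M) - Chebyshev.theta (x * Real.exp M)) := by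
    rw [Chebyshev.psi_sub_theta_eq_sum_not_prime, mul_sum]
    refine norm_sum_le_of_le _ fun n _ => ?_
    rw [norm_mul, Complex.norm_real, norm_mul]
    have h3 : 0 ≤ ArithmeticFunction.vonMangoldt n := ArithmeticFunction.vonMangoldt_nonneg
    rw [Real.norm_of_nonneg h3]
    calc ArithmeticFunction.vonMangoldt n * ‖W (Real.log (n / x))‖ * ‖g n‖
        ≤ ArithmeticFunction.vonMangoldt n * K * 1 := by
          gcongr
          · exact hK _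
          · exact hg _
      _ = K * ArithmeticFunction.vonMangoldt n := by ring
  refine h2.trans ?_
  have hexp : 1 ≤ Real.exp M := Real.one_le_exp hM.le
  have h4 := Chebyshev.psi_sub_theta_le (x := x * Real.exp M) (by nlinarith)
  rw [Real.log_mul (by positivity) (by positivity), Real.log_exp, Real.sqrt_mul (by positivity)] at h4
  calc K * (Chebyshev.psi (x * Real.exp M) - Chebyshev.theta (x * Real.exp M))
      ≤ K * (2 * (Real.sqrt x * Real.sqrt (Real.exp M)) * (Real.log x + M)) := by gcongr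
    _ ≤ K * (2 * (Real.sqrt x * Real.sqrt (Real.exp M)) * ((1 + M) * (1 + Real.log x))) := by
        gcongr
        nlinarith
    _ = _ := by ring

theorem card_pc_le (q : ℕ) (hq : 1 ≤ q) : (pc q).card ≤ q := by
  classical
  have : NeZero q := ⟨by omega⟩
  calc (pc q).card ≤ (univ : Finset (DirichletCharacter ℂ q)).card := card_le_card (subset_univ _)
    _ = Nat.card (DirichletCharacter ℂ q) := by rw [card_univ, Nat.card_eq_fintype_card]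
    _ = q.totient := DirichletCharacter.card_eq_totient_of_hasEnoughRootsOfUnity ℂ q
    _ ≤ q := Nat.totient_le q


private theorem growth (b ε M : ℝ) (hε : 0 < ε) (hb : 0 ≤ b) : ∃ T0 : ℝ, 1 ≤ T0 ∧ ∀ T, T0 ≤ T →
    1 ≤ Real.log T ∧ (1 + b) * Real.log T ^ 9 ≤ T ^ ε ∧ M ≤ Real.log T / 2 := by
  have h1 : ∀ᶠ T : ℝ in Filter.atTop, 1 ≤ Real.log T :=
    Real.tendsto_log_atTop.eventually_ge_atTop 1
  have h2 : ∀ᶠ T : ℝ in Filter.atTop, M * 2 ≤ Real.log T :=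
    Real.tendsto_log_atTop.eventually_ge_atTop _
  have h3 : ∀ᶠ T : ℝ in Filter.atTop, ‖Real.log T ^ (9 : ℝ)‖ ≤ (1 / (1 + b)) * ‖T ^ ε‖ :=
    (isLittleO_log_rpow_rpow_atTop 9 hε).bound (by positivity)
  obtain ⟨T0, hT0⟩ := Filter.eventually_atTop.1 (h1.and (h2.and h3))
  refine ⟨max T0 1, le_max_right _ _, fun T hT => ?_⟩
  obtain ⟨h1, h2, h3⟩ := hT0 T ((le_max_left _ _).trans hT)
  have hT1 : 1 ≤ T := (le_max_right _ _).trans hT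
  refine ⟨h1, ?_, by linarith⟩
  rw [show (9 : ℝ) = ((9 : ℕ) : ℝ) by norm_num, Real.rpow_natCast, Real.norm_of_nonneg (by positivity),
    Real.norm_of_nonneg (by positivity), one_div, inv_mul_eq_div, le_div_iff₀ (by positivity)] at h3
  linarith

/-- the sum of `‖A(χ)‖` -/
private theorem sumA_le {Q NA : ℝ} (hQ : 0 ≤ Q) (hNA : 0 ≤ NA) (c : ℕ → ℂ) (hc : ∀ a, ‖c a‖ ≤ 1) :
    ∑ q ∈ Icc 1 ⌊2 * Q⌋₊, ∑ χ ∈ pc q, ‖∑ a ∈ Icc 1 ⌊NA⌋₊, c a * χ a‖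
      ≤ 4 * Q ^ 2 * Real.sqrt NA + 8 * Q * NA := by
  have hfl : ((⌊2 * Q⌋₊ : ℕ) : ℝ) ≤ 2 * Q := Nat.floor_le (by positivity)
  have hfl2 : ((⌊NA⌋₊ : ℕ) : ℝ) ≤ NA := Nat.floor_le hNA
  set s := (Icc 1 ⌊2 * Q⌋₊).sigma fun q => pc q with hs
  have hcard : ((s.card : ℕ) : ℝ) ≤ (2 * Q) ^ 2 := by
    rw [hs, card_sigma]
    push_cast
    calc (∑ q ∈ Icc 1 ⌊2 * Q⌋₊, ((pc q).card : ℝ)) ≤ ∑ _q ∈ Icc 1 ⌊2 * Q⌋₊, 2 * Q := by
          refine sum_le_sum fun q hq => ?_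
          rw [mem_Icc] at hq
          have h1 : ((pc q).card : ℝ) ≤ q := by exact_mod_cast card_pc_le q hq.1
          have h2 : (q : ℝ) ≤ (⌊2 * Q⌋₊ : ℕ) := by exact_mod_cast hq.2
          linarith
      _ = (⌊2 * Q⌋₊ : ℕ) * (2 * Q) := by
          rw [sum_const, Nat.card_Icc, Nat.add_sub_cancel, nsmul_eq_mul]
      _ ≤ (2 * Q) ^ 2 := by rw [sq]; gcongr
  have hsig : ∀ F : (q : ℕ) → DirichletCharacter ℂ q → ℝ,
      ∑ q ∈ Icc 1 ⌊2 * Q⌋₊, ∑ χ ∈ pc q, F q χ = ∑ z ∈ s, F z.1 z.2 := by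
    intro F
    rw [hs, sum_sigma]
  have h2 : (∑ z ∈ s, ‖∑ a ∈ Icc 1 ⌊NA⌋₊, c a * z.2 a‖) ^ 2 ≤
      (2 * Q) ^ 2 * (((2 * Q) ^ 2 + 13 * NA) * NA) := by
    refine (sq_sum_le_card_mul_sum_sq).trans ?_
    have h3 := LSM ⌊2 * Q⌋₊ ⌊NA⌋₊ c
    rw [hsig fun q χ => ‖∑ a ∈ Icc 1 ⌊NA⌋₊, c a * χ a‖ ^ 2] at h3
    have h4 : ∑ n ∈ Icc 1 ⌊NA⌋₊, ‖c n‖ ^ 2 ≤ NA := by
      calc ∑ n ∈ Icc 1 ⌊NA⌋₊, ‖c n‖ ^ 2 ≤ ∑ _n ∈ Icc 1 ⌊NA⌋₊, (1 : ℝ) := by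
            refine sum_le_sum fun n _ => ?_
            exact pow_le_one₀ (norm_nonneg _) (hc n)
        _ = (⌊NA⌋₊ : ℕ) := by simp
        _ ≤ NA := hfl2
    have h5 : (((⌊2 * Q⌋₊ : ℕ) : ℝ) ^ 2 + 13 * (⌊NA⌋₊ : ℕ)) * ∑ n ∈ Icc 1 ⌊NA⌋₊, ‖c n‖ ^ 2
        ≤ ((2 * Q) ^ 2 + 13 * NA) * NA := by gcongr
    exact mul_le_mul hcard (h3.trans h5) (by positivity) (by positivity)
  rw [hsig fun q χ => ‖∑ a ∈ Icc 1 ⌊NA⌋₊, c a * χ a‖]
  refine abs_le_of_sq_le_sq' ?_ (by positivity) |>.2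
  refine h2.trans ?_
  have h6 : Real.sqrt NA ^ 2 = NA := Real.sq_sqrt hNA
  have h7 : 0 ≤ Real.sqrt NA := Real.sqrt_nonneg _
  have h8 : (4 * Q ^ 2 * Real.sqrt NA + 8 * Q * NA) ^ 2 =
      16 * Q ^ 4 * NA + 64 * Q ^ 3 * NA * Real.sqrt NA + 64 * Q ^ 2 * NA ^ 2 := by
    rw [show (4 * Q ^ 2 * Real.sqrt NA + 8 * Q * NA) ^ 2 = 16 * Q ^ 4 * Real.sqrt NA ^ 2 +
      64 * Q ^ 3 * NA * Real.sqrt NA + 64 * Q ^ 2 * NA ^ 2 by ring, h6]
  rw [h8]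
  have h9 : 0 ≤ 64 * Q ^ 3 * NA * Real.sqrt NA := by positivity
  have h10 : 0 ≤ Q ^ 2 * NA ^ 2 := by positivity
  nlinarith

private theorem psW_eq {M x : ℝ} {W : ℝ → ℝ} {q : ℕ} (χ : DirichletCharacter ℂ q) :
    psW W M x (fun n => χ n) =
      ∑ n ∈ Icc 1 (NN M x), (ArithmeticFunction.vonMangoldt n : ℂ) * gW W x χ n := by
  rw [psW]
  refine sum_congr rfl fun n _ => ?_
  rw [gW]
  push_cast
  ring

private theorem gW_eq_zero {M : ℝ} {W : ℝ → ℝ} (hW : WS M W) {x : ℝ} (hx : 0 < x)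
    {U q : ℕ} (hq : 1 < q) (χ : DirichletCharacter ℂ q) (hU : (U : ℝ) ≤ x * Real.exp (-M)) :
    ∀ n ≤ U, gW W x χ n = 0 := by
  intro n hn
  rw [gW]
  rcases Nat.eq_zero_or_pos n with rfl | h0
  · have : Fact (1 < q) := ⟨hq⟩
    rw [Nat.cast_zero, Nat.cast_zero, χ.map_nonunit not_isUnit_zero, mul_zero]
  · have h0' : (0 : ℝ) < n := by exact_mod_cast h0
    have h1 : (n : ℝ) / x ≤ Real.exp (-M) := by
      rw [div_le_iff₀ hx]
      have h3 : (n : ℝ) ≤ U := by exact_mod_cast hn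
      linarith
    have h2 : Real.log (n / x) ≤ -M := by
      rw [← Real.log_exp (-M)]
      exact Real.log_le_log (by positivity) h1
    rw [hW.zero _ (by rw [le_abs]; right; linarith)]
    simp

private theorem pc_one_lt {q : ℕ} (hq : 1 ≤ q) {χ : DirichletCharacter ℂ q} (hχ : χ ∈ pc q) :
    1 < q ∧ χ ≠ 1 := by
  classical
  rw [pc, mem_filter] at hχ
  refine ⟨?_, hχ.2.2⟩
  rcases Nat.lt_or_ge 1 q with h | h
  · exact h
  · exfalso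
    obtain rfl : q = 1 := le_antisymm h hq
    exact hχ.2.2 (DirichletCharacter.level_one χ)

theorem core {M : ℝ} (hM : 0 < M) {W : ℝ → ℝ} (hW : WS M W) {ε b c0 : ℝ} (hε : 0 < ε) (hε' : ε ≤ 1 / 4)
    (hb : 1 ≤ b) (hc0 : 0 < c0) :
    ∃ C T0 : ℝ, 0 ≤ C ∧ ∀ T, T0 ≤ T → ∀ α ∈ Set.Icc 1 b, ∀ Q NA : ℝ,
      Real.log T ^ 30 ≤ Q → Q ≤ T ^ (1 / 2 - ε) → c0 * Q ≤ NA * T ^ (α - 1) → NA ≤ T →
      ∀ c : ℕ → ℂ, (∀ a, ‖c a‖ ≤ 1) →
      ∑ q ∈ Icc 1 ⌊2 * Q⌋₊, ∑ χ ∈ pc q, ‖∑ a ∈ Icc 1 ⌊NA⌋₊, c a * χ a‖ *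
        ‖thW W M (T ^ α) (fun n => χ n)‖
        ≤ C * NA * T ^ α * Real.sqrt Q / Real.log T ^ 8 := by
  obtain ⟨C1, hC1, h1⟩ := psW_sub_thW hM hW
  obtain ⟨T1, hT1⟩ := coreI hM hW hε hε' hb
  obtain ⟨C2, T2, hC2, hT2⟩ := coreII hM hW hε hε' hb hc0
  obtain ⟨T3, hT3, hg⟩ := growth b ε M hε (by linarith)
  refine ⟨(1 + C1) * (4 / Real.sqrt c0 + 8) + C2, max (max T1 T2) T3, by positivity, ?_⟩
  intro T hT α hα Q NA hQ1 hQ2 hQA hNAT c hc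
  obtain ⟨hL1, hL2, hL3⟩ := hg T ((le_max_right _ _).trans hT)
  have hT1' : T1 ≤ T := ((le_max_left _ _).trans (le_max_left _ _)).trans hT
  have hT2' : T2 ≤ T := ((le_max_right _ _).trans (le_max_left _ _)).trans hT
  have hT3' : 1 ≤ T := hT3.trans ((le_max_right _ _).trans hT)
  have hT0 : 0 < T := by linarith
  have hQ0 : 0 < Q := lt_of_lt_of_le (by positivity) hQ1
  have hh0 : 0 < T ^ (α - 1) := Real.rpow_pos_of_pos hT0 _
  have hNA : 0 < NA := by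
    by_contra hcon
    rw [not_lt] at hcon
    have : NA * T ^ (α - 1) ≤ 0 := mul_nonpos_of_nonpos_of_nonneg hcon hh0.le
    have : 0 < c0 * Q := by positivity
    linarith
  set x := T ^ α with hx
  have hx0 : 0 < x := Real.rpow_pos_of_pos hT0 _
  have hTx : T ≤ x := by
    calc T = T ^ (1 : ℝ) := (Real.rpow_one T).symm
      _ ≤ T ^ α := Real.rpow_le_rpow_of_exponent_le hT3' hα.1
  have hx1 : 1 ≤ x := hT3'.trans hTx
  have hlogx : Real.log x = α * Real.log T := by rw [hx, Real.log_rpow hT0]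
  have hlogx0 : 0 ≤ Real.log x := Real.log_nonneg hx1
  have hlogx1 : 1 + Real.log x ≤ (1 + b) * Real.log T := by
    rw [hlogx]
    have := mul_le_mul_of_nonneg_right hα.2 (by linarith : (0 : ℝ) ≤ Real.log T)
    linarith
  -- the estimate of `thW` for a single character
  have key : ∀ q ∈ Icc 1 ⌊2 * Q⌋₊, ∀ χ ∈ pc q, ‖thW W M x (fun n => χ n)‖ ≤
      (1 + C1) * (Real.sqrt x * (1 + Real.log x)) +
      ‖∑ m ∈ Ioc ⌊T ^ (α - 1 + ε / 4)⌋₊ (NN M x), (ArithmeticFunction.vonMangoldt m : ℂ) *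
          ∑ k ∈ Icc 1 (NN M x / m), (betaV ⌊T ^ (1 / 2 - ε / 2)⌋₊ k : ℂ) * gW W x χ (m * k)‖ := by
    intro q hq χ hχ
    rw [mem_Icc] at hq
    obtain ⟨hq1, hχ1⟩ := pc_one_lt hq.1 hχ
    have : NeZero q := ⟨by omega⟩
    have hqQ : (q : ℝ) ≤ 2 * T ^ (1 / 2 - ε) := by
      have h2 : (q : ℝ) ≤ (⌊2 * Q⌋₊ : ℕ) := by exact_mod_cast hq.2
      have h3 : ((⌊2 * Q⌋₊ : ℕ) : ℝ) ≤ 2 * Q := Nat.floor_le (by positivity)
      linarith
    have hI := hT1 T hT1' α hα q χ hχ1 hqQ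
    rw [← hx] at hI
    have hU : ((⌊T ^ (α - 1 + ε / 4)⌋₊ : ℕ) : ℝ) ≤ x * Real.exp (-M) := by
      refine (Nat.floor_le (Real.rpow_nonneg hT0.le _)).trans ?_
      rw [hx, Real.rpow_def_of_pos hT0, Real.rpow_def_of_pos hT0, ← Real.exp_add, Real.exp_le_exp]
      nlinarith
    have hV := vaughan ⌊T ^ (α - 1 + ε / 4)⌋₊ ⌊T ^ (1 / 2 - ε / 2)⌋₊ (NN M x) (gW W x χ)
      (gW_eq_zero hW hx0 hq1 χ hU)
    rw [← psW_eq] at hV
    have hd := h1 x hx1 (fun n => χ n) fun n => χ.norm_le_one _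
    have hsx : 1 ≤ Real.sqrt x * (1 + Real.log x) := by
      have h5 : 1 ≤ Real.sqrt x := Real.one_le_sqrt.2 hx1
      nlinarith
    have htri : ‖thW W M x (fun n => χ n)‖ ≤ ‖psW W M x (fun n => χ n) - thW W M x (fun n => χ n)‖ +
        ‖psW W M x (fun n => χ n)‖ := by
      have h6 := norm_sub_norm_le (thW W M x (fun n => χ n)) (psW W M x (fun n => χ n))
      rw [norm_sub_rev] at h6
      linarith
    have hps : ‖psW W M x (fun n => χ n)‖ ≤ 1 +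
      ‖∑ m ∈ Ioc ⌊T ^ (α - 1 + ε / 4)⌋₊ (NN M x), (ArithmeticFunction.vonMangoldt m : ℂ) *
          ∑ k ∈ Icc 1 (NN M x / m), (betaV ⌊T ^ (1 / 2 - ε / 2)⌋₊ k : ℂ) * gW W x χ (m * k)‖ := by
      rw [hV]
      exact (norm_add_le _ _).trans (by gcongr)
    nlinarith
  have hsum : ∑ q ∈ Icc 1 ⌊2 * Q⌋₊, ∑ χ ∈ pc q, ‖∑ a ∈ Icc 1 ⌊NA⌋₊, c a * χ a‖ *
        ‖thW W M x (fun n => χ n)‖ ≤
      (1 + C1) * (Real.sqrt x * (1 + Real.log x)) *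
        (∑ q ∈ Icc 1 ⌊2 * Q⌋₊, ∑ χ ∈ pc q, ‖∑ a ∈ Icc 1 ⌊NA⌋₊, c a * χ a‖) +
      ∑ q ∈ Icc 1 ⌊2 * Q⌋₊, ∑ χ ∈ pc q, ‖∑ a ∈ Icc 1 ⌊NA⌋₊, c a * χ a‖ *
        ‖∑ m ∈ Ioc ⌊T ^ (α - 1 + ε / 4)⌋₊ (NN M x), (ArithmeticFunction.vonMangoldt m : ℂ) *
          ∑ k ∈ Icc 1 (NN M x / m), (betaV ⌊T ^ (1 / 2 - ε / 2)⌋₊ k : ℂ) * gW W x χ (m * k)‖ := by
    rw [mul_sum, ← sum_add_distrib]
    refine sum_le_sum fun q hq => ?_
    rw [mul_sum, ← sum_add_distrib]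
    refine sum_le_sum fun χ hχ => ?_
    have h2 := mul_le_mul_of_nonneg_left (key q hq χ hχ)
      (norm_nonneg (∑ a ∈ Icc 1 ⌊NA⌋₊, c a * χ a))
    linarith
  refine hsum.trans ?_
  have hII := hT2 T hT2' α hα Q NA hQ1 hQ2 hQA hNAT c hc
  rw [← hx] at hII
  have hA := sumA_le hQ0.le hNA.le c hc
  have hLpos : 0 < Real.log T ^ 8 := by positivity
  -- the two elementary inequalities
  have hTe : 0 < T ^ ε := Real.rpow_pos_of_pos hT0 _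
  have hsT : Real.sqrt T = T ^ (1 / 2 : ℝ) := Real.sqrt_eq_rpow T
  have hTQ : T ^ ε * Q ≤ Real.sqrt T := by
    calc T ^ ε * Q ≤ T ^ ε * T ^ (1 / 2 - ε) := by gcongr
      _ = Real.sqrt T := by
          rw [← Real.rpow_add hT0, hsT]
          congr 1
          ring
  have hQT : Real.sqrt c0 * (Real.sqrt T * Real.sqrt Q) ≤ Real.sqrt NA * Real.sqrt x := by
    rw [← Real.sqrt_mul hT0.le, ← Real.sqrt_mul hc0.le, ← Real.sqrt_mul hNA.le]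
    refine Real.sqrt_le_sqrt ?_
    calc c0 * (T * Q) = (c0 * Q) * T := by ring
      _ ≤ (NA * T ^ (α - 1)) * T := by gcongr
      _ = NA * x := by
          rw [mul_assoc, hx]
          congr 1
          nth_rewrite 2 [← Real.rpow_one T]
          rw [← Real.rpow_add hT0]
          congr 1
          ring
  have hsQ : Real.sqrt Q * Real.sqrt Q = Q := Real.mul_self_sqrt hQ0.le
  have hsx : Real.sqrt x * Real.sqrt x = x := Real.mul_self_sqrt hx0.le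
  have hsNA : Real.sqrt NA * Real.sqrt NA = NA := Real.mul_self_sqrt hNA.le
  have hsc0 : 0 < Real.sqrt c0 := Real.sqrt_pos.2 hc0
  have ha : T ^ ε * Real.sqrt x * (Q ^ 2 * Real.sqrt NA) ≤
      NA * x * Real.sqrt Q / Real.sqrt c0 := by
    rw [le_div_iff₀ hsc0]
    calc T ^ ε * Real.sqrt x * (Q ^ 2 * Real.sqrt NA) * Real.sqrt c0
        = (T ^ ε * Q) * (Q * Real.sqrt x * Real.sqrt NA * Real.sqrt c0) := by ring
      _ ≤ Real.sqrt T * (Q * Real.sqrt x * Real.sqrt NA * Real.sqrt c0) := by gcongr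
      _ = Real.sqrt c0 * (Real.sqrt T * Real.sqrt Q) * (Real.sqrt Q * Real.sqrt x * Real.sqrt NA) := by
          nth_rewrite 1 [← hsQ]
          ring
      _ ≤ Real.sqrt NA * Real.sqrt x * (Real.sqrt Q * Real.sqrt x * Real.sqrt NA) := by gcongr
      _ = (Real.sqrt NA * Real.sqrt NA) * (Real.sqrt x * Real.sqrt x) * Real.sqrt Q := by ring
      _ = NA * x * Real.sqrt Q := by rw [hsNA, hsx]
  have hTs : T ^ ε * Real.sqrt Q ≤ Real.sqrt x := by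
    calc T ^ ε * Real.sqrt Q ≤ T ^ ε * Real.sqrt (T ^ (1 / 2 - ε)) := by gcongr
      _ = T ^ (1 / 4 + ε / 2) := by
          rw [Real.sqrt_eq_rpow, ← Real.rpow_mul hT0.le, ← Real.rpow_add hT0]
          congr 1
          ring
      _ ≤ T ^ (1 / 2 : ℝ) := Real.rpow_le_rpow_of_exponent_le hT3' (by linarith)
      _ = Real.sqrt T := hsT.symm
      _ ≤ Real.sqrt x := Real.sqrt_le_sqrt hTx
  have hb' : T ^ ε * Real.sqrt x * (Q * NA) ≤ NA * x * Real.sqrt Q := by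
    calc T ^ ε * Real.sqrt x * (Q * NA)
        = (T ^ ε * Real.sqrt Q) * (Real.sqrt Q * Real.sqrt x * NA) := by
          nth_rewrite 1 [← hsQ]
          ring
      _ ≤ Real.sqrt x * (Real.sqrt Q * Real.sqrt x * NA) := by gcongr
      _ = NA * (Real.sqrt x * Real.sqrt x) * Real.sqrt Q := by ring
      _ = NA * x * Real.sqrt Q := by rw [hsx]
  have hfirst : (1 + C1) * (Real.sqrt x * (1 + Real.log x)) *
        (∑ q ∈ Icc 1 ⌊2 * Q⌋₊, ∑ χ ∈ pc q, ‖∑ a ∈ Icc 1 ⌊NA⌋₊, c a * χ a‖) ≤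
      (1 + C1) * (4 / Real.sqrt c0 + 8) * NA * x * Real.sqrt Q / Real.log T ^ 8 := by
    rw [le_div_iff₀ hLpos]
    calc (1 + C1) * (Real.sqrt x * (1 + Real.log x)) *
        (∑ q ∈ Icc 1 ⌊2 * Q⌋₊, ∑ χ ∈ pc q, ‖∑ a ∈ Icc 1 ⌊NA⌋₊, c a * χ a‖) * Real.log T ^ 8
        ≤ (1 + C1) * (Real.sqrt x * ((1 + b) * Real.log T)) *
        (4 * Q ^ 2 * Real.sqrt NA + 8 * Q * NA) * Real.log T ^ 8 := by gcongr
      _ = (1 + C1) * (((1 + b) * Real.log T ^ 9) * Real.sqrt x *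
        (4 * Q ^ 2 * Real.sqrt NA + 8 * Q * NA)) := by ring
      _ ≤ (1 + C1) * (T ^ ε * Real.sqrt x * (4 * Q ^ 2 * Real.sqrt NA + 8 * Q * NA)) := by gcongr
      _ = (1 + C1) * (4 * (T ^ ε * Real.sqrt x * (Q ^ 2 * Real.sqrt NA)) +
        8 * (T ^ ε * Real.sqrt x * (Q * NA))) := by ring
      _ ≤ (1 + C1) * (4 * (NA * x * Real.sqrt Q / Real.sqrt c0) + 8 * (NA * x * Real.sqrt Q)) := by
          gcongr
      _ = _ := by ring
  calc _ ≤ (1 + C1) * (4 / Real.sqrt c0 + 8) * NA * x * Real.sqrt Q / Real.log T ^ 8 +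
        C2 * NA * x * Real.sqrt Q / Real.log T ^ 8 := add_le_add hfirst hII
    _ = _ := by ring

end H69LB
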