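import Pool.Agent.H69.LB.Exb
import Pool.Agent.H69.LB.Co3

/-!
# PNW: the smooth prime number theorem with square root error

Apply `expl` to `F(ξ) = e^{ξ/2} W(ξ - log x)`, `log x ≥ M + 1` (so `F ξ = 0` for `ξ ≤ 1`).
`∑' Λ(n) n^{-1/2} F(log n) = ∑_{n ≤ NN M x} Λ(n) W(log(n/x)) = psW W M x 1`, `∫ F e^{ξ/2} = x ∫ W(η) e^η dη`, the error is
`C ∫ |W(ξ - log x)| dξ = O(1)`. `PsiF F g = x^{1/2} e^{i g log x} ∫ e^{η/2} W(η) e^{iηg} dη`, and `‖∫ e^{η/2} W(η) e^{iηg} dη‖ ≤ C/(1+g²)` (two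
integrations by parts, or decay of the Fourier transform of a Schwartz function), so
`∑ w_i ‖PsiF F (γ_i)‖ ≤ C √x ∑ w_i/(1+γ_i²) ≤ C' √x` (`boundW` at `t = 0`; summability from `hasSum`). Then pass to
`thW` by `psW_sub_thW`.
-/

open MeasureTheory
open scoped ContDiff

namespace H69LB

/-- one integration by parts -/
private theorem PNW_ibp {V : ℝ → ℂ} (hV : ContDiff ℝ ∞ V) (hc : HasCompactSupport V) (g : ℝ) :
    ∫ η, deriv V η * Complex.exp (Complex.I * ((η * g : ℝ) : ℂ))
      = -(Complex.I * g) * ∫ η, V η * Complex.exp (Complex.I * ((η * g : ℝ) : ℂ)) := by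
  have hd : ∀ η : ℝ, HasDerivAt (fun η : ℝ => Complex.exp (Complex.I * ((η * g : ℝ) : ℂ)))
      (Complex.exp (Complex.I * ((η * g : ℝ) : ℂ)) * (Complex.I * g)) η := by
    intro η
    have h1 : HasDerivAt (fun η : ℝ => ((η : ℝ) : ℂ)) 1 η := Complex.ofRealCLM.hasDerivAt
    have h2 : HasDerivAt (fun η : ℝ => Complex.I * ((η * g : ℝ) : ℂ)) (Complex.I * g) η := by
      have h3 := (h1.mul_const (g : ℂ)).const_mul Complex.I
      simp only [one_mul] at h3
      refine h3.congr_of_eventuallyEq (Filter.Eventually.of_forall fun y => ?_)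
      simp
    exact h2.cexp
  have hce : Continuous fun η : ℝ => Complex.exp (Complex.I * ((η * g : ℝ) : ℂ)) := by
    fun_prop
  have hVd : ∀ η : ℝ, HasDerivAt V (deriv V η) η := fun η =>
    ((hV.differentiable (by simp)).differentiableAt).hasDerivAt
  have hdc : Continuous (deriv V) := hV.continuous_deriv (by simp)
  have h := integral_mul_deriv_eq_deriv_mul_of_integrable (A := ℂ)
    (u := V) (v := fun η : ℝ => Complex.exp (Complex.I * ((η * g : ℝ) : ℂ)))
    (u' := deriv V) (v' := fun η : ℝ => Complex.exp (Complex.I * ((η * g : ℝ) : ℂ)) * (Complex.I * g))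
    (fun x _ => hVd x) (fun x _ => hd x)
    ((hV.continuous.mul (hce.mul continuous_const)).integrable_of_hasCompactSupport hc.mul_right)
    ((hdc.mul hce).integrable_of_hasCompactSupport hc.deriv.mul_right)
    ((hV.continuous.mul hce).integrable_of_hasCompactSupport hc.mul_right)
  have h4 : ∫ η, V η * (Complex.exp (Complex.I * ((η * g : ℝ) : ℂ)) * (Complex.I * g))
      = (Complex.I * g) * ∫ η, V η * Complex.exp (Complex.I * ((η * g : ℝ) : ℂ)) := by
    rw [← integral_const_mul]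
    congr 1
    ext η
    ring
  rw [h4] at h
  rw [neg_mul, h, neg_neg]

/-- decay of the Fourier transform -/
private theorem PNW_decay {V : ℝ → ℂ} (hV : ContDiff ℝ ∞ V) (hc : HasCompactSupport V) :
    ∃ C : ℝ, 0 ≤ C ∧ ∀ g : ℝ, ‖∫ η, V η * Complex.exp (Complex.I * ((η * g : ℝ) : ℂ))‖ ≤ C / (1 + g ^ 2) := by
  have hV1 : ContDiff ℝ ∞ (deriv V) := (contDiff_infty_iff_deriv.1 hV).2
  have hb : ∀ (U : ℝ → ℂ) (g : ℝ), ‖∫ η, U η * Complex.exp (Complex.I * ((η * g : ℝ) : ℂ))‖ ≤ ∫ η, ‖U η‖ := by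
    intro U g
    refine (norm_integral_le_integral_norm _).trans (le_of_eq ?_)
    congr 1
    ext η
    rw [norm_mul, mul_comm Complex.I, Complex.norm_exp_ofReal_mul_I, mul_one]
  refine ⟨(∫ η, ‖V η‖) + ∫ η, ‖deriv (deriv V) η‖, by positivity, fun g => ?_⟩
  have h1 := PNW_ibp hV hc g
  have h2 := PNW_ibp hV1 hc.deriv g
  rw [h1] at h2
  have h3 := hb V g
  have h4 := hb (deriv (deriv V)) g
  rw [h2] at h4
  set G := ∫ η, V η * Complex.exp (Complex.I * ((η * g : ℝ) : ℂ))
  have h5 : ‖-(Complex.I * (g : ℂ)) * (-(Complex.I * (g : ℂ)) * G)‖ = g ^ 2 * ‖G‖ := by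
    rw [norm_mul, norm_mul, norm_neg, norm_mul, Complex.norm_I, Complex.norm_real, one_mul, ← mul_assoc,
      Real.norm_eq_abs, abs_mul_abs_self, ← sq]
  rw [h5] at h4
  rw [le_div_iff₀ (by positivity)]
  nlinarith

theorem thW_one {ι : Type} [Countable ι] {γ w : ι → ℝ} {F : ℝ → Finset ι} {A : ℝ → ℝ} {k0 : ℝ}
    (Z : Zer γ w F A k0) {M : ℝ} (hM : 0 < M) {W : ℝ → ℝ} (hW : WS M W) :
    ∃ C x0 : ℝ, 0 ≤ C ∧ ∀ x, x0 ≤ x →
      ‖thW W M x (fun _ => 1) - ((x * ∫ η, W η * Real.exp η : ℝ) : ℂ)‖ ≤ C * Real.sqrt x * (1 + Real.log x) := by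
  obtain ⟨C0, hC0, hexpl⟩ := expl Z
  obtain ⟨C2, hC2, hpt⟩ := psW_sub_thW hM hW
  have hWc : HasCompactSupport W := by
    refine HasCompactSupport.intro (isCompact_Icc (a := -M) (b := M)) fun η hη => hW.zero η ?_
    rw [Set.mem_Icc, ← abs_le, not_le] at hη
    exact hη.le
  set V : ℝ → ℂ := fun η => ((Real.exp (η / 2) * W η : ℝ) : ℂ) with hVdef
  have hVs : ContDiff ℝ ∞ V := by
    refine Complex.ofRealCLM.contDiff.comp ?_
    exact (Real.contDiff_exp.comp (contDiff_id.div_const 2)).mul hW.smooth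
  have hVc : HasCompactSupport V := by
    refine HasCompactSupport.intro (isCompact_Icc (a := -M) (b := M)) fun η hη => ?_
    rw [Set.mem_Icc, ← abs_le, not_le] at hη
    simp [hVdef, hW.zero η hη.le]
  obtain ⟨C1, hC1, hdec⟩ := PNW_decay hVs hVc
  obtain ⟨CW, hCW, hbW⟩ := Z.boundW
  have hbW0 := hbW 0
  have hsumW : Summable fun i => w i / (1 + γ i ^ 2) := by
    refine (Z.hasSum 0).summable.congr fun i => ?_
    simp [pk, div_eq_mul_inv]
  have hW0 : ∑' i, w i / (1 + γ i ^ 2) ≤ CW := by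
    refine le_trans (le_of_eq ?_) (hbW0.trans (le_of_eq ?_))
    · refine tsum_congr fun i => ?_
      rw [zero_sub, neg_sq]
    · simp
  have hI0 : 0 ≤ ∫ η, |W η| := integral_nonneg fun η => abs_nonneg _
  refine ⟨C2 + C1 * CW + C0 * ∫ η, |W η|, Real.exp (M + 1), by positivity, fun x hx => ?_⟩
  have hx0 : 0 < x := (Real.exp_pos _).trans_le hx
  have hL : M + 1 ≤ Real.log x := (Real.le_log_iff_exp_le hx0).2 hx
  have hx1 : 1 ≤ x := by
    have : (1 : ℝ) ≤ Real.exp (M + 1) := Real.one_le_exp (by linarith)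
    linarith
  set L := Real.log x with hLdef
  have hexpL : Real.exp L = x := Real.exp_log hx0
  set F1 : ℝ → ℂ := fun ξ => ((Real.exp (ξ / 2) * W (ξ - L) : ℝ) : ℂ) with hF1def
  have hF1s : ContDiff ℝ ∞ F1 := by
    refine Complex.ofRealCLM.contDiff.comp ?_
    exact (Real.contDiff_exp.comp (contDiff_id.div_const 2)).mul
      (hW.smooth.comp (contDiff_id.sub contDiff_const))
  have hF1c : HasCompactSupport F1 := by
    refine HasCompactSupport.intro (isCompact_Icc (a := L - M) (b := L + M)) fun η hη => ?_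
    have h1 : M ≤ |η - L| := by
      by_contra h
      rw [not_le, abs_lt] at h
      exact hη ⟨by linarith, by linarith⟩
    simp [hF1def, hW.zero _ h1]
  have hF10 : ∀ ξ ≤ 1, F1 ξ = 0 := by
    intro ξ hξ
    have h1 : M ≤ |ξ - L| := by
      rw [abs_of_nonpos (by linarith)]
      linarith
    simp [hF1def, hW.zero _ h1]
  obtain ⟨hsm, hmain⟩ := hexpl F1 hF1s hF1c hF10
  -- the prime side
  have hprime : ∑' n : ℕ, ((ArithmeticFunction.vonMangoldt n * (n : ℝ) ^ (-(1 / 2) : ℝ) : ℝ) : ℂ) * F1 (Real.log n)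
      = psW W M x (fun _ => 1) := by
    rw [psW]
    have hterm : ∀ n : ℕ, 1 ≤ n →
        ((ArithmeticFunction.vonMangoldt n * (n : ℝ) ^ (-(1 / 2) : ℝ) : ℝ) : ℂ) * F1 (Real.log n)
          = ((ArithmeticFunction.vonMangoldt n * W (Real.log (n / x)) : ℝ) : ℂ) := by
      intro n hn
      have hn0 : (0 : ℝ) < n := by exact_mod_cast hn
      rw [hF1def]
      simp only
      rw [← Complex.ofReal_mul]
      congr 1
      rw [Real.log_div hn0.ne' hx0.ne', Real.rpow_def_of_pos hn0]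
      have : Real.exp (Real.log n * (-(1 / 2))) * Real.exp (Real.log n / 2) = 1 := by
        rw [← Real.exp_add, show Real.log n * (-(1 / 2)) + Real.log n / 2 = 0 by ring, Real.exp_zero]
      calc ArithmeticFunction.vonMangoldt n * Real.exp (Real.log n * (-(1 / 2))) *
            (Real.exp (Real.log n / 2) * W (Real.log n - L))
          = ArithmeticFunction.vonMangoldt n *
            (Real.exp (Real.log n * (-(1 / 2))) * Real.exp (Real.log n / 2)) * W (Real.log n - L) := by ring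
        _ = _ := by rw [this, mul_one]
    rw [tsum_eq_sum (s := Finset.Icc 1 (NN M x))]
    · refine Finset.sum_congr rfl fun n hn => ?_
      rw [hterm n (Finset.mem_Icc.1 hn).1, mul_one]
    · intro n hn
      rcases Nat.eq_zero_or_pos n with rfl | hn1
      · simp
      · rw [hterm n hn1]
        have hn2 : NN M x < n := by
          by_contra h
          exact hn (Finset.mem_Icc.2 ⟨hn1, not_lt.1 h⟩)
        have hn0 : (0 : ℝ) < n := by exact_mod_cast hn1
        have h3 : x * Real.exp M < n := (Nat.floor_lt (by positivity)).1 hn2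
        have h4 : M ≤ |Real.log (n / x)| := by
          refine le_trans ?_ (le_abs_self _)
          rw [Real.le_log_iff_exp_le (by positivity), le_div_iff₀ hx0, mul_comm]
          exact h3.le
        rw [hW.zero _ h4]
        simp
  -- the main term
  have hmt : ∫ ξ, F1 ξ * ((Real.exp (ξ / 2) : ℝ) : ℂ) = ((x * ∫ η, W η * Real.exp η : ℝ) : ℂ) := by
    have h1 : ∀ ξ : ℝ, F1 ξ * ((Real.exp (ξ / 2) : ℝ) : ℂ)
        = ((x * (W (ξ - L) * Real.exp (ξ - L)) : ℝ) : ℂ) := by
      intro ξ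
      rw [hF1def]
      simp only
      rw [← Complex.ofReal_mul]
      congr 1
      have h2 : Real.exp (ξ / 2) * Real.exp (ξ / 2) = x * Real.exp (ξ - L) := by
        rw [← Real.exp_add, ← hexpL, ← Real.exp_add]
        congr 1
        ring
      calc Real.exp (ξ / 2) * W (ξ - L) * Real.exp (ξ / 2)
          = (Real.exp (ξ / 2) * Real.exp (ξ / 2)) * W (ξ - L) := by ring
        _ = _ := by rw [h2]; ring
    simp_rw [h1]
    rw [integral_complex_ofReal, integral_const_mul]
    congr 2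
    exact integral_sub_right_eq_self (fun η => W η * Real.exp η) L
  -- the error
  have herr : ∫ ξ, ‖F1 ξ‖ * Real.exp (-(ξ / 2)) = ∫ η, |W η| := by
    have h1 : ∀ ξ : ℝ, ‖F1 ξ‖ * Real.exp (-(ξ / 2)) = |W (ξ - L)| := by
      intro ξ
      rw [hF1def]
      simp only
      rw [Complex.norm_real, norm_mul, Real.norm_of_nonneg (Real.exp_pos _).le, Real.norm_eq_abs, Real.exp_neg]
      field_simp
    simp_rw [h1]
    exact integral_sub_right_eq_self (fun η => |W η|) L
  -- the zeros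
  have hPsi : ∀ g : ℝ, ‖PsiF F1 g‖ ≤ Real.sqrt x * (C1 / (1 + g ^ 2)) := by
    intro g
    have h1 : PsiF F1 g = ((Real.sqrt x : ℝ) : ℂ) * Complex.exp (Complex.I * ((L * g : ℝ) : ℂ)) *
        ∫ η, V η * Complex.exp (Complex.I * ((η * g : ℝ) : ℂ)) := by
      rw [PsiF]
      have h2 : ∀ ξ : ℝ, F1 ξ * Complex.exp (Complex.I * ((ξ * g : ℝ) : ℂ))
          = ((Real.sqrt x : ℝ) : ℂ) * Complex.exp (Complex.I * ((L * g : ℝ) : ℂ)) *
            (V (ξ - L) * Complex.exp (Complex.I * (((ξ - L) * g : ℝ) : ℂ))) := by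
        intro ξ
        have h3 : Real.exp (ξ / 2) = Real.sqrt x * Real.exp ((ξ - L) / 2) := by
          rw [Real.sqrt_eq_rpow, Real.rpow_def_of_pos hx0, ← Real.exp_add]
          congr 1
          rw [← hLdef]
          ring
        have h4 : Complex.exp (Complex.I * ((ξ * g : ℝ) : ℂ))
            = Complex.exp (Complex.I * ((L * g : ℝ) : ℂ)) * Complex.exp (Complex.I * (((ξ - L) * g : ℝ) : ℂ)) := by
          rw [← Complex.exp_add]
          congr 1
          push_cast
          ring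
        rw [hF1def, hVdef]
        simp only
        rw [h3, h4]
        push_cast
        ring
      simp_rw [h2]
      rw [integral_const_mul]
      congr 1
      exact integral_sub_right_eq_self (fun η => V η * Complex.exp (Complex.I * ((η * g : ℝ) : ℂ))) L
    rw [h1, norm_mul, norm_mul, mul_comm Complex.I, Complex.norm_exp_ofReal_mul_I, mul_one, Complex.norm_real,
      Real.norm_of_nonneg (Real.sqrt_nonneg x)]
    gcongr
    exact hdec g
  have hzer : ‖∑' i, (w i : ℂ) * PsiF F1 (γ i)‖ ≤ Real.sqrt x * (C1 * CW) := by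
    have hn : Summable fun i => ‖(w i : ℂ) * PsiF F1 (γ i)‖ := by
      refine hsm.congr fun i => ?_
      rw [norm_mul, Complex.norm_real, Real.norm_of_nonneg (Z.w_nonneg i)]
    refine (norm_tsum_le_tsum_norm hn).trans ?_
    have hs2 : Summable fun i => Real.sqrt x * C1 * (w i / (1 + γ i ^ 2)) := hsumW.mul_left _
    refine (hn.tsum_le_tsum (g := fun i => Real.sqrt x * C1 * (w i / (1 + γ i ^ 2))) (fun i => ?_) hs2).trans ?_
    · rw [norm_mul, Complex.norm_real, Real.norm_of_nonneg (Z.w_nonneg i)]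
      calc w i * ‖PsiF F1 (γ i)‖ ≤ w i * (Real.sqrt x * (C1 / (1 + γ i ^ 2))) :=
            mul_le_mul_of_nonneg_left (hPsi _) (Z.w_nonneg i)
        _ = _ := by ring
    · rw [tsum_mul_left, mul_assoc]
      gcongr
  -- conclusion
  rw [hprime, hmt, herr] at hmain
  have hp := hpt x hx1 (fun _ => 1) (fun _ => by simp)
  set Sz := ∑' i, (w i : ℂ) * PsiF F1 (γ i)
  set mt := ((x * ∫ η, W η * Real.exp η : ℝ) : ℂ)
  have hsq : 1 ≤ Real.sqrt x := Real.one_le_sqrt.2 hx1
  have hl1 : 1 ≤ 1 + L := by linarith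
  have hdecomp : thW W M x (fun _ => 1) - mt
      = -(psW W M x (fun _ => 1) - thW W M x (fun _ => 1)) + (Sz - mt + psW W M x (fun _ => 1)) - Sz := by
    ring
  rw [hdecomp]
  calc ‖-(psW W M x (fun _ => 1) - thW W M x (fun _ => 1)) + (Sz - mt + psW W M x (fun _ => 1)) - Sz‖
      ≤ ‖-(psW W M x (fun _ => 1) - thW W M x (fun _ => 1)) + (Sz - mt + psW W M x (fun _ => 1))‖ + ‖Sz‖ :=
        norm_sub_le _ _
    _ ≤ ‖-(psW W M x (fun _ => 1) - thW W M x (fun _ => 1))‖ + ‖Sz - mt + psW W M x (fun _ => 1)‖ + ‖Sz‖ := by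
        gcongr
        exact norm_add_le _ _
    _ ≤ C2 * Real.sqrt x * (1 + L) + C0 * (∫ η, |W η|) + Real.sqrt x * (C1 * CW) := by
        rw [norm_neg]
        gcongr
    _ ≤ C2 * Real.sqrt x * (1 + L) + C0 * (∫ η, |W η|) * (Real.sqrt x * (1 + L))
          + C1 * CW * (Real.sqrt x * (1 + L)) := by
        have h1 : 1 ≤ Real.sqrt x * (1 + L) := by nlinarith
        have h2 : Real.sqrt x ≤ Real.sqrt x * (1 + L) := by nlinarith
        have h3 : C0 * (∫ η, |W η|) * 1 ≤ C0 * (∫ η, |W η|) * (Real.sqrt x * (1 + L)) :=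
          mul_le_mul_of_nonneg_left h1 (by positivity)
        have h4 : C1 * CW * Real.sqrt x ≤ C1 * CW * (Real.sqrt x * (1 + L)) :=
          mul_le_mul_of_nonneg_left h2 (by positivity)
        linarith
    _ = _ := by ring

end H69LB
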