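import Pool.Agent.H69.LB.Defs
import Pool.Agent.H69.LB.Div

/-!
# FRB: elementary properties of the system of frequencies

`L = log T`, `h = T^(α-1) ≥ 1`, `h₁ = h L^120`, `R_k = ⌈h₁ (1+κ)^k⌉`, `K = KK`, `H = cH h`.
* `Rk_ge`: clear. `Rk_succ_le`: `R_{k+1} ≤ h₁(1+κ)^{k+1} + 1 ≤ (1+κ) R_k + 1 ≤ (1+2κ) R_k` as `κ R_k ≥ κ L^120 ≥ 1`.
* `Rk_KK_le`: if `K ≥ 1` then `(1+κ)^K ≤ T^(1/2-ε)/(2 h₁)` (definition of `K` as a floor), so
  `R_K ≤ T^(1/2-ε)/2 + 1 ≤ T^(1/2-ε)`; `Rk` is monotone in `k`.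
* `KK_le`: `h₁ ≥ 1`, so `K ≤ L/log(1+κ)`.
* `Rk_KK_ge`: `(1+κ)^{K+1} ≥ T^(1/2-ε)/(2 h₁)` (also when the logarithm is negative, then `K = 0`).
* `mem_Th`: `a > A1` gives `a ≥ A1 + 1 > δ R_k/H` and `r ≤ R_{k+1} ≤ (1+2κ) R_k ≤ 2 R_k`; `a ≤ A2 ≤ R_k/H`, `r > R_k`.
* `sum_Th`: the boxes are disjoint because the intervals `(R_k, R_{k+1}]` are (`Rk` monotone), then unfold `Bx`.
* `sum_abs_cf`: `∑ |c_θ| ≤ ∑_{k<K} ∑_{r ∈ (R_k, R_{k+1}]} A2_k/φ(r)`, `A2_k ≤ R_k/H`, `1/φ(r) ≤ 2(1+log r)/r ≤ 2 (1+L)/R_k`,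
  at most `R_{k+1}-R_k ≤ R_k` values of `r`: `≤ K (2(1+L)) max_k R_k/H ≤ C L² T^(1/2-ε)/h`.
-/

namespace H69LB

open Finset

private theorem frb_h1_nonneg {T α : ℝ} (hT : 1 ≤ T) : 0 ≤ h1 T α := by
  unfold h1
  have : 0 ≤ Real.log T := Real.log_nonneg hT
  positivity

/-- for `T` large: `T ≥ 16`, `log T ≥ 1` and `κ (log T)^120 ≥ 1` -/
private noncomputable def frbT (κ : ℝ) : ℝ := max 16 (Real.exp (1 / κ + 1))

private theorem frbT_spec {κ T : ℝ} (hκ : 0 < κ) (h : frbT κ ≤ T) :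
    16 ≤ T ∧ 1 ≤ Real.log T ∧ 1 ≤ κ * Real.log T ^ 120 := by
  have h16 : (16 : ℝ) ≤ T := le_trans (le_max_left _ _) h
  have h2 : Real.exp (1 / κ + 1) ≤ T := le_trans (le_max_right _ _) h
  have hT : 0 < T := by linarith
  have h3 : 1 / κ + 1 ≤ Real.log T := (Real.le_log_iff_exp_le hT).2 h2
  have h4 : 0 < 1 / κ := by positivity
  have h5 : 1 ≤ Real.log T := by linarith
  refine ⟨h16, h5, ?_⟩
  have h6 : Real.log T ≤ Real.log T ^ 120 := le_self_pow₀ h5 (by norm_num)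
  have h7 : 1 / κ ≤ Real.log T ^ 120 := by linarith
  calc (1 : ℝ) = κ * (1 / κ) := by field_simp
    _ ≤ κ * Real.log T ^ 120 := by gcongr

private theorem frb_h1_ge {T α : ℝ} (hT : 1 ≤ T) (hL : 1 ≤ Real.log T) (hα : 1 ≤ α) :
    Real.log T ^ 120 ≤ h1 T α ∧ 1 ≤ h1 T α := by
  unfold h1
  have h1 : 1 ≤ T ^ (α - 1) := Real.one_le_rpow hT (by linarith)
  have h2 : 1 ≤ Real.log T ^ 120 := one_le_pow₀ hL
  constructor
  · nlinarith
  · nlinarith

theorem Rk_mono (P : Par) (hP : P.Ok) {T α : ℝ} (hT : 1 ≤ T) : Monotone (Rk P T α) := by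
  intro i j hij
  unfold Rk
  apply Nat.ceil_mono
  have := frb_h1_nonneg (α := α) hT
  have h1 : (1 : ℝ) ≤ 1 + P.κ := by linarith [hP.κ_pos]
  gcongr

theorem Rk_ge (P : Par) (hP : P.Ok) {T α : ℝ} (hT : 1 ≤ T) (k : ℕ) : h1 T α ≤ Rk P T α k := by
  unfold Rk
  refine le_trans ?_ (Nat.le_ceil _)
  have := frb_h1_nonneg (α := α) hT
  have h1 : (1 : ℝ) ≤ 1 + P.κ := by linarith [hP.κ_pos]
  exact le_mul_of_one_le_right this (one_le_pow₀ h1)

theorem Rk_succ_le (P : Par) (hP : P.Ok) : ∃ T0 : ℝ, ∀ T, T0 ≤ T → ∀ α : ℝ, 1 ≤ α → ∀ k,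
    (Rk P T α (k + 1) : ℝ) ≤ (1 + 2 * P.κ) * Rk P T α k := by
  refine ⟨frbT P.κ, fun T hT α hα k => ?_⟩
  obtain ⟨h16, hL, hκ⟩ := frbT_spec hP.κ_pos hT
  have hT1 : (1 : ℝ) ≤ T := by linarith
  obtain ⟨hh, hh1⟩ := frb_h1_ge hT1 hL hα
  have hge := Rk_ge P hP (α := α) hT1 k
  have hκ0 := hP.κ_pos
  have h0 : 0 ≤ h1 T α * (1 + P.κ) ^ (k + 1) := by positivity
  have hle : (Rk P T α (k + 1) : ℝ) ≤ h1 T α * (1 + P.κ) ^ (k + 1) + 1 :=
    (Nat.ceil_lt_add_one h0).le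
  have hk : h1 T α * (1 + P.κ) ^ k ≤ Rk P T α k := Nat.le_ceil _
  have h2 : h1 T α * (1 + P.κ) ^ (k + 1) = (1 + P.κ) * (h1 T α * (1 + P.κ) ^ k) := by ring
  have h3 : (1 + P.κ) * (h1 T α * (1 + P.κ) ^ k) ≤ (1 + P.κ) * Rk P T α k := by gcongr
  have h4 : 1 ≤ P.κ * Rk P T α k := by
    refine hκ.trans ?_
    gcongr
    exact hh.trans hge
  rw [h2] at hle
  linarith

theorem Rk_KK_le (P : Par) (hP : P.Ok) : ∃ T0 : ℝ, ∀ T, T0 ≤ T → ∀ α : ℝ, 1 ≤ α →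
    0 < KK P T α → (Rk P T α (KK P T α) : ℝ) ≤ T ^ (1 / 2 - P.ε) := by
  refine ⟨frbT P.κ, fun T hT α hα hK => ?_⟩
  obtain ⟨h16, hL, hκ⟩ := frbT_spec hP.κ_pos hT
  have hT1 : (1 : ℝ) ≤ T := by linarith
  obtain ⟨hh, hh1⟩ := frb_h1_ge hT1 hL hα
  have hκ0 := hP.κ_pos
  have hlog : 0 < Real.log (1 + P.κ) := Real.log_pos (by linarith)
  have hTp : 0 < T ^ (1 / 2 - P.ε) := Real.rpow_pos_of_pos (by linarith) _
  have hpos : 0 ≤ Real.log (T ^ (1 / 2 - P.ε) / 2 / h1 T α) / Real.log (1 + P.κ) := by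
    by_contra hc
    push Not at hc
    have : KK P T α = 0 := Nat.floor_of_nonpos hc.le
    omega
  have hKle : (KK P T α : ℝ) ≤ Real.log (T ^ (1 / 2 - P.ε) / 2 / h1 T α) / Real.log (1 + P.κ) :=
    Nat.floor_le hpos
  rw [le_div_iff₀ hlog, ← Real.log_pow] at hKle
  have hx : 0 < T ^ (1 / 2 - P.ε) / 2 / h1 T α := by positivity
  have h2 : (1 + P.κ) ^ (KK P T α) ≤ T ^ (1 / 2 - P.ε) / 2 / h1 T α :=
    (Real.log_le_log_iff (by positivity) hx).1 hKle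
  have h3 : h1 T α * (1 + P.κ) ^ (KK P T α) ≤ T ^ (1 / 2 - P.ε) / 2 := by
    rw [le_div_iff₀ (by linarith)] at h2
    linarith
  have h4 : (Rk P T α (KK P T α) : ℝ) ≤ h1 T α * (1 + P.κ) ^ (KK P T α) + 1 :=
    (Nat.ceil_lt_add_one (by positivity)).le
  have h5 : (2 : ℝ) ≤ T ^ (1 / 2 - P.ε) := by
    calc (2 : ℝ) = (16 : ℝ) ^ (1 / 4 : ℝ) := by
          rw [show (16 : ℝ) = (2 : ℝ) ^ (4 : ℝ) by norm_num, ← Real.rpow_mul (by norm_num)]
          norm_num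
      _ ≤ T ^ (1 / 4 : ℝ) := by gcongr
      _ ≤ T ^ (1 / 2 - P.ε) := Real.rpow_le_rpow_of_exponent_le hT1 (by linarith [hP.ε_le])
  linarith

theorem KK_le (P : Par) (hP : P.Ok) : ∃ C T0 : ℝ, ∀ T, T0 ≤ T → ∀ α : ℝ, 1 ≤ α →
    (KK P T α : ℝ) ≤ C * Real.log T := by
  refine ⟨1 / Real.log (1 + P.κ), frbT P.κ, fun T hT α hα => ?_⟩
  obtain ⟨h16, hL, hκ⟩ := frbT_spec hP.κ_pos hT
  have hT1 : (1 : ℝ) ≤ T := by linarith
  obtain ⟨hh, hh1⟩ := frb_h1_ge hT1 hL hα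
  have hκ0 := hP.κ_pos
  have hlog : 0 < Real.log (1 + P.κ) := Real.log_pos (by linarith)
  have hTp : 0 < T ^ (1 / 2 - P.ε) := Real.rpow_pos_of_pos (by linarith) _
  have hx : 0 < T ^ (1 / 2 - P.ε) / 2 / h1 T α := by positivity
  have hle : T ^ (1 / 2 - P.ε) / 2 / h1 T α ≤ T := by
    have h1 : T ^ (1 / 2 - P.ε) ≤ T ^ (1 : ℝ) :=
      Real.rpow_le_rpow_of_exponent_le hT1 (by linarith [hP.ε_pos])
    rw [Real.rpow_one] at h1
    rw [div_le_iff₀ (by linarith)]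
    nlinarith
  have h2 : Real.log (T ^ (1 / 2 - P.ε) / 2 / h1 T α) / Real.log (1 + P.κ)
      ≤ 1 / Real.log (1 + P.κ) * Real.log T := by
    rw [div_mul_eq_mul_div, one_mul]
    gcongr
  unfold KK
  rcases le_or_gt 0 (Real.log (T ^ (1 / 2 - P.ε) / 2 / h1 T α) / Real.log (1 + P.κ)) with h | h
  · exact (Nat.floor_le h).trans h2
  · rw [Nat.floor_of_nonpos h.le]
    push_cast
    positivity

theorem Rk_KK_ge (P : Par) (hP : P.Ok) : ∃ T0 : ℝ, ∀ T, T0 ≤ T → ∀ α : ℝ, 1 ≤ α →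
    T ^ (1 / 2 - P.ε) / (2 * (1 + P.κ)) ≤ (Rk P T α (KK P T α) : ℝ) := by
  refine ⟨frbT P.κ, fun T hT α hα => ?_⟩
  obtain ⟨h16, hL, hκ⟩ := frbT_spec hP.κ_pos hT
  have hT1 : (1 : ℝ) ≤ T := by linarith
  obtain ⟨hh, hh1⟩ := frb_h1_ge hT1 hL hα
  have hκ0 := hP.κ_pos
  have hlog : 0 < Real.log (1 + P.κ) := Real.log_pos (by linarith)
  have hTp : 0 < T ^ (1 / 2 - P.ε) := Real.rpow_pos_of_pos (by linarith) _
  have hx : 0 < T ^ (1 / 2 - P.ε) / 2 / h1 T α := by positivity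
  have h1' : Real.log (T ^ (1 / 2 - P.ε) / 2 / h1 T α) / Real.log (1 + P.κ) < (KK P T α : ℝ) + 1 :=
    Nat.lt_floor_add_one _
  rw [div_lt_iff₀ hlog] at h1'
  have h2 : Real.log (T ^ (1 / 2 - P.ε) / 2 / h1 T α) ≤ Real.log ((1 + P.κ) ^ (KK P T α + 1)) := by
    rw [Real.log_pow]; push_cast; exact h1'.le
  have h3 : T ^ (1 / 2 - P.ε) / 2 / h1 T α ≤ (1 + P.κ) ^ (KK P T α + 1) :=
    (Real.log_le_log_iff hx (by positivity)).1 h2
  have h4 : h1 T α * (1 + P.κ) ^ (KK P T α) ≤ Rk P T α (KK P T α) := Nat.le_ceil _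
  refine le_trans ?_ h4
  rw [div_le_iff₀ (by linarith)] at h3
  rw [div_le_iff₀ (by positivity)]
  rw [pow_succ] at h3
  linarith

private theorem frb_mem (P : Par) {T α : ℝ} {p : ℕ × ℕ} (hp : p ∈ Th P T α) :
    ∃ k < KK P T α, (A1 P T α k < p.1 ∧ p.1 ≤ A2 P T α k) ∧
      (Rk P T α k < p.2 ∧ p.2 ≤ Rk P T α (k + 1)) ∧ Squarefree p.2 ∧ Nat.Coprime p.1 p.2 := by
  unfold Th at hp
  rw [mem_biUnion] at hp
  obtain ⟨k, hk, hp⟩ := hp
  unfold Bx at hp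
  rw [mem_filter, mem_product, mem_Ioc, mem_Ioc] at hp
  exact ⟨k, mem_range.1 hk, hp.1.1, hp.1.2, hp.2.1, hp.2.2⟩

theorem mem_Th (P : Par) (hP : P.Ok) : ∃ T0 : ℝ, ∀ T, T0 ≤ T → ∀ α : ℝ, 1 ≤ α → ∀ p ∈ Th P T α,
    1 ≤ p.1 ∧ 1 ≤ p.2 ∧ Squarefree p.2 ∧ Nat.Coprime p.1 p.2 ∧ (p.2 : ℝ) ≤ T ^ (1 / 2 - P.ε) ∧
      P.δ / (2 * (P.cH * T ^ (α - 1))) ≤ (p.1 : ℝ) / p.2 ∧ (p.1 : ℝ) / p.2 ≤ 1 / (P.cH * T ^ (α - 1)) := by
  obtain ⟨Ta, hTa⟩ := Rk_succ_le P hP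
  obtain ⟨Tb, hTb⟩ := Rk_KK_le P hP
  refine ⟨max (max Ta Tb) (frbT P.κ), fun T hT α hα p hp => ?_⟩
  have hTaT : Ta ≤ T := le_trans (le_trans (le_max_left _ _) (le_max_left _ _)) hT
  have hTbT : Tb ≤ T := le_trans (le_trans (le_max_right _ _) (le_max_left _ _)) hT
  obtain ⟨h16, hL, hκ⟩ := frbT_spec hP.κ_pos (le_trans (le_max_right _ _) hT)
  have hT1 : (1 : ℝ) ≤ T := by linarith
  obtain ⟨hh, hh1⟩ := frb_h1_ge hT1 hL hα
  obtain ⟨k, hk, ⟨ha1, ha2⟩, ⟨hr1, hr2⟩, hsq, hco⟩ := frb_mem P hp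
  have hge := Rk_ge P hP (α := α) hT1 k
  have hRpos : (0 : ℝ) < Rk P T α k := by linarith
  have hr1' : (Rk P T α k : ℝ) < p.2 := by exact_mod_cast hr1
  have hr2' : (p.2 : ℝ) ≤ Rk P T α (k + 1) := by exact_mod_cast hr2
  have hp2 : (0 : ℝ) < p.2 := by linarith
  have hH : 0 < P.cH * T ^ (α - 1) := mul_pos hP.cH_pos (Real.rpow_pos_of_pos (by linarith) _)
  have hcH := hP.cH_pos
  have hHp : 0 < T ^ (α - 1) := Real.rpow_pos_of_pos (by linarith) _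
  have hsucc := hTa T hTaT α hα k
  refine ⟨by omega, by omega, hsq, hco, ?_, ?_, ?_⟩
  · refine hr2'.trans ?_
    have h1 : (Rk P T α (k + 1) : ℝ) ≤ Rk P T α (KK P T α) := by
      exact_mod_cast Rk_mono P hP hT1 (by omega : k + 1 ≤ KK P T α)
    exact h1.trans (hTb T hTbT α hα (by omega))
  · have h1 : P.δ * ((Rk P T α k : ℝ) / (P.cH * T ^ (α - 1))) ≤ p.1 := by
      have h2 : P.δ * ((Rk P T α k : ℝ) / (P.cH * T ^ (α - 1))) < (A1 P T α k : ℝ) + 1 :=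
        Nat.lt_floor_add_one _
      have h3 : (A1 P T α k : ℝ) + 1 ≤ p.1 := by exact_mod_cast ha1
      linarith
    have h4 : (p.2 : ℝ) ≤ 2 * Rk P T α k := by
      refine hr2'.trans (hsucc.trans ?_)
      have := hP.κ_le
      nlinarith
    rw [div_le_div_iff₀ (by positivity) hp2]
    calc P.δ * (p.2 : ℝ) ≤ P.δ * (2 * Rk P T α k) := by
          have := hP.δ_pos
          gcongr
      _ = (P.δ * ((Rk P T α k : ℝ) / (P.cH * T ^ (α - 1)))) * (2 * (P.cH * T ^ (α - 1))) := by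
          field_simp
      _ ≤ p.1 * (2 * (P.cH * T ^ (α - 1))) := by gcongr
  · have h1 : (p.1 : ℝ) ≤ (Rk P T α k : ℝ) / (P.cH * T ^ (α - 1)) := by
      have h2 : (A2 P T α k : ℝ) ≤ (Rk P T α k : ℝ) / (P.cH * T ^ (α - 1)) :=
        Nat.floor_le (by positivity)
      have h3 : (p.1 : ℝ) ≤ (A2 P T α k : ℝ) := by exact_mod_cast ha2
      linarith
    rw [div_le_div_iff₀ hp2 hH, one_mul]
    calc (p.1 : ℝ) * (P.cH * T ^ (α - 1)) ≤
        ((Rk P T α k : ℝ) / (P.cH * T ^ (α - 1))) * (P.cH * T ^ (α - 1)) := by gcongr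
      _ = Rk P T α k := by field_simp
      _ ≤ p.2 := hr1'.le

theorem sum_Th (P : Par) (hP : P.Ok) {T α : ℝ} (hT : 1 ≤ T) {β : Type*} [AddCommMonoid β] (F : ℕ → ℕ → β) :
    ∑ p ∈ Th P T α, F p.1 p.2 = ∑ k ∈ range (KK P T α),
      ∑ r ∈ (Ioc (Rk P T α k) (Rk P T α (k + 1))).filter Squarefree,
        ∑ a ∈ (Ioc (A1 P T α k) (A2 P T α k)).filter (fun a => Nat.Coprime a r), F a r := by
  unfold Th
  have hmono := Rk_mono P hP (α := α) hT
  rw [sum_biUnion]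
  · refine sum_congr rfl fun k _ => ?_
    unfold Bx
    rw [sum_filter, sum_product_right, sum_filter]
    refine sum_congr rfl fun r _ => ?_
    by_cases hr : Squarefree r
    · rw [if_pos hr, sum_filter]
      refine sum_congr rfl fun a _ => ?_
      simp only [hr, true_and]
    · rw [if_neg hr]
      refine sum_eq_zero fun a _ => ?_
      rw [if_neg]
      rintro ⟨h, -⟩
      exact hr h
  · intro i _ j _ hij
    rw [Function.onFun, disjoint_left]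
    intro p hp hq
    unfold Bx at hp hq
    rw [mem_filter, mem_product, mem_Ioc, mem_Ioc] at hp hq
    rcases lt_or_gt_of_ne hij with h | h
    · have := hmono (by omega : i + 1 ≤ j)
      omega
    · have := hmono (by omega : j + 1 ≤ i)
      omega

private theorem frb_cf_le {T : ℝ} {r R a : ℕ} (hR : 1 ≤ R) (hr : R ≤ r)
    (hrT : (r : ℝ) ≤ T) : |cf (a, r)| ≤ 2 * (1 + Real.log T) / R := by
  have hr1 : 1 ≤ r := by omega
  have hφ : 0 < Nat.totient r := Nat.totient_pos.2 (by omega)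
  have hφ' : (0 : ℝ) < Nat.totient r := by exact_mod_cast hφ
  have hR' : (0 : ℝ) < R := by exact_mod_cast hR
  have hr' : (0 : ℝ) < r := by exact_mod_cast hr1
  have h1 : |((ArithmeticFunction.moebius r : ℤ) : ℝ)| ≤ 1 := by
    have := ArithmeticFunction.abs_moebius_le_one (n := r)
    exact_mod_cast this
  unfold cf
  rw [abs_div, abs_of_pos hφ']
  rw [div_le_div_iff₀ hφ' hR']
  have h2 : (r : ℝ) ≤ 2 * (1 + Real.log r) * Nat.totient r := le_totient hr1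
  have h3 : Real.log r ≤ Real.log T := Real.log_le_log hr' hrT
  have h4 : (R : ℝ) ≤ r := by exact_mod_cast hr
  calc |((ArithmeticFunction.moebius r : ℤ) : ℝ)| * (R : ℝ) ≤ 1 * r := by gcongr
    _ ≤ 2 * (1 + Real.log r) * Nat.totient r := by rw [one_mul]; exact h2
    _ ≤ 2 * (1 + Real.log T) * Nat.totient r := by gcongr

theorem sum_abs_cf (P : Par) (hP : P.Ok) : ∃ C T0 : ℝ, 0 ≤ C ∧ ∀ T, T0 ≤ T → ∀ α : ℝ, 1 ≤ α →
    ∑ p ∈ Th P T α, |cf p| ≤ C * Real.log T ^ 2 * T ^ (1 / 2 - P.ε) / T ^ (α - 1) := by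
  obtain ⟨Ta, hTa⟩ := Rk_succ_le P hP
  obtain ⟨Tb, hTb⟩ := Rk_KK_le P hP
  obtain ⟨C0, Tc, hTc⟩ := KK_le P hP
  have hcH := hP.cH_pos
  refine ⟨4 * |C0| / P.cH, max (max Ta Tb) (max Tc (frbT P.κ)), by positivity, fun T hT α hα => ?_⟩
  have hTaT : Ta ≤ T := le_trans (le_trans (le_max_left _ _) (le_max_left _ _)) hT
  have hTbT : Tb ≤ T := le_trans (le_trans (le_max_right _ _) (le_max_left _ _)) hT
  have hTcT : Tc ≤ T := le_trans (le_trans (le_max_left _ _) (le_max_right _ _)) hT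
  obtain ⟨h16, hL, hκ⟩ :=
    frbT_spec hP.κ_pos (le_trans (le_trans (le_max_right _ _) (le_max_right _ _)) hT)
  have hT1 : (1 : ℝ) ≤ T := by linarith
  obtain ⟨hh, hh1⟩ := frb_h1_ge hT1 hL hα
  have hmono := Rk_mono P hP (α := α) hT1
  have hHpos : 0 < T ^ (α - 1) := Real.rpow_pos_of_pos (by linarith) _
  have hTp : 0 < T ^ (1 / 2 - P.ε) := Real.rpow_pos_of_pos (by linarith) _
  have hTle : T ^ (1 / 2 - P.ε) ≤ T := by
    have h1 : T ^ (1 / 2 - P.ε) ≤ T ^ (1 : ℝ) :=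
      Real.rpow_le_rpow_of_exponent_le hT1 (by linarith [hP.ε_pos])
    rwa [Real.rpow_one] at h1
  have hsum := sum_Th P hP (α := α) hT1 (fun a r => |cf (a, r)|)
  simp only [Prod.mk.eta] at hsum
  rw [hsum]
  have hbox : ∀ k ∈ range (KK P T α),
      ∑ r ∈ (Ioc (Rk P T α k) (Rk P T α (k + 1))).filter Squarefree,
        ∑ a ∈ (Ioc (A1 P T α k) (A2 P T α k)).filter (fun a => Nat.Coprime a r), |cf (a, r)|
      ≤ 2 * (1 + Real.log T) * T ^ (1 / 2 - P.ε) / (P.cH * T ^ (α - 1)) := by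
    intro k hk
    rw [mem_range] at hk
    have hge := Rk_ge P hP (α := α) hT1 k
    have hRpos : (0 : ℝ) < Rk P T α k := by linarith
    have hRnat : 1 ≤ Rk P T α k := by exact_mod_cast hRpos
    have hsucc := hTa T hTaT α hα k
    have hRK : (Rk P T α (k + 1) : ℝ) ≤ T ^ (1 / 2 - P.ε) := by
      have h1 : (Rk P T α (k + 1) : ℝ) ≤ Rk P T α (KK P T α) := by
        exact_mod_cast hmono (by omega : k + 1 ≤ KK P T α)
      exact h1.trans (hTb T hTbT α hα (by omega))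
    have hmk : Rk P T α k ≤ Rk P T α (k + 1) := hmono (by omega)
    have hmk' : (Rk P T α k : ℝ) ≤ Rk P T α (k + 1) := by exact_mod_cast hmk
    have hA2 : (A2 P T α k : ℝ) ≤ (Rk P T α k : ℝ) / (P.cH * T ^ (α - 1)) :=
      Nat.floor_le (by positivity)
    calc ∑ r ∈ (Ioc (Rk P T α k) (Rk P T α (k + 1))).filter Squarefree,
        ∑ a ∈ (Ioc (A1 P T α k) (A2 P T α k)).filter (fun a => Nat.Coprime a r), |cf (a, r)|
        ≤ ∑ r ∈ (Ioc (Rk P T α k) (Rk P T α (k + 1))).filter Squarefree,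
          ((Rk P T α k : ℝ) / (P.cH * T ^ (α - 1))) * (2 * (1 + Real.log T) / Rk P T α k) := by
          refine sum_le_sum fun r hr => ?_
          rw [mem_filter, mem_Ioc] at hr
          have hrT : (r : ℝ) ≤ T := by
            have : (r : ℝ) ≤ Rk P T α (k + 1) := by exact_mod_cast hr.1.2
            linarith
          calc ∑ a ∈ (Ioc (A1 P T α k) (A2 P T α k)).filter (fun a => Nat.Coprime a r), |cf (a, r)|
              ≤ ∑ a ∈ (Ioc (A1 P T α k) (A2 P T α k)).filter (fun a => Nat.Coprime a r),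
                (2 * (1 + Real.log T) / Rk P T α k) :=
                sum_le_sum fun a _ => frb_cf_le hRnat (by omega) hrT
            _ = (((Ioc (A1 P T α k) (A2 P T α k)).filter (fun a => Nat.Coprime a r)).card : ℝ) *
                (2 * (1 + Real.log T) / Rk P T α k) := by
                rw [sum_const, nsmul_eq_mul]
            _ ≤ (A2 P T α k : ℝ) * (2 * (1 + Real.log T) / Rk P T α k) := by
                gcongr
                refine (card_filter_le _ _).trans ?_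
                rw [Nat.card_Ioc]
                omega
            _ ≤ _ := by gcongr
      _ = ((((Ioc (Rk P T α k) (Rk P T α (k + 1))).filter Squarefree).card : ℝ)) *
          (((Rk P T α k : ℝ) / (P.cH * T ^ (α - 1))) * (2 * (1 + Real.log T) / Rk P T α k)) := by
          rw [sum_const, nsmul_eq_mul]
      _ ≤ (Rk P T α k : ℝ) *
          (((Rk P T α k : ℝ) / (P.cH * T ^ (α - 1))) * (2 * (1 + Real.log T) / Rk P T α k)) := by
          refine mul_le_mul_of_nonneg_right ?_ (by positivity)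
          have hcard : ((Ioc (Rk P T α k) (Rk P T α (k + 1))).filter Squarefree).card
              ≤ Rk P T α (k + 1) - Rk P T α k := by
            refine (card_filter_le _ _).trans ?_
            rw [Nat.card_Ioc]
          have hcard' : (((Ioc (Rk P T α k) (Rk P T α (k + 1))).filter Squarefree).card : ℝ)
              ≤ Rk P T α (k + 1) - Rk P T α k := by
            have : (((Ioc (Rk P T α k) (Rk P T α (k + 1))).filter Squarefree).card : ℝ)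
              ≤ ((Rk P T α (k + 1) - Rk P T α k : ℕ) : ℝ) := by exact_mod_cast hcard
            rwa [Nat.cast_sub hmk] at this
          have := hP.κ_le
          nlinarith
      _ = 2 * (1 + Real.log T) * (Rk P T α k : ℝ) / (P.cH * T ^ (α - 1)) := by
          field_simp
      _ ≤ _ := by
          gcongr
          exact hmk'.trans hRK
  calc _ ≤ ∑ k ∈ range (KK P T α),
        2 * (1 + Real.log T) * T ^ (1 / 2 - P.ε) / (P.cH * T ^ (α - 1)) := sum_le_sum hbox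
    _ = (KK P T α : ℝ) * (2 * (1 + Real.log T) * T ^ (1 / 2 - P.ε) / (P.cH * T ^ (α - 1))) := by
        rw [sum_const, card_range, nsmul_eq_mul]
    _ ≤ (|C0| * Real.log T) * (2 * (Real.log T + Real.log T) * T ^ (1 / 2 - P.ε) /
          (P.cH * T ^ (α - 1))) := by
        have h1 : (KK P T α : ℝ) ≤ |C0| * Real.log T := by
          refine (hTc T hTcT α hα).trans ?_
          gcongr
          exact le_abs_self C0
        gcongr
    _ = 4 * |C0| / P.cH * Real.log T ^ 2 * T ^ (1 / 2 - P.ε) / T ^ (α - 1) := by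
        field_simp
        ring

end H69LB
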