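import Pool.Agent.H69.LB.Defs

/-!
# NSP: nonstationary phase

`nsp`: put `φ(η) = γ η - om e^η`, `φ' = γ - om e^η`, `p = 1/φ'` on `[η1, η2]`; `|p| ≤ 1/λ`, `p' = om e^η p²`,
`p'' = om e^η p² + 2 om² e^{2η} p³`, so `|p'|, |p''| ≤ C/λ` because `om ≤ c2 λ`. Integrate by parts twice on `[η1, η2]`; the
boundary terms vanish since `W` and `W'` vanish at `η1, η2` (`W` is smooth and zero outside `(η1, η2)`):
`∫ W e^{iφ} = -(1/i) ∫ (W p)' e^{iφ} = (1/i²) ∫ ((W p)' p)' e^{iφ}`, and `|((W p)' p)'| ≤ C/λ²`.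

`tail`: case `γ ≤ 0`: `|γ - om e^η| = |γ| + om e^η ≥ |γ| + δ1 T =: λ` on `[η1, η2]`, and `om ≤ e^{-η2} T ≤ c2 λ`. Case `T < γ`:
`γ - om e^η ≥ γ - (1-δ) T ≥ δ γ =: λ`, `om ≤ e^{-η2} T ≤ c2 λ`. In both cases `λ² ≥ c (1 + γ²)` as `T ≥ 1`. The integral over
`ℝ` is the one over `[η1, η2]`.
-/

namespace H69LB

open MeasureTheory
open scoped ContDiff

/-- the phase factor -/
private noncomputable def nspg (γ om η : ℝ) : ℂ :=
  Complex.exp (Complex.I * ((γ * η - om * Real.exp η : ℝ) : ℂ))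

private lemma nspg_hasDerivAt (γ om η : ℝ) :
    HasDerivAt (nspg γ om) (Complex.I * ((γ - om * Real.exp η : ℝ) : ℂ) * nspg γ om η) η := by
  have h1 : HasDerivAt (fun η : ℝ => γ * η - om * Real.exp η) (γ - om * Real.exp η) η := by
    have := ((hasDerivAt_id η).const_mul γ).sub ((Real.hasDerivAt_exp η).const_mul om)
    have h2 := this.congr_deriv (by simp : γ * 1 - om * Real.exp η = γ - om * Real.exp η)
    exact h2
  have h2 : HasDerivAt (fun η : ℝ => Complex.I * ((γ * η - om * Real.exp η : ℝ) : ℂ))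
      (Complex.I * ((γ - om * Real.exp η : ℝ) : ℂ)) η := by
    have := (h1.ofReal_comp).const_mul Complex.I
    exact this
  have h3 := h2.cexp
  have e : Complex.exp (Complex.I * ((γ * η - om * Real.exp η : ℝ) : ℂ)) *
      (Complex.I * ((γ - om * Real.exp η : ℝ) : ℂ)) =
      Complex.I * ((γ - om * Real.exp η : ℝ) : ℂ) * nspg γ om η := by
    unfold nspg; ring
  rw [e] at h3
  exact h3

private lemma nspg_cont (γ om : ℝ) : Continuous (nspg γ om) := by
  unfold nspg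
  fun_prop

private lemma nspg_norm (γ om η : ℝ) : ‖nspg γ om η‖ = 1 := by
  unfold nspg
  rw [mul_comm]
  exact Complex.norm_exp_ofReal_mul_I _

/-- one integration by parts -/
private lemma nsp_step {η1 η2 : ℝ} (h12 : η1 < η2) (γ om : ℝ) (u u' : ℝ → ℝ)
    (hu : ∀ x ∈ Set.Icc η1 η2, HasDerivAt u (u' x) x) (hc : ContinuousOn u' (Set.Icc η1 η2))
    (h1 : u η1 = 0) (h2 : u η2 = 0) :
    ∫ η in η1..η2, ((u η : ℝ) : ℂ) * (((γ - om * Real.exp η : ℝ) : ℂ) * nspg γ om η) =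
      Complex.I * ∫ η in η1..η2, ((u' η : ℝ) : ℂ) * nspg γ om η := by
  have huIcc : Set.uIcc η1 η2 = Set.Icc η1 η2 := Set.uIcc_of_le h12.le
  have hu2 : ∀ x ∈ Set.uIcc η1 η2, HasDerivAt (fun η => ((u η : ℝ) : ℂ)) ((u' x : ℝ) : ℂ) x := by
    intro x hx
    rw [huIcc] at hx
    exact (hu x hx).ofReal_comp
  have hv2 : ∀ x ∈ Set.uIcc η1 η2, HasDerivAt (fun η => -Complex.I * nspg γ om η)
      (((γ - om * Real.exp x : ℝ) : ℂ) * nspg γ om x) x := by
    intro x _
    have := (nspg_hasDerivAt γ om x).const_mul (-Complex.I)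
    have e : -Complex.I * (Complex.I * ((γ - om * Real.exp x : ℝ) : ℂ) * nspg γ om x) =
        ((γ - om * Real.exp x : ℝ) : ℂ) * nspg γ om x := by
      have : -Complex.I * (Complex.I * ((γ - om * Real.exp x : ℝ) : ℂ) * nspg γ om x) =
        -(Complex.I * Complex.I) * (((γ - om * Real.exp x : ℝ) : ℂ) * nspg γ om x) := by ring
      rw [this, Complex.I_mul_I]; ring
    rw [e] at this
    exact this
  have hui : IntervalIntegrable (fun η => ((u' η : ℝ) : ℂ)) volume η1 η2 := by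
    apply ContinuousOn.intervalIntegrable
    rw [huIcc]
    exact Complex.continuous_ofReal.comp_continuousOn hc
  have hvi : IntervalIntegrable (fun η => ((γ - om * Real.exp η : ℝ) : ℂ) * nspg γ om η) volume η1 η2 := by
    apply Continuous.intervalIntegrable
    have := nspg_cont γ om
    fun_prop
  have := intervalIntegral.integral_mul_deriv_eq_deriv_mul hu2 hv2 hui hvi
  rw [this, h1, h2]
  simp only [Complex.ofReal_zero, zero_mul, sub_zero, zero_sub]
  rw [← intervalIntegral.integral_const_mul, ← intervalIntegral.integral_neg]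
  apply intervalIntegral.integral_congr
  intro x _
  simp only
  ring

private lemma nsp_deriv_left {η1 : ℝ} {W : ℝ → ℝ} (hW : Differentiable ℝ W)
    (h0 : ∀ η, η ≤ η1 → W η = 0) : deriv W η1 = 0 := by
  have h1 : HasDerivWithinAt W (deriv W η1) (Set.Iic η1) η1 := (hW η1).hasDerivAt.hasDerivWithinAt
  have h2 : HasDerivWithinAt W 0 (Set.Iic η1) η1 := by
    have : HasDerivWithinAt (fun _ : ℝ => (0 : ℝ)) 0 (Set.Iic η1) η1 := hasDerivWithinAt_const _ _ _
    exact this.congr (fun x hx => h0 x hx) (h0 η1 le_rfl)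
  exact (uniqueDiffWithinAt_Iic η1).eq_deriv _ h1 h2

private lemma nsp_deriv_right {η1 : ℝ} {W : ℝ → ℝ} (hW : Differentiable ℝ W)
    (h0 : ∀ η, η1 ≤ η → W η = 0) : deriv W η1 = 0 := by
  have h1 : HasDerivWithinAt W (deriv W η1) (Set.Ici η1) η1 := (hW η1).hasDerivAt.hasDerivWithinAt
  have h2 : HasDerivWithinAt W 0 (Set.Ici η1) η1 := by
    have : HasDerivWithinAt (fun _ : ℝ => (0 : ℝ)) 0 (Set.Ici η1) η1 := hasDerivWithinAt_const _ _ _
    exact this.congr (fun x hx => h0 x hx) (h0 η1 le_rfl)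
  exact (uniqueDiffWithinAt_Ici η1).eq_deriv _ h1 h2

theorem nsp {η1 η2 : ℝ} (h12 : η1 < η2) {W : ℝ → ℝ} (hW : ContDiff ℝ ∞ W)
    (h0 : ∀ η, η ≤ η1 ∨ η2 ≤ η → W η = 0) (c2 : ℝ) :
    ∃ C : ℝ, 0 ≤ C ∧ ∀ γ om lam : ℝ, 0 < om → 0 < lam → om ≤ c2 * lam →
      (∀ η ∈ Set.Icc η1 η2, lam ≤ |γ - om * Real.exp η|) →
      ‖∫ η in η1..η2, ((W η : ℝ) : ℂ) * Complex.exp (Complex.I * ((γ * η - om * Real.exp η : ℝ) : ℂ))‖
        ≤ C / lam ^ 2 := by
  have hW1 : ContDiff ℝ ∞ (deriv W) := by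
    have : ContDiff ℝ (∞ + 1) W := by simpa using hW
    exact ((contDiff_succ_iff_deriv (n := ∞)).1 this).2.2
  have hW2 : ContDiff ℝ ∞ (deriv (deriv W)) := by
    have : ContDiff ℝ (∞ + 1) (deriv W) := by simpa using hW1
    exact ((contDiff_succ_iff_deriv (n := ∞)).1 this).2.2
  have hWd : Differentiable ℝ W := hW.differentiable (by simp)
  have hW1d : Differentiable ℝ (deriv W) := hW1.differentiable (by simp)
  obtain ⟨M0, hM0⟩ := (isCompact_Icc (a := η1) (b := η2)).exists_bound_of_continuousOn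
    (hW.continuous.continuousOn)
  obtain ⟨M1, hM1⟩ := (isCompact_Icc (a := η1) (b := η2)).exists_bound_of_continuousOn
    (hW1.continuous.continuousOn)
  obtain ⟨M2, hM2⟩ := (isCompact_Icc (a := η1) (b := η2)).exists_bound_of_continuousOn
    (hW2.continuous.continuousOn)
  have hmem : η1 ∈ Set.Icc η1 η2 := ⟨le_rfl, h12.le⟩
  have hM0' : 0 ≤ M0 := le_trans (norm_nonneg _) (hM0 η1 hmem)
  have hM1' : 0 ≤ M1 := le_trans (norm_nonneg _) (hM1 η1 hmem)
  have hM2' : 0 ≤ M2 := le_trans (norm_nonneg _) (hM2 η1 hmem)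
  set E : ℝ := |c2| * Real.exp η2 with hE
  have hE0 : 0 ≤ E := by positivity
  refine ⟨(M2 + 3 * M1 * E + M0 * E + 3 * M0 * E ^ 2) * (η2 - η1), ?_, ?_⟩
  · have : 0 ≤ η2 - η1 := by linarith
    positivity
  intro γ om lam hom hlam hc2 hlow
  -- functions
  set q : ℝ → ℝ := fun η => γ - om * Real.exp η with hq
  have hqne : ∀ η ∈ Set.Icc η1 η2, q η ≠ 0 := by
    intro η hη h
    have := hlow η hη
    rw [hq] at h
    simp only at h
    rw [h, abs_zero] at this
    linarith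
  have hqd : ∀ η, HasDerivAt q (-(om * Real.exp η)) η := by
    intro η
    have := ((Real.hasDerivAt_exp η).const_mul om).const_sub γ
    exact this
  have hpd : ∀ η ∈ Set.Icc η1 η2, HasDerivAt (fun η => (q η)⁻¹) (om * Real.exp η * ((q η)⁻¹) ^ 2) η := by
    intro η hη
    have := (hqd η).inv (hqne η hη)
    have e : - -(om * Real.exp η) / q η ^ 2 = om * Real.exp η * ((q η)⁻¹) ^ 2 := by
      rw [neg_neg, inv_pow, div_eq_mul_inv]
    rw [e] at this
    exact this
  have hqc : Continuous q := by rw [hq]; fun_prop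
  have hpc : ContinuousOn (fun η => (q η)⁻¹) (Set.Icc η1 η2) := hqc.continuousOn.inv₀ hqne
  -- first step
  have hu1 : ∀ x ∈ Set.Icc η1 η2, HasDerivAt (fun η => W η * (q η)⁻¹)
      (deriv W x * (q x)⁻¹ + W x * (om * Real.exp x * ((q x)⁻¹) ^ 2)) x := by
    intro x hx
    exact (hWd x).hasDerivAt.mul (hpd x hx)
  have hc1 : ContinuousOn (fun x => deriv W x * (q x)⁻¹ + W x * (om * Real.exp x * ((q x)⁻¹) ^ 2))
      (Set.Icc η1 η2) := by
    refine (hW1.continuous.continuousOn.mul hpc).add (hW.continuous.continuousOn.mul ?_)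
    refine ContinuousOn.mul ?_ (hpc.pow 2)
    exact (Continuous.continuousOn (by fun_prop))
  have s1 := nsp_step h12 γ om _ _ hu1 hc1 (by simp [h0 η1 (Or.inl le_rfl)]) (by simp [h0 η2 (Or.inr le_rfl)])
  -- second step
  have hu2 : ∀ x ∈ Set.Icc η1 η2, HasDerivAt
      (fun x => (deriv W x * (q x)⁻¹ + W x * (om * Real.exp x * ((q x)⁻¹) ^ 2)) * (q x)⁻¹)
      (deriv (deriv W) x * ((q x)⁻¹) ^ 2 + 3 * deriv W x * (om * Real.exp x) * ((q x)⁻¹) ^ 3
        + W x * (om * Real.exp x) * ((q x)⁻¹) ^ 3 + 3 * W x * (om * Real.exp x) ^ 2 * ((q x)⁻¹) ^ 4) x := by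
    intro x hx
    have hW' := (hWd x).hasDerivAt
    have hW'' := (hW1d x).hasDerivAt
    have hp := hpd x hx
    have hex := (Real.hasDerivAt_exp x).const_mul om
    have h := ((hW''.mul hp).add (hW'.mul (hex.mul (hp.pow 2)))).mul hp
    refine h.congr_deriv ?_
    simp only [Pi.mul_apply, Pi.add_apply, Pi.pow_apply]
    push_cast
    ring
  have hc2' : ContinuousOn (fun x => deriv (deriv W) x * ((q x)⁻¹) ^ 2
        + 3 * deriv W x * (om * Real.exp x) * ((q x)⁻¹) ^ 3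
        + W x * (om * Real.exp x) * ((q x)⁻¹) ^ 3 + 3 * W x * (om * Real.exp x) ^ 2 * ((q x)⁻¹) ^ 4)
      (Set.Icc η1 η2) := by
    have a0 := hW.continuous
    have a1 := hW1.continuous
    have a2 := hW2.continuous
    refine (((?_ : ContinuousOn _ _).add ?_).add ?_).add ?_
    · exact a2.continuousOn.mul (hpc.pow 2)
    · exact ContinuousOn.mul (Continuous.continuousOn (by fun_prop)) (hpc.pow 3)
    · exact ContinuousOn.mul (Continuous.continuousOn (by fun_prop)) (hpc.pow 3)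
    · exact ContinuousOn.mul (Continuous.continuousOn (by fun_prop)) (hpc.pow 4)
  have d1 : deriv W η1 = 0 := nsp_deriv_left hWd (fun η h => h0 η (Or.inl h))
  have d2 : deriv W η2 = 0 := nsp_deriv_right hWd (fun η h => h0 η (Or.inr h))
  have s2 := nsp_step h12 γ om _ _ hu2 hc2' (by simp [h0 η1 (Or.inl le_rfl), d1])
    (by simp [h0 η2 (Or.inr le_rfl), d2])
  -- combine
  have e1 : ∫ η in η1..η2, ((W η : ℝ) : ℂ) * Complex.exp (Complex.I * ((γ * η - om * Real.exp η : ℝ) : ℂ)) =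
      ∫ η in η1..η2, ((W η * (q η)⁻¹ : ℝ) : ℂ) * (((γ - om * Real.exp η : ℝ) : ℂ) * nspg γ om η) := by
    apply intervalIntegral.integral_congr
    intro x hx
    rw [Set.uIcc_of_le h12.le] at hx
    have hne := hqne x hx
    have hne' : ((q x : ℝ) : ℂ) ≠ 0 := by exact_mod_cast hne
    simp only
    have : ((γ - om * Real.exp x : ℝ) : ℂ) = ((q x : ℝ) : ℂ) := rfl
    rw [this]
    unfold nspg
    push_cast
    field_simp
  have e2 : ∫ η in η1..η2, ((deriv W η * (q η)⁻¹ + W η * (om * Real.exp η * ((q η)⁻¹) ^ 2) : ℝ) : ℂ)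
        * nspg γ om η =
      ∫ η in η1..η2, (((deriv W η * (q η)⁻¹ + W η * (om * Real.exp η * ((q η)⁻¹) ^ 2)) * (q η)⁻¹ : ℝ) : ℂ)
        * (((γ - om * Real.exp η : ℝ) : ℂ) * nspg γ om η) := by
    apply intervalIntegral.integral_congr
    intro x hx
    rw [Set.uIcc_of_le h12.le] at hx
    have hne := hqne x hx
    have hne' : ((q x : ℝ) : ℂ) ≠ 0 := by exact_mod_cast hne
    simp only
    have : ((γ - om * Real.exp x : ℝ) : ℂ) = ((q x : ℝ) : ℂ) := rfl
    rw [this, Complex.ofReal_mul _ (q x)⁻¹]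
    have h3 : (((q x)⁻¹ : ℝ) : ℂ) * ((q x : ℝ) : ℂ) = 1 := by
      rw [Complex.ofReal_inv]; exact inv_mul_cancel₀ hne'
    calc _ = ((deriv W x * (q x)⁻¹ + W x * (om * Real.exp x * ((q x)⁻¹) ^ 2) : ℝ) : ℂ) *
          ((((q x)⁻¹ : ℝ) : ℂ) * ((q x : ℝ) : ℂ)) * nspg γ om x := by rw [h3]; ring
      _ = _ := by ring
  rw [e1, s1, e2, s2]
  rw [norm_mul, norm_mul, Complex.norm_I, one_mul, one_mul]
  have hb : ∀ x ∈ Set.uIoc η1 η2, ‖((deriv (deriv W) x * ((q x)⁻¹) ^ 2
        + 3 * deriv W x * (om * Real.exp x) * ((q x)⁻¹) ^ 3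
        + W x * (om * Real.exp x) * ((q x)⁻¹) ^ 3
        + 3 * W x * (om * Real.exp x) ^ 2 * ((q x)⁻¹) ^ 4 : ℝ) : ℂ) * nspg γ om x‖ ≤
      (M2 + 3 * M1 * E + M0 * E + 3 * M0 * E ^ 2) / lam ^ 2 := by
    intro x hx
    rw [Set.uIoc_of_le h12.le] at hx
    have hx' : x ∈ Set.Icc η1 η2 := ⟨hx.1.le, hx.2⟩
    rw [norm_mul, nspg_norm, mul_one, Complex.norm_real]
    have hp : |(q x)⁻¹| ≤ lam⁻¹ := by
      rw [abs_inv]
      exact inv_anti₀ hlam (hlow x hx')
    have hom1 : |om * Real.exp x| ≤ E * lam := by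
      rw [abs_of_nonneg (by positivity)]
      have h1 : om ≤ |c2| * lam := le_trans hc2 (mul_le_mul_of_nonneg_right (le_abs_self _) hlam.le)
      have h2 : Real.exp x ≤ Real.exp η2 := Real.exp_le_exp.2 hx.2
      calc om * Real.exp x ≤ (|c2| * lam) * Real.exp η2 := mul_le_mul h1 h2 (Real.exp_pos _).le (by positivity)
        _ = E * lam := by rw [hE]; ring
    have hw0 := hM0 x hx'
    have hw1 := hM1 x hx'
    have hw2 := hM2 x hx'
    rw [Real.norm_eq_abs] at hw0 hw1 hw2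
    have hl0 : 0 < lam⁻¹ := inv_pos.2 hlam
    have t1 : |deriv (deriv W) x * ((q x)⁻¹) ^ 2| ≤ M2 * (lam⁻¹) ^ 2 := by
      rw [abs_mul, abs_pow]
      gcongr
    have t2 : |3 * deriv W x * (om * Real.exp x) * ((q x)⁻¹) ^ 3| ≤ 3 * M1 * (E * lam) * (lam⁻¹) ^ 3 := by
      rw [abs_mul, abs_mul, abs_mul, abs_pow, abs_of_pos (by norm_num : (0:ℝ) < 3)]
      gcongr
    have t3 : |W x * (om * Real.exp x) * ((q x)⁻¹) ^ 3| ≤ M0 * (E * lam) * (lam⁻¹) ^ 3 := by
      rw [abs_mul, abs_mul, abs_pow]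
      gcongr
    have t4 : |3 * W x * (om * Real.exp x) ^ 2 * ((q x)⁻¹) ^ 4| ≤ 3 * M0 * (E * lam) ^ 2 * (lam⁻¹) ^ 4 := by
      rw [abs_mul, abs_mul, abs_mul, abs_pow, abs_pow, abs_of_pos (by norm_num : (0:ℝ) < 3)]
      gcongr
    rw [Real.norm_eq_abs]
    calc _ ≤ |deriv (deriv W) x * ((q x)⁻¹) ^ 2| + |3 * deriv W x * (om * Real.exp x) * ((q x)⁻¹) ^ 3|
        + |W x * (om * Real.exp x) * ((q x)⁻¹) ^ 3| + |3 * W x * (om * Real.exp x) ^ 2 * ((q x)⁻¹) ^ 4| := by
          refine (abs_add_le _ _).trans (add_le_add ((abs_add_le _ _).trans (add_le_add (abs_add_le _ _) le_rfl)) le_rfl)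
      _ ≤ M2 * (lam⁻¹) ^ 2 + 3 * M1 * (E * lam) * (lam⁻¹) ^ 3 + M0 * (E * lam) * (lam⁻¹) ^ 3
          + 3 * M0 * (E * lam) ^ 2 * (lam⁻¹) ^ 4 := by gcongr
      _ = (M2 + 3 * M1 * E + M0 * E + 3 * M0 * E ^ 2) / lam ^ 2 := by
          field_simp
  have := intervalIntegral.norm_integral_le_of_norm_le_const hb
  refine this.trans ?_
  rw [abs_of_nonneg (by linarith)]
  rw [div_mul_eq_mul_div]

theorem tail {η1 η2 : ℝ} (h12 : η1 < η2) {W : ℝ → ℝ} (hW : ContDiff ℝ ∞ W)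
    (h0 : ∀ η, η ≤ η1 ∨ η2 ≤ η → W η = 0) {δ δ1 : ℝ} (hδ : 0 < δ) (hδ' : δ < 1) (hδ1 : 0 < δ1) :
    ∃ C : ℝ, 0 ≤ C ∧ ∀ γ om T : ℝ, 1 ≤ T → δ1 * T ≤ om * Real.exp η1 → om * Real.exp η2 ≤ (1 - δ) * T →
      (γ ≤ 0 ∨ T < γ) →
      ‖∫ η, ((W η : ℝ) : ℂ) * Complex.exp (Complex.I * ((γ * η - om * Real.exp η : ℝ) : ℂ))‖
        ≤ C / (1 + γ ^ 2) := by
  obtain ⟨C, hC, h⟩ := nsp h12 hW h0 (Real.exp (-η2) * (1 / δ1 + 1 / δ))
  set m := min 1 δ1 with hm
  have hm0 : 0 < m := lt_min one_pos hδ1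
  refine ⟨C * (1 / m ^ 2 + 2 / δ ^ 2), by positivity, ?_⟩
  intro γ om T hT h1 h2 hγ
  have hTpos : 0 < T := by linarith
  have hom : 0 < om := by
    have : 0 < om * Real.exp η1 := lt_of_lt_of_le (by positivity) h1
    exact (pos_iff_pos_of_mul_pos this).2 (Real.exp_pos _)
  have homT : om ≤ Real.exp (-η2) * T := by
    have : om * Real.exp η2 ≤ T := by nlinarith
    calc om = Real.exp (-η2) * (om * Real.exp η2) := by
          rw [Real.exp_neg]; field_simp
      _ ≤ Real.exp (-η2) * T := by gcongr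
  have hsupp : Function.support (fun η => ((W η : ℝ) : ℂ) *
      Complex.exp (Complex.I * ((γ * η - om * Real.exp η : ℝ) : ℂ))) ⊆ Set.Ioc η1 η2 := by
    intro η hη
    rw [Function.mem_support] at hη
    by_contra hc
    apply hη
    have : W η = 0 := by
      apply h0
      rw [Set.mem_Ioc, not_and_or, not_lt, not_le] at hc
      rcases hc with hc | hc
      · exact Or.inl hc
      · exact Or.inr hc.le
    rw [this]; simp
  rw [← intervalIntegral.integral_eq_integral_of_support_subset hsupp]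
  rcases hγ with hγ | hγ
  · -- γ ≤ 0
    have hlam : 0 < |γ| + δ1 * T := by positivity
    have hle : om ≤ Real.exp (-η2) * (1 / δ1 + 1 / δ) * (|γ| + δ1 * T) := by
      refine homT.trans ?_
      rw [mul_assoc]
      refine mul_le_mul_of_nonneg_left ?_ (Real.exp_pos _).le
      calc T = 1 / δ1 * (δ1 * T) := by field_simp
        _ ≤ (1 / δ1 + 1 / δ) * (|γ| + δ1 * T) := by
          apply mul_le_mul
          · have : 0 < 1 / δ := by positivity
            linarith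
          · have := abs_nonneg γ
            linarith
          · positivity
          · positivity
    have := h γ om (|γ| + δ1 * T) hom hlam hle (by
      intro η hη
      have h3 : Real.exp η1 ≤ Real.exp η := Real.exp_le_exp.2 hη.1
      have h4 : δ1 * T ≤ om * Real.exp η := h1.trans (by gcongr)
      have h5 : 0 < om * Real.exp η := by positivity
      rw [abs_of_nonpos hγ, abs_of_nonpos (by linarith)]
      linarith)
    refine this.trans ?_
    have hl2 : m ^ 2 * (1 + γ ^ 2) ≤ (|γ| + δ1 * T) ^ 2 := by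
      have g1 : m ≤ 1 := min_le_left _ _
      have g2 : m ≤ δ1 := min_le_right _ _
      have g3 : m * (|γ| + 1) ≤ |γ| + δ1 * T := by
        have a1 : m * |γ| ≤ |γ| := by nlinarith [abs_nonneg γ]
        have a2 : m ≤ δ1 * T := by nlinarith
        linarith
      calc m ^ 2 * (1 + γ ^ 2) ≤ m ^ 2 * (|γ| + 1) ^ 2 := by
            have : 1 + γ ^ 2 ≤ (|γ| + 1) ^ 2 := by
              nlinarith [sq_abs γ, abs_nonneg γ]
            gcongr
        _ = (m * (|γ| + 1)) ^ 2 := by ring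
        _ ≤ (|γ| + δ1 * T) ^ 2 := by
            have : 0 ≤ m * (|γ| + 1) := by positivity
            gcongr
    calc C / (|γ| + δ1 * T) ^ 2 ≤ C / (m ^ 2 * (1 + γ ^ 2)) := by
          apply div_le_div_of_nonneg_left hC (by positivity) hl2
      _ = C * (1 / m ^ 2) / (1 + γ ^ 2) := by field_simp
      _ ≤ C * (1 / m ^ 2 + 2 / δ ^ 2) / (1 + γ ^ 2) := by
          gcongr
          have : 0 < 2 / δ ^ 2 := by positivity
          linarith
  · -- T < γ
    have hγ0 : 0 < γ := by linarith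
    have hlam : 0 < δ * γ := by positivity
    have hle : om ≤ Real.exp (-η2) * (1 / δ1 + 1 / δ) * (δ * γ) := by
      refine homT.trans ?_
      rw [mul_assoc]
      refine mul_le_mul_of_nonneg_left ?_ (Real.exp_pos _).le
      calc T ≤ γ := hγ.le
        _ = 1 / δ * (δ * γ) := by field_simp
        _ ≤ (1 / δ1 + 1 / δ) * (δ * γ) := by
          have : 0 < 1 / δ1 := by positivity
          gcongr
          linarith
    have := h γ om (δ * γ) hom hlam hle (by
      intro η hη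
      have h3 : Real.exp η ≤ Real.exp η2 := Real.exp_le_exp.2 hη.2
      have h4 : om * Real.exp η ≤ (1 - δ) * T := le_trans (by gcongr) h2
      have h5 : (1 - δ) * T ≤ (1 - δ) * γ := by
        have : 0 ≤ 1 - δ := by linarith
        gcongr
      rw [abs_of_nonneg (by nlinarith)]
      linarith)
    refine this.trans ?_
    have hl2 : δ ^ 2 / 2 * (1 + γ ^ 2) ≤ (δ * γ) ^ 2 := by
      have : 1 ≤ γ ^ 2 := by nlinarith
      have h5 : 0 < δ ^ 2 := by positivity
      nlinarith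
    calc C / (δ * γ) ^ 2 ≤ C / (δ ^ 2 / 2 * (1 + γ ^ 2)) := by
          apply div_le_div_of_nonneg_left hC (by positivity) hl2
      _ = C * (2 / δ ^ 2) / (1 + γ ^ 2) := by field_simp
      _ ≤ C * (1 / m ^ 2 + 2 / δ ^ 2) / (1 + γ ^ 2) := by
          gcongr
          have : 0 < 1 / m ^ 2 := by positivity
          linarith

end H69LB
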