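import Pool.Agent.H69.LB.Zdf
import Pool.Agent.H69.LB.Nsp

/-!
# ZTA: basic facts on a piece; the zeros outside `(0, T]`

Let `W = Wof χ`, `x = T^α`, `y = α log T = log x`, `h = T^(α-1)`.
* `Wof_WS`: on `(η1, η2)` one has `|η| = η` or `|η| = -η`, so `W = e^{∓2η} χ(η)` everywhere (both vanish elsewhere).
* `Fof_eq`: `conj ee t = ee (-t)`, the product of the two exponentials is `e^{-2|ξ-y|}`.
* `PsiF_eq`: substitute `ξ = y + η`: `e^{ξ/2} = x^{1/2} e^{η/2}`, `(a/r) e^ξ = x (a/r) e^η`,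
  `ee (-(x θ e^η)) e^{i g (y+η)} = e^{i g y} exp(i (g η - 2π x θ e^η))`.
* `tail_zeros`: `om = 2π x θ`, `θ = p.1/p.2`, satisfies, with `cH = 2π e^{η2}/(1-δ)` (`mem_Th`),
  `om e^{η2} ≤ 2π x e^{η2}/(cH h) = (1-δ) T` and `om e^{η1} ≥ 2π x δ e^{η1}/(2 cH h) = δ1 T`, `δ1 = δ (1-δ) e^{η1-η2}/2`. Apply `tail` to
  `e^{η/2} W(η)` for each `p`, and `sum_abs_cf`: `x^{1/2} ∑ |c_p| ≤ C (hT)^{1/2} L² T^{1/2-ε}/h ≤ C L² T^{1-ε}`.
-/

open MeasureTheory
open scoped ContDiff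

namespace H69LB

private theorem zta_Wof_smooth {η1 η2 : ℝ} {χ : ℝ → ℝ} (h : Pc η1 η2 χ) : ContDiff ℝ ∞ (Wof χ) := by
  have hχ := h.smooth
  rcases h.side with h0 | h0
  · have e : Wof χ = fun η => Real.exp (2 * η) * χ η := by
      funext η
      unfold Wof
      rcases le_or_gt η2 η with hη | hη
      · rw [h.zero η (Or.inr hη), mul_zero, mul_zero]
      · rw [abs_of_neg (hη.trans_le h0)]
        congr 2
        ring
    rw [e]
    fun_prop
  · have e : Wof χ = fun η => Real.exp (-(2 * η)) * χ η := by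
      funext η
      unfold Wof
      rcases le_or_gt η η1 with hη | hη
      · rw [h.zero η (Or.inl hη), mul_zero, mul_zero]
      · rw [abs_of_pos (h0.trans_lt hη)]
    rw [e]
    fun_prop

private theorem zta_Wof_zero {η1 η2 : ℝ} {χ : ℝ → ℝ} (h : Pc η1 η2 χ) (η : ℝ)
    (hη : η ≤ η1 ∨ η2 ≤ η) : Wof χ η = 0 := by
  unfold Wof
  rw [h.zero η hη, mul_zero]

theorem Wof_WS {η1 η2 : ℝ} {χ : ℝ → ℝ} (h : Pc η1 η2 χ) {M : ℝ} (h1 : -M ≤ η1) (h2 : η2 ≤ M) :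
    WS M (Wof χ) := by
  refine ⟨zta_Wof_smooth h, fun η hη => zta_Wof_zero h η ?_⟩
  rcases le_abs.mp hη with h3 | h3
  · exact Or.inr (h2.trans h3)
  · exact Or.inl (by linarith)

private theorem zta_ee_cont : Continuous ee := by
  unfold ee
  fun_prop

private theorem zta_ee_contDiff : ContDiff ℝ ∞ ee := by
  unfold ee
  have h : ContDiff ℝ ∞ (fun t : ℝ => (t : ℂ)) := Complex.ofRealCLM.contDiff
  exact ((contDiff_const.mul h).mul contDiff_const).cexp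

private theorem zta_conj_ee (t : ℝ) : (starRingEnd ℂ) (ee t) = ee (-t) := by
  unfold ee
  rw [← Complex.exp_conj]
  congr 1
  simp only [map_mul, Complex.conj_ofReal, Complex.conj_I, Complex.ofReal_neg, map_ofNat]
  ring

theorem bP_continuous {η1 η2 : ℝ} {χ : ℝ → ℝ} (h : Pc η1 η2 χ) (P : Par) (T α : ℝ) :
    Continuous (bP χ P T α) := by
  have hχ : Continuous χ := h.smooth.continuous
  have hee := zta_ee_cont
  unfold bP
  fun_prop

theorem bP_compact {η1 η2 : ℝ} {χ : ℝ → ℝ} (h : Pc η1 η2 χ) (P : Par) (T α : ℝ) :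
    HasCompactSupport (bP χ P T α) := by
  refine HasCompactSupport.intro (isCompact_Icc (a := α * Real.log T + η1)
    (b := α * Real.log T + η2)) fun ξ hξ => ?_
  have h0 : χ (ξ - α * Real.log T) = 0 := by
    refine h.zero _ ?_
    by_contra hc
    push Not at hc
    exact hξ ⟨by linarith [hc.1], by linarith [hc.2]⟩
  unfold bP
  rw [h0, mul_zero, Complex.ofReal_zero, zero_mul, neg_zero]

theorem Fof_eq (χ : ℝ → ℝ) (P : Par) (T α ξ : ℝ) :
    Fof (bP χ P T α) (α * Real.log T) ξ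
      = -(((2 * Real.pi * Real.exp (ξ / 2) * Wof χ (ξ - α * Real.log T) : ℝ) : ℂ) *
        ∑ p ∈ Th P T α, (cf p : ℂ) * ee (-((p.1 : ℝ) / p.2 * Real.exp ξ))) := by
  have h1 : (starRingEnd ℂ) (bP χ P T α ξ) =
      -(((Real.exp (ξ / 2) * Real.exp (-|ξ - α * Real.log T|) * χ (ξ - α * Real.log T) : ℝ) : ℂ) *
      ∑ p ∈ Th P T α, (cf p : ℂ) * ee (-((p.1 : ℝ) / p.2 * Real.exp ξ))) := by
    unfold bP
    rw [map_neg, map_mul, Complex.conj_ofReal, map_sum]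
    congr 2
    refine Finset.sum_congr rfl fun p _ => ?_
    rw [map_mul, Complex.conj_ofReal, zta_conj_ee]
  unfold Fof
  rw [h1]
  have h2 : 2 * Real.pi * Real.exp (ξ / 2) * Wof χ (ξ - α * Real.log T) =
      2 * Real.pi * Real.exp (-|ξ - α * Real.log T|) *
      (Real.exp (ξ / 2) * Real.exp (-|ξ - α * Real.log T|) * χ (ξ - α * Real.log T)) := by
    have h3 : Real.exp (-(2 * |ξ - α * Real.log T|)) =
        Real.exp (-|ξ - α * Real.log T|) * Real.exp (-|ξ - α * Real.log T|) := by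
      rw [← Real.exp_add]
      congr 1
      ring
    unfold Wof
    rw [h3]
    ring
  rw [h2]
  push_cast
  ring

theorem Fof_smooth {η1 η2 : ℝ} {χ : ℝ → ℝ} (h : Pc η1 η2 χ) (P : Par) (T α : ℝ) :
    ContDiff ℝ ∞ (Fof (bP χ P T α) (α * Real.log T)) := by
  have e : Fof (bP χ P T α) (α * Real.log T) = fun ξ =>
      -(((2 * Real.pi * Real.exp (ξ / 2) * Wof χ (ξ - α * Real.log T) : ℝ) : ℂ) *
        ∑ p ∈ Th P T α, (cf p : ℂ) * ee (-((p.1 : ℝ) / p.2 * Real.exp ξ))) := by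
    funext ξ
    exact Fof_eq χ P T α ξ
  rw [e]
  have hW := zta_Wof_smooth h
  have h1 : ContDiff ℝ ∞ fun ξ : ℝ => 2 * Real.pi * Real.exp (ξ / 2) * Wof χ (ξ - α * Real.log T) := by
    have h2 : ContDiff ℝ ∞ fun ξ : ℝ => Wof χ (ξ - α * Real.log T) :=
      hW.comp (contDiff_id.sub contDiff_const)
    exact (by fun_prop : ContDiff ℝ ∞ fun ξ : ℝ => 2 * Real.pi * Real.exp (ξ / 2)).mul h2
  have h3 : ContDiff ℝ ∞ fun ξ : ℝ =>
      ((2 * Real.pi * Real.exp (ξ / 2) * Wof χ (ξ - α * Real.log T) : ℝ) : ℂ) :=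
    Complex.ofRealCLM.contDiff.comp h1
  have h4 : ContDiff ℝ ∞ fun ξ : ℝ =>
      ∑ p ∈ Th P T α, (cf p : ℂ) * ee (-((p.1 : ℝ) / p.2 * Real.exp ξ)) := by
    refine ContDiff.sum fun p _ => contDiff_const.mul (zta_ee_contDiff.comp ?_)
    fun_prop
  exact (h3.mul h4).neg

private theorem zta_int {η1 η2 : ℝ} {χ : ℝ → ℝ} (h : Pc η1 η2 χ) (g om : ℝ) :
    Integrable fun η => ((Real.exp (η / 2) * Wof χ η : ℝ) : ℂ) *
      Complex.exp (Complex.I * ((g * η - om * Real.exp η : ℝ) : ℂ)) := by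
  have hW : Continuous (Wof χ) := (zta_Wof_smooth h).continuous
  have hc : Continuous fun η => ((Real.exp (η / 2) * Wof χ η : ℝ) : ℂ) *
      Complex.exp (Complex.I * ((g * η - om * Real.exp η : ℝ) : ℂ)) := by fun_prop
  refine hc.integrable_of_hasCompactSupport (HasCompactSupport.intro
    (isCompact_Icc (a := η1) (b := η2)) fun η hη => ?_)
  have h0 : Wof χ η = 0 := by
    refine zta_Wof_zero h η ?_
    by_contra hc
    push Not at hc
    exact hη ⟨hc.1.le, hc.2.le⟩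
  rw [h0, mul_zero, Complex.ofReal_zero, zero_mul]

theorem PsiF_eq {η1 η2 : ℝ} {χ : ℝ → ℝ} (h : Pc η1 η2 χ) (P : Par) {T : ℝ} (hT : 0 < T) (α g : ℝ) :
    PsiF (Fof (bP χ P T α) (α * Real.log T)) g
      = -(2 * Real.pi * ((Real.sqrt (T ^ α) : ℝ) : ℂ) * Complex.exp (Complex.I * ((α * Real.log T * g : ℝ) : ℂ)) *
        ∑ p ∈ Th P T α, (cf p : ℂ) * ∫ η, ((Real.exp (η / 2) * Wof χ η : ℝ) : ℂ) *
          Complex.exp (Complex.I * ((g * η - 2 * Real.pi * T ^ α * ((p.1 : ℝ) / p.2) * Real.exp η : ℝ) : ℂ))) := by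
  set y : ℝ := α * Real.log T with hy
  have hexp : Real.exp y = T ^ α := by
    rw [hy, Real.rpow_def_of_pos hT, mul_comm]
  have hsq : Real.sqrt (T ^ α) = Real.exp (y / 2) := by
    rw [← hexp, Real.exp_half]
  have hR : ∑ p ∈ Th P T α, (cf p : ℂ) * ∫ η, ((Real.exp (η / 2) * Wof χ η : ℝ) : ℂ) *
      Complex.exp (Complex.I * ((g * η - 2 * Real.pi * T ^ α * ((p.1 : ℝ) / p.2) * Real.exp η : ℝ) : ℂ)) =
      ∫ η, ∑ p ∈ Th P T α, (cf p : ℂ) * (((Real.exp (η / 2) * Wof χ η : ℝ) : ℂ) *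
      Complex.exp (Complex.I * ((g * η - 2 * Real.pi * T ^ α * ((p.1 : ℝ) / p.2) * Real.exp η : ℝ) : ℂ))) := by
    rw [integral_finset_sum _ fun p _ => (zta_int h g _).const_mul _]
    refine Finset.sum_congr rfl fun p _ => ?_
    rw [integral_const_mul]
  rw [hR, ← integral_const_mul, ← integral_neg]
  unfold PsiF
  rw [← integral_add_left_eq_self _ y]
  congr 1
  funext η
  rw [Fof_eq, ← hy, Finset.mul_sum, add_sub_cancel_left, Finset.mul_sum, neg_mul, Finset.sum_mul]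
  congr 1
  refine Finset.sum_congr rfl fun p _ => ?_
  have e1 : Real.exp ((y + η) / 2) = Real.sqrt (T ^ α) * Real.exp (η / 2) := by
    rw [hsq, ← Real.exp_add]
    congr 1
    ring
  have e2 : Real.exp (y + η) = T ^ α * Real.exp η := by
    rw [Real.exp_add, hexp]
  have e3 : ee (-((p.1 : ℝ) / p.2 * (T ^ α * Real.exp η))) *
      Complex.exp (Complex.I * (((y + η) * g : ℝ) : ℂ)) =
      Complex.exp (Complex.I * ((y * g : ℝ) : ℂ)) *
      Complex.exp (Complex.I * ((g * η - 2 * Real.pi * T ^ α * ((p.1 : ℝ) / p.2) * Real.exp η : ℝ) : ℂ)) := by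
    unfold ee
    rw [← Complex.exp_add, ← Complex.exp_add]
    congr 1
    push_cast
    ring
  rw [e1, e2]
  calc _ = ((2 * Real.pi * (Real.sqrt (T ^ α) * Real.exp (η / 2)) * Wof χ η : ℝ) : ℂ) * (cf p : ℂ) *
        (ee (-((p.1 : ℝ) / p.2 * (T ^ α * Real.exp η))) *
        Complex.exp (Complex.I * (((y + η) * g : ℝ) : ℂ))) := by ring
    _ = _ := by
      rw [e3]
      push_cast
      ring

theorem tail_zeros {η1 η2 : ℝ} {χ : ℝ → ℝ} (h : Pc η1 η2 χ) (P : Par) (hP : P.Ok)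
    (hcH : P.cH = 2 * Real.pi * Real.exp η2 / (1 - P.δ)) :
    ∃ C T0 : ℝ, 0 ≤ C ∧ ∀ T, T0 ≤ T → ∀ α : ℝ, 1 ≤ α → ∀ g : ℝ, (g ≤ 0 ∨ T < g) →
      ‖PsiF (Fof (bP χ P T α) (α * Real.log T)) g‖ ≤ C * Real.log T ^ 2 * T ^ (1 - P.ε) / (1 + g ^ 2) := by
  have hδ := hP.δ_pos
  have hδ' := hP.δ_lt
  have hc := hP.cH_pos
  have h1δ : 0 < 1 - P.δ := by linarith
  have hVs : ContDiff ℝ ∞ fun η => Real.exp (η / 2) * Wof χ η :=
    (by fun_prop : ContDiff ℝ ∞ fun η : ℝ => Real.exp (η / 2)).mul (zta_Wof_smooth h)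
  have hV0 : ∀ η, η ≤ η1 ∨ η2 ≤ η → Real.exp (η / 2) * Wof χ η = 0 := fun η hη => by
    rw [zta_Wof_zero h η hη, mul_zero]
  set δ1 : ℝ := P.δ * (1 - P.δ) * Real.exp (η1 - η2) / 2 with hδ1
  have hδ1p : 0 < δ1 := by positivity
  obtain ⟨C, hC, htail⟩ := tail h.lt hVs hV0 hδ hδ' hδ1p
  obtain ⟨Ta, hTa⟩ := mem_Th P hP
  obtain ⟨C', Tb, hC', hTb⟩ := sum_abs_cf P hP
  refine ⟨2 * Real.pi * C * C', max 1 (max Ta Tb), by positivity, fun T hT α hα g hg => ?_⟩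
  have hT1 : 1 ≤ T := (le_max_left _ _).trans hT
  have hTaT : Ta ≤ T := (le_max_left _ _).trans ((le_max_right _ _).trans hT)
  have hTbT : Tb ≤ T := (le_max_right _ _).trans ((le_max_right _ _).trans hT)
  have hT0 : 0 < T := one_pos.trans_le hT1
  have hh0 : 0 < T ^ (α - 1) := Real.rpow_pos_of_pos hT0 _
  have hTα : T ^ α = T * T ^ (α - 1) := by
    rw [Real.rpow_sub_one hT0.ne']
    field_simp
  have hg0 : 0 < 1 + g ^ 2 := by positivity
  have hterm : ∀ p ∈ Th P T α, ‖(cf p : ℂ) * ∫ η, ((Real.exp (η / 2) * Wof χ η : ℝ) : ℂ) *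
      Complex.exp (Complex.I * ((g * η - 2 * Real.pi * T ^ α * ((p.1 : ℝ) / p.2) * Real.exp η : ℝ) : ℂ))‖
      ≤ |cf p| * (C / (1 + g ^ 2)) := by
    intro p hp
    obtain ⟨_, _, _, _, _, hlo, hhi⟩ := hTa T hTaT α hα p hp
    rw [norm_mul, Complex.norm_real, Real.norm_eq_abs]
    refine mul_le_mul_of_nonneg_left ?_ (abs_nonneg _)
    have hlow : δ1 * T ≤ 2 * Real.pi * T ^ α * ((p.1 : ℝ) / p.2) * Real.exp η1 := by
      have h1 : 2 * Real.pi * T ^ α * (P.δ / (2 * (P.cH * T ^ (α - 1)))) * Real.exp η1 ≤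
          2 * Real.pi * T ^ α * ((p.1 : ℝ) / p.2) * Real.exp η1 := by gcongr
      refine le_trans (le_of_eq ?_) h1
      rw [hδ1, hcH, hTα, Real.exp_sub]
      field_simp
    have hhigh : 2 * Real.pi * T ^ α * ((p.1 : ℝ) / p.2) * Real.exp η2 ≤ (1 - P.δ) * T := by
      have h1 : 2 * Real.pi * T ^ α * ((p.1 : ℝ) / p.2) * Real.exp η2 ≤
          2 * Real.pi * T ^ α * (1 / (P.cH * T ^ (α - 1))) * Real.exp η2 := by gcongr
      refine h1.trans (le_of_eq ?_)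
      rw [hcH, hTα]
      field_simp
    exact htail g _ T hT1 hlow hhigh hg
  have hsum : ‖∑ p ∈ Th P T α, (cf p : ℂ) * ∫ η, ((Real.exp (η / 2) * Wof χ η : ℝ) : ℂ) *
      Complex.exp (Complex.I * ((g * η - 2 * Real.pi * T ^ α * ((p.1 : ℝ) / p.2) * Real.exp η : ℝ) : ℂ))‖
      ≤ (C' * Real.log T ^ 2 * T ^ (1 / 2 - P.ε) / T ^ (α - 1)) * (C / (1 + g ^ 2)) := by
    refine (norm_sum_le_of_le _ hterm).trans ?_
    rw [← Finset.sum_mul]
    exact mul_le_mul_of_nonneg_right (hTb T hTbT α hα) (by positivity)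
  have hnexp : ‖Complex.exp (Complex.I * ((α * Real.log T * g : ℝ) : ℂ))‖ = 1 := by
    rw [mul_comm]
    exact Complex.norm_exp_ofReal_mul_I _
  have hn2 : ‖(2 * (Real.pi : ℂ))‖ = 2 * Real.pi := by
    rw [norm_mul, Complex.norm_real, Real.norm_eq_abs, abs_of_pos Real.pi_pos]
    simp
  rw [PsiF_eq h P hT0, norm_neg, norm_mul, norm_mul, hnexp, mul_one, norm_mul, hn2, Complex.norm_real,
    Real.norm_eq_abs, abs_of_nonneg (Real.sqrt_nonneg _)]
  have hpow : Real.sqrt (T ^ α) * (T ^ (1 / 2 - P.ε) / T ^ (α - 1)) ≤ T ^ (1 - P.ε) := by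
    rw [Real.sqrt_eq_rpow, ← Real.rpow_mul hT0.le, ← Real.rpow_sub hT0, ← Real.rpow_add hT0]
    exact Real.rpow_le_rpow_of_exponent_le hT1 (by linarith)
  calc 2 * Real.pi * Real.sqrt (T ^ α) * _
      ≤ 2 * Real.pi * Real.sqrt (T ^ α) *
        ((C' * Real.log T ^ 2 * T ^ (1 / 2 - P.ε) / T ^ (α - 1)) * (C / (1 + g ^ 2))) := by gcongr
    _ = 2 * Real.pi * C * C' * Real.log T ^ 2 *
        (Real.sqrt (T ^ α) * (T ^ (1 / 2 - P.ε) / T ^ (α - 1))) / (1 + g ^ 2) := by ring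
    _ ≤ 2 * Real.pi * C * C' * Real.log T ^ 2 * T ^ (1 - P.ε) / (1 + g ^ 2) := by gcongr

end H69LB
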