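import Pool.Agent.H69.LB.Defs

/-!
# SEP: Fourier representation of a test function

`W` is `C^∞` with compact support, so it is a Schwartz function (`HasCompactSupport.toSchwartzMap` or by
hand); `w = 𝓕 W` (as a complex valued function) is Schwartz, hence continuous and integrable, and Fourier
inversion (`Continuous.fourierInv_fourier_eq` / `SchwartzMap`) gives `W η = ∫ w ξ e(ξ η) dξ`.
-/

namespace H69LB

open MeasureTheory

open scoped FourierTransform SchwartzMap in
theorem sep {M : ℝ} {W : ℝ → ℝ} (hW : WS M W) :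
    ∃ w : ℝ → ℂ, Continuous w ∧ Integrable w ∧ ∀ η : ℝ, ((W η : ℝ) : ℂ) = ∫ ξ, w ξ * ee (ξ * η) := by
  have hsm : ContDiff ℝ (⊤ : ℕ∞) (fun x : ℝ => ((W x : ℝ) : ℂ)) :=
    Complex.ofRealCLM.contDiff.comp hW.smooth
  have hcs : HasCompactSupport (fun x : ℝ => ((W x : ℝ) : ℂ)) := by
    apply HasCompactSupport.intro (isCompact_Icc : IsCompact (Set.Icc (-M) M))
    intro x hx
    have : M ≤ |x| := by
      by_contra hlt
      push Not at hlt
      exact hx ⟨(abs_lt.mp hlt).1.le, (abs_lt.mp hlt).2.le⟩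
    simp [hW.zero x this]
  let f : 𝓢(ℝ, ℂ) := hcs.toSchwartzMap hsm
  refine ⟨fun ξ => (𝓕 f) ξ, (𝓕 f).continuous, (𝓕 f).integrable, fun η => ?_⟩
  have h1 : (𝓕⁻ (𝓕 f)) η = f η := by rw [FourierTransform.fourierInv_fourier_eq f]
  rw [SchwartzMap.fourierInv_coe, Real.fourierInv_eq'] at h1
  have h2 : f η = ((W η : ℝ) : ℂ) := rfl
  rw [← h2, ← h1]
  refine integral_congr_ae (Filter.Eventually.of_forall fun ξ => ?_)
  simp only [smul_eq_mul]
  rw [mul_comm]
  congr 1
  unfold ee
  congr 1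
  simp
  ring

end H69LB
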