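import Pool.Agent.H69.LB.Defs

/-!
# HSM: the sum of `μ²(r)/φ(r)`

`1/φ(r) = ∑_{k : rad k = r} 1/k` for squarefree `r` (`rad k` = product of the primes dividing `k`), in particular
`∑_{k ∈ s, rad k = r} 1/k ≤ 1/φ(r)` for every finite set `s`. Hence for `1 ≤ z1 ≤ z2`
`∑_{z1 < r ≤ z2} μ²(r)/φ(r) ≥ ∑_{k ≤ z2, rad k > z1} 1/k = ∑_{k ≤ z2} 1/k - ∑_{k ≤ z2, rad k ≤ z1} 1/k
  ≥ ∑_{z1 < k ≤ z2} 1/k - ∑_{z1 < k ≤ z2, rad k ≤ z1} 1/k`, the first sum being `≥ log(z2/z1) - 1`.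
Claim: `∑_{z < k ≤ z2, rad k ≤ z} 1/k ≤ C` for all `z, z2`. Write `k = w r`, `r = rad k`, `w = k / rad k`; every prime
factor of `w` divides `r`, so `r = r' rad w`, and `k ↦ (w, r')` is injective (`k = w r' rad w`). `z < k`, `r ≤ z` give
`z/(w rad w) < r' ≤ z/rad w`, and `∑_{y/w < r' ≤ y} 1/r' ≤ 2 + log w` (`y = z/rad w`). So the sum is at most
`∑_{w ≤ z2} (2 + log w)/(w rad w)`, and this is bounded: write `w = u v²` with `u` squarefree
(`Nat.sq_mul_squarefree`); `u ∣ rad w`, `2 + log w ≤ 6 w^{1/4}`, so the summand is at most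
`6 (u v²)^{-3/4} u^{-1} = 6 u^{-7/4} v^{-3/2}`, summable over all `u, v ≥ 1`.
(`rad k = ∏ p ∈ k.primeFactors, p`.)
-/

namespace H69LB

open Finset

/-- the product of the primes dividing `k` -/
def hsmRad (k : ℕ) : ℕ := ∏ p ∈ k.primeFactors, p

private lemma hsmRad_dvd (k : ℕ) : hsmRad k ∣ k := Nat.prod_primeFactors_dvd k

private lemma hsmRad_pos (k : ℕ) : 0 < hsmRad k :=
  Finset.prod_pos fun _ hp => (Nat.prime_of_mem_primeFactors hp).pos

private lemma hsmRad_squarefree (k : ℕ) : Squarefree (hsmRad k) := by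
  refine Finset.squarefree_prod_of_pairwise_isCoprime (fun p hp q hq hpq ↦ ?_) ?_
  · have h1 := Nat.prime_of_mem_primeFactors (Finset.mem_coe.1 hp)
    have h2 := Nat.prime_of_mem_primeFactors (Finset.mem_coe.1 hq)
    exact (Nat.coprime_iff_isRelPrime.1 ((Nat.coprime_primes h1 h2).2 hpq))
  · intro _ hp
    exact (Nat.prime_of_mem_primeFactors hp).squarefree

private lemma hsmRad_mono {u w : ℕ} (h : u ∣ w) (hw : w ≠ 0) : hsmRad u ∣ hsmRad w :=
  Finset.prod_dvd_prod_of_subset _ _ _ (Nat.primeFactors_mono h hw)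

private lemma hsmRad_primeFactors (k : ℕ) : (hsmRad k).primeFactors = k.primeFactors :=
  Nat.primeFactors_prod fun _ hp => Nat.prime_of_mem_primeFactors hp

private lemma hsmRad_self {u : ℕ} (h : Squarefree u) : hsmRad u = u :=
  Nat.prod_primeFactors_of_squarefree h

/-- the quotient `k / rad k` has its radical dividing `rad k` -/
private lemma hsmRad_quot {k : ℕ} (hk : k ≠ 0) : hsmRad (k / hsmRad k) ∣ hsmRad k :=
  hsmRad_mono (Nat.div_dvd_of_dvd (hsmRad_dvd k)) hk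

/-- the numbers with a given radical -/
private lemma hsm_fiber (s : Finset ℕ) (r : ℕ) (hr : 0 < r) (hs : ∀ k ∈ s, k ≠ 0 ∧ hsmRad k = r) :
    ∑ k ∈ s, ((k : ℝ))⁻¹ ≤ ((Nat.totient r : ℝ))⁻¹ := by
  classical
  let f : ℕ →* ℝ :=
    { toFun := fun n => ((n : ℝ))⁻¹
      map_one' := by simp
      map_mul' := by
        intro a b
        simp [mul_comm] }
  have hf : ∀ {p : ℕ}, p.Prime → ‖f p‖ < 1 := by
    intro p hp
    show ‖((p : ℝ))⁻¹‖ < 1
    rw [norm_inv, Real.norm_natCast]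
    exact inv_lt_one_of_one_lt₀ (by exact_mod_cast hp.one_lt)
  obtain ⟨hsum, hhas⟩ :=
    EulerProduct.summable_and_hasSum_factoredNumbers_prod_filter_prime_geometric hf r.primeFactors
  have hprod : ∏ p ∈ r.primeFactors with p.Prime, (1 - f p)⁻¹ = (r : ℝ) * ((Nat.totient r : ℝ))⁻¹ := by
    have h1 : r.primeFactors.filter Nat.Prime = r.primeFactors :=
      Finset.filter_true_of_mem fun p hp => Nat.prime_of_mem_primeFactors hp
    rw [h1, Finset.prod_inv_distrib]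
    have h2 : ((Nat.totient r : ℚ) : ℝ) = (((r : ℚ) * ∏ p ∈ r.primeFactors, (1 - (p : ℚ)⁻¹) : ℚ) : ℝ) := by
      rw [Nat.totient_eq_mul_prod_factors]
    push_cast at h2
    rw [h2, mul_inv, ← mul_assoc, mul_inv_cancel₀ (by positivity), one_mul]
    rfl
  -- the map
  have hmem : ∀ k ∈ s, k / r ∈ Nat.factoredNumbers r.primeFactors := by
    intro k hk
    obtain ⟨h0, h1⟩ := hs k hk
    have hrk : r ∣ k := h1 ▸ hsmRad_dvd k
    rw [Nat.mem_factoredNumbers_iff_primeFactors_subset]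
    refine ⟨?_, ?_⟩
    · exact (Nat.div_pos (Nat.le_of_dvd (Nat.pos_of_ne_zero h0) hrk) hr).ne'
    · have : r.primeFactors = k.primeFactors := by rw [← h1, hsmRad_primeFactors]
      rw [this]
      exact Nat.primeFactors_mono (Nat.div_dvd_of_dvd hrk) h0
  have hkey : ∑ k ∈ s, (((k / r : ℕ) : ℝ))⁻¹ ≤ (r : ℝ) * ((Nat.totient r : ℝ))⁻¹ := by
    rw [← hprod]
    have hinj : Function.Injective
        (fun k : s => (⟨k.1 / r, hmem k.1 k.2⟩ : Nat.factoredNumbers r.primeFactors)) := by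
      intro a b hab
      have h1 : a.1 / r = b.1 / r := congrArg Subtype.val hab
      have ha : r ∣ a.1 := (hs a.1 a.2).2 ▸ hsmRad_dvd a.1
      have hb : r ∣ b.1 := (hs b.1 b.2).2 ▸ hsmRad_dvd b.1
      apply Subtype.ext
      rw [← Nat.div_mul_cancel ha, ← Nat.div_mul_cancel hb, h1]
    rw [← Finset.sum_attach]
    have := sum_le_hasSum ((univ : Finset s).map ⟨_, hinj⟩)
      (fun i _ => by
        show 0 ≤ (((i : ℕ) : ℝ))⁻¹
        positivity) hhas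
    rw [Finset.sum_map] at this
    exact this
  have h3 : ∑ k ∈ s, (((k / r : ℕ) : ℝ))⁻¹ = (r : ℝ) * ∑ k ∈ s, ((k : ℝ))⁻¹ := by
    rw [Finset.mul_sum]
    refine Finset.sum_congr rfl fun k hk => ?_
    obtain ⟨h0, h1⟩ := hs k hk
    have hrk : r ∣ k := h1 ▸ hsmRad_dvd k
    rw [Nat.cast_div hrk (by positivity), inv_div, div_eq_mul_inv]
  rw [h3] at hkey
  exact le_of_mul_le_mul_left hkey (by positivity)

private lemma hsm_log_step (n : ℕ) (hn : 1 ≤ n) : Real.log (n + 1) - Real.log n ≤ ((n : ℝ))⁻¹ := by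
  have hn' : (0 : ℝ) < n := by exact_mod_cast hn
  rw [← Real.log_div (by positivity) hn'.ne']
  have := Real.log_le_sub_one_of_pos (show (0 : ℝ) < (n + 1) / n by positivity)
  calc Real.log ((n + 1) / n) ≤ (n + 1) / n - 1 := this
    _ = ((n : ℝ))⁻¹ := by field_simp; ring

private lemma hsm_log_step' (n : ℕ) (hn : 1 ≤ n) :
    (((n + 1 : ℕ) : ℝ))⁻¹ ≤ Real.log (n + 1) - Real.log n := by
  have hn' : (0 : ℝ) < n := by exact_mod_cast hn
  have := Real.log_le_sub_one_of_pos (show (0 : ℝ) < n / (n + 1) by positivity)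
  rw [Real.log_div hn'.ne' (by positivity)] at this
  have h2 : (n : ℝ) / (n + 1) - 1 = - (((n + 1 : ℕ) : ℝ))⁻¹ := by
    push_cast
    field_simp
    ring
  rw [h2] at this
  linarith

private lemma hsm_harm_lower (a : ℕ) : ∀ b : ℕ, a ≤ b →
    Real.log (b + 1) - Real.log (a + 1) ≤ ∑ k ∈ Ioc a b, ((k : ℝ))⁻¹ := by
  intro b hb
  induction b, hb using Nat.le_induction with
  | base => simp
  | succ b hb ih =>
    rw [← Finset.insert_Ioc_right_eq_Ioc_add_one (by omega), Finset.sum_insert (by simp)]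
    have := hsm_log_step (b + 1) (by omega)
    push_cast at this ⊢
    linarith

private lemma hsm_harm_upper (a : ℕ) (ha : 1 ≤ a) : ∀ b : ℕ, a ≤ b →
    ∑ k ∈ Ioc a b, ((k : ℝ))⁻¹ ≤ Real.log b - Real.log a := by
  intro b hb
  induction b, hb using Nat.le_induction with
  | base => simp
  | succ b hb ih =>
    rw [← Finset.insert_Ioc_right_eq_Ioc_add_one (by omega), Finset.sum_insert (by simp)]
    have := hsm_log_step' b (by omega)
    push_cast at this ⊢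
    linarith

private lemma hsm_harm (Y w : ℕ) (hw : 1 ≤ w) :
    ∑ k ∈ Ioc (Y / w) Y, ((k : ℝ))⁻¹ ≤ 1 + Real.log w := by
  have hw' : (1 : ℝ) ≤ w := by exact_mod_cast hw
  have hlw := Real.log_nonneg hw'
  by_cases h0 : Y / w = 0
  · rw [h0]
    rcases Nat.eq_zero_or_pos Y with hY | hY
    · subst hY; simp; linarith
    · have h1 : Ioc 0 Y = insert 1 (Ioc 1 Y) := by
        ext x; simp; omega
      rw [h1, Finset.sum_insert (by simp)]
      have h2 := hsm_harm_upper 1 le_rfl Y hY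
      have h3 : Y < w := by
        rcases (Nat.div_eq_zero_iff).1 h0 with h | h
        · omega
        · exact h
      have h4 : Real.log Y ≤ Real.log w := Real.log_le_log (by exact_mod_cast hY) (by exact_mod_cast h3.le)
      simp only [Nat.cast_one, Real.log_one, inv_one] at h2 ⊢
      linarith
  · have h1 : 1 ≤ Y / w := Nat.one_le_iff_ne_zero.2 h0
    have h2 := hsm_harm_upper (Y / w) h1 Y (Nat.div_le_self _ _)
    have h3 : Y < 2 * (w * (Y / w)) := by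
      have := Nat.lt_mul_div_succ Y (show 0 < w by omega)
      nlinarith
    have h4 : (Y : ℝ) ≤ 2 * (w * ((Y / w : ℕ) : ℝ)) := by exact_mod_cast h3.le
    have h5 : (0 : ℝ) < ((Y / w : ℕ) : ℝ) := by exact_mod_cast h1
    have hY : (0 : ℝ) < Y := by
      have : 0 < Y := by
        by_contra hc
        have : Y = 0 := by omega
        simp [this] at h0
      exact_mod_cast this
    have h6 : Real.log Y ≤ Real.log 2 + (Real.log w + Real.log ((Y / w : ℕ) : ℝ)) := by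
      rw [← Real.log_mul (by positivity) h5.ne', ← Real.log_mul (by norm_num) (by positivity)]
      exact Real.log_le_log hY h4
    have h7 : Real.log 2 ≤ 1 := by
      have := Real.log_two_lt_d9; linarith
    linarith

/-- the bounded sum over `w` -/
private lemma hsm_wsum : ∃ C : ℝ, 0 ≤ C ∧ ∀ N : ℕ,
    ∑ w ∈ Icc 1 N, (1 + Real.log w) / (w * hsmRad w) ≤ C := by
  classical
  have hs1 : Summable (fun n : ℕ => ((n : ℝ) ^ (7 / 4 : ℝ))⁻¹) :=
    Real.summable_nat_rpow_inv.2 (by norm_num)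
  have hs2 : Summable (fun n : ℕ => ((n : ℝ) ^ (3 / 2 : ℝ))⁻¹) :=
    Real.summable_nat_rpow_inv.2 (by norm_num)
  refine ⟨5 * ((∑' n : ℕ, ((n : ℝ) ^ (7 / 4 : ℝ))⁻¹) * (∑' n : ℕ, ((n : ℝ) ^ (3 / 2 : ℝ))⁻¹)), ?_, ?_⟩
  · have h1 : 0 ≤ ∑' n : ℕ, ((n : ℝ) ^ (7 / 4 : ℝ))⁻¹ := tsum_nonneg fun n => by positivity
    have h2 : 0 ≤ ∑' n : ℕ, ((n : ℝ) ^ (3 / 2 : ℝ))⁻¹ := tsum_nonneg fun n => by positivity
    positivity
  intro N
  have hch : ∀ w : ℕ, ∃ p : ℕ × ℕ, 0 < w → 0 < p.1 ∧ 0 < p.2 ∧ p.2 ^ 2 * p.1 = w ∧ Squarefree p.1 := by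
    intro w
    by_cases hw : 0 < w
    · obtain ⟨a, b, h1, h2, h3, h4⟩ := Nat.sq_mul_squarefree_of_pos hw
      exact ⟨(a, b), fun _ => ⟨h1, h2, h3, h4⟩⟩
    · exact ⟨(0, 0), fun h => absurd h hw⟩
  choose g hg using hch
  have hterm : ∀ w ∈ Icc 1 N, (1 + Real.log w) / (w * hsmRad w) ≤
      5 * ((((g w).1 : ℝ) ^ (7 / 4 : ℝ))⁻¹ * (((g w).2 : ℝ) ^ (3 / 2 : ℝ))⁻¹) := by
    intro w hw
    have hw0 : 0 < w := (Finset.mem_Icc.1 hw).1
    obtain ⟨h1, h2, h3, h4⟩ := hg w hw0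
    have hu : (0 : ℝ) < (g w).1 := by exact_mod_cast h1
    have hv : (0 : ℝ) < (g w).2 := by exact_mod_cast h2
    have hwr : (0 : ℝ) < w := by exact_mod_cast hw0
    have hw1 : (1 : ℝ) ≤ w := by exact_mod_cast hw0
    have hwuv : (w : ℝ) = ((g w).2 : ℝ) ^ 2 * (g w).1 := by exact_mod_cast h3.symm
    have hrad : ((g w).1 : ℝ) ≤ hsmRad w := by
      have : (g w).1 ≤ hsmRad w := by
        apply Nat.le_of_dvd (hsmRad_pos w)
        rw [← hsmRad_self h4]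
        exact hsmRad_mono ⟨(g w).2 ^ 2, by rw [mul_comm]; exact h3.symm⟩ hw0.ne'
      exact_mod_cast this
    have hlog : 1 + Real.log w ≤ 5 * (w : ℝ) ^ (1 / 4 : ℝ) := by
      have h5 := Real.log_le_rpow_div hwr.le (show (0 : ℝ) < 1 / 4 by norm_num)
      have h6 : (1 : ℝ) ≤ (w : ℝ) ^ (1 / 4 : ℝ) := Real.one_le_rpow hw1 (by norm_num)
      have h7 : (w : ℝ) ^ (1 / 4 : ℝ) / (1 / 4) = 4 * (w : ℝ) ^ (1 / 4 : ℝ) := by ring
      rw [h7] at h5
      linarith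
    have hrp : (0 : ℝ) < hsmRad w := by exact_mod_cast hsmRad_pos w
    calc (1 + Real.log w) / (w * hsmRad w) ≤ (5 * (w : ℝ) ^ (1 / 4 : ℝ)) / (w * (g w).1) := by
          apply div_le_div₀ (by positivity) hlog (by positivity)
          exact mul_le_mul_of_nonneg_left hrad hwr.le
      _ = 5 * ((((g w).1 : ℝ) ^ (7 / 4 : ℝ))⁻¹ * (((g w).2 : ℝ) ^ (3 / 2 : ℝ))⁻¹) := by
          have e1 : (w : ℝ) ^ (1 / 4 : ℝ) = ((g w).2 : ℝ) ^ (1 / 2 : ℝ) * ((g w).1 : ℝ) ^ (1 / 4 : ℝ) := by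
            rw [hwuv, Real.mul_rpow (by positivity) hu.le, ← Real.rpow_natCast_mul hv.le]
            norm_num
          have e2 : ((g w).1 : ℝ) ^ (7 / 4 : ℝ) * ((g w).1 : ℝ) ^ (1 / 4 : ℝ) = ((g w).1 : ℝ) ^ 2 := by
            rw [← Real.rpow_add hu, ← Real.rpow_natCast]
            norm_num
          have e3 : ((g w).2 : ℝ) ^ (3 / 2 : ℝ) * ((g w).2 : ℝ) ^ (1 / 2 : ℝ) = ((g w).2 : ℝ) ^ 2 := by
            rw [← Real.rpow_add hv, ← Real.rpow_natCast]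
            norm_num
          rw [e1, hwuv]
          have p1 : (0 : ℝ) < ((g w).1 : ℝ) ^ (7 / 4 : ℝ) := by positivity
          have p2 : (0 : ℝ) < ((g w).2 : ℝ) ^ (3 / 2 : ℝ) := by positivity
          rw [← mul_inv, ← div_eq_mul_inv, div_eq_div_iff (by positivity) (by positivity)]
          calc 5 * (((g w).2 : ℝ) ^ (1 / 2 : ℝ) * ((g w).1 : ℝ) ^ (1 / 4 : ℝ)) *
                (((g w).1 : ℝ) ^ (7 / 4 : ℝ) * ((g w).2 : ℝ) ^ (3 / 2 : ℝ))
              = 5 * ((((g w).1 : ℝ) ^ (7 / 4 : ℝ) * ((g w).1 : ℝ) ^ (1 / 4 : ℝ)) *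
                (((g w).2 : ℝ) ^ (3 / 2 : ℝ) * ((g w).2 : ℝ) ^ (1 / 2 : ℝ))) := by ring
            _ = 5 * (((g w).2 : ℝ) ^ 2 * ((g w).1 : ℝ) * ((g w).1 : ℝ)) := by rw [e2, e3]; ring
  refine (Finset.sum_le_sum hterm).trans ?_
  rw [← Finset.mul_sum]
  refine mul_le_mul_of_nonneg_left ?_ (by norm_num)
  have hinj : Set.InjOn g (Icc 1 N : Finset ℕ) := by
    intro a ha b hb hab
    have ha0 : 0 < a := (Finset.mem_Icc.1 (Finset.mem_coe.1 ha)).1
    have hb0 : 0 < b := (Finset.mem_Icc.1 (Finset.mem_coe.1 hb)).1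
    rw [← (hg a ha0).2.2.1, ← (hg b hb0).2.2.1, hab]
  have himg : ∑ w ∈ Icc 1 N, ((((g w).1 : ℝ) ^ (7 / 4 : ℝ))⁻¹ * (((g w).2 : ℝ) ^ (3 / 2 : ℝ))⁻¹) =
      ∑ p ∈ (Icc 1 N).image g, (((p.1 : ℝ) ^ (7 / 4 : ℝ))⁻¹ * ((p.2 : ℝ) ^ (3 / 2 : ℝ))⁻¹) :=
    (Finset.sum_image (f := fun p : ℕ × ℕ => (((p.1 : ℝ) ^ (7 / 4 : ℝ))⁻¹ * ((p.2 : ℝ) ^ (3 / 2 : ℝ))⁻¹)) hinj).symm
  rw [himg]
  have hsub : (Icc 1 N).image g ⊆ Icc 1 N ×ˢ Icc 1 N := by
    intro p hp
    obtain ⟨w, hw, rfl⟩ := Finset.mem_image.1 hp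
    have hw0 : 0 < w := (Finset.mem_Icc.1 hw).1
    have hwN : w ≤ N := (Finset.mem_Icc.1 hw).2
    obtain ⟨h1, h2, h3, h4⟩ := hg w hw0
    rw [Finset.mem_product, Finset.mem_Icc, Finset.mem_Icc]
    have h5 : (g w).1 ≤ w := Nat.le_of_dvd hw0 ⟨(g w).2 ^ 2, by rw [mul_comm]; exact h3.symm⟩
    have h6 : (g w).2 ≤ w := Nat.le_of_dvd hw0 ⟨(g w).2 * (g w).1, by rw [← mul_assoc, ← sq]; exact h3.symm⟩
    exact ⟨⟨h1, h5.trans hwN⟩, ⟨h2, h6.trans hwN⟩⟩
  refine (Finset.sum_le_sum_of_subset_of_nonneg hsub fun p _ _ => by positivity).trans ?_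
  rw [Finset.sum_product' (f := fun a b : ℕ => (((a : ℝ) ^ (7 / 4 : ℝ))⁻¹ * ((b : ℝ) ^ (3 / 2 : ℝ))⁻¹)),
    ← Finset.sum_mul_sum]
  exact mul_le_mul (hs1.sum_le_tsum _ fun n _ => by positivity)
    (hs2.sum_le_tsum _ fun n _ => by positivity)
    (Finset.sum_nonneg fun n _ => by positivity) (tsum_nonneg fun n => by positivity)

/-- numbers above `z` whose radical is at most `z` -/
private lemma hsm_small : ∃ C : ℝ, 0 ≤ C ∧ ∀ z z2 : ℕ,
    ∑ k ∈ (Ioc z z2).filter (fun k => hsmRad k ≤ z), ((k : ℝ))⁻¹ ≤ C := by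
  classical
  obtain ⟨C, hC0, hC⟩ := hsm_wsum
  refine ⟨C, hC0, fun z z2 => ?_⟩
  set S := (Ioc z z2).filter (fun k => hsmRad k ≤ z) with hS
  have hmaps : ∀ k ∈ S, k / hsmRad k ∈ Icc 1 z2 := by
    intro k hk
    rw [hS, Finset.mem_filter, Finset.mem_Ioc] at hk
    rw [Finset.mem_Icc]
    refine ⟨Nat.div_pos (Nat.le_of_dvd (by omega) (hsmRad_dvd k)) (hsmRad_pos k), ?_⟩
    exact (Nat.div_le_self _ _).trans hk.1.2
  rw [← Finset.sum_fiberwise_of_maps_to hmaps]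
  refine le_trans (Finset.sum_le_sum fun w hw => ?_) (hC z2)
  have hw1 : 1 ≤ w := (Finset.mem_Icc.1 hw).1
  have hgp : 0 < hsmRad w := hsmRad_pos w
  -- each term
  have hfac : ∀ k ∈ S.filter (fun k => k / hsmRad k = w),
      k = w * (hsmRad w * (hsmRad k / hsmRad w)) ∧ hsmRad k / hsmRad w ∈ Ioc (z / hsmRad w / w) (z / hsmRad w) := by
    intro k hk
    rw [Finset.mem_filter, hS, Finset.mem_filter, Finset.mem_Ioc] at hk
    obtain ⟨⟨⟨hk1, hk2⟩, hk3⟩, hk4⟩ := hk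
    have hd : hsmRad w ∣ hsmRad k := by
      rw [← hk4]; exact hsmRad_quot (by omega)
    have e1 : hsmRad w * (hsmRad k / hsmRad w) = hsmRad k := Nat.mul_div_cancel' hd
    have e2 : w * hsmRad k = k := by
      rw [← hk4]; exact Nat.div_mul_cancel (hsmRad_dvd k)
    refine ⟨by rw [e1, e2], ?_⟩
    rw [Finset.mem_Ioc]
    refine ⟨?_, Nat.div_le_div_right hk3⟩
    rw [Nat.div_div_eq_div_mul, Nat.div_lt_iff_lt_mul (by positivity)]
    calc z < k := hk1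
      _ = (hsmRad k / hsmRad w) * (hsmRad w * w) := by
          rw [← mul_assoc, mul_comm (hsmRad k / hsmRad w), e1, mul_comm, e2]
  have hinj : Set.InjOn (fun k => hsmRad k / hsmRad w) (S.filter (fun k => k / hsmRad k = w) : Finset ℕ) := by
    intro a ha b hb hab
    have h1 := (hfac a (Finset.mem_coe.1 ha)).1
    have h2 := (hfac b (Finset.mem_coe.1 hb)).1
    simp only at hab
    rw [h1, h2, hab]
  calc ∑ k ∈ S.filter (fun k => k / hsmRad k = w), ((k : ℝ))⁻¹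
      = ∑ k ∈ S.filter (fun k => k / hsmRad k = w),
          ((w : ℝ) * hsmRad w)⁻¹ * (((hsmRad k / hsmRad w : ℕ) : ℝ))⁻¹ := by
        refine Finset.sum_congr rfl fun k hk => ?_
        have h1 := (hfac k hk).1
        have h2 : (k : ℝ) = w * (hsmRad w * ((hsmRad k / hsmRad w : ℕ) : ℝ)) := by exact_mod_cast h1
        rw [h2, mul_inv, mul_inv, mul_inv, mul_assoc]
    _ = ((w : ℝ) * hsmRad w)⁻¹ * ∑ k ∈ S.filter (fun k => k / hsmRad k = w),
          (((hsmRad k / hsmRad w : ℕ) : ℝ))⁻¹ := by rw [Finset.mul_sum]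
    _ = ((w : ℝ) * hsmRad w)⁻¹ * ∑ n ∈ (S.filter (fun k => k / hsmRad k = w)).image
          (fun k => hsmRad k / hsmRad w), ((n : ℝ))⁻¹ := by
        rw [Finset.sum_image hinj]
    _ ≤ ((w : ℝ) * hsmRad w)⁻¹ * ∑ n ∈ Ioc (z / hsmRad w / w) (z / hsmRad w), ((n : ℝ))⁻¹ := by
        refine mul_le_mul_of_nonneg_left ?_ (by positivity)
        refine Finset.sum_le_sum_of_subset_of_nonneg ?_ fun n _ _ => by positivity
        intro n hn
        obtain ⟨k, hk, rfl⟩ := Finset.mem_image.1 hn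
        exact (hfac k hk).2
    _ ≤ ((w : ℝ) * hsmRad w)⁻¹ * (1 + Real.log w) :=
        mul_le_mul_of_nonneg_left (hsm_harm _ w hw1) (by positivity)
    _ = (1 + Real.log w) / (w * hsmRad w) := by rw [div_eq_mul_inv, mul_comm]

theorem hsum_lower : ∃ C : ℝ, 0 ≤ C ∧ ∀ z1 z2 : ℕ, 1 ≤ z1 → z1 ≤ z2 →
    Real.log ((z2 : ℝ) / z1) - C ≤ ∑ r ∈ (Ioc z1 z2).filter Squarefree, ((Nat.totient r : ℝ))⁻¹ := by
  classical
  obtain ⟨C, hC0, hC⟩ := hsm_small
  refine ⟨C + 1, by linarith, fun z1 z2 h1 h12 => ?_⟩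
  have hz1 : (0 : ℝ) < z1 := by exact_mod_cast h1
  have hz2 : (0 : ℝ) < z2 := by exact_mod_cast (lt_of_lt_of_le h1 h12)
  have hz1' : (1 : ℝ) ≤ z1 := by exact_mod_cast h1
  -- numbers with a large radical
  set K := (Ioc z1 z2).filter (fun k => ¬ hsmRad k ≤ z1) with hK
  have hmaps : ∀ k ∈ K, hsmRad k ∈ (Ioc z1 z2).filter Squarefree := by
    intro k hk
    rw [hK, Finset.mem_filter, Finset.mem_Ioc] at hk
    rw [Finset.mem_filter, Finset.mem_Ioc]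
    refine ⟨⟨by omega, ?_⟩, hsmRad_squarefree k⟩
    exact (Nat.le_of_dvd (by omega) (hsmRad_dvd k)).trans hk.1.2
  have hA : ∑ k ∈ K, ((k : ℝ))⁻¹ ≤ ∑ r ∈ (Ioc z1 z2).filter Squarefree, ((Nat.totient r : ℝ))⁻¹ := by
    rw [← Finset.sum_fiberwise_of_maps_to hmaps]
    refine Finset.sum_le_sum fun r hr => ?_
    refine hsm_fiber _ r ?_ ?_
    · rw [Finset.mem_filter, Finset.mem_Ioc] at hr; omega
    · intro k hk
      rw [Finset.mem_filter, hK, Finset.mem_filter, Finset.mem_Ioc] at hk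
      exact ⟨by omega, hk.2⟩
  have hB : ∑ k ∈ (Ioc z1 z2).filter (fun k => hsmRad k ≤ z1), ((k : ℝ))⁻¹ + ∑ k ∈ K, ((k : ℝ))⁻¹ =
      ∑ k ∈ Ioc z1 z2, ((k : ℝ))⁻¹ := Finset.sum_filter_add_sum_filter_not _ _ _
  have hD := hsm_harm_lower z1 z2 h12
  have hE := hC z1 z2
  have hF : Real.log ((z2 : ℝ) / z1) - 1 ≤ Real.log (z2 + 1) - Real.log (z1 + 1) := by
    rw [Real.log_div hz2.ne' hz1.ne']
    have a1 : Real.log z2 ≤ Real.log (z2 + 1) := Real.log_le_log hz2 (by linarith)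
    have a2 := hsm_log_step z1 h1
    have a3 : ((z1 : ℝ))⁻¹ ≤ 1 := inv_le_one_of_one_le₀ hz1'
    linarith
  linarith

end H69LB
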