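import Pool.Agent.H69.LB.Bxa
import Pool.Agent.H69.LB.Co3

/-!
# BXB: one box of denominators, estimate

Notation: `L = log T`, `x = T^α`, `h = T^(α-1)`, `H = cH h`, `NA = R1/H`, so `A2 ≤ NA`, `NA ≤ T` (`R1 ≤ T^{1/2}`, `H ≥ cH`, `T`
large); `log(2 R1) ≤ L`. `A_m(χ) = ∑_{a ∈ Ioc A1 A2, (a,m)=1} χ(a)`.

* `m` with `R1/m ≥ L^30` (real numbers): put `Q = R1/m ≤ T^(1/2-ε)`. The `q`'s satisfy `q ≤ 2 R1/m = 2Q`, so
  `q ≤ ⌊2Q⌋` and `√q ≤ √(2Q)`. `A_m(χ) = ∑_{a ≤ ⌊NA⌋} c_a χ(a)` with `c_a = 1` or `0`. `NA h = R1/cH ≥ Q/cH`, so `core` with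
  `c0 = 1/cH` gives for this `m` at most `√(2Q) C NA x √Q/L^8 = C' NA x (R1/m)/L^8`. Sum over `m ≤ 2 R1` (`sum_inv_le`):
  `≤ C NA x R1 L^{-7} = C (x/H) R1² L^{-7} = C T R1² L^{-7}/cH`.
* `m` with `R1/m < L^30`: `q ≤ 2 R1/m < 2 L^30`. Here `‖A_m(χ)‖ ≤ d(m) q`: by Moebius,
  `A_m(χ) = ∑_{d ∣ m} μ(d) χ(d) ∑_{a' ∈ (A1/d, A2/d]} χ(a')`, and a sum of the nonprincipal character `χ` over an interval
  is at most `q` in absolute value (complete periods cancel). `‖thW χ‖ ≤ sup|W| θ(N) ≤ C x`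
  (`Chebyshev.theta_le_log4_mul_x`), `card (pc q) ≤ q`. So these `m` contribute at most
  `∑_m d(m) ∑_{q ≤ 2L^30} √q q q C x ≤ C x L^{105} ∑_{m ≤ 2 R1} d(m) ≤ C x L^{106} R1` (`sum_card_le`), and
  `x = T h ≤ T R1 L^{-120}` by `h1 T α = h L^120 ≤ R1`. So at most `C T R1² L^{-14}`.
Total `Ebox ≤ C T R1² L^{-7}`; with `box_le`: `≤ C L² L^{-7} T ≤ C T L^{-3}`.
-/

namespace H69LB

open Finset

private theorem bxb_period {q : ℕ} [NeZero q] {χ : DirichletCharacter ℂ q} (hχ : χ ≠ 1) (B : ℕ) :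
    ∑ i ∈ range q, χ ((B + i : ℕ)) = 0 := by
  have h0 : ∑ x : ZMod q, χ x = 0 := MulChar.sum_eq_zero_of_ne_one hχ
  rw [← h0]
  refine Finset.sum_nbij' (fun i => ((B + i : ℕ) : ZMod q)) (fun x => (x - (B : ZMod q)).val) ?_ ?_ ?_ ?_ ?_
  · intro i _; exact mem_univ _
  · intro x _
    rw [mem_range]; exact ZMod.val_lt _
  · intro i hi
    rw [mem_range] at hi
    push_cast
    rw [add_sub_cancel_left, ZMod.val_natCast, Nat.mod_eq_of_lt hi]
  · intro x _
    push_cast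
    rw [ZMod.natCast_val, ZMod.cast_id, add_sub_cancel]
  · intro i _; rfl

private theorem bxb_run {q : ℕ} [NeZero q] {χ : DirichletCharacter ℂ q} (hχ : χ ≠ 1) (n : ℕ) :
    ∀ B : ℕ, ‖∑ i ∈ range n, χ ((B + i : ℕ))‖ ≤ q := by
  induction n using Nat.strong_induction_on with
  | _ n ih =>
    intro B
    by_cases h : n < q
    · calc ‖∑ i ∈ range n, χ ((B + i : ℕ))‖ ≤ ∑ i ∈ range n, ‖χ ((B + i : ℕ))‖ := norm_sum_le _ _
        _ ≤ ∑ i ∈ range n, (1 : ℝ) := Finset.sum_le_sum fun i _ => DirichletCharacter.norm_le_one χ _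
        _ = n := by simp
        _ ≤ q := by exact_mod_cast h.le
    · push Not at h
      obtain ⟨k, rfl⟩ := Nat.exists_eq_add_of_le h
      rw [Finset.sum_range_add, bxb_period hχ, zero_add]
      have hq : 0 < q := NeZero.pos q
      have := ih k (by omega) (B + q)
      simpa [add_assoc] using this

private theorem bxb_Ioc {q : ℕ} [NeZero q] {χ : DirichletCharacter ℂ q} (hχ : χ ≠ 1) (B1 B2 : ℕ) :
    ‖∑ b ∈ Ioc B1 B2, χ (b : ZMod q)‖ ≤ q := by
  by_cases h : B1 ≤ B2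
  · obtain ⟨n, rfl⟩ := Nat.exists_eq_add_of_le h
    have h1 : ∑ b ∈ Ioc B1 (B1 + n), χ (b : ZMod q) = ∑ i ∈ range n, χ (((B1 + 1) + i : ℕ)) := by
      have : Ioc B1 (B1 + n) = Ico (B1 + 1) (B1 + 1 + n) := by
        ext b; simp only [mem_Ioc, mem_Ico]; omega
      rw [this, Finset.sum_Ico_eq_sum_range]
      congr 1
      congr 1
      omega
    rw [h1]
    exact bxb_run hχ n (B1 + 1)
  · rw [Ioc_eq_empty_of_le (by omega)]
    simp

private theorem bxb_dvd {q : ℕ} [NeZero q] {χ : DirichletCharacter ℂ q} (hχ : χ ≠ 1) (A1 A2 d : ℕ)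
    (hd : 1 ≤ d) : ‖∑ a ∈ (Ioc A1 A2).filter (fun a => d ∣ a), χ (a : ZMod q)‖ ≤ q := by
  have h1 : ∑ a ∈ (Ioc A1 A2).filter (fun a => d ∣ a), χ (a : ZMod q)
      = χ (d : ZMod q) * ∑ b ∈ Ioc (A1 / d) (A2 / d), χ (b : ZMod q) := by
    rw [Finset.mul_sum]
    refine Finset.sum_nbij' (fun a => a / d) (fun b => d * b) ?_ ?_ ?_ ?_ ?_
    · intro a ha
      rw [mem_filter, mem_Ioc] at ha
      obtain ⟨⟨ha1, ha2⟩, k, rfl⟩ := ha
      rw [mem_Ioc, Nat.mul_div_cancel_left _ (by omega)]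
      refine ⟨?_, ?_⟩
      · rw [Nat.div_lt_iff_lt_mul (by omega), mul_comm]; exact ha1
      · rw [Nat.le_div_iff_mul_le (by omega), mul_comm]; exact ha2
    · intro b hb
      rw [mem_Ioc] at hb
      rw [mem_filter, mem_Ioc]
      refine ⟨⟨?_, ?_⟩, Dvd.intro _ rfl⟩
      · have := hb.1
        rw [Nat.div_lt_iff_lt_mul (by omega), mul_comm] at this; exact this
      · have := hb.2
        rw [Nat.le_div_iff_mul_le (by omega), mul_comm] at this; exact this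
    · intro a ha
      rw [mem_filter] at ha
      exact Nat.mul_div_cancel' ha.2
    · intro b _
      exact Nat.mul_div_cancel_left _ (by omega)
    · intro a ha
      rw [mem_filter] at ha
      obtain ⟨_, k, rfl⟩ := ha
      rw [Nat.mul_div_cancel_left _ (by omega), Nat.cast_mul, map_mul]
  rw [h1, norm_mul]
  calc ‖χ (d : ZMod q)‖ * ‖∑ b ∈ Ioc (A1 / d) (A2 / d), χ (b : ZMod q)‖ ≤ 1 * q :=
        mul_le_mul (DirichletCharacter.norm_le_one χ _) (bxb_Ioc hχ _ _) (norm_nonneg _) zero_le_one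
    _ = q := one_mul _

theorem abs_char_sum_le {q : ℕ} [NeZero q] {χ : DirichletCharacter ℂ q} (hχ : χ ≠ 1) (A1 A2 m : ℕ) (hm : 1 ≤ m) :
    ‖∑ a ∈ (Ioc A1 A2).filter (fun a => Nat.Coprime a m), χ a‖ ≤ (m.divisors.card : ℝ) * q := by
  have hcop : ∀ a : ℕ, (if Nat.Coprime a m then (1 : ℂ) else 0)
      = ∑ d ∈ m.divisors, if d ∣ a then ((ArithmeticFunction.moebius d : ℤ) : ℂ) else 0 := by
    intro a
    have h1 : ∑ d ∈ (Nat.gcd a m).divisors, ArithmeticFunction.moebius d = if Nat.gcd a m = 1 then 1 else 0 := by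
      rw [← ArithmeticFunction.coe_mul_zeta_apply, ArithmeticFunction.moebius_mul_coe_zeta,
        ArithmeticFunction.one_apply]
    have h2 : (Nat.gcd a m).divisors = m.divisors.filter (fun d => d ∣ a) := by
      ext d
      simp only [Nat.mem_divisors, mem_filter, Nat.dvd_gcd_iff]
      constructor
      · rintro ⟨⟨h3, h4⟩, _⟩
        exact ⟨⟨h4, by omega⟩, h3⟩
      · rintro ⟨⟨h3, h4⟩, h5⟩
        exact ⟨⟨h5, h3⟩, by
          intro h0
          rw [Nat.gcd_eq_zero_iff] at h0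
          exact h4 h0.2⟩
    rw [h2, Finset.sum_filter] at h1
    have h3 := congrArg (fun z : ℤ => (z : ℂ)) h1
    simp only [Int.cast_sum, Int.cast_ite, Int.cast_one, Int.cast_zero] at h3
    rw [h3]
  have hsum : ∑ a ∈ (Ioc A1 A2).filter (fun a => Nat.Coprime a m), χ (a : ZMod q)
      = ∑ d ∈ m.divisors, ((ArithmeticFunction.moebius d : ℤ) : ℂ) *
        ∑ a ∈ (Ioc A1 A2).filter (fun a => d ∣ a), χ (a : ZMod q) := by
    calc ∑ a ∈ (Ioc A1 A2).filter (fun a => Nat.Coprime a m), χ (a : ZMod q)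
        = ∑ a ∈ Ioc A1 A2, (if Nat.Coprime a m then (1 : ℂ) else 0) * χ (a : ZMod q) := by
          rw [Finset.sum_filter]
          refine Finset.sum_congr rfl fun a _ => ?_
          split_ifs <;> simp
      _ = ∑ a ∈ Ioc A1 A2, ∑ d ∈ m.divisors,
            (if d ∣ a then ((ArithmeticFunction.moebius d : ℤ) : ℂ) else 0) * χ (a : ZMod q) := by
          refine Finset.sum_congr rfl fun a _ => ?_
          rw [hcop, Finset.sum_mul]
      _ = ∑ d ∈ m.divisors, ∑ a ∈ Ioc A1 A2,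
            (if d ∣ a then ((ArithmeticFunction.moebius d : ℤ) : ℂ) else 0) * χ (a : ZMod q) :=
          Finset.sum_comm
      _ = _ := by
          refine Finset.sum_congr rfl fun d _ => ?_
          rw [Finset.mul_sum, Finset.sum_filter]
          refine Finset.sum_congr rfl fun a _ => ?_
          split_ifs <;> simp
  rw [hsum]
  calc ‖∑ d ∈ m.divisors, ((ArithmeticFunction.moebius d : ℤ) : ℂ) *
        ∑ a ∈ (Ioc A1 A2).filter (fun a => d ∣ a), χ (a : ZMod q)‖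
      ≤ ∑ d ∈ m.divisors, ‖((ArithmeticFunction.moebius d : ℤ) : ℂ) *
        ∑ a ∈ (Ioc A1 A2).filter (fun a => d ∣ a), χ (a : ZMod q)‖ := norm_sum_le _ _
    _ ≤ ∑ d ∈ m.divisors, (q : ℝ) := by
        refine Finset.sum_le_sum fun d hd => ?_
        rw [norm_mul]
        have hd1 : 1 ≤ d := Nat.pos_of_mem_divisors hd
        have h1 : ‖((ArithmeticFunction.moebius d : ℤ) : ℂ)‖ ≤ 1 := by
          rw [Complex.norm_intCast]
          exact_mod_cast ArithmeticFunction.abs_moebius_le_one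
        calc ‖((ArithmeticFunction.moebius d : ℤ) : ℂ)‖ *
              ‖∑ a ∈ (Ioc A1 A2).filter (fun a => d ∣ a), χ (a : ZMod q)‖ ≤ 1 * q :=
              mul_le_mul h1 (bxb_dvd hχ A1 A2 d hd1) (norm_nonneg _) zero_le_one
          _ = q := one_mul _
    _ = (m.divisors.card : ℝ) * q := by
        rw [Finset.sum_const, nsmul_eq_mul]

private theorem bxb_thW {M : ℝ} {W : ℝ → ℝ} (hW : WS M W) :
    ∃ C : ℝ, 0 ≤ C ∧ ∀ x : ℝ, 0 < x → ∀ g : ℕ → ℂ, (∀ n, ‖g n‖ ≤ 1) → ‖thW W M x g‖ ≤ C * x := by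
  obtain ⟨B, hB⟩ : ∃ B : ℝ, ∀ η, |W η| ≤ B := by
    obtain ⟨B, hB⟩ := (isCompact_Icc (a := -M) (b := M)).exists_bound_of_continuousOn
      (hW.smooth.continuous.continuousOn (s := Set.Icc (-M) M))
    refine ⟨max B 0, fun η => ?_⟩
    by_cases h : M ≤ |η|
    · rw [hW.zero η h]; simp
    · push Not at h
      have := hB η ⟨by linarith [neg_abs_le η], by linarith [le_abs_self η]⟩
      rw [Real.norm_eq_abs] at this
      exact this.trans (le_max_left _ _)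
  have hB0 : 0 ≤ B := (abs_nonneg _).trans (hB 0)
  refine ⟨B * (Real.log 4 * Real.exp M), by positivity, fun x hx g hg => ?_⟩
  have hN : (NN M x : ℝ) ≤ x * Real.exp M := Nat.floor_le (by positivity)
  calc ‖thW W M x g‖ ≤ ∑ p ∈ (Icc 1 (NN M x)).filter Nat.Prime,
        ‖((Real.log p * W (Real.log (p / x)) : ℝ) : ℂ) * g p‖ := norm_sum_le _ _
    _ ≤ ∑ p ∈ (Icc 1 (NN M x)).filter Nat.Prime, B * Real.log p := by
        refine Finset.sum_le_sum fun p hp => ?_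
        rw [mem_filter, mem_Icc] at hp
        have hlog : 0 ≤ Real.log p := Real.log_nonneg (by exact_mod_cast hp.1.1)
        rw [norm_mul, Complex.norm_real, Real.norm_eq_abs, abs_mul, abs_of_nonneg hlog]
        calc Real.log p * |W (Real.log (p / x))| * ‖g p‖ ≤ Real.log p * B * 1 := by
              have := hB (Real.log (p / x))
              have := hg p
              gcongr
          _ = B * Real.log p := by ring
    _ = B * Chebyshev.theta (NN M x : ℝ) := by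
        rw [← Finset.mul_sum, Chebyshev.theta, Nat.floor_natCast]
        rfl
    _ ≤ B * (Real.log 4 * (x * Real.exp M)) := by
        have := Chebyshev.theta_le_log4_mul_x (x := (NN M x : ℝ)) (by positivity)
        have h4 : 0 ≤ Real.log 4 := Real.log_nonneg (by norm_num)
        gcongr
        exact this.trans (by gcongr)
    _ = B * (Real.log 4 * Real.exp M) * x := by ring

/-- the part of `Ebox` with a fixed cofactor `m` -/
private noncomputable def bxb_Em (W : ℝ → ℝ) (M x : ℝ) (R1 A1 A2 m : ℕ) : ℝ :=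
  ∑ q ∈ (Icc 1 (2 * R1 / m)).filter (fun q => R1 < q * m),
    Real.sqrt q * ∑ χ ∈ pc q, ‖∑ a ∈ (Ioc A1 A2).filter (fun a => Nat.Coprime a m), χ a‖ *
      ‖thW W M x (fun n => χ n)‖

private theorem bxb_q_le {R1 m q : ℕ} (hm : 1 ≤ m) (hq : q ≤ 2 * R1 / m) :
    (q : ℝ) ≤ 2 * ((R1 : ℝ) / m) := by
  have hm' : (0 : ℝ) < m := by exact_mod_cast hm
  have h1 : q * m ≤ 2 * R1 := (Nat.le_div_iff_mul_le (by omega)).1 hq
  rw [← mul_div_assoc, le_div_iff₀ hm']
  exact_mod_cast h1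

private theorem bxb_large {M : ℝ} {W : ℝ → ℝ} {x C NA L : ℝ} {R1 A1 A2 m : ℕ} (hm : 1 ≤ m)
    (hA2 : (A2 : ℝ) ≤ NA)
    (hcore : ∀ c : ℕ → ℂ, (∀ a, ‖c a‖ ≤ 1) →
      ∑ q ∈ Icc 1 ⌊2 * ((R1 : ℝ) / m)⌋₊, ∑ χ ∈ pc q, ‖∑ a ∈ Icc 1 ⌊NA⌋₊, c a * χ a‖ *
        ‖thW W M x (fun n => χ n)‖
        ≤ C * NA * x * Real.sqrt ((R1 : ℝ) / m) / L ^ 8) :
    bxb_Em W M x R1 A1 A2 m ≤ Real.sqrt 2 * C * NA * x * ((R1 : ℝ) / m) / L ^ 8 := by
  set Q : ℝ := (R1 : ℝ) / m with hQdef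
  have hQ0 : 0 ≤ Q := by positivity
  let c : ℕ → ℂ := fun a => if A1 < a ∧ a ≤ A2 ∧ Nat.Coprime a m then 1 else 0
  have hc : ∀ a, ‖c a‖ ≤ 1 := by
    intro a
    simp only [c]
    split_ifs <;> simp
  have hsum : ∀ (q : ℕ) (χ : DirichletCharacter ℂ q),
      ∑ a ∈ (Ioc A1 A2).filter (fun a => Nat.Coprime a m), χ (a : ZMod q)
        = ∑ a ∈ Icc 1 ⌊NA⌋₊, c a * χ (a : ZMod q) := by
    intro q χ
    have h1 : ∑ a ∈ Icc 1 ⌊NA⌋₊, c a * χ (a : ZMod q)
        = ∑ a ∈ (Icc 1 ⌊NA⌋₊).filter (fun a => A1 < a ∧ a ≤ A2 ∧ Nat.Coprime a m), χ (a : ZMod q) := by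
      rw [Finset.sum_filter]
      refine Finset.sum_congr rfl fun a _ => ?_
      simp only [c]
      split_ifs <;> simp
    rw [h1]
    refine Finset.sum_congr ?_ fun _ _ => rfl
    ext a
    simp only [mem_filter, mem_Ioc, mem_Icc]
    constructor
    · rintro ⟨⟨h2, h3⟩, h4⟩
      refine ⟨⟨by omega, ?_⟩, h2, h3, h4⟩
      exact h3.trans (Nat.le_floor hA2)
    · rintro ⟨_, h2, h3, h4⟩
      exact ⟨⟨h2, h3⟩, h4⟩
  have hfl : ⌊2 * Q⌋₊ = 2 * R1 / m := by
    have : 2 * Q = ((2 * R1 : ℕ) : ℝ) / (m : ℝ) := by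
      rw [hQdef]; push_cast; ring
    rw [this, Nat.floor_div_eq_div]
  have hcore' := hcore c hc
  rw [hfl] at hcore'
  calc bxb_Em W M x R1 A1 A2 m
      ≤ ∑ q ∈ (Icc 1 (2 * R1 / m)).filter (fun q => R1 < q * m), Real.sqrt (2 * Q) *
          ∑ χ ∈ pc q, ‖∑ a ∈ (Ioc A1 A2).filter (fun a => Nat.Coprime a m), χ (a : ZMod q)‖ *
            ‖thW W M x (fun n => χ n)‖ := by
        refine Finset.sum_le_sum fun q hq => ?_
        rw [mem_filter, mem_Icc] at hq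
        have h1 := bxb_q_le hm hq.1.2
        have h2 : 0 ≤ ∑ χ ∈ pc q, ‖∑ a ∈ (Ioc A1 A2).filter (fun a => Nat.Coprime a m),
            χ (a : ZMod q)‖ * ‖thW W M x (fun n => χ n)‖ :=
          Finset.sum_nonneg fun χ _ => by positivity
        exact mul_le_mul_of_nonneg_right (Real.sqrt_le_sqrt h1) h2
    _ ≤ ∑ q ∈ Icc 1 (2 * R1 / m), Real.sqrt (2 * Q) *
          ∑ χ ∈ pc q, ‖∑ a ∈ (Ioc A1 A2).filter (fun a => Nat.Coprime a m), χ (a : ZMod q)‖ *
            ‖thW W M x (fun n => χ n)‖ := by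
        refine Finset.sum_le_sum_of_subset_of_nonneg (Finset.filter_subset _ _) fun q _ _ => ?_
        have h2 : 0 ≤ ∑ χ ∈ pc q, ‖∑ a ∈ (Ioc A1 A2).filter (fun a => Nat.Coprime a m),
            χ (a : ZMod q)‖ * ‖thW W M x (fun n => χ n)‖ :=
          Finset.sum_nonneg fun χ _ => by positivity
        positivity
    _ = Real.sqrt (2 * Q) * ∑ q ∈ Icc 1 (2 * R1 / m), ∑ χ ∈ pc q,
          ‖∑ a ∈ Icc 1 ⌊NA⌋₊, c a * χ (a : ZMod q)‖ * ‖thW W M x (fun n => χ n)‖ := by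
        rw [Finset.mul_sum]
        refine Finset.sum_congr rfl fun q _ => ?_
        congr 1
        refine Finset.sum_congr rfl fun χ _ => ?_
        rw [hsum]
    _ ≤ Real.sqrt (2 * Q) * (C * NA * x * Real.sqrt Q / L ^ 8) := by
        gcongr
    _ = Real.sqrt 2 * C * NA * x * Q / L ^ 8 := by
        rw [Real.sqrt_mul (by norm_num)]
        have := Real.mul_self_sqrt hQ0
        calc Real.sqrt 2 * Real.sqrt Q * (C * NA * x * Real.sqrt Q / L ^ 8)
            = Real.sqrt 2 * C * NA * x * (Real.sqrt Q * Real.sqrt Q) / L ^ 8 := by ring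
          _ = _ := by rw [this]

private theorem bxb_small {M : ℝ} {W : ℝ → ℝ} {x D L : ℝ} {R1 A1 A2 m : ℕ} (hm : 1 ≤ m)
    (hL : 1 ≤ L) (hx : 0 < x) (hD : 0 ≤ D)
    (hth : ∀ g : ℕ → ℂ, (∀ n, ‖g n‖ ≤ 1) → ‖thW W M x g‖ ≤ D * x) (hQ : (R1 : ℝ) / m < L ^ 30) :
    bxb_Em W M x R1 A1 A2 m ≤ 16 * L ^ 105 * D * x * m.divisors.card := by
  have hterm : ∀ q ∈ Icc 1 (2 * R1 / m), Real.sqrt q * ∑ χ ∈ pc q,
      ‖∑ a ∈ (Ioc A1 A2).filter (fun a => Nat.Coprime a m), χ (a : ZMod q)‖ *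
        ‖thW W M x (fun n => χ n)‖ ≤ 8 * L ^ 75 * D * x * m.divisors.card := by
    intro q hq
    rw [mem_Icc] at hq
    have hq1 := bxb_q_le hm hq.2
    have hq2 : (q : ℝ) ≤ 2 * L ^ 30 := by linarith
    have hne : NeZero q := ⟨by omega⟩
    have hs : Real.sqrt q ≤ 2 * L ^ 15 := by
      rw [show (2 : ℝ) * L ^ 15 = Real.sqrt ((2 * L ^ 15) ^ 2) from (Real.sqrt_sq (by positivity)).symm]
      apply Real.sqrt_le_sqrt
      calc (q : ℝ) ≤ 2 * L ^ 30 := hq2
        _ ≤ 4 * L ^ 30 := by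
            have : 0 ≤ L ^ 30 := by positivity
            linarith
        _ = (2 * L ^ 15) ^ 2 := by ring
    have hchi : ∑ χ ∈ pc q, ‖∑ a ∈ (Ioc A1 A2).filter (fun a => Nat.Coprime a m), χ (a : ZMod q)‖ *
        ‖thW W M x (fun n => χ n)‖ ≤ (q : ℝ) * ((m.divisors.card : ℝ) * q * (D * x)) := by
      calc ∑ χ ∈ pc q, ‖∑ a ∈ (Ioc A1 A2).filter (fun a => Nat.Coprime a m), χ (a : ZMod q)‖ *
            ‖thW W M x (fun n => χ n)‖ ≤ ∑ χ ∈ pc q, ((m.divisors.card : ℝ) * q * (D * x)) := by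
            refine Finset.sum_le_sum fun χ hχ => ?_
            have hχ1 : χ ≠ 1 := by
              classical
              have := hχ
              simp only [pc, mem_filter] at this
              exact this.2.2
            have h1 := abs_char_sum_le hχ1 A1 A2 m hm
            have h2 := hth (fun n => χ n) (fun n => DirichletCharacter.norm_le_one χ _)
            exact mul_le_mul h1 h2 (norm_nonneg _) (by positivity)
        _ = ((pc q).card : ℝ) * ((m.divisors.card : ℝ) * q * (D * x)) := by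
            rw [Finset.sum_const, nsmul_eq_mul]
        _ ≤ (q : ℝ) * ((m.divisors.card : ℝ) * q * (D * x)) := by
            have : ((pc q).card : ℝ) ≤ q := by exact_mod_cast card_pc_le q hq.1
            gcongr
    calc Real.sqrt q * ∑ χ ∈ pc q,
          ‖∑ a ∈ (Ioc A1 A2).filter (fun a => Nat.Coprime a m), χ (a : ZMod q)‖ *
            ‖thW W M x (fun n => χ n)‖
        ≤ (2 * L ^ 15) * ((2 * L ^ 30) * ((m.divisors.card : ℝ) * (2 * L ^ 30) * (D * x))) := by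
          refine mul_le_mul hs (hchi.trans ?_) (Finset.sum_nonneg fun χ _ => by positivity) (by positivity)
          gcongr
      _ = 8 * L ^ 75 * D * x * m.divisors.card := by ring
  calc bxb_Em W M x R1 A1 A2 m
      ≤ ∑ q ∈ Icc 1 (2 * R1 / m), Real.sqrt q * ∑ χ ∈ pc q,
          ‖∑ a ∈ (Ioc A1 A2).filter (fun a => Nat.Coprime a m), χ (a : ZMod q)‖ *
            ‖thW W M x (fun n => χ n)‖ := by
        refine Finset.sum_le_sum_of_subset_of_nonneg (Finset.filter_subset _ _) fun q _ _ => ?_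
        have h2 : 0 ≤ ∑ χ ∈ pc q, ‖∑ a ∈ (Ioc A1 A2).filter (fun a => Nat.Coprime a m),
            χ (a : ZMod q)‖ * ‖thW W M x (fun n => χ n)‖ :=
          Finset.sum_nonneg fun χ _ => by positivity
        positivity
    _ ≤ ∑ q ∈ Icc 1 (2 * R1 / m), 8 * L ^ 75 * D * x * m.divisors.card := Finset.sum_le_sum hterm
    _ = ((2 * R1 / m : ℕ) : ℝ) * (8 * L ^ 75 * D * x * m.divisors.card) := by
        rw [Finset.sum_const, nsmul_eq_mul, Nat.card_Icc, Nat.add_sub_cancel]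
    _ ≤ (2 * L ^ 30) * (8 * L ^ 75 * D * x * m.divisors.card) := by
        have h1 := bxb_q_le (R1 := R1) hm (le_refl (2 * R1 / m))
        have : ((2 * R1 / m : ℕ) : ℝ) ≤ 2 * L ^ 30 := by linarith
        gcongr
    _ = 16 * L ^ 105 * D * x * m.divisors.card := by ring

theorem box {M : ℝ} (hM : 0 < M) {W : ℝ → ℝ} (hW : WS M W) {ε b cH : ℝ} (hε : 0 < ε) (hε' : ε ≤ 1 / 4)
    (hb : 1 ≤ b) (hcH : 0 < cH) :
    ∃ C T0 : ℝ, 0 ≤ C ∧ ∀ T, T0 ≤ T → ∀ α ∈ Set.Icc 1 b, ∀ R1 R2 A1 A2 : ℕ,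
      h1 T α ≤ R1 → (R1 : ℝ) ≤ T ^ (1 / 2 - ε) → R2 ≤ 2 * R1 → (A2 : ℝ) ≤ R1 / (cH * T ^ (α - 1)) →
      ∑ r ∈ (Ioc R1 R2).filter Squarefree,
      ‖(((ArithmeticFunction.moebius r : ℝ) / (Nat.totient r : ℝ) : ℝ) : ℂ) *
        ((∑ a ∈ (Ioc A1 A2).filter (fun a => Nat.Coprime a r),
            thW W M (T ^ α) (fun n => ee (-((n : ℝ) * a / r))))
        - (((ArithmeticFunction.moebius r : ℝ) / (Nat.totient r : ℝ) : ℝ) : ℂ) *
          (((Ioc A1 A2).filter (fun a => Nat.Coprime a r)).card : ℂ) * thW W M (T ^ α) (fun _ => 1))‖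
      ≤ C * T / Real.log T ^ 3 := by
  obtain ⟨D, hD, hth⟩ := bxb_thW hW
  obtain ⟨C, T1, hC, hcore⟩ := core hM hW hε hε' hb (c0 := 1 / cH) (by positivity)
  refine ⟨16 * (2 * Real.sqrt 2 * C / cH + 64 * D),
    max T1 (max 3 (max 4 (max (4 * Real.exp (2 * M)) (1 / cH ^ 2)))), by positivity, ?_⟩
  intro T hT α hα R1 R2 A1 A2 hR1 hR1' hR2 hA2
  obtain ⟨hα1, hαb⟩ := hα
  have hT1 : T1 ≤ T := (le_max_left _ _).trans hT
  have hT' := (le_max_right _ _).trans hT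
  have hT3 : 3 ≤ T := (le_max_left _ _).trans hT'
  have hT'' := (le_max_right _ _).trans hT'
  have hT4 : 4 ≤ T := (le_max_left _ _).trans hT''
  have hT''' := (le_max_right _ _).trans hT''
  have hTM : 4 * Real.exp (2 * M) ≤ T := (le_max_left _ _).trans hT'''
  have hTc : 1 / cH ^ 2 ≤ T := (le_max_right _ _).trans hT'''
  have hTpos : 0 < T := by linarith
  set L := Real.log T with hLdef
  have hL1 : 1 ≤ L := by
    rw [hLdef, Real.le_log_iff_exp_le hTpos]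
    exact (Real.exp_one_lt_d9.le.trans (by norm_num)).trans hT3
  have hL0 : 0 < L := by linarith
  set h := T ^ (α - 1) with hh
  have hh1 : 1 ≤ h := Real.one_le_rpow (by linarith) (by linarith)
  have hh0 : 0 < h := by linarith
  set x := T ^ α with hx
  have hxT : x = T * h := by
    rw [hx, hh, Real.rpow_sub_one hTpos.ne']
    field_simp
  have hx0 : 0 < x := by rw [hxT]; positivity
  -- R1
  have hR1h : h * L ^ 120 ≤ R1 := hR1
  have hR1pos : (0 : ℝ) < R1 := lt_of_lt_of_le (by positivity) hR1h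
  have hR1nat : 1 ≤ R1 := by
    have : 0 < R1 := by exact_mod_cast hR1pos
    omega
  have hsq : T ^ (1 / 2 - ε) ≤ Real.sqrt T := by
    rw [Real.sqrt_eq_rpow]
    exact Real.rpow_le_rpow_of_exponent_le (by linarith) (by linarith)
  have hR1s : (R1 : ℝ) ≤ Real.sqrt T := hR1'.trans hsq
  have hsT : Real.sqrt T * Real.sqrt T = T := Real.mul_self_sqrt hTpos.le
  have hs2 : 2 ≤ Real.sqrt T := by
    rw [show (2 : ℝ) = Real.sqrt (2 ^ 2) from (Real.sqrt_sq (by norm_num)).symm]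
    exact Real.sqrt_le_sqrt (by norm_num; exact hT4)
  have hsM : 2 * Real.exp M ≤ Real.sqrt T := by
    rw [show 2 * Real.exp M = Real.sqrt ((2 * Real.exp M) ^ 2) from (Real.sqrt_sq (by positivity)).symm]
    apply Real.sqrt_le_sqrt
    have : Real.exp (2 * M) = Real.exp M ^ 2 := by
      rw [← Real.exp_nat_mul]; push_cast; ring_nf
    rw [this] at hTM
    linarith [hTM, show (2 * Real.exp M) ^ 2 = 4 * Real.exp M ^ 2 by ring]
  have hsc : 1 / cH ≤ Real.sqrt T := by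
    rw [show 1 / cH = Real.sqrt ((1 / cH) ^ 2) from (Real.sqrt_sq (by positivity)).symm]
    apply Real.sqrt_le_sqrt
    rw [div_pow, one_pow]; exact hTc
  have hs0 : 0 < Real.sqrt T := by linarith
  have h2R : 2 * (R1 : ℝ) ≤ T := by nlinarith
  have hlog : 1 + Real.log (2 * R1) ≤ 2 * L := by
    have : Real.log (2 * R1) ≤ L := Real.log_le_log (by positivity) h2R
    linarith
  have hlog0 : 0 ≤ 1 + Real.log (2 * R1) := by
    have h1R : (1 : ℝ) ≤ 2 * R1 := by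
      have : (1 : ℝ) ≤ R1 := by exact_mod_cast hR1nat
      linarith
    have := Real.log_nonneg h1R
    linarith
  have hrx : 2 * (R1 : ℝ) ≤ x * Real.exp (-M) := by
    rw [Real.exp_neg, ← div_eq_mul_inv, le_div_iff₀ (Real.exp_pos M)]
    calc 2 * (R1 : ℝ) * Real.exp M = R1 * (2 * Real.exp M) := by ring
      _ ≤ Real.sqrt T * Real.sqrt T := by gcongr
      _ = T := hsT
      _ ≤ x := by rw [hxT]; nlinarith
  -- NA
  set NA := (R1 : ℝ) / (cH * h) with hNA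
  have hNA0 : 0 ≤ NA := by positivity
  have hNAT : NA ≤ T := by
    rw [hNA, div_le_iff₀ (by positivity)]
    have h3 : 1 ≤ Real.sqrt T * cH := by
      rwa [div_le_iff₀ hcH] at hsc
    calc (R1 : ℝ) ≤ Real.sqrt T * 1 := by linarith
      _ ≤ Real.sqrt T * (Real.sqrt T * cH) := by gcongr
      _ = T * (cH * 1) := by rw [← mul_assoc, hsT]; ring
      _ ≤ T * (cH * h) := by gcongr
  have hNAx : NA * x = R1 * T / cH := by
    rw [hNA, hxT]
    field_simp
  have hEm : ∀ m ∈ Icc 1 (2 * R1), bxb_Em W M x R1 A1 A2 m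
      ≤ (Real.sqrt 2 * C * NA * x * R1 / L ^ 8) * ((m : ℝ))⁻¹
        + 16 * L ^ 105 * D * x * m.divisors.card := by
    intro m hm
    rw [mem_Icc] at hm
    have hm0 : (0 : ℝ) < m := by exact_mod_cast hm.1
    have hm1 : (1 : ℝ) ≤ m := by exact_mod_cast hm.1
    by_cases hQ : L ^ 30 ≤ (R1 : ℝ) / m
    · have hQle : (R1 : ℝ) / m ≤ R1 := div_le_self hR1pos.le hm1
      have h3 := bxb_large (M := M) (W := W) (x := x) (C := C) (NA := NA) (L := L) (R1 := R1)
        (A1 := A1) (A2 := A2) hm.1 hA2 (fun c hc => hcore T hT1 α ⟨hα1, hαb⟩ ((R1 : ℝ) / m) NA hQ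
          (hQle.trans hR1') (by
            rw [← hh, hNA]
            have : (R1 : ℝ) / (cH * h) * h = R1 / cH := by field_simp
            rw [this, one_div, inv_mul_eq_div]
            gcongr) hNAT c hc)
      have h4 : Real.sqrt 2 * C * NA * x * ((R1 : ℝ) / m) / L ^ 8
          = (Real.sqrt 2 * C * NA * x * R1 / L ^ 8) * ((m : ℝ))⁻¹ := by
        field_simp
      rw [h4] at h3
      have h5 : 0 ≤ 16 * L ^ 105 * D * x * m.divisors.card := by positivity
      linarith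
    · push Not at hQ
      have h3 := bxb_small (M := M) (W := W) (A1 := A1) (A2 := A2) hm.1 hL1 hx0 hD
        (fun g hg => hth x hx0 g hg) hQ
      have h5 : 0 ≤ (Real.sqrt 2 * C * NA * x * R1 / L ^ 8) * ((m : ℝ))⁻¹ := by positivity
      linarith
  have hE : Ebox W M x R1 A1 A2 ≤ T * (R1 : ℝ) ^ 2 *
      (2 * Real.sqrt 2 * C / cH / L ^ 7 + 64 * D / L ^ 14) := by
    have h3 : Ebox W M x R1 A1 A2 = ∑ m ∈ Icc 1 (2 * R1), bxb_Em W M x R1 A1 A2 m := rfl
    rw [h3]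
    have hsi := sum_inv_le (2 * R1)
    have hsc' := sum_card_le (2 * R1) (by omega)
    push_cast at hsi hsc'
    calc ∑ m ∈ Icc 1 (2 * R1), bxb_Em W M x R1 A1 A2 m
        ≤ ∑ m ∈ Icc 1 (2 * R1), ((Real.sqrt 2 * C * NA * x * R1 / L ^ 8) * ((m : ℝ))⁻¹
        + 16 * L ^ 105 * D * x * m.divisors.card) := Finset.sum_le_sum hEm
      _ = (Real.sqrt 2 * C * NA * x * R1 / L ^ 8) * ∑ m ∈ Icc 1 (2 * R1), ((m : ℝ))⁻¹
          + 16 * L ^ 105 * D * x * ∑ m ∈ Icc 1 (2 * R1), (m.divisors.card : ℝ) := by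
          rw [Finset.sum_add_distrib, Finset.mul_sum, Finset.mul_sum]
      _ ≤ (Real.sqrt 2 * C * NA * x * R1 / L ^ 8) * (2 * L)
          + 16 * L ^ 105 * D * x * (2 * R1 * (2 * L)) := by
          have e1 : ∑ m ∈ Icc 1 (2 * R1), ((m : ℝ))⁻¹ ≤ 2 * L := hsi.trans hlog
          have e2 : ∑ m ∈ Icc 1 (2 * R1), (m.divisors.card : ℝ) ≤ 2 * R1 * (2 * L) :=
            hsc'.trans (by gcongr)
          gcongr
      _ = (NA * x) * (Real.sqrt 2 * C * R1 / L ^ 8) * (2 * L) + 64 * D * R1 * L ^ 106 * x := by ring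
      _ ≤ (R1 * T / cH) * (Real.sqrt 2 * C * R1 / L ^ 8) * (2 * L)
          + 64 * D * R1 * (T * R1 / L ^ 14) := by
          rw [hNAx]
          have e3 : L ^ 106 * x ≤ T * R1 / L ^ 14 := by
            rw [le_div_iff₀ (by positivity), hxT]
            calc L ^ 106 * (T * h) * L ^ 14 = T * (h * L ^ 120) := by ring
              _ ≤ T * R1 := by gcongr
          have e4 : 64 * D * R1 * L ^ 106 * x = 64 * D * R1 * (L ^ 106 * x) := by ring
          rw [e4]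
          gcongr
      _ = T * (R1 : ℝ) ^ 2 * (2 * Real.sqrt 2 * C / cH / L ^ 7 + 64 * D / L ^ 14) := by
          field_simp
  have hE0 : 0 ≤ Ebox W M x R1 A1 A2 := by
    refine Finset.sum_nonneg fun m _ => Finset.sum_nonneg fun q _ =>
      mul_nonneg (Real.sqrt_nonneg _) (Finset.sum_nonneg fun χ _ => by positivity)
  have hbox := box_le hM hW hx0 hR1nat hR2 hrx A1 A2
  refine hbox.trans ?_
  calc 4 * (1 + Real.log (2 * R1)) ^ 2 / (R1 : ℝ) ^ 2 * Ebox W M x R1 A1 A2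
      ≤ 4 * (2 * L) ^ 2 / (R1 : ℝ) ^ 2 * (T * (R1 : ℝ) ^ 2 *
        (2 * Real.sqrt 2 * C / cH / L ^ 7 + 64 * D / L ^ 14)) := by
        gcongr
    _ = 16 * T * (2 * Real.sqrt 2 * C / cH / L ^ 5 + 64 * D / L ^ 12) := by
        field_simp
        ring
    _ ≤ 16 * T * (2 * Real.sqrt 2 * C / cH / L ^ 3 + 64 * D / L ^ 3) := by
        have e5 : L ^ 3 ≤ L ^ 5 := pow_le_pow_right₀ hL1 (by norm_num)
        have e6 : L ^ 3 ≤ L ^ 12 := pow_le_pow_right₀ hL1 (by norm_num)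
        gcongr
    _ = 16 * (2 * Real.sqrt 2 * C / cH + 64 * D) * T / L ^ 3 := by
        field_simp

end H69LB
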