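import Pool.Agent.H69.LB.Frb
import Pool.Agent.H69.LB.Bxb

/-!
# CRS: the cross term

By `sum_Th` the left side is the norm of the sum over `k < K` and squarefree `r ∈ (R_k, R_{k+1}]` of
`(μ(r)/φ(r)) (∑_a thW(e(-·a/r)) - (μ(r)/φ(r)) #{a} thW(1))`. Apply `box` to each `k < K` (`b`, `cH = P.cH`, `ε = P.ε`):
`h1 ≤ R_k` (`Rk_ge`), `R_k ≤ R_K ≤ T^(1/2-ε)` (`Rk_mono`, `Rk_KK_le`), `R_{k+1} ≤ 2 R_k` (`Rk_succ_le`, `κ ≤ 1/4`),
`A2 ≤ R_k/(cH h)` (floor). There are `K ≤ C L` boxes (`KK_le`).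
-/

namespace H69LB

open Finset

theorem cross {M : ℝ} (hM : 0 < M) {W : ℝ → ℝ} (hW : WS M W) (P : Par) (hP : P.Ok) {b : ℝ} (hb : 1 ≤ b) :
    ∃ C T0 : ℝ, 0 ≤ C ∧ ∀ T, T0 ≤ T → ∀ α ∈ Set.Icc 1 b,
      ‖(∑ p ∈ Th P T α, (cf p : ℂ) * thW W M (T ^ α) (fun n => ee (-((n : ℝ) * p.1 / p.2))))
        - (S2 P T α : ℂ) * thW W M (T ^ α) (fun _ => 1)‖ ≤ C * T / Real.log T ^ 2 := by
  obtain ⟨C1, T1, hC1, hbox⟩ := box hM hW hP.ε_pos hP.ε_le hb hP.cH_pos
  obtain ⟨T2, hsucc⟩ := Rk_succ_le P hP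
  obtain ⟨T3, hKKle⟩ := Rk_KK_le P hP
  obtain ⟨C4, T4, hKK⟩ := KK_le P hP
  refine ⟨C1 * |C4|, max (max T1 T2) (max (max T3 T4) 3), by positivity, ?_⟩
  intro T hT α hα
  have hT1 : T1 ≤ T := le_trans (le_trans (le_max_left _ _) (le_max_left _ _)) hT
  have hT2 : T2 ≤ T := le_trans (le_trans (le_max_right _ _) (le_max_left _ _)) hT
  have hT3 : T3 ≤ T :=
    le_trans (le_trans (le_trans (le_max_left _ _) (le_max_left _ _)) (le_max_right _ _)) hT
  have hT4 : T4 ≤ T :=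
    le_trans (le_trans (le_trans (le_max_right _ _) (le_max_left _ _)) (le_max_right _ _)) hT
  have hT5 : (3 : ℝ) ≤ T := le_trans (le_trans (le_max_right _ _) (le_max_right _ _)) hT
  have hTone : (1 : ℝ) ≤ T := by linarith
  have hL : 0 < Real.log T := Real.log_pos (by linarith)
  have hα1 : 1 ≤ α := hα.1
  -- the summand
  let F : ℕ → ℕ → ℂ := fun a r =>
    (cf (a, r) : ℂ) * thW W M (T ^ α) (fun n => ee (-((n : ℝ) * a / r)))
      - ((cf (a, r) ^ 2 : ℝ) : ℂ) * thW W M (T ^ α) (fun _ => 1)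
  have hsum : (∑ p ∈ Th P T α, (cf p : ℂ) * thW W M (T ^ α) (fun n => ee (-((n : ℝ) * p.1 / p.2))))
        - (S2 P T α : ℂ) * thW W M (T ^ α) (fun _ => 1) = ∑ p ∈ Th P T α, F p.1 p.2 := by
    simp only [F, Finset.sum_sub_distrib, S2, Complex.ofReal_sum, Finset.sum_mul]
  rw [hsum, sum_Th P hP hTone F]
  have hin : ∀ k ∈ range (KK P T α),
      ‖∑ r ∈ (Ioc (Rk P T α k) (Rk P T α (k + 1))).filter Squarefree,
        ∑ a ∈ (Ioc (A1 P T α k) (A2 P T α k)).filter (fun a => Nat.Coprime a r), F a r‖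
      ≤ C1 * T / Real.log T ^ 3 := by
    intro k hk
    have hk' : k < KK P T α := Finset.mem_range.1 hk
    have hKpos : 0 < KK P T α := lt_of_le_of_lt (Nat.zero_le k) hk'
    have h1' : h1 T α ≤ Rk P T α k := Rk_ge P hP hTone k
    have h2' : (Rk P T α k : ℝ) ≤ T ^ (1 / 2 - P.ε) := by
      have hm : Rk P T α k ≤ Rk P T α (KK P T α) := Rk_mono P hP hTone hk'.le
      exact le_trans (by exact_mod_cast hm) (hKKle T hT3 α hα1 hKpos)
    have h3' : Rk P T α (k + 1) ≤ 2 * Rk P T α k := by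
      have h := hsucc T hT2 α hα1 k
      have hκ := hP.κ_le
      have hR : (0 : ℝ) ≤ Rk P T α k := Nat.cast_nonneg _
      have : (Rk P T α (k + 1) : ℝ) ≤ 2 * Rk P T α k := by nlinarith
      exact_mod_cast this
    have h4' : (A2 P T α k : ℝ) ≤ (Rk P T α k : ℝ) / (P.cH * T ^ (α - 1)) := by
      have hpos : 0 ≤ (Rk P T α k : ℝ) / (P.cH * T ^ (α - 1)) :=
        div_nonneg (Nat.cast_nonneg _)
          (mul_nonneg hP.cH_pos.le (Real.rpow_nonneg (by linarith) _))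
      exact Nat.floor_le hpos
    refine le_trans (norm_sum_le _ _) ?_
    refine le_trans (le_of_eq ?_)
      (hbox T hT1 α hα (Rk P T α k) (Rk P T α (k + 1)) (A1 P T α k) (A2 P T α k) h1' h2' h3' h4')
    refine Finset.sum_congr rfl fun r _ => ?_
    congr 1
    simp only [F, cf, Finset.sum_sub_distrib, ← Finset.mul_sum, Finset.sum_const, nsmul_eq_mul]
    push_cast
    ring
  calc ‖∑ k ∈ range (KK P T α),
        ∑ r ∈ (Ioc (Rk P T α k) (Rk P T α (k + 1))).filter Squarefree,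
          ∑ a ∈ (Ioc (A1 P T α k) (A2 P T α k)).filter (fun a => Nat.Coprime a r), F a r‖
      ≤ ∑ k ∈ range (KK P T α), C1 * T / Real.log T ^ 3 :=
        le_trans (norm_sum_le _ _) (Finset.sum_le_sum hin)
    _ = (KK P T α : ℝ) * (C1 * T / Real.log T ^ 3) := by
        rw [Finset.sum_const, Finset.card_range, nsmul_eq_mul]
    _ ≤ (|C4| * Real.log T) * (C1 * T / Real.log T ^ 3) := by
        refine mul_le_mul_of_nonneg_right ?_ (by positivity)
        exact le_trans (hKK T hT4 α hα1) (mul_le_mul_of_nonneg_right (le_abs_self C4) hL.le)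
    _ = C1 * |C4| * T / Real.log T ^ 2 := by
        field_simp

end H69LB
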