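import Pool.Agent.H69.LB.Dof
import Pool.Agent.H69.LB.Frb

/-!
# DIA: the diagonal of the comparison function

Expand the square: `‖∑ c_p e(x θ_p e^η)‖² = ∑_{p,p'} c_p c_{p'} e(x (θ_p - θ_{p'}) e^η)` (`θ_p = p.1/p.2`, `x = T^α`; real part or
complex integral). Diagonal: `S2 ∫ W`. Off the diagonal, `p ≠ p'`: the fractions are reduced (`mem_Th`), so
`θ_p ≠ θ_{p'}` and `|θ_p - θ_{p'}| ≥ 1/(p.2 p'.2) ≥ T^{-(1-2ε)}`, so `x |θ_p - θ_{p'}| ≥ T^{α-1+2ε} ≥ T^{2ε}`, and `dof` bounds the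
integral by `C T^{-2εK}`. Total off the diagonal `≤ (∑ |c_p|)² C T^{-2εK} ≤ C L⁴ T T^{-2εK} ≤ T^{-b} ≤ T^{-α}` for `K` large
and `T` large (`sum_abs_cf`).
-/

namespace H69LB

open MeasureTheory
open scoped ContDiff

private theorem dia_ee_mul (a b : ℝ) : ee a * (starRingEnd ℂ) (ee b) = ee (a - b) := by
  unfold ee
  rw [← Complex.exp_conj, ← Complex.exp_add]
  congr 1
  simp only [map_mul, Complex.conj_ofReal, Complex.conj_I, map_ofNat]
  push_cast
  ring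

private theorem dia_ee_zero : ee 0 = 1 := by
  unfold ee
  simp

private theorem dia_expand (s : Finset (ℕ × ℕ)) (c : ℕ × ℕ → ℝ) (a : ℕ × ℕ → ℝ) :
    ‖∑ p ∈ s, (c p : ℂ) * ee (a p)‖ ^ 2 = ∑ p ∈ s, ∑ q ∈ s, c p * c q * (ee (a p - a q)).re := by
  have h1 : ‖∑ p ∈ s, (c p : ℂ) * ee (a p)‖ ^ 2
      = ((∑ p ∈ s, (c p : ℂ) * ee (a p)) * (starRingEnd ℂ) (∑ p ∈ s, (c p : ℂ) * ee (a p))).re := by
    rw [Complex.mul_conj, Complex.ofReal_re, Complex.normSq_eq_norm_sq]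
  rw [h1, map_sum, Finset.sum_mul_sum, Complex.re_sum]
  refine Finset.sum_congr rfl fun p _ => ?_
  rw [Complex.re_sum]
  refine Finset.sum_congr rfl fun q _ => ?_
  have h2 : (c p : ℂ) * ee (a p) * (starRingEnd ℂ) ((c q : ℂ) * ee (a q))
      = ((c p * c q : ℝ) : ℂ) * ee (a p - a q) := by
    rw [map_mul, Complex.conj_ofReal, ← dia_ee_mul]
    push_cast
    ring
  rw [h2, Complex.re_ofReal_mul]

private theorem dia_support {M : ℝ} {W : ℝ → ℝ} (hW : WS M W) : HasCompactSupport W := by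
  apply HasCompactSupport.of_support_subset_isCompact (isCompact_Icc (a := -M) (b := M))
  intro η hη
  by_contra h
  apply hη
  apply hW.zero
  by_contra hc
  push Not at hc
  exact h (abs_le.1 hc.le)

private theorem dia_int {M : ℝ} {W : ℝ → ℝ} (hW : WS M W) (t : ℝ) :
    Integrable (fun η => ((W η : ℝ) : ℂ) * ee (t * Real.exp η)) := by
  have hc : Continuous (fun η => ((W η : ℝ) : ℂ) * ee (t * Real.exp η)) := by
    have h1 : Continuous W := hW.smooth.continuous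
    unfold ee
    fun_prop
  refine hc.integrable_of_hasCompactSupport ?_
  have h2 : HasCompactSupport (fun η => ((W η : ℝ) : ℂ)) :=
    (dia_support hW).comp_left (g := fun x : ℝ => (x : ℂ)) (by simp)
  exact h2.mul_right

private theorem dia_re_integral {M : ℝ} {W : ℝ → ℝ} (hW : WS M W) (t : ℝ) :
    Integrable (fun η => W η * (ee (t * Real.exp η)).re) ∧
    ∫ η, W η * (ee (t * Real.exp η)).re = (∫ η, ((W η : ℝ) : ℂ) * ee (t * Real.exp η)).re := by
  have h := dia_int hW t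
  have h1 : ∀ η, W η * (ee (t * Real.exp η)).re = (((W η : ℝ) : ℂ) * ee (t * Real.exp η)).re := by
    intro η
    rw [Complex.re_ofReal_mul]
  constructor
  · have := h.re
    refine this.congr (Filter.Eventually.of_forall fun η => ?_)
    simp only [h1]
    rfl
  · simp only [h1]
    exact integral_re h

private theorem dia_sep {p q : ℕ × ℕ} (hp1 : 1 ≤ p.1) (hp2 : 1 ≤ p.2) (hq2 : 1 ≤ q.2)
    (hp : Nat.Coprime p.1 p.2) (hq : Nat.Coprime q.1 q.2) (hne : p ≠ q) :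
    1 / ((p.2 : ℝ) * q.2) ≤ |(p.1 : ℝ) / p.2 - (q.1 : ℝ) / q.2| := by
  have hp2' : (0 : ℝ) < p.2 := by exact_mod_cast hp2
  have hq2' : (0 : ℝ) < q.2 := by exact_mod_cast hq2
  have h1 : (p.1 : ℝ) / p.2 - (q.1 : ℝ) / q.2
      = (((p.1 : ℤ) * q.2 - q.1 * p.2 : ℤ) : ℝ) / ((p.2 : ℝ) * q.2) := by
    push_cast
    field_simp
  rw [h1, abs_div, abs_of_pos (by positivity : (0 : ℝ) < (p.2 : ℝ) * q.2)]
  gcongr
  rw [← Int.cast_abs]
  have h2 : ((p.1 : ℤ) * q.2 - q.1 * p.2 : ℤ) ≠ 0 := by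
    intro h
    have h3 : p.1 * q.2 = q.1 * p.2 := by
      have : (p.1 : ℤ) * q.2 = q.1 * p.2 := by linarith
      exact_mod_cast this
    have h4 : p.1 ∣ q.1 := hp.dvd_of_dvd_mul_right (h3 ▸ Dvd.intro _ rfl)
    have h5 : q.1 ∣ p.1 := hq.dvd_of_dvd_mul_right (h3.symm ▸ Dvd.intro _ rfl)
    have h6 : p.1 = q.1 := Nat.dvd_antisymm h4 h5
    rw [h6] at h3
    have h7 : q.2 = p.2 := Nat.eq_of_mul_eq_mul_left (by omega) h3
    exact hne (Prod.ext h6 h7.symm)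
  have h8 : (1 : ℤ) ≤ |((p.1 : ℤ) * q.2 - q.1 * p.2 : ℤ)| := Int.one_le_abs h2
  exact_mod_cast h8

theorem diag (P : Par) (hP : P.Ok) {M : ℝ} {W : ℝ → ℝ} (hW : WS M W) (hW0 : ∀ η, 0 ≤ W η) {b : ℝ} (hb : 1 ≤ b) :
    ∃ T0 : ℝ, ∀ T, T0 ≤ T → ∀ α ∈ Set.Icc 1 b,
      ∫ η, W η * ‖∑ p ∈ Th P T α, (cf p : ℂ) * ee (T ^ α * ((p.1 : ℝ) / p.2) * Real.exp η)‖ ^ 2
        ≤ (∫ η, W η) * S2 P T α + T ^ (-α) := by
  classical
  obtain ⟨Ta, hTa⟩ := mem_Th P hP
  obtain ⟨C1, Tb, hC1, hTb⟩ := sum_abs_cf P hP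
  have hε := hP.ε_pos
  set K : ℕ := ⌈(b + 6) / (2 * P.ε)⌉₊ with hK
  have hK' : b + 6 ≤ 2 * P.ε * K := by
    have : (b + 6) / (2 * P.ε) ≤ K := Nat.le_ceil _
    rw [div_le_iff₀ (by positivity)] at this
    linarith
  obtain ⟨C2, hC2, hdof⟩ := dof hW K
  refine ⟨max (max Ta Tb) (max 3 (C1 ^ 2 * C2)), fun T hT α hα => ?_⟩
  have hTaT : Ta ≤ T := le_trans (le_trans (le_max_left _ _) (le_max_left _ _)) hT
  have hTbT : Tb ≤ T := le_trans (le_trans (le_max_right _ _) (le_max_left _ _)) hT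
  have hT3 : 3 ≤ T := le_trans (le_trans (le_max_left _ _) (le_max_right _ _)) hT
  have hTC : C1 ^ 2 * C2 ≤ T := le_trans (le_trans (le_max_right _ _) (le_max_right _ _)) hT
  have hT1 : (1 : ℝ) ≤ T := by linarith
  have hT0 : (0 : ℝ) < T := by linarith
  obtain ⟨hα1, hαb⟩ := hα
  have hm := hTa T hTaT α hα1
  have hs := hTb T hTbT α hα1
  set s := Th P T α with hs_def
  set θ : ℕ × ℕ → ℝ := fun p => (p.1 : ℝ) / p.2 with hθ
  -- expand
  have hexp : ∀ η, W η * ‖∑ p ∈ s, (cf p : ℂ) * ee (T ^ α * ((p.1 : ℝ) / p.2) * Real.exp η)‖ ^ 2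
      = ∑ p ∈ s, ∑ q ∈ s, cf p * cf q * (W η * (ee (T ^ α * (θ p - θ q) * Real.exp η)).re) := by
    intro η
    rw [dia_expand s cf (fun p => T ^ α * ((p.1 : ℝ) / p.2) * Real.exp η), Finset.mul_sum]
    refine Finset.sum_congr rfl fun p _ => ?_
    rw [Finset.mul_sum]
    refine Finset.sum_congr rfl fun q _ => ?_
    have : T ^ α * ((p.1 : ℝ) / p.2) * Real.exp η - T ^ α * ((q.1 : ℝ) / q.2) * Real.exp η
        = T ^ α * (θ p - θ q) * Real.exp η := by
      simp only [hθ]; ring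
    rw [this]
    ring
  have hI : ∫ η, W η * ‖∑ p ∈ s, (cf p : ℂ) * ee (T ^ α * ((p.1 : ℝ) / p.2) * Real.exp η)‖ ^ 2
      = ∑ p ∈ s, ∑ q ∈ s, cf p * cf q *
        (∫ η, ((W η : ℝ) : ℂ) * ee (T ^ α * (θ p - θ q) * Real.exp η)).re := by
    rw [integral_congr_ae (Filter.Eventually.of_forall hexp)]
    rw [integral_finsetSum]
    · refine Finset.sum_congr rfl fun p _ => ?_
      rw [integral_finsetSum]
      · refine Finset.sum_congr rfl fun q _ => ?_
        rw [integral_const_mul, (dia_re_integral hW _).2]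
      · intro q _
        exact (dia_re_integral hW _).1.const_mul _
    · intro p _
      refine integrable_finsetSum _ fun q _ => ?_
      exact (dia_re_integral hW _).1.const_mul _
  rw [hI]
  -- bound of the off-diagonal terms
  have hoff : ∀ p ∈ s, ∀ q ∈ s, p ≠ q →
      cf p * cf q * (∫ η, ((W η : ℝ) : ℂ) * ee (T ^ α * (θ p - θ q) * Real.exp η)).re
        ≤ |cf p| * |cf q| * (C2 * T ^ (-(b + 6))) := by
    intro p hp q hq hpq
    obtain ⟨hp1, hp2, -, hpc, hpT, -, -⟩ := hm p hp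
    obtain ⟨hq1, hq2, -, hqc, hqT, -, -⟩ := hm q hq
    have hsep := dia_sep hp1 hp2 hq2 hpc hqc hpq
    have hp2' : (0 : ℝ) < p.2 := by exact_mod_cast hp2
    have hq2' : (0 : ℝ) < q.2 := by exact_mod_cast hq2
    have h1 : T ^ (2 * P.ε - 1) ≤ |θ p - θ q| := by
      refine le_trans ?_ hsep
      have h2 : (p.2 : ℝ) * q.2 ≤ T ^ (1 / 2 - P.ε) * T ^ (1 / 2 - P.ε) := by gcongr
      rw [← Real.rpow_add hT0] at h2
      rw [show (2 * P.ε - 1) = -(1 / 2 - P.ε + (1 / 2 - P.ε)) by ring, Real.rpow_neg hT0.le,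
        ← one_div]
      gcongr
    have h3 : T ^ (2 * P.ε) ≤ |T ^ α * (θ p - θ q)| := by
      rw [abs_mul, abs_of_pos (Real.rpow_pos_of_pos hT0 α)]
      calc T ^ (2 * P.ε) ≤ T ^ (α + (2 * P.ε - 1)) :=
            Real.rpow_le_rpow_of_exponent_le hT1 (by linarith)
        _ = T ^ α * T ^ (2 * P.ε - 1) := Real.rpow_add hT0 _ _
        _ ≤ T ^ α * |θ p - θ q| := by gcongr
    have h4 : 0 < |T ^ α * (θ p - θ q)| := lt_of_lt_of_le (Real.rpow_pos_of_pos hT0 _) h3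
    have h5 := hdof (T ^ α * (θ p - θ q)) (abs_pos.1 h4)
    have h6 : C2 / |T ^ α * (θ p - θ q)| ^ K ≤ C2 * T ^ (-(b + 6)) := by
      calc C2 / |T ^ α * (θ p - θ q)| ^ K ≤ C2 / (T ^ (2 * P.ε)) ^ K := by gcongr
        _ = C2 * T ^ (-(2 * P.ε * K)) := by
            rw [← Real.rpow_natCast, ← Real.rpow_mul hT0.le, Real.rpow_neg hT0.le, div_eq_mul_inv]
        _ ≤ C2 * T ^ (-(b + 6)) := by
            gcongr
    calc cf p * cf q * (∫ η, ((W η : ℝ) : ℂ) * ee (T ^ α * (θ p - θ q) * Real.exp η)).re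
        ≤ |cf p * cf q * (∫ η, ((W η : ℝ) : ℂ) * ee (T ^ α * (θ p - θ q) * Real.exp η)).re| :=
          le_abs_self _
      _ = |cf p| * |cf q| * |(∫ η, ((W η : ℝ) : ℂ) * ee (T ^ α * (θ p - θ q) * Real.exp η)).re| := by
          rw [abs_mul, abs_mul]
      _ ≤ |cf p| * |cf q| * (C2 * T ^ (-(b + 6))) := by
          gcongr
          exact (Complex.abs_re_le_norm _).trans (h5.trans h6)
  -- diagonal terms
  have hdiag : ∀ p, cf p * cf p * (∫ η, ((W η : ℝ) : ℂ) * ee (T ^ α * (θ p - θ p) * Real.exp η)).re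
      = cf p ^ 2 * ∫ η, W η := by
    intro p
    have h1 : ∀ η, ((W η : ℝ) : ℂ) * ee (T ^ α * (θ p - θ p) * Real.exp η) = ((W η : ℝ) : ℂ) := by
      intro η
      rw [sub_self, mul_zero, zero_mul, dia_ee_zero, mul_one]
    simp only [h1]
    rw [integral_complex_ofReal, Complex.ofReal_re]
    ring
  have hE : 0 ≤ C2 * T ^ (-(b + 6)) := by positivity
  have hpt : ∀ p ∈ s, ∀ q ∈ s,
      cf p * cf q * (∫ η, ((W η : ℝ) : ℂ) * ee (T ^ α * (θ p - θ q) * Real.exp η)).re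
        ≤ (if p = q then cf p ^ 2 * ∫ η, W η else 0) + |cf p| * |cf q| * (C2 * T ^ (-(b + 6))) := by
    intro p hp q hq
    by_cases hpq : p = q
    · subst hpq
      rw [if_pos rfl, hdiag]
      have : 0 ≤ |cf p| * |cf p| * (C2 * T ^ (-(b + 6))) := by positivity
      linarith
    · rw [if_neg hpq, zero_add]
      exact hoff p hp q hq hpq
  have hL : 0 ≤ Real.log T := Real.log_nonneg hT1
  have hsum : (∑ p ∈ s, |cf p|) ^ 2 * (C2 * T ^ (-(b + 6))) ≤ T ^ (-α) := by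
    have h1 : ∑ p ∈ s, |cf p| ≤ C1 * T ^ (5 / 2 : ℝ) := by
      refine hs.trans ?_
      have h2 : 1 ≤ T ^ (α - 1) := Real.one_le_rpow hT1 (by linarith)
      have h3 : Real.log T ≤ T := (Real.log_le_sub_one_of_pos hT0).trans (by linarith)
      have h4 : T ^ (1 / 2 - P.ε) ≤ T ^ (1 / 2 : ℝ) :=
        Real.rpow_le_rpow_of_exponent_le hT1 (by linarith)
      have h5 : T ^ 2 * T ^ (1 / 2 : ℝ) = T ^ (5 / 2 : ℝ) := by
        rw [← Real.rpow_natCast, ← Real.rpow_add hT0]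
        norm_num
      calc C1 * Real.log T ^ 2 * T ^ (1 / 2 - P.ε) / T ^ (α - 1)
          ≤ C1 * Real.log T ^ 2 * T ^ (1 / 2 - P.ε) := div_le_self (by positivity) h2
        _ ≤ C1 * T ^ 2 * T ^ (1 / 2 : ℝ) := by gcongr
        _ = C1 * T ^ (5 / 2 : ℝ) := by rw [mul_assoc, h5]
    have h0 : 0 ≤ ∑ p ∈ s, |cf p| := Finset.sum_nonneg fun _ _ => abs_nonneg _
    calc (∑ p ∈ s, |cf p|) ^ 2 * (C2 * T ^ (-(b + 6)))
        ≤ (C1 * T ^ (5 / 2 : ℝ)) ^ 2 * (C2 * T ^ (-(b + 6))) := by gcongr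
      _ = (C1 ^ 2 * C2) * (T ^ (5 : ℝ) * T ^ (-(b + 6))) := by
          have : (T ^ (5 / 2 : ℝ)) ^ 2 = T ^ (5 : ℝ) := by
            rw [← Real.rpow_natCast, ← Real.rpow_mul hT0.le]
            norm_num
          rw [mul_pow, this]
          ring
      _ ≤ T * (T ^ (5 : ℝ) * T ^ (-(b + 6))) := by gcongr
      _ = T ^ (-b) := by
          rw [← Real.rpow_add hT0]
          nth_rewrite 1 [← Real.rpow_one T]
          rw [← Real.rpow_add hT0]
          congr 1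
          ring
      _ ≤ T ^ (-α) := Real.rpow_le_rpow_of_exponent_le hT1 (by linarith)
  calc ∑ p ∈ s, ∑ q ∈ s, cf p * cf q *
        (∫ η, ((W η : ℝ) : ℂ) * ee (T ^ α * (θ p - θ q) * Real.exp η)).re
      ≤ ∑ p ∈ s, ∑ q ∈ s, ((if p = q then cf p ^ 2 * ∫ η, W η else 0)
          + |cf p| * |cf q| * (C2 * T ^ (-(b + 6)))) :=
        Finset.sum_le_sum fun p hp => Finset.sum_le_sum fun q hq => hpt p hp q hq
    _ = (∫ η, W η) * S2 P T α + (∑ p ∈ s, |cf p|) ^ 2 * (C2 * T ^ (-(b + 6))) := by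
        simp only [Finset.sum_add_distrib]
        congr 1
        · unfold S2
          rw [Finset.mul_sum]
          refine Finset.sum_congr rfl fun p hp => ?_
          rw [Finset.sum_ite_eq, if_pos hp]
          ring
        · rw [pow_two, Finset.sum_mul_sum, Finset.sum_mul]
          refine Finset.sum_congr rfl fun p _ => ?_
          rw [Finset.sum_mul]
    _ ≤ _ := by linarith

end H69LB
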