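import Pool.Agent.H69.LB.Defs

/-!
# CNT: counting coprime integers in an interval

`#{a ∈ (A1, A2] : (a,r) = 1} = ∑_{d ∣ r} μ(d) (⌊A2/d⌋ - ⌊A1/d⌋)` (Moebius), each bracket differs from `(A2 - A1)/d` by at
most `1`, and `∑_{d ∣ r} μ(d)/d = φ(r)/r`.
-/

namespace H69LB

open Finset

/-- the number of multiples of `d` in `(A1, A2]` -/
private theorem cnt_mult {d : ℕ} (A1 A2 : ℕ) (h : A1 ≤ A2) :
    (((Ioc A1 A2).filter (fun a => d ∣ a)).card : ℝ) = ((A2 / d : ℕ) : ℝ) - ((A1 / d : ℕ) : ℝ) := by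
  have h1 : ((Ioc 0 A2).filter (fun a => d ∣ a)) =
      ((Ioc 0 A1).filter (fun a => d ∣ a)) ∪ ((Ioc A1 A2).filter (fun a => d ∣ a)) := by
    ext a
    simp only [mem_filter, mem_Ioc, mem_union]
    omega
  have h2 : Disjoint ((Ioc 0 A1).filter (fun a => d ∣ a)) ((Ioc A1 A2).filter (fun a => d ∣ a)) := by
    rw [Finset.disjoint_left]
    intro a
    simp only [mem_filter, mem_Ioc]
    omega
  have h3 := congrArg Finset.card h1
  rw [card_union_of_disjoint h2, Nat.Ioc_filter_dvd_card_eq_div, Nat.Ioc_filter_dvd_card_eq_div] at h3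
  have h4 : ((A2 / d : ℕ) : ℝ) = ((A1 / d : ℕ) : ℝ) + (((Ioc A1 A2).filter (fun a => d ∣ a)).card : ℝ) := by
    exact_mod_cast h3
  linarith

private theorem cnt_div_bound {d : ℕ} (hd : 1 ≤ d) (A1 A2 : ℕ) :
    |((A2 / d : ℕ) : ℝ) - ((A1 / d : ℕ) : ℝ) - ((A2 : ℝ) - A1) / d| ≤ 1 := by
  have hd' : (0 : ℝ) < d := by exact_mod_cast hd
  have key : ∀ A : ℕ, ((A / d : ℕ) : ℝ) ≤ (A : ℝ) / d ∧ (A : ℝ) / d < ((A / d : ℕ) : ℝ) + 1 := by
    intro A
    refine ⟨Nat.cast_div_le, ?_⟩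
    rw [div_lt_iff₀ hd']
    have := Nat.lt_mul_div_succ A (show 0 < d by omega)
    have h : (A : ℝ) < (d : ℝ) * ((A / d : ℕ) + 1 : ℝ) := by exact_mod_cast this
    linarith
  obtain ⟨a1, a2⟩ := key A1
  obtain ⟨b1, b2⟩ := key A2
  rw [abs_le, sub_div]
  constructor <;> linarith

private theorem cnt_moebius {r : ℕ} (hr : 1 ≤ r) (a : ℕ) :
    (if Nat.Coprime a r then (1 : ℝ) else 0)
      = ∑ d ∈ r.divisors, if d ∣ a then ((ArithmeticFunction.moebius d : ℤ) : ℝ) else 0 := by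
  have h1 : (∑ d ∈ (Nat.gcd a r).divisors, (ArithmeticFunction.moebius d : ℤ))
      = if Nat.gcd a r = 1 then 1 else 0 := by
    have := ArithmeticFunction.coe_zeta_mul_moebius
    have h2 := congrArg (fun f => f (Nat.gcd a r)) this
    simp only [ArithmeticFunction.coe_zeta_mul_apply, ArithmeticFunction.one_apply] at h2
    simpa using h2
  have h3 : (Nat.gcd a r).divisors = r.divisors.filter (fun d => d ∣ a) := by
    ext d
    simp only [Nat.mem_divisors, mem_filter, Nat.dvd_gcd_iff]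
    constructor
    · rintro ⟨⟨h1, h2⟩, _⟩
      exact ⟨⟨h2, by omega⟩, h1⟩
    · rintro ⟨⟨h1, h2⟩, h3⟩
      exact ⟨⟨h3, h1⟩, Nat.gcd_ne_zero_right (by omega)⟩
  rw [← sum_filter, ← h3]
  have h4 : (∑ d ∈ (Nat.gcd a r).divisors, ((ArithmeticFunction.moebius d : ℤ) : ℝ))
      = ((∑ d ∈ (Nat.gcd a r).divisors, (ArithmeticFunction.moebius d : ℤ) : ℤ) : ℝ) := by
    push_cast; rfl
  rw [h4, h1]
  unfold Nat.Coprime
  split_ifs <;> simp

private theorem cnt_totient {r : ℕ} (hr : 1 ≤ r) :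
    (Nat.totient r : ℝ) / r = ∑ d ∈ r.divisors, ((ArithmeticFunction.moebius d : ℤ) : ℝ) / d := by
  have h1 : (∑ d ∈ r.divisors, ((ArithmeticFunction.moebius d : ℤ) : ℝ) / d) * r = Nat.totient r := by
    have h2 : (Nat.totient r : ℝ) = ∑ a ∈ Ioc 0 r, (if Nat.Coprime a r then (1 : ℝ) else 0) := by
      rw [← Nat.filter_coprime_Ico_eq_totient r 1, ← sum_filter, sum_const, nsmul_eq_mul, mul_one]
      congr 2
      ext a
      simp only [mem_filter, mem_Ico, mem_Ioc, Nat.coprime_comm (m := r)]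
      constructor <;> rintro ⟨⟨h1, h2⟩, h3⟩ <;> exact ⟨⟨by omega, by omega⟩, h3⟩
    rw [h2]
    simp_rw [cnt_moebius hr]
    rw [sum_comm, sum_mul]
    refine sum_congr rfl fun d hd => ?_
    have hdr : d ∣ r := Nat.dvd_of_mem_divisors hd
    rw [← sum_filter, sum_const, Nat.Ioc_filter_dvd_card_eq_div, nsmul_eq_mul,
      Nat.cast_div hdr (by
        have := Nat.pos_of_mem_divisors hd
        exact_mod_cast this.ne')]
    ring
  have hr' : (0 : ℝ) < r := by exact_mod_cast hr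
  rw [eq_comm, ← h1]
  field_simp

theorem count_coprime {r : ℕ} (hr : 1 ≤ r) {A1 A2 : ℕ} (h : A1 ≤ A2) :
    (Nat.totient r : ℝ) / r * ((A2 : ℝ) - A1) - (r.divisors.card : ℝ)
      ≤ (((Ioc A1 A2).filter (fun a => Nat.Coprime a r)).card : ℝ) := by
  have h1 : (((Ioc A1 A2).filter (fun a => Nat.Coprime a r)).card : ℝ)
      = ∑ d ∈ r.divisors, ((ArithmeticFunction.moebius d : ℤ) : ℝ) *
          (((A2 / d : ℕ) : ℝ) - ((A1 / d : ℕ) : ℝ)) := by
    have h2 : (((Ioc A1 A2).filter (fun a => Nat.Coprime a r)).card : ℝ)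
        = ∑ a ∈ Ioc A1 A2, (if Nat.Coprime a r then (1 : ℝ) else 0) := by
      rw [← sum_filter, sum_const, nsmul_eq_mul, mul_one]
    rw [h2]
    simp_rw [cnt_moebius hr]
    rw [sum_comm]
    refine sum_congr rfl fun d hd => ?_
    rw [← sum_filter, sum_const, nsmul_eq_mul, cnt_mult A1 A2 h]
    ring
  rw [h1, cnt_totient hr, sum_mul]
  have h3 : (r.divisors.card : ℝ) = ∑ d ∈ r.divisors, (1 : ℝ) := by
    rw [sum_const, nsmul_eq_mul, mul_one]
  rw [h3, sub_le_iff_le_add, ← sum_add_distrib]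
  refine sum_le_sum fun d hd => ?_
  have hd1 : 1 ≤ d := Nat.pos_of_mem_divisors hd
  have hb := cnt_div_bound hd1 A1 A2
  have hmu : |((ArithmeticFunction.moebius d : ℤ) : ℝ)| ≤ 1 := by
    have := ArithmeticFunction.abs_moebius_le_one (n := d)
    exact_mod_cast this
  have h5 : |((ArithmeticFunction.moebius d : ℤ) : ℝ) *
      (((A2 / d : ℕ) : ℝ) - ((A1 / d : ℕ) : ℝ) - ((A2 : ℝ) - A1) / d)| ≤ 1 := by
    rw [abs_mul]
    calc _ ≤ (1 : ℝ) * 1 := mul_le_mul hmu hb (abs_nonneg _) zero_le_one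
      _ = 1 := one_mul 1
  have h6 := (abs_le.mp h5).1
  have h7 : ((ArithmeticFunction.moebius d : ℤ) : ℝ) / d * ((A2 : ℝ) - A1)
      = ((ArithmeticFunction.moebius d : ℤ) : ℝ) * (((A2 : ℝ) - A1) / d) := by ring
  rw [h7]
  nlinarith [h6]

end H69LB
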