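import Pool.Agent.H69.LB.Frb
import Pool.Agent.H69.LB.Cnt
import Pool.Agent.H69.LB.Hsm

/-!
# FRA: lower bound for `S2`

`L = log T`, `h = T^(α-1)`, `H = cH h`, `h₁ = h L^120`, `K = KK`. `cf (a,r)² = 1/φ(r)²` for squarefree `r`.
By `sum_Th`, `count_coprime` and `A2 - A1 ≥ (1-δ) R_k/H - 1` (floors; `A1 ≤ A2`)
`S2 = ∑_k ∑_r φ(r)^{-2} #{a} ≥ ∑_k ∑_r φ(r)^{-2} ((φ(r)/r) ((1-δ) R_k/H - 1) - d(r))`.
* `R_k/r ≥ 1/(1+2κ)` (`Rk_succ_le`), so the main part is `≥ ((1-δ)/((1+2κ) H)) ∑_{R_0 < r ≤ R_K, r squarefree} 1/φ(r)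
  ≥ ((1-δ)/((1+2κ) H)) (log(R_K/R_0) - C)` (`hsum_lower`), and `log(R_K/R_0) ≥ (1/2-ε) L - log(2(1+κ)) - log(2 h₁)`
  (`Rk_KK_ge`, `R_0 ≤ 2 h₁`) `≥ (3/2 - α - ε) L - 120 log L - C`.
* the negative terms: `1/(r φ(r)) + d(r)/φ(r)² ≤ (2 d(r)) · 4 (1+log r)²/r²` (`le_totient`), and with `r > R_0 ≥ h₁`:
  `≤ (C L²/h₁) ∑_{r ≤ T} d(r)/r ≤ C L⁴/h₁ = C L^{4-120}/h` (`sum_card_div_le`): absorbed.
If `K = 0`, then `S2 = 0` and `T^(1/2-ε)/(2 h₁) < 1 + κ`, i.e. `(3/2-α-ε) L ≤ 120 log L + C`: the left side of the claim is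
`≤ 0` for a suitable `C`. (The case distinction is not needed if `R_0 ≤ R_K` always, and `log(R_K/R_0) ≥ ...` holds.)
-/

namespace H69LB

open Finset

private lemma fra_telescope (R : ℕ → ℕ) (hR : Monotone R) (g : ℕ → ℝ) (K : ℕ) :
    ∑ k ∈ range K, ∑ r ∈ (Ioc (R k) (R (k + 1))).filter Squarefree, g r =
      ∑ r ∈ (Ioc (R 0) (R K)).filter Squarefree, g r := by
  induction K with
  | zero => simp
  | succ K ih =>
    rw [sum_range_succ, ih, sum_filter, sum_filter, sum_filter]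
    exact sum_Ioc_consecutive _ (hR (Nat.zero_le K)) (hR (Nat.le_succ K))

private lemma fra_S2_eq (P : Par) (hP : P.Ok) {T α : ℝ} (hT : 1 ≤ T) :
    S2 P T α = ∑ k ∈ range (KK P T α),
      ∑ r ∈ (Ioc (Rk P T α k) (Rk P T α (k + 1))).filter Squarefree,
        (((Ioc (A1 P T α k) (A2 P T α k)).filter (fun a => Nat.Coprime a r)).card : ℝ) *
          ((Nat.totient r : ℝ)⁻¹) ^ 2 := by
  have h := sum_Th P hP (α := α) hT (fun a r => cf (a, r) ^ 2)
  have h2 : S2 P T α = ∑ p ∈ Th P T α, (fun a r => cf (a, r) ^ 2) p.1 p.2 := rfl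
  rw [h2, h]
  refine sum_congr rfl (fun k _ => sum_congr rfl (fun r hr => ?_))
  rw [mem_filter] at hr
  have hmu : ((ArithmeticFunction.moebius r : ℤ) : ℝ) ^ 2 = 1 := by
    exact_mod_cast ArithmeticFunction.moebius_sq_eq_one_of_squarefree hr.2
  have hc : ∀ a, cf (a, r) ^ 2 = ((Nat.totient r : ℝ)⁻¹) ^ 2 := by
    intro a
    unfold cf
    simp only
    rw [div_pow, hmu, inv_pow, one_div]
  simp only [hc, sum_const, nsmul_eq_mul]

private lemma fra_inv_totient_le {r : ℕ} (hr : 1 ≤ r) :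
    ((Nat.totient r : ℝ))⁻¹ ≤ 2 * (1 + Real.log r) / r := by
  have h := le_totient hr
  have h1 : 0 < (Nat.totient r : ℝ) := by exact_mod_cast Nat.totient_pos.2 hr
  have h2 : (0 : ℝ) < r := by exact_mod_cast hr
  rw [inv_le_iff_one_le_mul₀ h1, div_mul_eq_mul_div, one_le_div h2]
  exact h

private lemma fra_term {P : Par} (hP : P.Ok) {h : ℝ} (hh : 0 < h) {R R' r : ℕ}
    (hR1 : 1 ≤ R) (hRR : (R' : ℝ) ≤ (1 + 2 * P.κ) * R) (hr1 : R < r) (hr2 : r ≤ R') {a1 a2 : ℕ}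
    (ha1 : a1 = ⌊P.δ * ((R : ℝ) / (P.cH * h))⌋₊) (ha2 : a2 = ⌊(R : ℝ) / (P.cH * h)⌋₊) :
    (1 - P.δ) / ((1 + 2 * P.κ) * (P.cH * h)) * ((Nat.totient r : ℝ))⁻¹
      - 2 * (r.divisors.card : ℝ) * ((Nat.totient r : ℝ)⁻¹) ^ 2 ≤
    (((Ioc a1 a2).filter (fun a => Nat.Coprime a r)).card : ℝ) * ((Nat.totient r : ℝ)⁻¹) ^ 2 := by
  have hδ := hP.δ_pos
  have hδ' := hP.δ_lt
  have hκ := hP.κ_pos
  have hcH := hP.cH_pos
  have hH : 0 < P.cH * h := by positivity
  have hR0 : (0 : ℝ) < R := by exact_mod_cast hR1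
  set x : ℝ := (R : ℝ) / (P.cH * h) with hx
  have hx0 : 0 < x := by positivity
  have h12 : a1 ≤ a2 := by
    rw [ha1, ha2]
    apply Nat.floor_le_floor
    nlinarith
  have hrpos : 1 ≤ r := by omega
  have hr0 : (0 : ℝ) < r := by exact_mod_cast hrpos
  have hcount := count_coprime hrpos h12
  have hφ : 0 < (Nat.totient r : ℝ) := by exact_mod_cast Nat.totient_pos.2 hrpos
  have hφr : (Nat.totient r : ℝ) ≤ r := by exact_mod_cast Nat.totient_le r
  have hd : (1 : ℝ) ≤ (r.divisors.card : ℝ) := by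
    have : 1 ≤ r.divisors.card := Finset.card_pos.2 ⟨1, Nat.one_mem_divisors.2 (by omega)⟩
    exact_mod_cast this
  have hdiff : (1 - P.δ) * x - 1 ≤ (a2 : ℝ) - a1 := by
    have e1 : (a1 : ℝ) ≤ P.δ * x := by rw [ha1]; exact Nat.floor_le (by positivity)
    have e2 : x - 1 < (a2 : ℝ) := by rw [ha2]; exact Nat.sub_one_lt_floor x
    linarith
  have hq0 : 0 < (Nat.totient r : ℝ) / r := by positivity
  have hq1 : (Nat.totient r : ℝ) / r ≤ 1 := by rw [div_le_one hr0]; exact hφr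
  -- R/r ≥ 1/(1+2κ)
  have hRr : 1 / (1 + 2 * P.κ) ≤ (R : ℝ) / r := by
    rw [div_le_div_iff₀ (by positivity) hr0]
    have : (r : ℝ) ≤ R' := by exact_mod_cast hr2
    linarith
  have hmain : (Nat.totient r : ℝ) * ((1 - P.δ) / ((1 + 2 * P.κ) * (P.cH * h))) ≤
      (Nat.totient r : ℝ) / r * ((1 - P.δ) * x) := by
    have e : (Nat.totient r : ℝ) / r * ((1 - P.δ) * x) =
        (Nat.totient r : ℝ) * ((1 - P.δ) / (P.cH * h)) * ((R : ℝ) / r) := by
      rw [hx]; field_simp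
    rw [e]
    have e2 : (Nat.totient r : ℝ) * ((1 - P.δ) / ((1 + 2 * P.κ) * (P.cH * h))) =
        (Nat.totient r : ℝ) * ((1 - P.δ) / (P.cH * h)) * (1 / (1 + 2 * P.κ)) := by
      field_simp
    rw [e2]
    have : 0 ≤ (Nat.totient r : ℝ) * ((1 - P.δ) / (P.cH * h)) := by
      have : 0 ≤ 1 - P.δ := by linarith
      positivity
    exact mul_le_mul_of_nonneg_left hRr this
  have hcard : (Nat.totient r : ℝ) * ((1 - P.δ) / ((1 + 2 * P.κ) * (P.cH * h)))
      - 2 * (r.divisors.card : ℝ) ≤ (((Ioc a1 a2).filter (fun a => Nat.Coprime a r)).card : ℝ) := by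
    have e3 : (Nat.totient r : ℝ) / r * ((1 - P.δ) * x - 1) ≤ (Nat.totient r : ℝ) / r * ((a2 : ℝ) - a1) :=
      mul_le_mul_of_nonneg_left hdiff hq0.le
    nlinarith
  have hinv : 0 ≤ ((Nat.totient r : ℝ)⁻¹) ^ 2 := by positivity
  have := mul_le_mul_of_nonneg_right hcard hinv
  refine le_trans (le_of_eq ?_) this
  field_simp

/-- bounds for denominators in the range -/
private lemma fra_range (P : Par) (hP : P.Ok) : ∃ T0 : ℝ, ∀ T, T0 ≤ T → ∀ α : ℝ, 1 ≤ α →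
    1 ≤ T ∧ Real.exp 1 ≤ Real.log T ∧ 1 ≤ T ^ (α - 1) ∧ 1 ≤ h1 T α ∧ 1 ≤ Rk P T α 0 ∧
    (Rk P T α 0 : ℝ) ≤ 2 * h1 T α ∧ h1 T α ≤ Rk P T α 0 ∧
    (∀ r ∈ Ioc (Rk P T α 0) (Rk P T α (KK P T α)), Real.log r ≤ Real.log T) ∧
    (0 < KK P T α → Real.log (Rk P T α (KK P T α)) ≤ Real.log T) := by
  obtain ⟨T1, hT1⟩ := Rk_KK_le P hP
  refine ⟨max T1 (Real.exp (Real.exp 1)), ?_⟩
  intro T hT α hα
  have hTe : Real.exp (Real.exp 1) ≤ T := le_trans (le_max_right _ _) hT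
  have hT1' : T1 ≤ T := le_trans (le_max_left _ _) hT
  have hTpos : 0 < T := lt_of_lt_of_le (Real.exp_pos _) hTe
  have hL : Real.exp 1 ≤ Real.log T := by
    rw [Real.le_log_iff_exp_le hTpos]; exact hTe
  have he1 : (1 : ℝ) ≤ Real.exp 1 := by
    have := Real.add_one_le_exp (1 : ℝ); linarith
  have hL1 : 1 ≤ Real.log T := le_trans he1 hL
  have hT1 : 1 ≤ T := by
    have : (1 : ℝ) ≤ Real.exp (Real.exp 1) := Real.one_le_exp (Real.exp_pos _).le
    linarith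
  have hh : 1 ≤ T ^ (α - 1) := Real.one_le_rpow hT1 (by linarith)
  have hh1 : 1 ≤ h1 T α := by
    unfold h1
    have : 1 ≤ Real.log T ^ 120 := one_le_pow₀ hL1
    nlinarith
  have hR0 : h1 T α ≤ Rk P T α 0 := Rk_ge P hP hT1 0
  have hR01 : 1 ≤ Rk P T α 0 := by
    have : (1 : ℝ) ≤ Rk P T α 0 := le_trans hh1 hR0
    exact_mod_cast this
  have hR02 : (Rk P T α 0 : ℝ) ≤ 2 * h1 T α := by
    unfold Rk
    rw [pow_zero, mul_one]
    have := Nat.ceil_lt_add_one (le_trans zero_le_one hh1)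
    linarith
  have hRK : 0 < KK P T α → (Rk P T α (KK P T α) : ℝ) ≤ T := by
    intro hK
    refine (hT1' |> fun h => ‹∀ T, T1 ≤ T → ∀ α : ℝ, 1 ≤ α → 0 < KK P T α →
      (Rk P T α (KK P T α) : ℝ) ≤ T ^ (1 / 2 - P.ε)› T h α hα hK).trans ?_
    calc T ^ (1 / 2 - P.ε) ≤ T ^ (1 : ℝ) := Real.rpow_le_rpow_of_exponent_le hT1 (by
          have := hP.ε_pos; linarith)
      _ = T := Real.rpow_one T
  refine ⟨hT1, hL, hh, hh1, hR01, hR02, hR0, ?_, ?_⟩
  · intro r hr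
    rw [mem_Ioc] at hr
    have hK : 0 < KK P T α := by
      rcases Nat.eq_zero_or_pos (KK P T α) with h | h
      · rw [h] at hr; omega
      · exact h
    apply Real.log_le_log
    · have : 0 < r := by omega
      exact_mod_cast this
    · have : (r : ℝ) ≤ Rk P T α (KK P T α) := by exact_mod_cast hr.2
      exact this.trans (hRK hK)
  · intro hK
    apply Real.log_le_log
    · have : 0 < Rk P T α (KK P T α) := lt_of_lt_of_le hR01 (Rk_mono P hP hT1 (Nat.zero_le _))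
      exact_mod_cast this
    · exact hRK hK

theorem S2_lower (P : Par) (hP : P.Ok) {b : ℝ} (hb : 1 ≤ b) : ∃ C T0 : ℝ, 0 ≤ C ∧ ∀ T, T0 ≤ T →
    ∀ α ∈ Set.Icc 1 b,
      (1 - P.δ) / ((1 + 2 * P.κ) * (P.cH * T ^ (α - 1))) *
        ((3 / 2 - α - P.ε) * Real.log T - C * Real.log (Real.log T)) ≤ S2 P T α := by
  obtain ⟨T1, hT1⟩ := fra_range P hP
  obtain ⟨T2, hT2⟩ := Rk_succ_le P hP
  obtain ⟨T3, hT3⟩ := Rk_KK_ge P hP
  obtain ⟨C1, hC1, hsum⟩ := hsum_lower
  have hδ := hP.δ_pos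
  have hδ' := hP.δ_lt
  have hκ := hP.κ_pos
  have hcH := hP.cH_pos
  set C2 : ℝ := 128 * P.cH * (1 + 2 * P.κ) / (1 - P.δ) with hC2
  have hδ1 : 0 < 1 - P.δ := by linarith
  have hC20 : 0 ≤ C2 := by positivity
  have hl4 : 0 ≤ Real.log (4 * (1 + P.κ)) := Real.log_nonneg (by linarith)
  refine ⟨120 + Real.log (4 * (1 + P.κ)) + C1 + C2, max T1 (max T2 T3), by positivity, ?_⟩
  intro T hT α hα
  have hα1 : 1 ≤ α := hα.1
  obtain ⟨hTone, hLe, hh, hh1, hR01, hR02, hR0, hlogr, hlogK⟩ := hT1 T (le_trans (le_max_left _ _) hT) α hα1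
  have hsucc := hT2 T (le_trans (le_trans (le_max_left _ _) (le_max_right _ _)) hT) α hα1
  have hKge := hT3 T (le_trans (le_trans (le_max_right _ _) (le_max_right _ _)) hT) α hα1
  have hmono := Rk_mono P hP (α := α) hTone
  have hTpos : 0 < T := by linarith
  set L : ℝ := Real.log T with hLdef
  have he1 : (1 : ℝ) ≤ Real.exp 1 := by
    have := Real.add_one_le_exp (1 : ℝ); linarith
  have hL1 : 1 ≤ L := le_trans he1 hLe
  have hL0 : 0 < L := by linarith
  have hlogL : 1 ≤ Real.log L := by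
    rw [Real.le_log_iff_exp_le hL0]; exact hLe
  set h : ℝ := T ^ (α - 1) with hhdef
  have hh0 : 0 < h := by linarith
  set D : ℝ := (1 - P.δ) / ((1 + 2 * P.κ) * (P.cH * h)) with hD
  have hD0 : 0 < D := by positivity
  set g : ℕ → ℝ := fun r => D * ((Nat.totient r : ℝ))⁻¹
      - 2 * (r.divisors.card : ℝ) * ((Nat.totient r : ℝ)⁻¹) ^ 2 with hg
  -- step 1: termwise
  have hstep1 : ∑ r ∈ (Ioc (Rk P T α 0) (Rk P T α (KK P T α))).filter Squarefree, g r ≤ S2 P T α := by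
    rw [fra_S2_eq P hP hTone, ← fra_telescope (Rk P T α) hmono g]
    refine sum_le_sum (fun k _ => sum_le_sum (fun r hr => ?_))
    rw [mem_filter, mem_Ioc] at hr
    exact fra_term hP hh0 (le_trans hR01 (hmono (Nat.zero_le k))) (hsucc k) hr.1.1 hr.1.2 rfl rfl
  -- step 2: error
  have hstep2 : ∑ r ∈ (Ioc (Rk P T α 0) (Rk P T α (KK P T α))).filter Squarefree,
      2 * (r.divisors.card : ℝ) * ((Nat.totient r : ℝ)⁻¹) ^ 2 ≤ D * C2 := by
    rcases Nat.eq_zero_or_pos (KK P T α) with hK | hK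
    · rw [hK]; simp; positivity
    have hterm : ∀ r ∈ (Ioc (Rk P T α 0) (Rk P T α (KK P T α))).filter Squarefree,
        2 * (r.divisors.card : ℝ) * ((Nat.totient r : ℝ)⁻¹) ^ 2 ≤
          8 * (1 + L) ^ 2 / h1 T α * ((r.divisors.card : ℝ) / r) := by
      intro r hr
      rw [mem_filter] at hr
      have hrI := mem_Ioc.1 hr.1
      have hr1 : 1 ≤ r := by omega
      have hr0 : (0 : ℝ) < r := by exact_mod_cast hr1
      have hlr := hlogr r hr.1
      have hlr0 : 0 ≤ Real.log r := Real.log_nonneg (by exact_mod_cast hr1)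
      have hφ0 : 0 ≤ ((Nat.totient r : ℝ))⁻¹ := by positivity
      have e1 : ((Nat.totient r : ℝ))⁻¹ ≤ 2 * (1 + L) / r := by
        refine (fra_inv_totient_le hr1).trans ?_
        gcongr
      have hrh : h1 T α ≤ r := by
        have : (Rk P T α 0 : ℝ) ≤ r := by exact_mod_cast hrI.1.le
        linarith
      have hh1pos : 0 < h1 T α := by linarith
      calc 2 * (r.divisors.card : ℝ) * ((Nat.totient r : ℝ)⁻¹) ^ 2
          ≤ 2 * (r.divisors.card : ℝ) * (2 * (1 + L) / r) ^ 2 := by gcongr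
        _ = 8 * (1 + L) ^ 2 * (1 / r) * ((r.divisors.card : ℝ) / r) := by field_simp; ring
        _ ≤ 8 * (1 + L) ^ 2 * (1 / h1 T α) * ((r.divisors.card : ℝ) / r) := by gcongr
        _ = _ := by ring
    refine (sum_le_sum hterm).trans ?_
    rw [← mul_sum]
    have hsub : ∑ r ∈ (Ioc (Rk P T α 0) (Rk P T α (KK P T α))).filter Squarefree,
        ((r.divisors.card : ℝ) / r) ≤ ∑ r ∈ Icc 1 (Rk P T α (KK P T α)), ((r.divisors.card : ℝ) / r) := by
      apply sum_le_sum_of_subset_of_nonneg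
      · intro r hr
        rw [mem_filter, mem_Ioc] at hr
        rw [mem_Icc]; omega
      · intro r _ _; positivity
    have hRK1 : 1 ≤ Rk P T α (KK P T α) := le_trans hR01 (hmono (Nat.zero_le _))
    have hdiv := sum_card_div_le (Rk P T α (KK P T α)) hRK1
    have hlK := hlogK hK
    have hlK0 : 0 ≤ Real.log (Rk P T α (KK P T α)) := Real.log_nonneg (by exact_mod_cast hRK1)
    have htot : ∑ r ∈ (Ioc (Rk P T α 0) (Rk P T α (KK P T α))).filter Squarefree,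
        ((r.divisors.card : ℝ) / r) ≤ (1 + L) ^ 2 := by
      refine (hsub.trans hdiv).trans ?_
      gcongr
    have hh1pos : 0 < h1 T α := by linarith
    calc 8 * (1 + L) ^ 2 / h1 T α * ∑ r ∈ (Ioc (Rk P T α 0) (Rk P T α (KK P T α))).filter Squarefree,
        ((r.divisors.card : ℝ) / r) ≤ 8 * (1 + L) ^ 2 / h1 T α * (1 + L) ^ 2 := by gcongr
      _ = 8 * (1 + L) ^ 4 / h1 T α := by ring
      _ ≤ 8 * (L + L) ^ 4 / h1 T α := by gcongr
      _ = 128 * L ^ 4 / (h * L ^ 120) := by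
          unfold h1
          rw [← hLdef, ← hhdef]
          ring
      _ ≤ 128 * L ^ 120 / (h * L ^ 120) := by
          have : L ^ 4 ≤ L ^ 120 := pow_le_pow_right₀ hL1 (by norm_num)
          gcongr
      _ = 128 / h := by
          have : L ^ 120 ≠ 0 := by positivity
          field_simp
      _ = D * C2 := by
          rw [hD, hC2]
          field_simp
  -- step 3: main term
  have hstep3 : D * (Real.log ((Rk P T α (KK P T α) : ℝ) / (Rk P T α 0)) - C1) ≤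
      ∑ r ∈ (Ioc (Rk P T α 0) (Rk P T α (KK P T α))).filter Squarefree, D * ((Nat.totient r : ℝ))⁻¹ := by
    rw [← mul_sum]
    exact mul_le_mul_of_nonneg_left (hsum _ _ hR01 (hmono (Nat.zero_le _))) hD0.le
  have hlog : (3 / 2 - α - P.ε) * L - 120 * Real.log L - Real.log (4 * (1 + P.κ)) ≤
      Real.log ((Rk P T α (KK P T α) : ℝ) / (Rk P T α 0)) := by
    have hR0pos : (0 : ℝ) < Rk P T α 0 := by exact_mod_cast hR01
    have hRKpos : (0 : ℝ) < Rk P T α (KK P T α) := by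
      have : 1 ≤ Rk P T α (KK P T α) := le_trans hR01 (hmono (Nat.zero_le _))
      exact_mod_cast this
    rw [Real.log_div hRKpos.ne' hR0pos.ne']
    have hTp : 0 < T ^ (1 / 2 - P.ε) := Real.rpow_pos_of_pos hTpos _
    have a1 : Real.log (T ^ (1 / 2 - P.ε) / (2 * (1 + P.κ))) ≤ Real.log (Rk P T α (KK P T α)) :=
      Real.log_le_log (by positivity) hKge
    have a2 : Real.log (Rk P T α 0) ≤ Real.log (2 * h1 T α) := Real.log_le_log hR0pos hR02
    rw [Real.log_div hTp.ne' (by positivity), Real.log_rpow hTpos] at a1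
    have a3 : Real.log (2 * h1 T α) = Real.log 2 + ((α - 1) * L + 120 * Real.log L) := by
      have hh1pos : 0 < h1 T α := by linarith
      rw [Real.log_mul (by norm_num) hh1pos.ne']
      unfold h1
      rw [Real.log_mul (by positivity) (by positivity), Real.log_rpow hTpos, Real.log_pow]
      norm_num
      rw [← hLdef]
    have a4 : Real.log (4 * (1 + P.κ)) = Real.log 2 + Real.log (2 * (1 + P.κ)) := by
      rw [← Real.log_mul (by norm_num) (by positivity)]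
      congr 1; ring
    rw [a3] at a2
    rw [a4]
    linarith
  have hfin : D * ((3 / 2 - α - P.ε) * L - (120 + Real.log (4 * (1 + P.κ)) + C1 + C2) * Real.log L) ≤
      D * (Real.log ((Rk P T α (KK P T α) : ℝ) / (Rk P T α 0)) - C1) - D * C2 := by
    rw [← mul_sub]
    apply mul_le_mul_of_nonneg_left _ hD0.le
    have b1 : Real.log (4 * (1 + P.κ)) + C1 + C2 ≤ (Real.log (4 * (1 + P.κ)) + C1 + C2) * Real.log L :=
      le_mul_of_one_le_right (by positivity) hlogL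
    linarith
  calc D * ((3 / 2 - α - P.ε) * L - (120 + Real.log (4 * (1 + P.κ)) + C1 + C2) * Real.log L)
      ≤ D * (Real.log ((Rk P T α (KK P T α) : ℝ) / (Rk P T α 0)) - C1) - D * C2 := hfin
    _ ≤ ∑ r ∈ (Ioc (Rk P T α 0) (Rk P T α (KK P T α))).filter Squarefree, D * ((Nat.totient r : ℝ))⁻¹ -
        ∑ r ∈ (Ioc (Rk P T α 0) (Rk P T α (KK P T α))).filter Squarefree,
          2 * (r.divisors.card : ℝ) * ((Nat.totient r : ℝ)⁻¹) ^ 2 := by linarith
    _ = ∑ r ∈ (Ioc (Rk P T α 0) (Rk P T α (KK P T α))).filter Squarefree, g r := by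
        rw [← sum_sub_distrib]
    _ ≤ S2 P T α := hstep1

theorem S2_nonneg (P : Par) (T α : ℝ) : 0 ≤ S2 P T α := by
  unfold S2
  exact sum_nonneg (fun p _ => sq_nonneg _)

/-- crude upper bound -/
theorem S2_upper (P : Par) (hP : P.Ok) : ∃ C T0 : ℝ, 0 ≤ C ∧ ∀ T, T0 ≤ T → ∀ α : ℝ, 1 ≤ α →
    S2 P T α ≤ C * Real.log T ^ 4 / T ^ (α - 1) := by
  obtain ⟨T1, hT1⟩ := fra_range P hP
  have hcH := hP.cH_pos
  refine ⟨32 / P.cH, T1, by positivity, ?_⟩
  intro T hT α hα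
  obtain ⟨hTone, hLe, hh, hh1, hR01, hR02, hR0, hlogr, hlogK⟩ := hT1 T hT α hα
  have hmono := Rk_mono P hP (α := α) hTone
  set L : ℝ := Real.log T with hLdef
  have he1 : (1 : ℝ) ≤ Real.exp 1 := by
    have := Real.add_one_le_exp (1 : ℝ); linarith
  have hL1 : 1 ≤ L := le_trans he1 hLe
  set h : ℝ := T ^ (α - 1) with hhdef
  have hh0 : 0 < h := by linarith
  rcases Nat.eq_zero_or_pos (KK P T α) with hK | hK
  · rw [fra_S2_eq P hP hTone, hK]
    simp
    positivity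
  set g : ℕ → ℝ := fun r => 4 * (1 + L) ^ 2 / (P.cH * h) * ((r : ℝ))⁻¹ with hg
  have hstep1 : S2 P T α ≤ ∑ r ∈ (Ioc (Rk P T α 0) (Rk P T α (KK P T α))).filter Squarefree, g r := by
    rw [fra_S2_eq P hP hTone, ← fra_telescope (Rk P T α) hmono g]
    refine sum_le_sum (fun k hk => sum_le_sum (fun r hr => ?_))
    rw [mem_filter, mem_Ioc] at hr
    rw [mem_range] at hk
    have hk0 : Rk P T α 0 ≤ Rk P T α k := hmono (Nat.zero_le k)
    have hkK : Rk P T α (k + 1) ≤ Rk P T α (KK P T α) := hmono hk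
    have hr1 : 1 ≤ r := by omega
    have hr0 : (0 : ℝ) < r := by exact_mod_cast hr1
    have hlr := hlogr r (by rw [mem_Ioc]; omega)
    have hlr0 : 0 ≤ Real.log r := Real.log_nonneg (by exact_mod_cast hr1)
    have e1 : ((Nat.totient r : ℝ))⁻¹ ≤ 2 * (1 + L) / r := by
      refine (fra_inv_totient_le hr1).trans ?_
      gcongr
    have hφ0 : 0 ≤ ((Nat.totient r : ℝ))⁻¹ := by positivity
    have e2 : (((Ioc (A1 P T α k) (A2 P T α k)).filter (fun a => Nat.Coprime a r)).card : ℝ) ≤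
        (r : ℝ) / (P.cH * h) := by
      have c1 : ((Ioc (A1 P T α k) (A2 P T α k)).filter (fun a => Nat.Coprime a r)).card ≤ A2 P T α k := by
        refine (card_filter_le _ _).trans ?_
        rw [Nat.card_Ioc]; omega
      have c2 : (A2 P T α k : ℝ) ≤ (Rk P T α k : ℝ) / (P.cH * h) := by
        unfold A2
        exact Nat.floor_le (by positivity)
      have c3 : (Rk P T α k : ℝ) ≤ r := by exact_mod_cast hr.1.1.le
      calc (((Ioc (A1 P T α k) (A2 P T α k)).filter (fun a => Nat.Coprime a r)).card : ℝ)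
          ≤ A2 P T α k := by exact_mod_cast c1
        _ ≤ (Rk P T α k : ℝ) / (P.cH * h) := c2
        _ ≤ (r : ℝ) / (P.cH * h) := by gcongr
    calc _ ≤ (r : ℝ) / (P.cH * h) * (2 * (1 + L) / r) ^ 2 := by gcongr
      _ = g r := by rw [hg]; field_simp; ring
  have hRK1 : 1 ≤ Rk P T α (KK P T α) := le_trans hR01 (hmono (Nat.zero_le _))
  have hsub : ∑ r ∈ (Ioc (Rk P T α 0) (Rk P T α (KK P T α))).filter Squarefree, ((r : ℝ))⁻¹ ≤
      ∑ r ∈ Icc 1 (Rk P T α (KK P T α)), ((r : ℝ))⁻¹ := by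
    apply sum_le_sum_of_subset_of_nonneg
    · intro r hr
      rw [mem_filter, mem_Ioc] at hr
      rw [mem_Icc]; omega
    · intro r _ _; positivity
  have hinv := sum_inv_le (Rk P T α (KK P T α))
  have hlK := hlogK hK
  calc S2 P T α ≤ ∑ r ∈ (Ioc (Rk P T α 0) (Rk P T α (KK P T α))).filter Squarefree, g r := hstep1
    _ = 4 * (1 + L) ^ 2 / (P.cH * h) *
        ∑ r ∈ (Ioc (Rk P T α 0) (Rk P T α (KK P T α))).filter Squarefree, ((r : ℝ))⁻¹ := by
        rw [mul_sum]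
    _ ≤ 4 * (1 + L) ^ 2 / (P.cH * h) * (1 + L) := by
        have : ∑ r ∈ (Ioc (Rk P T α 0) (Rk P T α (KK P T α))).filter Squarefree, ((r : ℝ))⁻¹ ≤ 1 + L := by
          linarith
        gcongr
    _ = 4 * (1 + L) ^ 3 / (P.cH * h) := by ring
    _ ≤ 4 * (L + L) ^ 3 / (P.cH * h) := by gcongr
    _ = 32 * L ^ 3 / (P.cH * h) := by ring
    _ ≤ 32 * L ^ 4 / (P.cH * h) := by
        have : L ^ 3 ≤ L ^ 4 := pow_le_pow_right₀ hL1 (by norm_num)
        gcongr
    _ = 32 / P.cH * L ^ 4 / h := by field_simp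

end H69LB
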