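import Pool.Agent.H69.LB.Zpr
import Pool.Agent.H69.LB.Pnw
import Pool.Agent.H69.LB.Crs
import Pool.Agent.H69.LB.Fra
import Pool.Agent.H69.LB.Dia

/-!
# PIE: the contribution of one piece

`L = log T`, `x = T^α`, `h = T^(α-1)`, `W = Wof χ`, `S2 = S2 P T α`, `I1 = ∫ e^{-2|η|+η} χ`, `I2 = ∫ e^{-2|η|+η} χ²`, `I2 ≤ I1`.
1. `zside`: `2 Re ∑_{i ∈ F T} ≥ 4π Re ∑ c_p thW(ee(-(n θ_p))) - 4T`.
2. `cross`: `≥ 4π S2 Re thW(1) - C T/L² - 4T`.
3. `thW_one`: `thW(1) = x ∫ W e^η + O(√x (1 + log x)) = x I1 + ...`; `S2 √x L ≤ C L⁵ √x/h ≤ T` (`S2_upper`; `√x/h = (T/h)^{1/2}`).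
4. `‖bP ξ‖² = e^ξ e^{-2|ξ-y|} χ² ‖∑ c_p ee(θ_p e^ξ)‖²`, substitute `ξ = y + η`: `∫ ‖bP‖² = x ∫ e^{-2|η|+η} χ² ‖∑ c_p ee(x θ_p e^η)‖² dη
   ≤ x (I2 S2 + T^{-α}) = x I2 S2 + 1` (`diag` with `W := e^{-2|η|+η} χ²`, which satisfies `WS M`).
So the left side of the claim is `≥ 2π x S2 (2 I1 - I2) - C T ≥ 2π x S2 I1 - C T`, and `S2_lower` with
`2π x (1-δ)/((1+2κ) cH h) = T (1-δ)² e^{-η2}/(1+2κ)`.
-/

open MeasureTheory

namespace H69LB

/-- the weight of a piece -/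
noncomputable def rho (P : Par) (η2 : ℝ) (χ : ℝ → ℝ) : ℝ :=
  (1 - P.δ) ^ 2 / (1 + 2 * P.κ) * Real.exp (-η2) * ∫ η, Real.exp (-(2 * |η|)) * Real.exp η * χ η

private theorem pie_WS1 {η1 η2 : ℝ} {χ : ℝ → ℝ} (h : Pc η1 η2 χ) {M : ℝ} (h1 : -M ≤ η1) (h2 : η2 ≤ M) :
    WS M (fun η => Wof χ η * (Real.exp η * χ η)) := by
  have hW := Wof_WS h h1 h2
  refine ⟨hW.smooth.mul (Real.contDiff_exp.mul h.smooth), fun η hη => ?_⟩
  rw [hW.zero η hη, zero_mul]

private theorem pie_compact {M : ℝ} {W : ℝ → ℝ} (hW : WS M W) : HasCompactSupport W := by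
  refine HasCompactSupport.intro (K := Set.Icc (-M) M) isCompact_Icc fun η hη => hW.zero η ?_
  rw [Set.mem_Icc, not_and_or, not_le, not_le] at hη
  rcases hη with hη | hη
  · exact le_trans (by linarith) (neg_le_abs η)
  · exact le_trans hη.le (le_abs_self η)

private theorem pie_int {M : ℝ} {W : ℝ → ℝ} (hW : WS M W) : Integrable W :=
  hW.smooth.continuous.integrable_of_hasCompactSupport (pie_compact hW)

private theorem pie_I1 {χ : ℝ → ℝ} :
    ∫ η, Wof χ η * Real.exp η = ∫ η, Real.exp (-(2 * |η|)) * Real.exp η * χ η := by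
  refine integral_congr_ae (Filter.Eventually.of_forall fun η => ?_)
  simp only [Wof]; ring

private theorem pie_I1_nonneg {η1 η2 : ℝ} {χ : ℝ → ℝ} (h : Pc η1 η2 χ) :
    0 ≤ ∫ η, Real.exp (-(2 * |η|)) * Real.exp η * χ η :=
  integral_nonneg fun η => mul_nonneg (by positivity) (h.nonneg η)

private theorem pie_I2_le {η1 η2 : ℝ} {χ : ℝ → ℝ} (h : Pc η1 η2 χ) {M : ℝ} (h1 : -M ≤ η1) (h2 : η2 ≤ M) :
    ∫ η, Wof χ η * (Real.exp η * χ η) ≤ ∫ η, Real.exp (-(2 * |η|)) * Real.exp η * χ η := by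
  have hW := Wof_WS h h1 h2
  have hE : WS M (fun η => Wof χ η * Real.exp η) :=
    ⟨hW.smooth.mul Real.contDiff_exp, fun η hη => by rw [hW.zero η hη, zero_mul]⟩
  rw [← pie_I1]
  refine integral_mono (pie_int (pie_WS1 h h1 h2)) (pie_int hE) fun η => ?_
  have h0 : 0 ≤ Wof χ η := mul_nonneg (Real.exp_pos _).le (h.nonneg η)
  refine mul_le_mul_of_nonneg_left ?_ h0
  exact mul_le_of_le_one_right (Real.exp_pos _).le (h.le_one η)

private theorem pie_bP (χ : ℝ → ℝ) (P : Par) {T : ℝ} (hT : 0 < T) (α ξ : ℝ) :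
    ‖bP χ P T α ξ‖ ^ 2 = T ^ α * ((Wof χ (ξ - α * Real.log T) * (Real.exp (ξ - α * Real.log T) *
      χ (ξ - α * Real.log T))) *
      ‖∑ p ∈ Th P T α, (cf p : ℂ) * ee (T ^ α * ((p.1 : ℝ) / p.2) * Real.exp (ξ - α * Real.log T))‖ ^ 2) := by
  have hx : T ^ α = Real.exp (α * Real.log T) := by rw [Real.rpow_def_of_pos hT, mul_comm]
  have hξ : Real.exp ξ = T ^ α * Real.exp (ξ - α * Real.log T) := by
    rw [hx, ← Real.exp_add]; congr 1; ring
  have hsum : ∀ p : ℕ × ℕ, (p.1 : ℝ) / p.2 * Real.exp ξ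
      = T ^ α * ((p.1 : ℝ) / p.2) * Real.exp (ξ - α * Real.log T) := fun p => by rw [hξ]; ring
  unfold bP
  simp only [hsum]
  rw [norm_neg, norm_mul, mul_pow, Complex.norm_real, Real.norm_eq_abs, sq_abs]
  have e1 : Real.exp (ξ / 2) ^ 2 = T ^ α * Real.exp (ξ - α * Real.log T) := by
    rw [← hξ, sq, ← Real.exp_add]; congr 1; ring
  have e2 : Real.exp (-|ξ - α * Real.log T|) ^ 2 = Real.exp (-(2 * |ξ - α * Real.log T|)) := by
    rw [sq, ← Real.exp_add]; congr 1; ring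
  rw [mul_pow, mul_pow, e1, e2]
  simp only [Wof]
  ring

private theorem pie_intb (χ : ℝ → ℝ) (P : Par) {T : ℝ} (hT : 0 < T) (α : ℝ) :
    ∫ ξ, ‖bP χ P T α ξ‖ ^ 2 = T ^ α * ∫ η, (Wof χ η * (Real.exp η * χ η)) *
      ‖∑ p ∈ Th P T α, (cf p : ℂ) * ee (T ^ α * ((p.1 : ℝ) / p.2) * Real.exp η)‖ ^ 2 := by
  rw [← integral_const_mul, ← integral_sub_right_eq_self
    (fun η => T ^ α * ((Wof χ η * (Real.exp η * χ η)) *
      ‖∑ p ∈ Th P T α, (cf p : ℂ) * ee (T ^ α * ((p.1 : ℝ) / p.2) * Real.exp η)‖ ^ 2)) (α * Real.log T)]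
  exact integral_congr_ae (Filter.Eventually.of_forall fun ξ => pie_bP χ P hT α ξ)

private theorem pie_log (K : ℝ) : ∃ T0 : ℝ, ∀ T, T0 ≤ T → K * Real.log T ^ 5 ≤ T ^ (1 / 2 : ℝ) := by
  have h := isLittleO_log_rpow_rpow_atTop (s := 1 / 2) (5 : ℝ) (by norm_num)
  have h2 := h.def (c := 1 / (|K| + 1)) (by positivity)
  obtain ⟨T0, hT0⟩ := Filter.eventually_atTop.1 (h2.and (Filter.eventually_ge_atTop (1 : ℝ)))
  refine ⟨T0, fun T hT => ?_⟩
  obtain ⟨h3, h4⟩ := hT0 T hT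
  have hl : 0 ≤ Real.log T := Real.log_nonneg h4
  have e5 : Real.log T ^ (5 : ℝ) = Real.log T ^ 5 := by
    rw [← Real.rpow_natCast]; norm_num
  have hp : 0 ≤ T ^ (1 / 2 : ℝ) := by positivity
  rw [e5, Real.norm_of_nonneg (by positivity), Real.norm_of_nonneg hp] at h3
  have hK : 0 < |K| + 1 := by positivity
  rw [div_mul_eq_mul_div, one_mul, le_div_iff₀ hK] at h3
  have h5 : 0 ≤ Real.log T ^ 5 := by positivity
  have h6 : K * Real.log T ^ 5 ≤ (|K| + 1) * Real.log T ^ 5 :=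
    mul_le_mul_of_nonneg_right (by linarith [le_abs_self K]) h5
  linarith

theorem piece {ι : Type} [Countable ι] {γ w : ι → ℝ} {F : ℝ → Finset ι} {A : ℝ → ℝ} {k0 : ℝ}
    (Z : Zer γ w F A k0) {η1 η2 : ℝ} {χ : ℝ → ℝ} (h : Pc η1 η2 χ) (P : Par) (hP : P.Ok)
    (hcH : P.cH = 2 * Real.pi * Real.exp η2 / (1 - P.δ)) {b : ℝ} (hb : 1 ≤ b) :
    ∃ C T0 : ℝ, 0 ≤ C ∧ ∀ T, T0 ≤ T → ∀ α ∈ Set.Icc 1 b,
      T * (rho P η2 χ * ((3 / 2 - α - P.ε) * Real.log T) - C * Real.log (Real.log T) - C)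
        ≤ 2 * (∑ i ∈ F T, (w i : ℂ) * PsiF (Fof (bP χ P T α) (α * Real.log T)) (γ i)).re
          - 2 * Real.pi * ∫ ξ, ‖bP χ P T α ξ‖ ^ 2 := by
  set M : ℝ := max |η1| |η2| + 1 with hMdef
  have hM : 0 < M := by
    have := abs_nonneg η1
    have := le_max_left |η1| |η2|
    linarith
  have hM1 : -M ≤ η1 := by
    have := neg_abs_le η1
    have := le_max_left |η1| |η2|
    linarith
  have hM2 : η2 ≤ M := by
    have := le_abs_self η2
    have := le_max_right |η1| |η2|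
    linarith
  have hW := Wof_WS h hM1 hM2
  have hW1 := pie_WS1 h hM1 hM2
  have hI2le := pie_I2_le h hM1 hM2
  have hI1 := pie_I1_nonneg h
  set I1 : ℝ := ∫ η, Real.exp (-(2 * |η|)) * Real.exp η * χ η with hI1def
  set I2 : ℝ := ∫ η, Wof χ η * (Real.exp η * χ η) with hI2def
  obtain ⟨T1, hz⟩ := zside Z h P hP hM hM1 hM2 hcH hb
  obtain ⟨Cc, T2, hCc, hcr⟩ := cross hM hW P hP hb
  obtain ⟨Co, x0, hCo, hone⟩ := thW_one Z hM hW
  obtain ⟨T3, hdiag⟩ := diag P hP hW1 (fun η => mul_nonneg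
    (mul_nonneg (Real.exp_pos _).le (h.nonneg η)) (mul_nonneg (Real.exp_pos _).le (h.nonneg η))) hb
  obtain ⟨Cl, T4, hCl, hlow⟩ := S2_lower P hP hb
  obtain ⟨Cu, T5, hCu, hup⟩ := S2_upper P hP
  obtain ⟨T6, hlog⟩ := pie_log (Cu * Co * (1 + b))
  have hδ := hP.δ_lt
  have hκ := hP.κ_pos
  have hrho : 0 ≤ rho P η2 χ := by
    unfold rho
    have : 0 ≤ 1 + 2 * P.κ := by linarith
    positivity
  refine ⟨rho P η2 χ * Cl + (4 * Real.pi * (1 + Cc) + 4 + 2 * Real.pi),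
    max (max (max T1 T2) (max T3 T4)) (max (max T5 T6) (max x0 (Real.exp 1))), by positivity, ?_⟩
  intro T hT α hα
  simp only [max_le_iff] at hT
  obtain ⟨⟨⟨hT1, hT2⟩, hT3, hT4⟩, ⟨hT5, hT6⟩, hTx, hTe⟩ := hT
  have hT0 : 0 < T := lt_of_lt_of_le (Real.exp_pos 1) hTe
  have hT1' : 1 ≤ T := le_trans (Real.one_le_exp (by norm_num)) hTe
  have hL : 1 ≤ Real.log T := (Real.le_log_iff_exp_le hT0).2 hTe
  have hLL : 0 ≤ Real.log (Real.log T) := Real.log_nonneg hL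
  obtain ⟨hα1, hαb⟩ := hα
  have hxT : T ≤ T ^ α := by
    calc T = T ^ (1 : ℝ) := (Real.rpow_one T).symm
      _ ≤ T ^ α := Real.rpow_le_rpow_of_exponent_le hT1' hα1
  have hx0 : 0 < T ^ α := by positivity
  have hh0 : 0 < T ^ (α - 1) := by positivity
  have hxh : T ^ α = T * T ^ (α - 1) := by
    rw [← Real.rpow_one_add' hT0.le (by linarith)]; congr 1; ring
  -- the quantities
  have hz' := hz T hT1 α ⟨hα1, hαb⟩
  have hcr' := hcr T hT2 α ⟨hα1, hαb⟩
  have hone' := hone (T ^ α) (le_trans hTx hxT)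
  have hdiag' := hdiag T hT3 α ⟨hα1, hαb⟩
  have hlow' := hlow T hT4 α ⟨hα1, hαb⟩
  have hup' := hup T hT5 α hα1
  have hS0 := S2_nonneg P T α
  have hlog' := hlog T hT6
  rw [pie_I1, ← hI1def] at hone'
  rw [pie_intb χ P hT0 α]
  set S := S2 P T α with hSdef
  set B : ℂ := ∑ p ∈ Th P T α, (cf p : ℂ) * thW (Wof χ) M (T ^ α) (fun n => ee (-((n : ℝ) * p.1 / p.2)))
    with hBdef
  set A' : ℂ := ∑ i ∈ F T, (w i : ℂ) * PsiF (Fof (bP χ P T α) (α * Real.log T)) (γ i) with hA'def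
  set V : ℂ := thW (Wof χ) M (T ^ α) (fun _ => 1) with hVdef
  set D : ℝ := ∫ η, (Wof χ η * (Real.exp η * χ η)) *
      ‖∑ p ∈ Th P T α, (cf p : ℂ) * ee (T ^ α * ((p.1 : ℝ) / p.2) * Real.exp η)‖ ^ 2 with hDdef
  -- step 1
  have s1 : 2 * Real.pi * B.re - 2 * T ≤ A'.re := by
    have h1 := (Complex.abs_re_le_norm _).trans hz'
    have h2 := (abs_le.1 h1).1
    have h3 : (A' - 2 * Real.pi * B).re = A'.re - 2 * Real.pi * B.re := by
      rw [Complex.sub_re]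
      congr 1
      have : (2 * (Real.pi : ℂ)) = ((2 * Real.pi : ℝ) : ℂ) := by push_cast; ring
      rw [this, Complex.re_ofReal_mul]
    rw [h3] at h2
    linarith
  -- step 2
  have s2 : S * V.re - Cc * T ≤ B.re := by
    have h1 := (Complex.abs_re_le_norm _).trans hcr'
    have h2 := (abs_le.1 h1).1
    rw [Complex.sub_re, Complex.re_ofReal_mul] at h2
    have h3 : Cc * T / Real.log T ^ 2 ≤ Cc * T := by
      refine div_le_self (by positivity) ?_
      exact one_le_pow₀ hL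
    linarith
  -- step 3
  have s3 : T ^ α * I1 - Co * Real.sqrt (T ^ α) * (1 + Real.log (T ^ α)) ≤ V.re := by
    have h1 := (Complex.abs_re_le_norm _).trans hone'
    have h2 := (abs_le.1 h1).1
    rw [Complex.sub_re, Complex.ofReal_re] at h2
    linarith
  have s4 : S * (Co * Real.sqrt (T ^ α) * (1 + Real.log (T ^ α))) ≤ T := by
    have hlg : Real.log (T ^ α) = α * Real.log T := Real.log_rpow hT0 α
    have h1 : 1 + Real.log (T ^ α) ≤ (1 + b) * Real.log T := by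
      rw [hlg]
      have : α * Real.log T ≤ b * Real.log T := mul_le_mul_of_nonneg_right hαb (by linarith)
      linarith
    have h1' : 0 ≤ 1 + Real.log (T ^ α) := by
      rw [hlg]; have := mul_nonneg (le_trans zero_le_one hα1) (le_trans zero_le_one hL); linarith
    have hsq : Real.sqrt (T ^ α) = T ^ (α / 2) := by
      rw [Real.sqrt_eq_rpow, ← Real.rpow_mul hT0.le]; congr 1; ring
    have h2 : Real.sqrt (T ^ α) ≤ T ^ (α - 1) * T ^ (1 / 2 : ℝ) := by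
      rw [hsq, ← Real.rpow_add hT0]
      exact Real.rpow_le_rpow_of_exponent_le hT1' (by linarith)
    have hb0 : 0 ≤ b := by linarith
    have hL0 : 0 ≤ Real.log T := by linarith
    calc S * (Co * Real.sqrt (T ^ α) * (1 + Real.log (T ^ α)))
        ≤ (Cu * Real.log T ^ 4 / T ^ (α - 1)) *
            (Co * (T ^ (α - 1) * T ^ (1 / 2 : ℝ)) * ((1 + b) * Real.log T)) := by
          refine mul_le_mul hup' ?_ (by positivity) (by positivity)
          refine mul_le_mul ?_ h1 h1' (by positivity)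
          exact mul_le_mul_of_nonneg_left h2 hCo
      _ = (Cu * Co * (1 + b) * Real.log T ^ 5) * T ^ (1 / 2 : ℝ) := by
          field_simp
      _ ≤ T ^ (1 / 2 : ℝ) * T ^ (1 / 2 : ℝ) :=
          mul_le_mul_of_nonneg_right hlog' (by positivity)
      _ = T := by
          rw [← Real.rpow_add hT0]; norm_num
  have s5 : T ^ α * I1 * S - T ≤ S * V.re := by
    have h1 := mul_le_mul_of_nonneg_left s3 hS0
    rw [mul_sub] at h1
    linarith
  -- step 4
  have s6 : T ^ α * D ≤ T ^ α * (I2 * S) + 1 := by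
    have h1 := mul_le_mul_of_nonneg_left hdiag' hx0.le
    have h2 : T ^ α * T ^ (-α) = 1 := by
      rw [← Real.rpow_add hT0]; simp
    rw [mul_add, h2] at h1
    exact h1
  have s7 : T ^ α * (I2 * S) ≤ T ^ α * I1 * S := by
    have h1 : I2 * S ≤ I1 * S := mul_le_mul_of_nonneg_right hI2le hS0
    have h2 := mul_le_mul_of_nonneg_left h1 hx0.le
    linarith
  -- step 5
  have s8 : T * (rho P η2 χ * ((3 / 2 - α - P.ε) * Real.log T - Cl * Real.log (Real.log T)))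
      ≤ 2 * Real.pi * (T ^ α * I1 * S) := by
    have h1 : 0 ≤ 2 * Real.pi * (T ^ α * I1) := by positivity
    have h2 := mul_le_mul_of_nonneg_left hlow' h1
    have hd : (1 - P.δ) ≠ 0 := by linarith
    have hk : (1 + 2 * P.κ) ≠ 0 := by linarith
    have h3 : 2 * Real.pi * (T ^ α * I1) * ((1 - P.δ) / ((1 + 2 * P.κ) * (P.cH * T ^ (α - 1))) *
        ((3 / 2 - α - P.ε) * Real.log T - Cl * Real.log (Real.log T)))
        = T * (rho P η2 χ * ((3 / 2 - α - P.ε) * Real.log T - Cl * Real.log (Real.log T))) := by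
      have h4 : 2 * Real.pi * (T ^ α * I1) * ((1 - P.δ) / ((1 + 2 * P.κ) * (P.cH * T ^ (α - 1))))
          = T * rho P η2 χ := by
        unfold rho
        rw [← hI1def, hcH, hxh, Real.exp_neg]
        have hpi := Real.pi_ne_zero
        have he := (Real.exp_pos η2).ne'
        field_simp
      rw [← mul_assoc, h4, mul_assoc]
    rw [h3] at h2
    calc _ ≤ 2 * Real.pi * (T ^ α * I1) * S := h2
      _ = _ := by ring
  have hpi0 := Real.pi_pos
  have s9 : 4 * Real.pi * (S * V.re - Cc * T) - 4 * T ≤ 2 * A'.re := by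
    have := mul_le_mul_of_nonneg_left s2 (show (0:ℝ) ≤ 4 * Real.pi by positivity)
    linarith
  have s10 : 4 * Real.pi * (T ^ α * I1 * S - T) ≤ 4 * Real.pi * (S * V.re) :=
    mul_le_mul_of_nonneg_left s5 (by positivity)
  have s11 : 2 * Real.pi * (T ^ α * D) ≤ 2 * Real.pi * (T ^ α * I1 * S + 1) :=
    mul_le_mul_of_nonneg_left (by linarith) (by positivity)
  have s12 : 2 * Real.pi ≤ 2 * Real.pi * T := le_mul_of_one_le_right (by positivity) hT1'
  have s13 : T * (rho P η2 χ * ((3 / 2 - α - P.ε) * Real.log T)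
      - (rho P η2 χ * Cl + (4 * Real.pi * (1 + Cc) + 4 + 2 * Real.pi)) * Real.log (Real.log T)
      - (rho P η2 χ * Cl + (4 * Real.pi * (1 + Cc) + 4 + 2 * Real.pi)))
      ≤ T * (rho P η2 χ * ((3 / 2 - α - P.ε) * Real.log T - Cl * Real.log (Real.log T)))
        - (4 * Real.pi * (1 + Cc) + 4 + 2 * Real.pi) * T := by
    have h1 : 0 ≤ T * ((4 * Real.pi * (1 + Cc) + 4 + 2 * Real.pi) * Real.log (Real.log T)) := by
      positivity
    have h2 : 0 ≤ T * (rho P η2 χ * Cl) := by positivity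
    have h3 : T * (rho P η2 χ * ((3 / 2 - α - P.ε) * Real.log T - Cl * Real.log (Real.log T)))
        - (4 * Real.pi * (1 + Cc) + 4 + 2 * Real.pi) * T
        - T * (rho P η2 χ * ((3 / 2 - α - P.ε) * Real.log T)
      - (rho P η2 χ * Cl + (4 * Real.pi * (1 + Cc) + 4 + 2 * Real.pi)) * Real.log (Real.log T)
      - (rho P η2 χ * Cl + (4 * Real.pi * (1 + Cc) + 4 + 2 * Real.pi)))
      = T * ((4 * Real.pi * (1 + Cc) + 4 + 2 * Real.pi) * Real.log (Real.log T))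
        + T * (rho P η2 χ * Cl) := by ring
    linarith
  refine le_trans s13 ?_
  linarith

end H69LB
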