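import Pool.Agent.H6.F1
import Pool.Agent.H69.LB.BrgL

/-!
# BRG: `FFz` is the form factor `FF` of the library of helper4, helper5, helper6
-/

open Filter Topology
open Pool.Agent Pool.Agent.H6

namespace H69LB

theorem FFz_eq (T α : ℝ) : FFz gZ wZ FZ T α = FF gZ wZ FZ T α := by
  have e : (T * Real.log T)⁻¹ * (2 * Real.pi) = (PC.norm T)⁻¹ := by
    unfold PC.norm
    rw [mul_inv, mul_inv, inv_div]
    ring
  unfold FFz FF Wt
  rw [e, one_div]

end H69LB
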