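import Pool.Agent.H69.LB.Red
import Pool.Agent.H69.LB.Div

/-!
# BXA: one box of denominators, algebraic part

Apply `red` to each squarefree `r ∈ (R1, R2]` and multiply by `|μ(r)|/φ(r) ≤ 1/φ(r)`. By `le_totient`
`φ(r)^{-2} ≤ 4 (1 + log r)²/r² ≤ 4 (1 + log(2 R1))²/R1²` (`R1 < r ≤ 2 R1`). In the double sum over `r` and `q ∣ r`, `q ≠ 1`,
put `m = r/q`: the map `(r, q) ↦ (m, q)` is injective (`r = q m`), `1 ≤ m ≤ 2 R1`, and `R1 < q m ≤ 2 R1` gives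
`1 < q ≤ 2 R1/m`; all summands are nonnegative.
-/

namespace H69LB

open Finset

/-- the sums over the primitive characters -/
noncomputable def Ebox (W : ℝ → ℝ) (M x : ℝ) (R1 A1 A2 : ℕ) : ℝ :=
  ∑ m ∈ Icc 1 (2 * R1), ∑ q ∈ (Icc 1 (2 * R1 / m)).filter (fun q => R1 < q * m),
    Real.sqrt q * ∑ χ ∈ pc q, ‖∑ a ∈ (Ioc A1 A2).filter (fun a => Nat.Coprime a m), χ a‖ *
      ‖thW W M x (fun n => χ n)‖

private theorem BXA_sum_le {R1 R2 : ℕ} (hR2 : R2 ≤ 2 * R1) (G : ℕ → ℕ → ℝ)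
    (hG : ∀ m q, 0 ≤ G m q) :
    ∑ r ∈ (Ioc R1 R2).filter Squarefree, ∑ q ∈ r.divisors.erase 1, G (r / q) q
      ≤ ∑ m ∈ Icc 1 (2 * R1), ∑ q ∈ (Icc 1 (2 * R1 / m)).filter (fun q => R1 < q * m), G m q := by
  rw [sum_sigma', sum_sigma']
  have hmap : ∀ p ∈ ((Ioc R1 R2).filter Squarefree).sigma (fun r => r.divisors.erase 1),
      (⟨p.1 / p.2, p.2⟩ : (_ : ℕ) × ℕ) ∈ (Icc 1 (2 * R1)).sigma
        (fun m => (Icc 1 (2 * R1 / m)).filter (fun q => R1 < q * m)) := by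
    intro p hp
    rw [mem_sigma] at hp ⊢
    obtain ⟨h1, h2⟩ := hp
    rw [mem_filter, mem_Ioc] at h1
    rw [mem_erase, Nat.mem_divisors] at h2
    obtain ⟨⟨h3, h4⟩, h5⟩ := h1
    obtain ⟨h6, h7, h8⟩ := h2
    have h9 : 0 < p.2 := Nat.pos_of_dvd_of_pos h7 (Nat.pos_of_ne_zero h8)
    have h10 : 0 < p.1 / p.2 := Nat.div_pos (Nat.le_of_dvd (Nat.pos_of_ne_zero h8) h7) h9
    have h11 : p.2 * (p.1 / p.2) = p.1 := Nat.mul_div_cancel' h7
    refine ⟨?_, ?_⟩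
    · rw [mem_Icc]
      exact ⟨h10, (Nat.div_le_self _ _).trans (h4.trans hR2)⟩
    · rw [mem_filter, mem_Icc]
      refine ⟨⟨h9, ?_⟩, ?_⟩
      · rw [Nat.le_div_iff_mul_le h10, h11]
        exact h4.trans hR2
      · dsimp only
        rw [h11]
        exact h3
  have hinj : Set.InjOn (fun p : (_ : ℕ) × ℕ => (⟨p.1 / p.2, p.2⟩ : (_ : ℕ) × ℕ))
      (((Ioc R1 R2).filter Squarefree).sigma (fun r => r.divisors.erase 1) : Set ((_ : ℕ) × ℕ)) := by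
    intro p hp p' hp' h
    rw [mem_coe, mem_sigma, mem_erase, Nat.mem_divisors] at hp hp'
    have h2 : p.2 = p'.2 := by
      have := congrArg Sigma.snd h
      exact this
    have h1 : p.1 / p.2 = p'.1 / p'.2 := by
      have := congrArg Sigma.fst h
      exact this
    have h3 : p.2 * (p.1 / p.2) = p.1 := Nat.mul_div_cancel' hp.2.2.1
    have h4 : p'.2 * (p'.1 / p'.2) = p'.1 := Nat.mul_div_cancel' hp'.2.2.1
    have h5 : p.1 = p'.1 := by rw [← h3, ← h4, h1, h2]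
    exact Sigma.ext h5 (heq_of_eq h2)
  calc ∑ p ∈ ((Ioc R1 R2).filter Squarefree).sigma (fun r => r.divisors.erase 1),
        G (p.1 / p.2) p.2
      = ∑ p ∈ (((Ioc R1 R2).filter Squarefree).sigma (fun r => r.divisors.erase 1)).image
          (fun p : (_ : ℕ) × ℕ => (⟨p.1 / p.2, p.2⟩ : (_ : ℕ) × ℕ)), G p.1 p.2 := by
        rw [sum_image hinj]
    _ ≤ _ := by
        apply sum_le_sum_of_subset_of_nonneg
        · intro p hp
          rw [mem_image] at hp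
          obtain ⟨p', hp', rfl⟩ := hp
          exact hmap p' hp'
        · intro p _ _
          exact hG _ _

private theorem BXA_inv_totient {R1 r : ℕ} (hR1 : 1 ≤ R1) (h1 : R1 < r) (h2 : r ≤ 2 * R1) :
    (Nat.totient r : ℝ)⁻¹ ≤ 2 * (1 + Real.log (2 * R1)) / R1 := by
  have hR : (0 : ℝ) < R1 := by exact_mod_cast hR1
  have hr : 1 ≤ r := by omega
  have hφ : (0 : ℝ) < Nat.totient r := by exact_mod_cast Nat.totient_pos.2 (by omega)
  have h3 := le_totient hr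
  have h4 : Real.log r ≤ Real.log (2 * R1) := by
    apply Real.log_le_log (by exact_mod_cast (by omega : 0 < r))
    exact_mod_cast h2
  have h5 : (R1 : ℝ) ≤ r := by exact_mod_cast h1.le
  have h6 : (R1 : ℝ) ≤ 2 * (1 + Real.log (2 * R1)) * Nat.totient r := by
    refine h5.trans (h3.trans ?_)
    apply mul_le_mul_of_nonneg_right _ hφ.le
    linarith
  rw [inv_le_iff_one_le_mul₀ hφ, div_mul_eq_mul_div, one_le_div hR]
  exact h6

theorem box_le {M : ℝ} (hM : 0 < M) {W : ℝ → ℝ} (hW : WS M W) {x : ℝ} (hx : 0 < x) {R1 R2 : ℕ}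
    (hR1 : 1 ≤ R1) (hR2 : R2 ≤ 2 * R1) (hrx : 2 * (R1 : ℝ) ≤ x * Real.exp (-M)) (A1 A2 : ℕ) :
    ∑ r ∈ (Ioc R1 R2).filter Squarefree,
      ‖(((ArithmeticFunction.moebius r : ℝ) / (Nat.totient r : ℝ) : ℝ) : ℂ) *
        ((∑ a ∈ (Ioc A1 A2).filter (fun a => Nat.Coprime a r), thW W M x (fun n => ee (-((n : ℝ) * a / r))))
        - (((ArithmeticFunction.moebius r : ℝ) / (Nat.totient r : ℝ) : ℝ) : ℂ) *
          (((Ioc A1 A2).filter (fun a => Nat.Coprime a r)).card : ℂ) * thW W M x (fun _ => 1))‖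
      ≤ 4 * (1 + Real.log (2 * R1)) ^ 2 / (R1 : ℝ) ^ 2 * Ebox W M x R1 A1 A2 := by
  set C : ℝ := 2 * (1 + Real.log (2 * R1)) / R1 with hC
  have hR : (0 : ℝ) < R1 := by exact_mod_cast hR1
  have hC2 : 4 * (1 + Real.log (2 * R1)) ^ 2 / (R1 : ℝ) ^ 2 = C ^ 2 := by
    rw [hC]
    ring
  set G : ℕ → ℕ → ℝ := fun m q => Real.sqrt q * ∑ χ ∈ pc q,
    ‖∑ a ∈ (Ioc A1 A2).filter (fun a => Nat.Coprime a m), χ a‖ * ‖thW W M x (fun n => χ n)‖ with hG
  have hG0 : ∀ m q, 0 ≤ G m q := fun m q => by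
    rw [hG]
    positivity
  have hE : Ebox W M x R1 A1 A2 = ∑ m ∈ Icc 1 (2 * R1),
      ∑ q ∈ (Icc 1 (2 * R1 / m)).filter (fun q => R1 < q * m), G m q := rfl
  rw [hC2, hE]
  refine le_trans ?_ (mul_le_mul_of_nonneg_left (BXA_sum_le hR2 G hG0) (sq_nonneg C))
  rw [mul_sum]
  refine sum_le_sum fun r hr => ?_
  rw [mem_filter, mem_Ioc] at hr
  obtain ⟨⟨hr1, hr2⟩, hrs⟩ := hr
  have hr3 : r ≤ 2 * R1 := hr2.trans hR2
  have hrx' : (r : ℝ) ≤ x * Real.exp (-M) := by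
    have : (r : ℝ) ≤ 2 * R1 := by exact_mod_cast hr3
    linarith
  have hφ : (0 : ℝ) < Nat.totient r := by exact_mod_cast Nat.totient_pos.2 (by omega)
  have h1 := red hM hW hx hrs hrx' A1 A2
  have h2 := BXA_inv_totient hR1 hr1 hr3
  have h0 : 0 ≤ (Nat.totient r : ℝ)⁻¹ := by positivity
  have hC0 : 0 ≤ C := h0.trans h2
  have hS0 : 0 ≤ ∑ q ∈ r.divisors.erase 1, G (r / q) q := sum_nonneg fun q _ => hG0 _ _
  have h3 : ‖(((ArithmeticFunction.moebius r : ℝ) / (Nat.totient r : ℝ) : ℝ) : ℂ)‖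
      ≤ (Nat.totient r : ℝ)⁻¹ := by
    rw [Complex.norm_real, Real.norm_eq_abs, abs_div, abs_of_pos hφ, div_eq_mul_inv]
    refine mul_le_of_le_one_left h0 ?_
    have := ArithmeticFunction.abs_moebius_le_one (n := r)
    exact_mod_cast this
  rw [norm_mul]
  calc _ ≤ (Nat.totient r : ℝ)⁻¹ * ((Nat.totient r : ℝ)⁻¹ *
        ∑ q ∈ r.divisors.erase 1, G (r / q) q) :=
        mul_le_mul h3 h1 (norm_nonneg _) h0
    _ = ((Nat.totient r : ℝ)⁻¹) ^ 2 * ∑ q ∈ r.divisors.erase 1, G (r / q) q := by ring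
    _ ≤ C ^ 2 * ∑ q ∈ r.divisors.erase 1, G (r / q) q := by
        refine mul_le_mul_of_nonneg_right ?_ hS0
        exact pow_le_pow_left₀ h0 h2 2

end H69LB
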