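import Pool.Agent.H69.LB.Defs

/-!
# TY1: smooth sums over a nonprincipal character

Fix `G` with `WS M G` and put `φ t = G (log t)` for `t > 0`, `φ t = 0` for `t ≤ 0`: a `C^∞` function on `ℝ` with
support in `[e^{-M}, e^M]`. `∑_{k ∈ Icc 1 (NN M y)} χ(k) G(log(k/y)) = ∑_{k ∈ ℤ} χ(k) φ(k/y)` (the other terms
vanish).

Poisson: `∑_{k ∈ ℤ} χ(k) φ(k/y) = ∑_{b mod q} χ(b) ∑_{j ∈ ℤ} φ((b + qj)/y)
  = ∑_b χ(b) (y/q) ∑_{j ∈ ℤ} φ^(j y/q) e(j b/q)`; the terms
`j = 0` cancel since `∑_b χ(b) = 0`; and `|φ^(ξ)| ≤ C |ξ|^{-K}`. So the sum is at most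
`y ∑_{j ≠ 0} C |j y/q|^{-K} ≤ C' y (q/y)^K` (`K ≥ 2`).

* `type1_log`: `log k = log(k/y) + log y`, and `η ↦ η G η` satisfies `WS M` too.
-/

namespace H69LB

open Finset
open scoped ContDiff FourierTransform

/-- the function `t ↦ G (log t)` extended by `0` -/
private noncomputable def ty1Phi (G : ℝ → ℝ) (t : ℝ) : ℂ :=
  if 0 < t then ((G (Real.log t) : ℝ) : ℂ) else 0

private lemma ty1Phi_small {M : ℝ} {G : ℝ → ℝ} (hG : WS M G) {t : ℝ} (ht : t ≤ Real.exp (-M)) :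
    ty1Phi G t = 0 := by
  unfold ty1Phi
  split_ifs with h
  · have h1 : Real.log t ≤ -M := by
      rw [← Real.log_exp (-M)]
      exact Real.log_le_log h ht
    rw [hG.zero _ (by rw [le_abs]; right; linarith)]
    simp
  · rfl

private lemma ty1Phi_large {M : ℝ} {G : ℝ → ℝ} (hG : WS M G) {t : ℝ} (ht : Real.exp M ≤ t) :
    ty1Phi G t = 0 := by
  unfold ty1Phi
  have h : 0 < t := lt_of_lt_of_le (Real.exp_pos _) ht
  rw [if_pos h]
  have h1 : M ≤ Real.log t := by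
    rw [← Real.log_exp M]
    exact Real.log_le_log (Real.exp_pos _) ht
  rw [hG.zero _ (by rw [le_abs]; left; exact h1)]
  simp

private lemma ty1Phi_contDiff {M : ℝ} {G : ℝ → ℝ} (hG : WS M G) : ContDiff ℝ ∞ (ty1Phi G) := by
  rw [contDiff_iff_contDiffAt]
  intro t
  by_cases h : t < Real.exp (-M)
  · have : ty1Phi G =ᶠ[nhds t] fun _ => (0 : ℂ) := by
      filter_upwards [Iio_mem_nhds h] with s hs
      exact ty1Phi_small hG (le_of_lt hs)
    exact contDiffAt_const.congr_of_eventuallyEq this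
  · have ht : 0 < t := lt_of_lt_of_le (Real.exp_pos _) (not_lt.1 h)
    have : ty1Phi G =ᶠ[nhds t] fun s => ((G (Real.log s) : ℝ) : ℂ) := by
      filter_upwards [Ioi_mem_nhds ht] with s hs
      unfold ty1Phi
      rw [if_pos (Set.mem_Ioi.1 hs)]
    refine ContDiffAt.congr_of_eventuallyEq ?_ this
    have h2 : ContDiffAt ℝ ∞ (fun s => G (Real.log s)) t :=
      hG.smooth.contDiffAt.comp t (Real.contDiffAt_log.2 ht.ne')
    exact Complex.ofRealCLM.contDiff.contDiffAt.comp t h2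

private lemma ty1_hcs {M : ℝ} {G : ℝ → ℝ} (hG : WS M G) : HasCompactSupport (ty1Phi G) := by
  refine HasCompactSupport.intro (K := Set.Icc (Real.exp (-M)) (Real.exp M)) isCompact_Icc ?_
  intro t ht
  rw [Set.mem_Icc, not_and_or, not_le, not_le] at ht
  rcases ht with h | h
  · exact ty1Phi_small hG h.le
  · exact ty1Phi_large hG h.le

/-- decay of the Fourier transform of a dilated function -/
private lemma ty1_decay {φ : ℝ → ℂ} (h1 : ContDiff ℝ ∞ φ) (h2 : HasCompactSupport φ) (K : ℕ) {l : ℝ}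
    (hl : 0 < l) {x : ℝ} (hx : 1 ≤ |x|) (hK : 1 ≤ K) :
    ‖𝓕 (fun t => φ (l * t)) x‖ ≤ 1 / |x| ^ K * (l ^ (K - 1) * ∫ t, ‖iteratedDeriv K φ t‖) := by
  set F : ℝ → ℂ := fun t => φ (l * t) with hF
  have hFc : ContDiff ℝ ∞ F := h1.comp (contDiff_const.mul contDiff_id)
  have hiter : ∀ n : ℕ, iteratedDeriv n F = fun t => (l : ℂ) ^ n * iteratedDeriv n φ (l * t) := by
    intro n
    have h3 : ContDiff ℝ n φ := h1.of_le (by exact_mod_cast le_top)
    have h4 := iteratedDeriv_comp_const_smul h3 l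
    rw [hF, h4]
    funext t
    simp
  have hint : ∀ n : ℕ, MeasureTheory.Integrable (iteratedDeriv n φ) := by
    intro n
    have hc : Continuous (iteratedDeriv n φ) := h1.continuous_iteratedDeriv n (by exact_mod_cast le_top)
    refine hc.integrable_of_hasCompactSupport ?_
    have := h2.iteratedFDeriv (𝕜 := ℝ) n
    rw [iteratedDeriv_eq_equiv_comp]
    exact this.comp_left (by simp)
  have hintF : ∀ n : ℕ, MeasureTheory.Integrable (iteratedDeriv n F) := by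
    intro n
    rw [hiter n]
    exact ((hint n).comp_mul_left' hl.ne').const_mul _
  have hfour := Real.fourier_iteratedDeriv (f := F) (N := ⊤) (n := K) hFc (fun n _ => hintF n) le_top
  have hb : ‖𝓕 (iteratedDeriv K F) x‖ ≤ ∫ t, ‖iteratedDeriv K F t‖ :=
    VectorFourier.norm_fourierIntegral_le_integral_norm _ _ _ _ _
  rw [hfour] at hb
  have hval : ∫ t, ‖iteratedDeriv K F t‖ = l ^ (K - 1) * ∫ t, ‖iteratedDeriv K φ t‖ := by
    rw [hiter K]
    have : (fun t => ‖(l : ℂ) ^ K * iteratedDeriv K φ (l * t)‖)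
        = fun t => l ^ K * ‖iteratedDeriv K φ (l * t)‖ := by
      funext t
      rw [norm_mul, norm_pow, Complex.norm_real, Real.norm_of_nonneg hl.le]
    simp only [this]
    rw [MeasureTheory.integral_const_mul,
      MeasureTheory.Measure.integral_comp_mul_left (fun t => ‖iteratedDeriv K φ t‖) l]
    rw [abs_of_pos (inv_pos.2 hl), smul_eq_mul, ← mul_assoc]
    congr 1
    obtain ⟨m, rfl⟩ : ∃ m, K = m + 1 := ⟨K - 1, by omega⟩
    rw [Nat.add_sub_cancel, pow_succ]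
    field_simp
  rw [hval] at hb
  have hn : ‖((2 : ℂ) * Real.pi * Complex.I * x) ^ K • 𝓕 F x‖ = (2 * Real.pi * |x|) ^ K * ‖𝓕 F x‖ := by
    rw [norm_smul, norm_pow]
    congr 2
    simp [abs_of_pos Real.pi_pos]
  have hb' : (2 * Real.pi * |x|) ^ K * ‖𝓕 F x‖ ≤ l ^ (K - 1) * ∫ t, ‖iteratedDeriv K φ t‖ := by
    rw [← hn]
    exact hb
  have hxp : 0 < |x| ^ K := by positivity
  rw [one_div, inv_mul_eq_div, le_div_iff₀ hxp]
  refine le_trans ?_ hb'
  rw [mul_comm]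
  refine mul_le_mul_of_nonneg_right ?_ (norm_nonneg _)
  refine pow_le_pow_left₀ (abs_nonneg _) ?_ _
  have : 1 ≤ 2 * Real.pi := by linarith [Real.pi_gt_three]
  nlinarith [abs_nonneg x]

/-- Poisson summation for one residue class -/
private lemma ty1_class {φ : ℝ → ℂ} (h1 : ContDiff ℝ ∞ φ) (h2 : HasCompactSupport φ) {K : ℕ} (hK : 2 ≤ K)
    {l : ℝ} (hl : 0 < l) (x : ℝ) :
    ‖(∑' j : ℤ, φ (l * (x + j))) - 𝓕 (fun t => φ (l * t)) (0 : ℝ)‖
      ≤ (∑' n : ℤ, 1 / |(n : ℝ)| ^ K) * (l ^ (K - 1) * ∫ t, ‖iteratedDeriv K φ t‖) := by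
  have hFc : ContDiff ℝ ∞ (fun t => φ (l * t)) := h1.comp (contDiff_const.mul contDiff_id)
  have hFs : HasCompactSupport (fun t => φ (l * t)) := by
    have := h2.comp_homeomorph (Homeomorph.mulLeft₀ l hl.ne')
    exact this
  have hP := SchwartzMap.tsum_eq_tsum_fourier (hFs.toSchwartzMap hFc) x
  have e1 : ∀ t, (hFs.toSchwartzMap hFc) t = φ (l * t) := fun t => rfl
  have e2 : ∀ t : ℝ, 𝓕 (hFs.toSchwartzMap hFc) t = 𝓕 (fun t => φ (l * t)) t := by
    intro t
    rw [SchwartzMap.fourier_coe]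
    rfl
  simp only [e1, e2] at hP
  rw [hP]
  have hsum : Summable fun n : ℤ => 1 / |(n : ℝ)| ^ K :=
    ((Real.summable_one_div_int_pow (p := K)).2 (by omega)).norm.congr (by intro n; simp)
  set c := l ^ (K - 1) * ∫ t, ‖iteratedDeriv K φ t‖ with hc
  have hc0 : 0 ≤ c := by
    have : 0 ≤ ∫ t, ‖iteratedDeriv K φ t‖ := MeasureTheory.integral_nonneg fun t => norm_nonneg _
    positivity
  have hbd : ∀ n : ℤ, n ≠ 0 →
      ‖𝓕 (fun t => φ (l * t)) (n : ℝ) * fourier n (x : UnitAddCircle)‖ ≤ 1 / |(n : ℝ)| ^ K * c := by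
    intro n hn
    rw [norm_mul]
    have : ‖(fourier n (x : UnitAddCircle) : ℂ)‖ = 1 := by
      rw [fourier_apply]
      exact Circle.norm_coe _
    rw [this, mul_one]
    refine ty1_decay h1 h2 K hl ?_ (by omega)
    exact_mod_cast Int.one_le_abs hn
  have hs1 : Summable fun n : ℤ => 1 / |(n : ℝ)| ^ K * c := hsum.mul_right c
  set a : ℤ → ℂ := fun n => 𝓕 (fun t => φ (l * t)) (n : ℝ) * fourier n (x : UnitAddCircle) with ha
  have hs0 : Summable a := by
    refine Summable.of_norm_bounded_eventually (g := fun n : ℤ => 1 / |(n : ℝ)| ^ K * c) hs1 ?_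
    rw [Filter.eventually_cofinite]
    refine (Set.finite_singleton (0 : ℤ)).subset ?_
    intro n hn
    by_contra h
    exact hn (hbd n h)
  have hsplit : (∑' n : ℤ, a n) - a 0 = ∑' n : ℤ, (if n = 0 then 0 else a n) := by
    rw [hs0.tsum_eq_add_tsum_ite 0]
    ring
  have ha0 : a 0 = 𝓕 (fun t => φ (l * t)) (0 : ℝ) := by
    simp [ha]
  rw [← ha0, hsplit, ← tsum_mul_right]
  refine tsum_of_norm_bounded hs1.hasSum ?_
  intro n
  split_ifs with h
  · rw [norm_zero]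
    positivity
  · exact hbd n h

/-- the bound for the sum over all integers -/
private lemma ty1_all {φ : ℝ → ℂ} (h1 : ContDiff ℝ ∞ φ) (h2 : HasCompactSupport φ) {K : ℕ} (hK : 2 ≤ K)
    {q : ℕ} [NeZero q] (χ : DirichletCharacter ℂ q) (hχ : χ ≠ 1) {y : ℝ} (hy : 0 < y) :
    ‖∑' k : ℤ, χ (k : ZMod q) * φ (k / y)‖
      ≤ (∑' n : ℤ, 1 / |(n : ℝ)| ^ K) * (∫ t, ‖iteratedDeriv K φ t‖) * y * (q / y) ^ K := by
  have hq : (0 : ℝ) < q := by exact_mod_cast Nat.pos_of_neZero q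
  have hl : 0 < (q : ℝ) / y := by positivity
  have hfin : ∀ z w : ℝ, 0 < w → Summable fun j : ℤ => φ (w * (z + j)) := by
    intro z w hw
    refine summable_of_hasFiniteSupport ?_
    obtain ⟨R, hR⟩ := h2.isBounded.subset_closedBall (0 : ℝ)
    refine (Set.finite_Icc (⌊-(R / w) - z⌋) (⌈R / w - z⌉)).subset ?_
    intro j hj
    have hj' : w * (z + j) ∈ Metric.closedBall (0 : ℝ) R := hR (subset_tsupport _ hj)
    rw [mem_closedBall_zero_iff, Real.norm_eq_abs, abs_le] at hj'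
    have hz1 : z + j ≤ R / w := by rw [le_div_iff₀ hw]; linarith [hj'.2, mul_comm w (z + (j : ℝ))]
    have hz2 : -(R / w) ≤ z + j := by
      rw [neg_le, le_div_iff₀ hw]
      linarith [hj'.1, mul_comm w (z + (j : ℝ))]
    constructor
    · have : (⌊-(R / w) - z⌋ : ℝ) ≤ j := (Int.floor_le _).trans (by linarith)
      exact_mod_cast this
    · have : (j : ℝ) ≤ ⌈R / w - z⌉ := le_trans (by linarith) (Int.le_ceil _)
      exact_mod_cast this
  have hsumk : Summable fun k : ℤ => χ (k : ZMod q) * φ (k / y) := by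
    have h0 := (hfin 0 (1 / y) (by positivity)).norm
    refine Summable.of_norm_bounded h0 ?_
    intro k
    rw [norm_mul]
    have h3 : (k : ℝ) / y = 1 / y * (0 + k) := by ring
    rw [h3]
    exact mul_le_of_le_one_left (norm_nonneg _) (χ.norm_le_one _)
  have hre : ∑' k : ℤ, χ (k : ZMod q) * φ (k / y)
      = ∑ b : Fin q, χ ((b : ℕ) : ZMod q) * ∑' j : ℤ, φ (q / y * (((b : ℕ) : ℝ) / q + j)) := by
    have hsy : Summable fun p : ℤ × Fin q =>
        χ ((((Int.divModEquiv q).symm p : ℤ)) : ZMod q) * φ ((((Int.divModEquiv q).symm p : ℤ) : ℝ) / y) :=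
      (Int.divModEquiv q).symm.summable_iff.2 hsumk
    have hterm : ∀ (j : ℤ) (b : Fin q),
        χ ((((Int.divModEquiv q).symm (j, b) : ℤ)) : ZMod q) * φ ((((Int.divModEquiv q).symm (j, b) : ℤ) : ℝ) / y)
          = χ ((b : ℕ) : ZMod q) * φ (q / y * (((b : ℕ) : ℝ) / q + j)) := by
      intro j b
      rw [Int.divModEquiv_symm_apply]
      congr 2
      · push_cast
        simp
      · push_cast
        field_simp
        ring
    have hsb : ∀ b ∈ (Finset.univ : Finset (Fin q)), Summable fun j : ℤ =>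
        χ ((b : ℕ) : ZMod q) * φ (q / y * (((b : ℕ) : ℝ) / q + j)) :=
      fun b _ => (hfin (((b : ℕ) : ℝ) / q) (q / y) hl).mul_left _
    rw [← (Int.divModEquiv q).symm.tsum_eq, hsy.tsum_prod' (fun j => (hasSum_fintype _).summable)]
    simp only [hterm, tsum_fintype]
    rw [Summable.tsum_finsetSum hsb]
    refine Finset.sum_congr rfl fun b _ => ?_
    rw [tsum_mul_left]
  have hchar : ∑ b : Fin q, χ ((b : ℕ) : ZMod q) = 0 := by
    have h0 := MulChar.sum_eq_zero_of_ne_one hχ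
    rw [← h0]
    obtain ⟨m, rfl⟩ : ∃ m, q = m + 1 := ⟨q - 1, by have := Nat.pos_of_neZero q; omega⟩
    refine Finset.sum_congr rfl fun b _ => ?_
    congr 1
    exact Fin.cast_val_eq_self b
  set A : ℂ := 𝓕 (fun t => φ (q / y * t)) (0 : ℝ) with hA
  have hkey : ∑' k : ℤ, χ (k : ZMod q) * φ (k / y)
      = ∑ b : Fin q, χ ((b : ℕ) : ZMod q) * ((∑' j : ℤ, φ (q / y * (((b : ℕ) : ℝ) / q + j))) - A) := by
    rw [hre]
    simp only [mul_sub, Finset.sum_sub_distrib]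
    rw [← Finset.sum_mul, hchar, zero_mul, sub_zero]
  rw [hkey]
  have hone : ∀ b : Fin q,
      ‖χ ((b : ℕ) : ZMod q) * ((∑' j : ℤ, φ (q / y * (((b : ℕ) : ℝ) / q + j))) - A)‖
        ≤ (∑' n : ℤ, 1 / |(n : ℝ)| ^ K) * ((q / y) ^ (K - 1) * ∫ t, ‖iteratedDeriv K φ t‖) := by
    intro b
    rw [norm_mul]
    exact (mul_le_of_le_one_left (norm_nonneg _) (χ.norm_le_one _)).trans (ty1_class h1 h2 hK hl _)
  refine (norm_sum_le _ _).trans ((Finset.sum_le_sum fun b _ => hone b).trans ?_)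
  rw [Finset.sum_const, Finset.card_univ, Fintype.card_fin, nsmul_eq_mul]
  refine le_of_eq ?_
  obtain ⟨m, rfl⟩ : ∃ m, K = m + 1 := ⟨K - 1, by omega⟩
  rw [Nat.add_sub_cancel, pow_succ]
  field_simp

theorem type1 {M : ℝ} (hM : 0 < M) {G : ℝ → ℝ} (hG : WS M G) {K : ℕ} (hK : 2 ≤ K) :
    ∃ C : ℝ, 0 ≤ C ∧ ∀ (q : ℕ) [NeZero q] (χ : DirichletCharacter ℂ q), χ ≠ 1 → ∀ y : ℝ, 0 < y →
      ‖∑ k ∈ Icc 1 (NN M y), χ k * ((G (Real.log (k / y)) : ℝ) : ℂ)‖ ≤ C * y * (q / y) ^ K := by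
  have h1 := ty1Phi_contDiff hG
  have h2 := ty1_hcs hG
  refine ⟨(∑' n : ℤ, 1 / |(n : ℝ)| ^ K) * (∫ t, ‖iteratedDeriv K (ty1Phi G) t‖), ?_, ?_⟩
  · refine mul_nonneg (tsum_nonneg fun n => by positivity) ?_
    exact MeasureTheory.integral_nonneg fun t => norm_nonneg _
  intro q _ χ hχ y hy
  have h3 := ty1_all h1 h2 hK χ hχ hy
  have h4 : ∑ k ∈ Icc 1 (NN M y), χ k * ((G (Real.log (k / y)) : ℝ) : ℂ)
      = ∑' k : ℤ, χ (k : ZMod q) * ty1Phi G (k / y) := by
    rw [tsum_eq_sum (s := (Icc 1 (NN M y)).map Nat.castEmbedding)]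
    · rw [Finset.sum_map]
      refine Finset.sum_congr rfl fun k hk => ?_
      have hk1 : 1 ≤ k := (Finset.mem_Icc.1 hk).1
      have hk0 : (0 : ℝ) < k := by exact_mod_cast hk1
      simp only [Nat.castEmbedding_apply, Int.cast_natCast]
      congr 1
      unfold ty1Phi
      rw [if_pos (by positivity)]
    · intro k hk
      have : ty1Phi G (k / y) = 0 := by
        by_cases hk1 : 1 ≤ k
        · refine ty1Phi_large hG ?_
          obtain ⟨n, rfl⟩ : ∃ n : ℕ, k = n := ⟨k.toNat, by omega⟩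
          have hn : NN M y < n := by
            by_contra hcon
            refine hk ?_
            rw [Finset.mem_map]
            refine ⟨n, Finset.mem_Icc.2 ⟨by exact_mod_cast hk1, not_lt.1 hcon⟩, rfl⟩
          unfold NN at hn
          have h5 := (Nat.floor_lt (by positivity)).1 hn
          rw [le_div_iff₀ hy]
          push_cast
          nlinarith
        · unfold ty1Phi
          have hk0 : (k : ℝ) ≤ 0 := by exact_mod_cast (by omega : k ≤ 0)
          rw [if_neg]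
          rw [not_lt]
          exact div_nonpos_of_nonpos_of_nonneg hk0 hy.le
      rw [this, mul_zero]
  rw [h4]
  exact h3

theorem type1_log {M : ℝ} (hM : 0 < M) {G : ℝ → ℝ} (hG : WS M G) {K : ℕ} (hK : 2 ≤ K) :
    ∃ C : ℝ, 0 ≤ C ∧ ∀ (q : ℕ) [NeZero q] (χ : DirichletCharacter ℂ q), χ ≠ 1 → ∀ y : ℝ, 0 < y →
      ‖∑ k ∈ Icc 1 (NN M y), χ k * ((Real.log k * G (Real.log (k / y)) : ℝ) : ℂ)‖
        ≤ C * (1 + |Real.log y|) * y * (q / y) ^ K := by
  have hG2 : WS M fun η => η * G η :=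
    ⟨contDiff_id.mul hG.smooth, fun η hη => by simp only [hG.zero η hη, mul_zero]⟩
  obtain ⟨C1, hC1, hb1⟩ := type1 hM hG hK
  obtain ⟨C2, hC2, hb2⟩ := type1 hM hG2 hK
  refine ⟨C1 + C2, by positivity, ?_⟩
  intro q _ χ hχ y hy
  have e : ∑ k ∈ Icc 1 (NN M y), χ k * ((Real.log k * G (Real.log (k / y)) : ℝ) : ℂ)
      = (Real.log y : ℂ) * ∑ k ∈ Icc 1 (NN M y), χ k * ((G (Real.log (k / y)) : ℝ) : ℂ)
        + ∑ k ∈ Icc 1 (NN M y), χ k * ((Real.log (k / y) * G (Real.log (k / y)) : ℝ) : ℂ) := by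
    rw [Finset.mul_sum, ← Finset.sum_add_distrib]
    refine Finset.sum_congr rfl fun k hk => ?_
    have hk1 : 1 ≤ k := (Finset.mem_Icc.1 hk).1
    have hk0 : (k : ℝ) ≠ 0 := by
      have : (0 : ℝ) < k := by exact_mod_cast hk1
      exact this.ne'
    rw [Real.log_div hk0 hy.ne']
    push_cast
    ring
  rw [e]
  have h1 := hb1 q χ hχ y hy
  have h2 := hb2 q χ hχ y hy
  refine (norm_add_le _ _).trans ?_
  rw [norm_mul, Complex.norm_real, Real.norm_eq_abs]
  have hP : 0 ≤ y * ((q : ℝ) / y) ^ K := by positivity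
  have h3 : |Real.log y| * ‖∑ k ∈ Icc 1 (NN M y), χ k * ((G (Real.log (k / y)) : ℝ) : ℂ)‖
      ≤ |Real.log y| * (C1 * y * (q / y) ^ K) := mul_le_mul_of_nonneg_left h1 (abs_nonneg _)
  have h4 : 0 ≤ C1 * (y * ((q : ℝ) / y) ^ K) := by positivity
  have h5 : 0 ≤ |Real.log y| * (C2 * (y * ((q : ℝ) / y) ^ K)) := by positivity
  calc |Real.log y| * ‖∑ k ∈ Icc 1 (NN M y), χ k * ((G (Real.log (k / y)) : ℝ) : ℂ)‖
        + ‖∑ k ∈ Icc 1 (NN M y), χ k * ((Real.log (k / y) * G (Real.log (k / y)) : ℝ) : ℂ)‖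
      ≤ |Real.log y| * (C1 * y * (q / y) ^ K) + C2 * y * (q / y) ^ K := add_le_add h3 h2
    _ ≤ (C1 + C2) * (1 + |Real.log y|) * y * (q / y) ^ K := by nlinarith

end H69LB
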