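import Pool.Agent.H69.LB.Vau
import Pool.Agent.H69.LB.Ty1

/-!
# CO1: the type I sums are negligible

Notation: `L = log T`, `x = T^α`, `U = ⌊T^(α-1+ε/4)⌋`, `V = ⌊T^(1/2-ε/2)⌋`, `N = NN M x = ⌊x e^M⌋`,
`g n = W(log(n/x)) χ(n)`. For `1 ≤ l ≤ U V` put `y = x/l`; then `N / l = ⌊y e^M⌋ = NN M y`
(`Nat.floor_div_natCast`), `log(lk/x) = log(k/y)`, and
`y ≥ x/(UV) ≥ T^(1/2+ε/4)`, `q ≤ 2 T^(1/2-ε)`, so `q/y ≤ 2 T^(-5ε/4)`. By `type1_log`, `type1` (with `K ≥ 2` to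
be chosen, depending on `ε, b`) each inner sum is at most `C (1 + log x) x (2 T^(-5ε/4))^K` (`y ≤ x`, and `y ≥ 1`). The
number of `d ≤ V`, `l ≤ UV ≤ x` is at most `x`, `|μ d| ≤ 1`, `|cUV| ≤ log l ≤ log x` (`cUV_abs_le`). Total
`≤ C (1 + log x)² x² (2 T^(-5ε/4))^K ≤ 1` for `T` large if `5 ε K/4 ≥ 2 b + 1`; here `x ≤ T^b`.
For `d ≤ V` note `V ≤ U V` when `U ≥ 1` (true for `T ≥ 1`, as `α ≥ 1`).
-/

namespace H69LB

open Finset

/-- `g n = W(log(n/x)) χ(n)` -/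
noncomputable def gW (W : ℝ → ℝ) (x : ℝ) {q : ℕ} (χ : DirichletCharacter ℂ q) (n : ℕ) : ℂ :=
  ((W (Real.log (n / x)) : ℝ) : ℂ) * χ n

private theorem co1_nn (M x : ℝ) (l : ℕ) : NN M x / l = NN M (x / l) := by
  unfold NN
  rw [← Nat.floor_div_natCast]
  congr 1
  ring

private theorem co1_g (W : ℝ → ℝ) (x : ℝ) {q : ℕ} (χ : DirichletCharacter ℂ q) (l k : ℕ) :
    gW W x χ (l * k) = χ l * (χ k * ((W (Real.log (k / (x / l))) : ℝ) : ℂ)) := by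
  unfold gW
  have h : ((l * k : ℕ) : ℝ) / x = k / (x / l) := by
    push_cast
    rw [div_div_eq_mul_div]
    ring
  rw [h]
  push_cast
  rw [map_mul]
  ring

private theorem co1_chi {q : ℕ} (χ : DirichletCharacter ℂ q) (l : ℕ) : ‖χ l‖ ≤ 1 :=
  DirichletCharacter.norm_le_one χ _

private theorem co1_sum (M : ℝ) (W : ℝ → ℝ) (x : ℝ) {q : ℕ} (χ : DirichletCharacter ℂ q) (l : ℕ) :
    ‖∑ k ∈ Icc 1 (NN M x / l), gW W x χ (l * k)‖ ≤
      ‖∑ k ∈ Icc 1 (NN M (x / l)), χ k * ((W (Real.log (k / (x / l))) : ℝ) : ℂ)‖ := by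
  rw [co1_nn]
  have h : ∑ k ∈ Icc 1 (NN M (x / l)), gW W x χ (l * k) =
      χ l * ∑ k ∈ Icc 1 (NN M (x / l)), χ k * ((W (Real.log (k / (x / l))) : ℝ) : ℂ) := by
    rw [mul_sum]
    exact sum_congr rfl fun k _ => co1_g W x χ l k
  rw [h, norm_mul]
  exact mul_le_of_le_one_left (norm_nonneg _) (co1_chi χ l)

private theorem co1_sumlog (M : ℝ) (W : ℝ → ℝ) (x : ℝ) {q : ℕ} (χ : DirichletCharacter ℂ q) (l : ℕ) :
    ‖∑ k ∈ Icc 1 (NN M x / l), (Real.log k : ℂ) * gW W x χ (l * k)‖ ≤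
      ‖∑ k ∈ Icc 1 (NN M (x / l)),
        χ k * ((Real.log k * W (Real.log (k / (x / l))) : ℝ) : ℂ)‖ := by
  rw [co1_nn]
  have h : ∑ k ∈ Icc 1 (NN M (x / l)), (Real.log k : ℂ) * gW W x χ (l * k) =
      χ l * ∑ k ∈ Icc 1 (NN M (x / l)),
        χ k * ((Real.log k * W (Real.log (k / (x / l))) : ℝ) : ℂ) := by
    rw [mul_sum]
    refine sum_congr rfl fun k _ => ?_
    rw [co1_g]
    push_cast
    ring
  rw [h, norm_mul]
  exact mul_le_of_le_one_left (norm_nonneg _) (co1_chi χ l)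

/-- the quotient `q / y` is small -/
private theorem co1_quot {ε T α : ℝ} (hε : 0 < ε) (hT : 1 ≤ T) {q l : ℕ}
    (hq : (q : ℝ) ≤ 2 * T ^ (1 / 2 - ε)) (hl : 1 ≤ l) (hl' : (l : ℝ) ≤ T ^ (α - 1 / 2 - ε / 4)) :
    1 ≤ T ^ α / l ∧ T ^ α / l ≤ T ^ α ∧ (q : ℝ) / (T ^ α / l) ≤ 2 * T ^ (-(5 * ε / 4)) := by
  have hT0 : 0 < T := one_pos.trans_le hT
  have hl0 : (0 : ℝ) < l := by exact_mod_cast hl
  have hl1 : (1 : ℝ) ≤ l := by exact_mod_cast hl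
  have hx : 0 < T ^ α := Real.rpow_pos_of_pos hT0 _
  have hy : T ^ (1 / 2 + ε / 4) ≤ T ^ α / l := by
    rw [le_div_iff₀ hl0]
    calc T ^ (1 / 2 + ε / 4) * l ≤ T ^ (1 / 2 + ε / 4) * T ^ (α - 1 / 2 - ε / 4) := by gcongr
      _ = T ^ α := by rw [← Real.rpow_add hT0]; congr 1; ring
  have hy1 : 1 ≤ T ^ (1 / 2 + ε / 4) := Real.one_le_rpow hT (by positivity)
  refine ⟨hy1.trans hy, div_le_self hx.le hl1, ?_⟩
  have hy0 : 0 < T ^ (1 / 2 + ε / 4) := one_pos.trans_le hy1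
  calc (q : ℝ) / (T ^ α / l) ≤ (2 * T ^ (1 / 2 - ε)) / T ^ (1 / 2 + ε / 4) := by gcongr
    _ = 2 * T ^ (-(5 * ε / 4)) := by
      rw [mul_div_assoc, ← Real.rpow_sub hT0]
      congr 2
      ring

theorem coreI {M : ℝ} (hM : 0 < M) {W : ℝ → ℝ} (hW : WS M W) {ε b : ℝ} (hε : 0 < ε) (hε' : ε ≤ 1 / 4)
    (hb : 1 ≤ b) :
    ∃ T0 : ℝ, ∀ T, T0 ≤ T → ∀ α ∈ Set.Icc 1 b, ∀ (q : ℕ) [NeZero q] (χ : DirichletCharacter ℂ q), χ ≠ 1 →
      (q : ℝ) ≤ 2 * T ^ (1 / 2 - ε) →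
      ‖∑ d ∈ Icc 1 ⌊T ^ (1 / 2 - ε / 2)⌋₊, (ArithmeticFunction.moebius d : ℂ) *
          ∑ k ∈ Icc 1 (NN M (T ^ α) / d), (Real.log k : ℂ) * gW W (T ^ α) χ (d * k)
        - ∑ l ∈ Icc 1 (⌊T ^ (α - 1 + ε / 4)⌋₊ * ⌊T ^ (1 / 2 - ε / 2)⌋₊),
          (cUV ⌊T ^ (α - 1 + ε / 4)⌋₊ ⌊T ^ (1 / 2 - ε / 2)⌋₊ l : ℂ) *
          ∑ k ∈ Icc 1 (NN M (T ^ α) / l), gW W (T ^ α) χ (l * k)‖ ≤ 1 := by
  obtain ⟨K, hK2, hK⟩ : ∃ K : ℕ, 2 ≤ K ∧ 3 * b + 1 ≤ 5 * ε / 4 * K := by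
    refine ⟨⌈(3 * b + 1) / ε⌉₊ + 2, by omega, ?_⟩
    have h1 : (3 * b + 1) / ε ≤ (⌈(3 * b + 1) / ε⌉₊ : ℝ) := Nat.le_ceil _
    rw [div_le_iff₀ hε] at h1
    push_cast
    nlinarith
  obtain ⟨C1, hC1, h1⟩ := type1_log hM hW hK2
  obtain ⟨C2, hC2, h2⟩ := type1 hM hW hK2
  refine ⟨max 1 ((C1 + C2) * 2 ^ K), fun T hT α hα q _ χ hχ hq => ?_⟩
  have hT1 : 1 ≤ T := (le_max_left _ _).trans hT
  have hT2 : (C1 + C2) * 2 ^ K ≤ T := (le_max_right _ _).trans hT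
  have hT0 : 0 < T := one_pos.trans_le hT1
  set x : ℝ := T ^ α with hx
  have hx1 : 1 ≤ x := Real.one_le_rpow hT1 (by linarith [hα.1])
  have hx0 : 0 < x := one_pos.trans_le hx1
  have hxb : x ≤ T ^ b := Real.rpow_le_rpow_of_exponent_le hT1 hα.2
  set U : ℕ := ⌊T ^ (α - 1 + ε / 4)⌋₊ with hU
  set V : ℕ := ⌊T ^ (1 / 2 - ε / 2)⌋₊ with hV
  have hU1 : 1 ≤ U := by
    rw [hU]
    apply Nat.le_floor
    rw [Nat.cast_one]
    exact Real.one_le_rpow hT1 (by linarith [hα.1])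
  have hUV : ((U * V : ℕ) : ℝ) ≤ T ^ (α - 1 / 2 - ε / 4) := by
    push_cast
    have hu : (U : ℝ) ≤ T ^ (α - 1 + ε / 4) := Nat.floor_le (by positivity)
    have hv : (V : ℝ) ≤ T ^ (1 / 2 - ε / 2) := Nat.floor_le (by positivity)
    calc (U : ℝ) * V ≤ T ^ (α - 1 + ε / 4) * T ^ (1 / 2 - ε / 2) := by gcongr
      _ = T ^ (α - 1 / 2 - ε / 4) := by rw [← Real.rpow_add hT0]; congr 1; ring
  have hUVx : ((U * V : ℕ) : ℝ) ≤ x :=
    hUV.trans (Real.rpow_le_rpow_of_exponent_le hT1 (by linarith))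
  have hVUV : (V : ℝ) ≤ ((U * V : ℕ) : ℝ) := by
    exact_mod_cast Nat.le_mul_of_pos_left V hU1
  have hlogx : 0 ≤ Real.log x := Real.log_nonneg hx1
  set D : ℝ := 2 * T ^ (-(5 * ε / 4)) with hD
  have hD0 : 0 ≤ D := by positivity
  -- the first sum
  have hA : ‖∑ d ∈ Icc 1 V, (ArithmeticFunction.moebius d : ℂ) *
      ∑ k ∈ Icc 1 (NN M x / d), (Real.log k : ℂ) * gW W x χ (d * k)‖ ≤
      x * (C1 * (1 + Real.log x) * x * D ^ K) := by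
    have hterm : ∀ d ∈ Icc 1 V, ‖(ArithmeticFunction.moebius d : ℂ) *
        ∑ k ∈ Icc 1 (NN M x / d), (Real.log k : ℂ) * gW W x χ (d * k)‖ ≤
        C1 * (1 + Real.log x) * x * D ^ K := by
      intro d hd
      rw [mem_Icc] at hd
      have hd1 : (d : ℝ) ≤ T ^ (α - 1 / 2 - ε / 4) :=
        (le_trans (by exact_mod_cast hd.2) hVUV).trans hUV
      obtain ⟨hy1, hy2, hy3⟩ := co1_quot hε hT1 hq hd.1 hd1
      rw [norm_mul]
      have hmu : ‖(ArithmeticFunction.moebius d : ℂ)‖ ≤ 1 := by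
        rw [Complex.norm_intCast]
        exact_mod_cast ArithmeticFunction.abs_moebius_le_one
      have hlogy : |Real.log (x / d)| ≤ Real.log x := by
        rw [abs_of_nonneg (Real.log_nonneg hy1)]
        exact Real.log_le_log (one_pos.trans_le hy1) hy2
      have hy0 : 0 ≤ x / d := by positivity
      calc ‖(ArithmeticFunction.moebius d : ℂ)‖ *
            ‖∑ k ∈ Icc 1 (NN M x / d), (Real.log k : ℂ) * gW W x χ (d * k)‖
          ≤ 1 * (C1 * (1 + |Real.log (x / d)|) * (x / d) * (q / (x / d)) ^ K) := by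
            apply mul_le_mul hmu _ (norm_nonneg _) zero_le_one
            exact (co1_sumlog M W x χ d).trans (h1 q χ hχ _ (one_pos.trans_le hy1))
        _ ≤ C1 * (1 + Real.log x) * x * D ^ K := by
            rw [one_mul]
            gcongr
    calc _ ≤ ∑ d ∈ Icc 1 V, C1 * (1 + Real.log x) * x * D ^ K := norm_sum_le_of_le _ hterm
      _ = V * (C1 * (1 + Real.log x) * x * D ^ K) := by
        rw [sum_const, Nat.card_Icc, nsmul_eq_mul, Nat.add_sub_cancel]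
      _ ≤ x * (C1 * (1 + Real.log x) * x * D ^ K) := by
        have := hVUV.trans hUVx
        gcongr
  have hB : ‖∑ l ∈ Icc 1 (U * V), (cUV U V l : ℂ) *
      ∑ k ∈ Icc 1 (NN M x / l), gW W x χ (l * k)‖ ≤
      x * (Real.log x * (C2 * x * D ^ K)) := by
    have hterm : ∀ l ∈ Icc 1 (U * V), ‖(cUV U V l : ℂ) *
        ∑ k ∈ Icc 1 (NN M x / l), gW W x χ (l * k)‖ ≤ Real.log x * (C2 * x * D ^ K) := by
      intro l hl
      rw [mem_Icc] at hl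
      have hl1 : (l : ℝ) ≤ ((U * V : ℕ) : ℝ) := by exact_mod_cast hl.2
      have hl0 : (0 : ℝ) < l := by exact_mod_cast hl.1
      obtain ⟨hy1, hy2, hy3⟩ := co1_quot hε hT1 hq hl.1 (hl1.trans hUV)
      rw [norm_mul]
      have hc : ‖(cUV U V l : ℂ)‖ ≤ Real.log x := by
        rw [Complex.norm_real, Real.norm_eq_abs]
        exact (cUV_abs_le U V hl.1).trans (Real.log_le_log hl0 (hl1.trans hUVx))
      have hy0 : 0 ≤ x / l := by positivity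
      apply mul_le_mul hc _ (norm_nonneg _) hlogx
      calc _ ≤ C2 * (x / l) * (q / (x / l)) ^ K :=
            (co1_sum M W x χ l).trans (h2 q χ hχ _ (one_pos.trans_le hy1))
        _ ≤ C2 * x * D ^ K := by gcongr
    calc _ ≤ ∑ l ∈ Icc 1 (U * V), Real.log x * (C2 * x * D ^ K) := norm_sum_le_of_le _ hterm
      _ = ((U * V : ℕ) : ℝ) * (Real.log x * (C2 * x * D ^ K)) := by
        rw [sum_const, Nat.card_Icc, nsmul_eq_mul, Nat.add_sub_cancel]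
      _ ≤ x * (Real.log x * (C2 * x * D ^ K)) := by gcongr
  refine (norm_sub_le _ _).trans ?_
  refine (add_le_add hA hB).trans ?_
  have hlog : 1 + Real.log x ≤ x := by linarith [Real.log_le_sub_one_of_pos hx0]
  have hlog' : Real.log x ≤ x := by linarith
  have hDK : D ^ K = 2 ^ K * T ^ (-(5 * ε / 4 * K)) := by
    rw [hD, mul_pow, ← Real.rpow_mul_natCast hT0.le]
    congr 2
    ring
  have hDK' : D ^ K ≤ 2 ^ K * T ^ (-(3 * b + 1)) := by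
    rw [hDK]
    gcongr
  calc x * (C1 * (1 + Real.log x) * x * D ^ K) + x * (Real.log x * (C2 * x * D ^ K))
      ≤ x * (C1 * x * x * D ^ K) + x * (x * (C2 * x * D ^ K)) := by gcongr
    _ = (C1 + C2) * x ^ 3 * D ^ K := by ring
    _ ≤ (C1 + C2) * (T ^ b) ^ 3 * (2 ^ K * T ^ (-(3 * b + 1))) := by gcongr
    _ = (C1 + C2) * 2 ^ K * (T ^ (3 * b) * T ^ (-(3 * b + 1))) := by
        rw [← Real.rpow_mul_natCast hT0.le]
        have : b * ((3 : ℕ) : ℝ) = 3 * b := by push_cast; ring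
        rw [this]
        ring
    _ = (C1 + C2) * 2 ^ K * T⁻¹ := by
        rw [← Real.rpow_add hT0, ← Real.rpow_neg_one]
        congr 2
        ring
    _ ≤ T * T⁻¹ := by gcongr
    _ = 1 := mul_inv_cancel₀ hT0.ne'

end H69LB
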