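import Pool.Agent.H69.LB.Lsm
import Pool.Agent.H69.LB.Div
import Pool.Agent.H69.LB.Sep

/-!
# TY2: one dyadic block of type II

Let `X = NN M x / M1 ≤ x e^M / M1` and `N = NN M x`. If `m > M1` then `N / m ≤ X`. For `m ∈ (M1, 2 M1]`,
`k ∈ [1, X]` with `k > N/m`, i.e. `m k > N`, i.e. `m k > x e^M`, we have `W(log(mk/x)) = 0`; so the inner sum may
be extended to `k ∈ Icc 1 X`. Insert `W(log(mk/x)) = ∫ w(ξ) e(ξ log m) e(ξ log k) e(-ξ log x) dξ` (`sep`;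
`log(mk/x) = log m + log k - log x`): the block is `∫ w(ξ) e(-ξ log x) 𝓜_ξ(χ) 𝓚_ξ(χ) dξ`,
`𝓜_ξ(χ) = ∑_m Λ(m) e(ξ log m) χ(m)`, `𝓚_ξ(χ) = ∑_{k ≤ X} β(k) e(ξ log k) χ(k)`. So the left side is at most
`∫ ‖w ξ‖ ∑_q ∑_χ ‖𝓐(χ) 𝓜_ξ(χ)‖ ‖𝓚_ξ(χ)‖ dξ`, `𝓐(χ) = ∑_{a ≤ A} c_a χ(a)`, and by Cauchy-Schwarz and `LSM` twice:
* `𝓐 𝓜_ξ = ∑_{l ≤ 2 A M1} b_l χ(l)`, `b_l = ∑_{am = l} c_a Λ(m) e(ξ log m)`, `‖b_l‖ ≤ ∑_{m ∣ l} Λ(m) = log l`, so
  `∑ ‖𝓐 𝓜‖² ≤ (Q² + 26 A M1) (2 A M1) (log(2 A M1))²`;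
* `∑ ‖𝓚‖² ≤ (Q² + 13 X) X (1 + log X)³` (`sum_card_sq_le`; `X ≥ 1` or the sum is empty).
The product of the square roots is at most `C (log(2 A M1)) (1 + log X)^{3/2} (A x (A M1 + Q²)(x/M1 + Q²))^{1/2}`
(`M1 X ≤ x e^M`), and `log(2 A M1) ≤ C (1 + log x + log A)` by `M1 ≤ x e^M`, `1 + log X ≤ C (1 + log x)`. For
`A = 0` both sides vanish. The constant `C` depends on `M` and `∫ ‖w‖` only.
-/

namespace H69LB

open Finset MeasureTheory

private lemma ty2_norm_ee (t : ℝ) : ‖ee t‖ = 1 := by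
  unfold ee
  have h : (2 * Real.pi * t * Complex.I : ℂ) = ((2 * Real.pi * t : ℝ) : ℂ) * Complex.I := by
    push_cast; ring
  rw [h, Complex.norm_exp_ofReal_mul_I]

private lemma ty2_ee_add (s t : ℝ) : ee (s + t) = ee s * ee t := by
  unfold ee
  rw [← Complex.exp_add]
  congr 1
  push_cast; ring

private lemma ty2_ee_cont : Continuous ee := by
  unfold ee; fun_prop

/-- cutting off the inner sum -/
private lemma ty2_cut {M : ℝ} {W : ℝ → ℝ} (hW : WS M W) {x : ℝ} (hx : 1 ≤ x) {M1 m : ℕ} (hM1 : 1 ≤ M1)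
    (hm : M1 ≤ m) (g : ℕ → ℂ) :
    ∑ k ∈ Icc 1 (NN M x / m), g k * ((W (Real.log (((m * k : ℕ) : ℝ) / x)) : ℝ) : ℂ)
      = ∑ k ∈ Icc 1 (NN M x / M1), g k * ((W (Real.log (((m * k : ℕ) : ℝ) / x)) : ℝ) : ℂ) := by
  apply sum_subset
  · intro k hk
    rw [mem_Icc] at hk ⊢
    exact ⟨hk.1, hk.2.trans (Nat.div_le_div_left hm hM1)⟩
  · intro k hk hk'
    rw [mem_Icc] at hk hk'
    have h1 : NN M x / m < k := by
      by_contra h
      exact hk' ⟨hk.1, not_lt.mp h⟩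
    have h2 : NN M x < m * k := by
      rw [mul_comm]
      exact (Nat.div_lt_iff_lt_mul (by omega)).mp h1
    have h3 : x * Real.exp M < ((m * k : ℕ) : ℝ) := by
      have := Nat.lt_of_floor_lt h2
      exact this
    have hx0 : 0 < x := by linarith
    have h4 : M ≤ Real.log (((m * k : ℕ) : ℝ) / x) := by
      rw [Real.le_log_iff_exp_le (div_pos (lt_trans (by positivity) h3) hx0)]
      rw [le_div_iff₀ hx0]
      linarith
    rw [hW.zero _ (h4.trans (le_abs_self _))]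
    simp

/-- separation of the variables in one block -/
private lemma ty2_block {W : ℝ → ℝ} {w : ℝ → ℂ} (hwi : Integrable w)
    (hWw : ∀ η : ℝ, ((W η : ℝ) : ℂ) = ∫ ξ, w ξ * ee (ξ * η)) {x : ℝ} (hx : 0 < x)
    (S T : Finset ℕ) (hS : ∀ m ∈ S, 1 ≤ m) (hT : ∀ k ∈ T, 1 ≤ k) (a b : ℕ → ℂ) {q : ℕ}
    (χ : DirichletCharacter ℂ q) :
    ∑ m ∈ S, a m * ∑ k ∈ T, b k *
        (((W (Real.log (((m * k : ℕ) : ℝ) / x)) : ℝ) : ℂ) * χ ((m * k : ℕ)))
      = ∫ ξ, w ξ * (ee (-(ξ * Real.log x)) *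
          ((∑ m ∈ S, a m * ee (ξ * Real.log m) * χ m) * (∑ k ∈ T, b k * ee (ξ * Real.log k) * χ k))) := by
  have hint : ∀ η : ℝ, Integrable (fun ξ => w ξ * ee (ξ * η)) := by
    intro η
    refine hwi.mul_bdd (c := 1) ?_ ?_
    · exact (ty2_ee_cont.comp (continuous_id.mul continuous_const)).aestronglyMeasurable
    · exact Filter.Eventually.of_forall fun ξ => (ty2_norm_ee _).le
  have h1 : (fun ξ => w ξ * (ee (-(ξ * Real.log x)) *
          ((∑ m ∈ S, a m * ee (ξ * Real.log m) * χ m) * (∑ k ∈ T, b k * ee (ξ * Real.log k) * χ k))))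
      = fun ξ => ∑ m ∈ S, ∑ k ∈ T, (a m * b k * χ ((m * k : ℕ))) *
          (w ξ * ee (ξ * Real.log (((m * k : ℕ) : ℝ) / x))) := by
    funext ξ
    rw [sum_mul_sum, mul_sum, mul_sum]
    refine sum_congr rfl fun m hm => ?_
    rw [mul_sum, mul_sum]
    refine sum_congr rfl fun k hk => ?_
    have hm0 : (m : ℝ) ≠ 0 := by have := hS m hm; positivity
    have hk0 : (k : ℝ) ≠ 0 := by have := hT k hk; positivity
    have e1 : ξ * Real.log (((m * k : ℕ) : ℝ) / x)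
        = -(ξ * Real.log x) + (ξ * Real.log m + ξ * Real.log k) := by
      push_cast
      rw [Real.log_div (mul_ne_zero hm0 hk0) hx.ne', Real.log_mul hm0 hk0]
      ring
    rw [e1, ty2_ee_add, ty2_ee_add]
    push_cast
    rw [map_mul]
    ring
  rw [h1, integral_finsetSum]
  · refine sum_congr rfl fun m hm => ?_
    rw [integral_finsetSum]
    · rw [mul_sum]
      refine sum_congr rfl fun k hk => ?_
      rw [integral_const_mul, ← hWw]
      ring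
    · intro k hk
      exact (hint _).const_mul _
  · intro m hm
    exact integrable_finsetSum _ fun k hk => (hint _).const_mul _

/-- the passage from the separated block to a uniform bound -/
private lemma ty2_unif {w : ℝ → ℂ} (hwi : Integrable w) {x : ℝ} {ι : Type*} (P : Finset ι)
    (F : ι → ℝ) (hF : ∀ p, 0 ≤ F p) (blk : ι → ℂ) (G H : ι → ℝ → ℂ) (hG : ∀ p, Continuous (G p))
    (hH : ∀ p, Continuous (H p)) (CG CH : ι → ℝ) (hGb : ∀ p ξ, ‖G p ξ‖ ≤ CG p)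
    (hHb : ∀ p ξ, ‖H p ξ‖ ≤ CH p)
    (hblk : ∀ p ∈ P, blk p = ∫ ξ, w ξ * (ee (-(ξ * Real.log x)) * (G p ξ * H p ξ)))
    {B : ℝ} (hB : ∀ ξ, ∑ p ∈ P, F p * (‖G p ξ‖ * ‖H p ξ‖) ≤ B) :
    ∑ p ∈ P, F p * ‖blk p‖ ≤ (∫ ξ, ‖w ξ‖) * B := by
  have hint : ∀ p, Integrable (fun ξ => ‖w ξ‖ * (‖G p ξ‖ * ‖H p ξ‖)) := by
    intro p
    refine hwi.norm.mul_bdd (c := CG p * CH p) ?_ ?_
    · exact ((hG p).norm.mul (hH p).norm).aestronglyMeasurable
    · refine Filter.Eventually.of_forall fun ξ => ?_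
      rw [Real.norm_of_nonneg (by positivity)]
      exact mul_le_mul (hGb p ξ) (hHb p ξ) (norm_nonneg _) ((norm_nonneg _).trans (hGb p ξ))
  have h1 : ∀ p ∈ P, ‖blk p‖ ≤ ∫ ξ, ‖w ξ‖ * (‖G p ξ‖ * ‖H p ξ‖) := by
    intro p hp
    rw [hblk p hp]
    refine (norm_integral_le_integral_norm _).trans (le_of_eq ?_)
    congr 1
    funext ξ
    rw [norm_mul, norm_mul, norm_mul, ty2_norm_ee, one_mul]
  calc ∑ p ∈ P, F p * ‖blk p‖ ≤ ∑ p ∈ P, ∫ ξ, F p * (‖w ξ‖ * (‖G p ξ‖ * ‖H p ξ‖)) := by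
        refine sum_le_sum fun p hp => ?_
        rw [integral_const_mul]
        exact mul_le_mul_of_nonneg_left (h1 p hp) (hF p)
    _ = ∫ ξ, ∑ p ∈ P, F p * (‖w ξ‖ * (‖G p ξ‖ * ‖H p ξ‖)) := by
        rw [integral_finsetSum]
        exact fun p hp => (hint p).const_mul _
    _ ≤ ∫ ξ, ‖w ξ‖ * B := by
        refine integral_mono (integrable_finsetSum _ fun p hp => (hint p).const_mul _)
          (hwi.norm.mul_const _) fun ξ => ?_
        have h2 := mul_le_mul_of_nonneg_left (hB ξ) (norm_nonneg (w ξ))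
        refine le_trans (le_of_eq ?_) h2
        rw [mul_sum]
        refine sum_congr rfl fun p hp => ?_
        ring
    _ = (∫ ξ, ‖w ξ‖) * B := by rw [integral_mul_const]

/-- the product polynomial of length `2 A M1` -/
private lemma ty2_prod (A M1 : ℕ) (c : ℕ → ℂ) (hc : ∀ a, ‖c a‖ ≤ 1) (u : ℕ → ℂ) (hu : ∀ m, ‖u m‖ ≤ 1) :
    ∃ b : ℕ → ℂ, (∀ l ∈ Icc 1 (2 * A * M1), ‖b l‖ ≤ Real.log (2 * A * M1 : ℕ)) ∧
      ∀ (q : ℕ) (χ : DirichletCharacter ℂ q), (∑ a ∈ Icc 1 A, c a * χ a) *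
        (∑ m ∈ Ioc M1 (2 * M1), (ArithmeticFunction.vonMangoldt m : ℂ) * u m * χ m)
          = ∑ l ∈ Icc 1 (2 * A * M1), b l * χ l := by
  classical
  set D : Finset (ℕ × ℕ) := Icc 1 A ×ˢ Ioc M1 (2 * M1) with hD
  refine ⟨fun l => ∑ p ∈ D with p.1 * p.2 = l, c p.1 * ((ArithmeticFunction.vonMangoldt p.2 : ℂ) * u p.2), ?_, ?_⟩
  · intro l hl
    rw [mem_Icc] at hl
    have h1 : ‖∑ p ∈ D with p.1 * p.2 = l, c p.1 * ((ArithmeticFunction.vonMangoldt p.2 : ℂ) * u p.2)‖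
        ≤ ∑ p ∈ D with p.1 * p.2 = l, ArithmeticFunction.vonMangoldt p.2 := by
      refine (norm_sum_le _ _).trans (sum_le_sum fun p hp => ?_)
      rw [norm_mul, norm_mul, Complex.norm_real,
        Real.norm_of_nonneg ArithmeticFunction.vonMangoldt_nonneg]
      have h2 := hc p.1
      have h3 := hu p.2
      have h4 : (0 : ℝ) ≤ ArithmeticFunction.vonMangoldt p.2 := ArithmeticFunction.vonMangoldt_nonneg
      calc ‖c p.1‖ * (ArithmeticFunction.vonMangoldt p.2 * ‖u p.2‖)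
          ≤ 1 * (ArithmeticFunction.vonMangoldt p.2 * 1) := by gcongr
        _ = _ := by ring
    refine h1.trans ?_
    have h5 : ∑ p ∈ D with p.1 * p.2 = l, ArithmeticFunction.vonMangoldt p.2
        ≤ ∑ d ∈ l.divisors, ArithmeticFunction.vonMangoldt d := by
      rw [← sum_image (f := fun d => (ArithmeticFunction.vonMangoldt d : ℝ)) (g := fun p : ℕ × ℕ => p.2)]
      · refine sum_le_sum_of_subset_of_nonneg ?_ fun _ _ _ => ArithmeticFunction.vonMangoldt_nonneg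
        intro d hd
        rw [mem_image] at hd
        obtain ⟨p, hp, rfl⟩ := hd
        rw [mem_filter] at hp
        rw [Nat.mem_divisors]
        exact ⟨⟨p.1, by rw [← hp.2, mul_comm]⟩, by omega⟩
      · intro p hp p' hp' h
        simp only [coe_filter, Set.mem_ofPred_eq] at hp hp'
        have h6 : p.1 * p.2 = p'.1 * p'.2 := by rw [hp.2, hp'.2]
        have h7 : p.2 = p'.2 := h
        rw [h7] at h6
        have h8 : 0 < p'.2 := by
          have := hp'.1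
          rw [hD, mem_product, mem_Ioc] at this
          omega
        exact Prod.ext (Nat.eq_of_mul_eq_mul_right h8 h6) h7
    refine h5.trans ?_
    rw [ArithmeticFunction.vonMangoldt_sum]
    exact Real.log_le_log (by have := hl.1; positivity) (by exact_mod_cast hl.2)
  · intro q χ
    rw [sum_mul_sum, ← sum_product', ← hD]
    have hmaps : ∀ p ∈ D, p.1 * p.2 ∈ Icc 1 (2 * A * M1) := by
      intro p hp
      rw [hD, mem_product, mem_Icc, mem_Ioc] at hp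
      rw [mem_Icc]
      refine ⟨Nat.mul_pos (by omega) (by omega), ?_⟩
      calc p.1 * p.2 ≤ A * (2 * M1) := Nat.mul_le_mul hp.1.2 hp.2.2
        _ = 2 * A * M1 := by ring
    rw [← sum_fiberwise_of_maps_to hmaps]
    refine sum_congr rfl fun l hl => ?_
    rw [sum_mul]
    refine sum_congr rfl fun p hp => ?_
    rw [mem_filter] at hp
    rw [← hp.2]
    push_cast
    rw [map_mul]
    ring

/-- the final elementary inequality -/
private lemma ty2_num {M x : ℝ} (hM : 0 < M) (hx : 1 ≤ x) {A M1 Q X : ℕ} (hA : 1 ≤ A) (hM1 : 1 ≤ M1)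
    (hX : 1 ≤ X) (hMx : (M1 : ℝ) ≤ x * Real.exp M) (hMX : (M1 : ℝ) * X ≤ x * Real.exp M) :
    Real.sqrt ((((Q : ℝ) ^ 2 + 13 * (2 * A * M1 : ℕ)) * ((2 * A * M1 : ℕ) * Real.log (2 * A * M1 : ℕ) ^ 2)))
      * Real.sqrt (((Q : ℝ) ^ 2 + 13 * X) * (X * (1 + Real.log X) ^ 3))
      ≤ 26 * Real.exp M * (1 + M) ^ 3 * (1 + Real.log x + Real.log A) ^ 3 *
          Real.sqrt (A * x * ((A * M1 + (Q : ℝ) ^ 2) * (x / M1 + (Q : ℝ) ^ 2))) := by
  have hA' : (1 : ℝ) ≤ A := by exact_mod_cast hA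
  have hM1' : (1 : ℝ) ≤ M1 := by exact_mod_cast hM1
  have hX' : (1 : ℝ) ≤ X := by exact_mod_cast hX
  have hx0 : 0 < x := by linarith
  have hlx : 0 ≤ Real.log x := Real.log_nonneg hx
  have hlA : 0 ≤ Real.log A := Real.log_nonneg hA'
  have hlX : 0 ≤ Real.log X := Real.log_nonneg hX'
  have hlM1 : 0 ≤ Real.log M1 := Real.log_nonneg hM1'
  have hE : 1 ≤ Real.exp M := Real.one_le_exp hM.le
  set L : ℝ := 1 + Real.log x + Real.log A with hL
  have hL1 : 1 ≤ L := by linarith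
  have l1 : Real.log M1 ≤ Real.log x + M := by
    have := Real.log_le_log (by positivity) hMx
    rwa [Real.log_mul hx0.ne' (Real.exp_pos M).ne', Real.log_exp] at this
  have l2 : Real.log X ≤ Real.log x + M := by
    have h : (X : ℝ) ≤ x * Real.exp M := by nlinarith
    have := Real.log_le_log (by positivity) h
    rwa [Real.log_mul hx0.ne' (Real.exp_pos M).ne', Real.log_exp] at this
  have hlog2 : Real.log 2 ≤ 1 := by
    have := Real.log_two_lt_d9; linarith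
  have l3 : Real.log (2 * A * M1 : ℕ) ≤ (1 + M) * L := by
    push_cast
    rw [Real.log_mul (by positivity) (by positivity), Real.log_mul (by norm_num) (by positivity)]
    have : 0 ≤ M * (Real.log x + Real.log A) := by positivity
    have h2 : (1 + M) * L = 1 + Real.log x + Real.log A + M + M * (Real.log x + Real.log A) := by
      rw [hL]; ring
    rw [h2]
    linarith
  have l3' : 0 ≤ Real.log (2 * A * M1 : ℕ) := Real.log_natCast_nonneg _
  have l4 : 1 + Real.log X ≤ (1 + M) * L := by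
    have : 0 ≤ M * (Real.log x + Real.log A) := by positivity
    have h2 : (1 + M) * L = 1 + Real.log x + Real.log A + M + M * (Real.log x + Real.log A) := by
      rw [hL]; ring
    rw [h2]
    linarith
  rw [← Real.sqrt_mul (by positivity)]
  have hR : 0 ≤ 26 * Real.exp M * (1 + M) ^ 3 * L ^ 3 := by positivity
  apply Real.sqrt_le_iff.mpr
  refine ⟨by positivity, ?_⟩
  rw [mul_pow, Real.sq_sqrt (by positivity)]
  have e1 : (Q : ℝ) ^ 2 + 13 * (2 * A * M1 : ℕ) ≤ 26 * (A * M1 + (Q : ℝ) ^ 2) := by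
    push_cast; nlinarith [sq_nonneg (Q : ℝ)]
  have e2 : ((2 * A * M1 : ℕ) : ℝ) = 2 * A * M1 := by push_cast; ring
  have e3 : (Q : ℝ) ^ 2 + 13 * X ≤ 13 * Real.exp M * (x / M1 + (Q : ℝ) ^ 2) := by
    have h1 : (X : ℝ) ≤ Real.exp M * (x / M1) := by
      rw [← mul_div_assoc, le_div_iff₀ (by positivity)]
      linarith
    have h2 : (Q : ℝ) ^ 2 ≤ Real.exp M * (Q : ℝ) ^ 2 := le_mul_of_one_le_left (by positivity) hE
    have h3 : 0 ≤ Real.exp M * (Q : ℝ) ^ 2 := by positivity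
    nlinarith
  have e4 : Real.log (2 * A * M1 : ℕ) ^ 2 ≤ ((1 + M) * L) ^ 2 := pow_le_pow_left₀ l3' l3 2
  have hML : 1 ≤ (1 + M) * L := by nlinarith
  have e5 : (1 + Real.log X) ^ 3 ≤ ((1 + M) * L) ^ 4 := by
    calc (1 + Real.log X) ^ 3 ≤ ((1 + M) * L) ^ 3 := pow_le_pow_left₀ (by positivity) l4 3
      _ ≤ ((1 + M) * L) ^ 4 := pow_le_pow_right₀ hML (by norm_num)
  calc (((Q : ℝ) ^ 2 + 13 * (2 * A * M1 : ℕ)) * ((2 * A * M1 : ℕ) * Real.log (2 * A * M1 : ℕ) ^ 2))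
        * (((Q : ℝ) ^ 2 + 13 * X) * (X * (1 + Real.log X) ^ 3))
      ≤ ((26 * (A * M1 + (Q : ℝ) ^ 2)) * ((2 * A * M1) * ((1 + M) * L) ^ 2))
        * ((13 * Real.exp M * (x / M1 + (Q : ℝ) ^ 2)) * (X * ((1 + M) * L) ^ 4)) := by
        rw [e2] at e1 l3 l3' ⊢
        gcongr
    _ = (26 * (A * M1 + (Q : ℝ) ^ 2)) * (13 * Real.exp M * (x / M1 + (Q : ℝ) ^ 2)) * (2 * A)
          * ((1 + M) * L) ^ 6 * (M1 * X) := by ring
    _ ≤ (26 * (A * M1 + (Q : ℝ) ^ 2)) * (13 * Real.exp M * (x / M1 + (Q : ℝ) ^ 2)) * (2 * A)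
          * ((1 + M) * L) ^ 6 * (x * Real.exp M) := by gcongr
    _ = (26 * Real.exp M * (1 + M) ^ 3 * L ^ 3) ^ 2 *
          (A * x * ((A * M1 + (Q : ℝ) ^ 2) * (x / M1 + (Q : ℝ) ^ 2))) := by ring

theorem type2 {M : ℝ} (hM : 0 < M) {W : ℝ → ℝ} (hW : WS M W) :
    ∃ C : ℝ, 0 ≤ C ∧ ∀ (x : ℝ) (Q A M1 : ℕ), 1 ≤ x → 1 ≤ M1 → (M1 : ℝ) ≤ x * Real.exp M →
      ∀ c : ℕ → ℂ, (∀ a, ‖c a‖ ≤ 1) → ∀ β : ℕ → ℝ, (∀ k, |β k| ≤ (k.divisors.card : ℝ)) →
      ∑ q ∈ Icc 1 Q, ∑ χ ∈ pc q, ‖∑ a ∈ Icc 1 A, c a * χ a‖ *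
        ‖∑ m ∈ Ioc M1 (2 * M1), (ArithmeticFunction.vonMangoldt m : ℂ) *
          ∑ k ∈ Icc 1 (NN M x / m), (β k : ℂ) * (((W (Real.log (((m * k : ℕ) : ℝ) / x)) : ℝ) : ℂ) * χ ((m * k : ℕ)))‖
        ≤ C * (1 + Real.log x + Real.log A) ^ 3 *
          Real.sqrt (A * x * ((A * M1 + (Q : ℝ) ^ 2) * (x / M1 + (Q : ℝ) ^ 2))) := by
  obtain ⟨w, hwc, hwi, hWw⟩ := sep hW
  refine ⟨(∫ ξ, ‖w ξ‖) * (26 * Real.exp M * (1 + M) ^ 3), by positivity, ?_⟩
  intro x Q A M1 hx hM1 hMx c hc β hβ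
  have hx0 : 0 < x := by linarith
  rcases Nat.eq_zero_or_pos A with hA | hA
  · subst hA
    simp
  set X : ℕ := NN M x / M1 with hX
  have hR : 0 ≤ (∫ ξ, ‖w ξ‖) * (26 * Real.exp M * (1 + M) ^ 3) * (1 + Real.log x + Real.log A) ^ 3 *
          Real.sqrt (A * x * ((A * M1 + (Q : ℝ) ^ 2) * (x / M1 + (Q : ℝ) ^ 2))) := by
    have h1 : 0 ≤ Real.log x := Real.log_nonneg hx
    have h2 : 0 ≤ Real.log A := Real.log_natCast_nonneg _
    positivity
  -- the blocks with the inner sum up to X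
  set blk : (Σ q : ℕ, DirichletCharacter ℂ q) → ℂ := fun p =>
    ∑ m ∈ Ioc M1 (2 * M1), (ArithmeticFunction.vonMangoldt m : ℂ) * ∑ k ∈ Icc 1 X, (β k : ℂ) *
      (((W (Real.log (((m * k : ℕ) : ℝ) / x)) : ℝ) : ℂ) * p.2 ((m * k : ℕ))) with hblk
  have hcut : ∀ p : (Σ q : ℕ, DirichletCharacter ℂ q),
      ∑ m ∈ Ioc M1 (2 * M1), (ArithmeticFunction.vonMangoldt m : ℂ) *
          ∑ k ∈ Icc 1 (NN M x / m), (β k : ℂ) *
            (((W (Real.log (((m * k : ℕ) : ℝ) / x)) : ℝ) : ℂ) * p.2 ((m * k : ℕ))) = blk p := by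
    intro p
    refine sum_congr rfl fun m hm => ?_
    congr 1
    rw [mem_Ioc] at hm
    have h := ty2_cut hW hx hM1 hm.1.le (fun k => (β k : ℂ) * p.2 ((m * k : ℕ)))
    refine Eq.trans (sum_congr rfl fun k hk => ?_) (h.trans (sum_congr rfl fun k hk => ?_)) <;> ring
  have hsig : ∑ q ∈ Icc 1 Q, ∑ χ ∈ pc q, ‖∑ a ∈ Icc 1 A, c a * χ a‖ *
        ‖∑ m ∈ Ioc M1 (2 * M1), (ArithmeticFunction.vonMangoldt m : ℂ) *
          ∑ k ∈ Icc 1 (NN M x / m), (β k : ℂ) *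
            (((W (Real.log (((m * k : ℕ) : ℝ) / x)) : ℝ) : ℂ) * χ ((m * k : ℕ)))‖
      = ∑ p ∈ (Icc 1 Q).sigma (fun q => pc q), ‖∑ a ∈ Icc 1 A, c a * p.2 a‖ * ‖blk p‖ := by
    rw [sum_sigma]
    refine sum_congr rfl fun q hq => sum_congr rfl fun χ hχ => ?_
    rw [← hcut ⟨q, χ⟩]
  rw [hsig]
  rcases Nat.eq_zero_or_pos X with hX0 | hX0
  · refine le_trans (le_of_eq ?_) hR
    refine sum_eq_zero fun p hp => ?_
    have : blk p = 0 := by
      rw [hblk]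
      simp [hX0]
    rw [this, norm_zero, mul_zero]
  have hMX : (M1 : ℝ) * X ≤ x * Real.exp M := by
    have h1 : M1 * X ≤ NN M x := Nat.mul_div_le _ _
    have h2 : (NN M x : ℝ) ≤ x * Real.exp M := Nat.floor_le (by positivity)
    exact le_trans (by exact_mod_cast h1) h2
  -- separated sums
  set G : (Σ q : ℕ, DirichletCharacter ℂ q) → ℝ → ℂ := fun p ξ =>
    ∑ m ∈ Ioc M1 (2 * M1), (ArithmeticFunction.vonMangoldt m : ℂ) * ee (ξ * Real.log m) * p.2 m with hG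
  set H : (Σ q : ℕ, DirichletCharacter ℂ q) → ℝ → ℂ := fun p ξ =>
    ∑ k ∈ Icc 1 X, (β k : ℂ) * ee (ξ * Real.log k) * p.2 k with hH
  have hcont : ∀ t : ℝ, Continuous fun ξ : ℝ => ee (ξ * t) := fun t =>
    ty2_ee_cont.comp (continuous_id.mul continuous_const)
  have key := ty2_unif (w := w) hwi (x := x) ((Icc 1 Q).sigma (fun q => pc q))
    (fun p => ‖∑ a ∈ Icc 1 A, c a * p.2 a‖) (fun p => norm_nonneg _) blk G H
    (fun p => by
      rw [hG]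
      exact continuous_finsetSum _ fun m _ => (continuous_const.mul (hcont _)).mul continuous_const)
    (fun p => by
      rw [hH]
      exact continuous_finsetSum _ fun m _ => (continuous_const.mul (hcont _)).mul continuous_const)
    (fun p => ∑ m ∈ Ioc M1 (2 * M1), ‖(ArithmeticFunction.vonMangoldt m : ℂ)‖ * ‖p.2 m‖)
    (fun p => ∑ k ∈ Icc 1 X, ‖(β k : ℂ)‖ * ‖p.2 k‖)
    (fun p ξ => by
      refine (norm_sum_le _ _).trans (le_of_eq (sum_congr rfl fun m _ => ?_))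
      rw [norm_mul, norm_mul, ty2_norm_ee, mul_one])
    (fun p ξ => by
      refine (norm_sum_le _ _).trans (le_of_eq (sum_congr rfl fun m _ => ?_))
      rw [norm_mul, norm_mul, ty2_norm_ee, mul_one])
    (fun p _ => ty2_block hwi hWw hx0 (Ioc M1 (2 * M1)) (Icc 1 X)
      (fun m hm => by rw [mem_Ioc] at hm; omega) (fun k hk => (mem_Icc.mp hk).1) _ _ p.2)
    (B := 26 * Real.exp M * (1 + M) ^ 3 * (1 + Real.log x + Real.log A) ^ 3 *
          Real.sqrt (A * x * ((A * M1 + (Q : ℝ) ^ 2) * (x / M1 + (Q : ℝ) ^ 2)))) ?_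
  · refine key.trans (le_of_eq ?_)
    ring
  · intro ξ
    obtain ⟨b, hb, hbχ⟩ := ty2_prod A M1 c hc (fun m => ee (ξ * Real.log m)) (fun m => (ty2_norm_ee _).le)
    have h1 : ∑ p ∈ (Icc 1 Q).sigma (fun q => pc q), ‖∑ a ∈ Icc 1 A, c a * p.2 a‖ * (‖G p ξ‖ * ‖H p ξ‖)
        = ∑ p ∈ (Icc 1 Q).sigma (fun q => pc q),
            ‖∑ l ∈ Icc 1 (2 * A * M1), b l * p.2 l‖ * ‖∑ k ∈ Icc 1 X, (β k : ℂ) * ee (ξ * Real.log k) * p.2 k‖ := by
      refine sum_congr rfl fun p hp => ?_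
      rw [← hbχ p.1 p.2, norm_mul, mul_assoc]
    rw [h1]
    refine (Real.sum_mul_le_sqrt_mul_sqrt _ _ _).trans ?_
    refine le_trans (mul_le_mul (Real.sqrt_le_sqrt ?_) (Real.sqrt_le_sqrt ?_) (Real.sqrt_nonneg _)
      (Real.sqrt_nonneg _)) (ty2_num (Q := Q) hM hx hA hM1 hX0 hMx hMX)
    · rw [sum_sigma]
      refine (LSM Q (2 * A * M1) b).trans ?_
      refine mul_le_mul_of_nonneg_left ?_ (by positivity)
      calc ∑ l ∈ Icc 1 (2 * A * M1), ‖b l‖ ^ 2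
          ≤ ∑ l ∈ Icc 1 (2 * A * M1), Real.log (2 * A * M1 : ℕ) ^ 2 :=
            sum_le_sum fun l hl => pow_le_pow_left₀ (norm_nonneg _) (hb l hl) 2
        _ = _ := by rw [sum_const, Nat.card_Icc, nsmul_eq_mul, Nat.add_sub_cancel]
    · rw [sum_sigma]
      refine (LSM Q X (fun k => (β k : ℂ) * ee (ξ * Real.log k))).trans ?_
      refine mul_le_mul_of_nonneg_left ?_ (by positivity)
      refine le_trans (sum_le_sum fun k hk => ?_) (sum_card_sq_le X hX0)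
      rw [norm_mul, ty2_norm_ee, mul_one, Complex.norm_real, Real.norm_eq_abs]
      exact pow_le_pow_left₀ (abs_nonneg _) (hβ k) 2

end H69LB
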