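import Pool.Agent.H69.LB.Co1
import Pool.Agent.H69.LB.Ty2

/-!
# CO2: the type II sum

Notation: `L = log T`, `x = T^α`, `h = T^(α-1)`, `U = ⌊T^(α-1+ε/4)⌋`, `V = ⌊T^(1/2-ε/2)⌋`, `N = NN M x`,
`A = ⌊NA⌋`, `Q' = ⌊2Q⌋`.

Dyadic blocks `m ∈ (M_j, 2 M_j]`, `M_j = 2^j U`, `j < J = ⌊log₂ N⌋ + 1`, cover `(U, N]` (for `m > N` the inner sum
over `k ∈ Icc 1 (N/m)` is empty, so nothing is added). If `M_j V ≥ N`, then `k ≤ N/m < V` or the sum is
empty and `betaV V k = 0`: the block vanishes. For the other blocks `1 ≤ U ≤ M_j`, `M_j V < N ≤ x e^M`; apply `type2`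
(`A := ⌊NA⌋`, `Q := ⌊2Q⌋`, `β := betaV V`): at most
`C (1 + log x + log A)³ (A x (A M_j + Q'²)(x/M_j + Q'²))^{1/2}`, `log A ≤ L`, `log x ≤ b L`. Now (with `A ≤ NA`)
`(A M_j + Q'²)(x/M_j + Q'²) = A x + A M_j Q'² + x Q'²/M_j + Q'⁴`, and with `c₀ Q ≤ NA h`, `Q ≤ T^(1/2-ε)`:
* `A x ≤ NA x Q L^{-30}` since `L^30 ≤ Q`;
* `A M_j Q'² ≤ NA (x e^M/V) 4 Q² ≤ C NA x Q (Q/V) ≤ C NA x Q T^{-ε/2}`;
* `x Q'²/M_j ≤ 4 x Q²/U ≤ 4 x Q (NA h/c₀)/U ≤ C NA x Q T^{-ε/4}`;
* `Q'⁴ ≤ 16 Q · Q · Q² ≤ 16 Q (NA h/c₀) T^{1-2ε} ≤ C NA x Q T^{-2ε}`.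
All four are `≤ C NA x Q L^{-30}` for `T` large. So each block is `≤ C L³ NA x Q^{1/2} L^{-15}`, and there are
at most `C L` blocks; `L^{3+1-15} ≤ L^{-8}`. Constants depend on `M, W, ε, b, c₀` only.
-/

namespace H69LB

open Finset

private theorem co2_floor_half {y : ℝ} (hy : 1 ≤ y) : y / 2 ≤ (⌊y⌋₊ : ℝ) := by
  have h1 : 1 ≤ ⌊y⌋₊ := (Nat.one_le_floor_iff y).2 hy
  have h2 : y < ⌊y⌋₊ + 1 := Nat.lt_floor_add_one y
  have h3 : (1 : ℝ) ≤ ⌊y⌋₊ := by exact_mod_cast h1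
  linarith

private theorem co2_blocks (F : ℕ → ℂ) (U J : ℕ) :
    ∑ m ∈ Ioc U (2 ^ J * U), F m = ∑ j ∈ range J, ∑ m ∈ Ioc (2 ^ j * U) (2 * (2 ^ j * U)), F m := by
  induction J with
  | zero => simp
  | succ J ih =>
    rw [sum_range_succ, ← ih, pow_succ, show 2 ^ J * 2 * U = 2 * (2 ^ J * U) by ring]
    rw [Finset.sum_Ioc_consecutive F (Nat.le_mul_of_pos_left U (by positivity)) (by omega)]

private theorem co2_cover (F : ℕ → ℂ) (U N J : ℕ) (hF : ∀ m, N < m → F m = 0) (hJ : N ≤ 2 ^ J * U) :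
    ∑ m ∈ Ioc U N, F m = ∑ m ∈ Ioc U (2 ^ J * U), F m := by
  apply sum_subset
  · exact Ioc_subset_Ioc_right hJ
  · intro m hm hm'
    apply hF
    simp only [mem_Ioc] at hm hm'
    by_contra hc
    exact hm' ⟨hm.1, not_lt.1 hc⟩

private theorem co2_alg {x h T A NA Q' Q m s E v V U t c0 : ℝ} (hx : x = h * T) (hh : 0 < h) (hT : 0 < T)
    (hA0 : 0 ≤ A) (hA : A ≤ NA) (hQ'0 : 0 ≤ Q') (hQ' : Q' ≤ 2 * Q) (hQ : 0 < Q) (hs : 0 < s) (hsQ : s ≤ Q)
    (hm : 0 < m) (hmV : m * V ≤ x * E) (hV : v / 2 ≤ V) (hv : Q * s ≤ v)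
    (hUm : U ≤ m) (hU : h * t / 2 ≤ U) (ht : s ≤ t) (hc0 : 0 < c0) (hQN : c0 * Q ≤ NA * h)
    (hQT : Q ^ 2 * s ≤ T) :
    (A * m + Q' ^ 2) * (x / m + Q' ^ 2) ≤ (1 + 8 * E + 8 / c0 + 16 / c0) * (NA * x * Q / s) := by
  have hx0 : 0 < x := by rw [hx]; positivity
  have hNA : 0 ≤ NA := hA0.trans hA
  have hQ2 : Q' ^ 2 ≤ 4 * Q ^ 2 := by nlinarith
  have e1 : A * x ≤ NA * x * Q / s := by
    rw [le_div_iff₀ hs]
    have : A * x ≤ NA * x := mul_le_mul_of_nonneg_right hA hx0.le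
    calc A * x * s ≤ NA * x * s := mul_le_mul_of_nonneg_right this hs.le
      _ ≤ NA * x * Q := mul_le_mul_of_nonneg_left hsQ (by positivity)
  have e2 : A * m * Q' ^ 2 ≤ 8 * E * (NA * x * Q / s) := by
    have h1 : m * (Q * s) ≤ 2 * (x * E) := by
      have : Q * s / 2 ≤ V := by linarith
      nlinarith
    have h2 : A * m * Q' ^ 2 ≤ NA * m * (4 * Q ^ 2) := by
      apply mul_le_mul (mul_le_mul_of_nonneg_right hA hm.le) hQ2 (by positivity) (by positivity)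
    refine h2.trans ?_
    rw [show 8 * E * (NA * x * Q / s) = (8 * E * (NA * x * Q)) / s by ring, le_div_iff₀ hs]
    calc NA * m * (4 * Q ^ 2) * s = (4 * NA * Q) * (m * (Q * s)) := by ring
      _ ≤ (4 * NA * Q) * (2 * (x * E)) := mul_le_mul_of_nonneg_left h1 (by positivity)
      _ = 8 * E * (NA * x * Q) := by ring
  have e3 : x / m * Q' ^ 2 ≤ 8 / c0 * (NA * x * Q / s) := by
    have h1 : h * s / 2 ≤ m := by
      have : h * s ≤ h * t := mul_le_mul_of_nonneg_left ht hh.le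
      linarith
    have h2 : x / m ≤ x / (h * s / 2) := div_le_div_of_nonneg_left hx0.le (by positivity) h1
    have h3 : x / m * Q' ^ 2 ≤ x / (h * s / 2) * (4 * Q ^ 2) :=
      mul_le_mul h2 hQ2 (by positivity) (by positivity)
    refine h3.trans ?_
    have h4 : x / (h * s / 2) * (4 * Q ^ 2) = (8 * x * Q / (h * s * c0)) * (c0 * Q) := by
      field_simp
      ring
    have h5 : 8 / c0 * (NA * x * Q / s) = (8 * x * Q / (h * s * c0)) * (NA * h) := by
      field_simp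
    rw [h4, h5]
    exact mul_le_mul_of_nonneg_left hQN (by positivity)
  have e4 : Q' ^ 2 * Q' ^ 2 ≤ 16 / c0 * (NA * x * Q / s) := by
    have h1 : Q' ^ 2 * Q' ^ 2 ≤ (4 * Q ^ 2) * (4 * Q ^ 2) :=
      mul_le_mul hQ2 hQ2 (by positivity) (by positivity)
    refine h1.trans ?_
    have h2 : (4 * Q ^ 2) * (4 * Q ^ 2) = (16 * Q / (c0 * s)) * ((c0 * Q) * (Q ^ 2 * s)) := by
      field_simp
      ring
    have h3 : 16 / c0 * (NA * x * Q / s) = (16 * Q / (c0 * s)) * ((NA * h) * T) := by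
      rw [hx]
      field_simp
    rw [h2, h3]
    refine mul_le_mul_of_nonneg_left ?_ (by positivity)
    exact mul_le_mul hQN hQT (by positivity) (by positivity)
  have e5 : (A * m + Q' ^ 2) * (x / m + Q' ^ 2)
      = A * x + A * m * Q' ^ 2 + x / m * Q' ^ 2 + Q' ^ 2 * Q' ^ 2 := by
    field_simp
    ring
  rw [e5]
  linarith


theorem coreII {M : ℝ} (hM : 0 < M) {W : ℝ → ℝ} (hW : WS M W) {ε b c0 : ℝ} (hε : 0 < ε) (hε' : ε ≤ 1 / 4)
    (hb : 1 ≤ b) (hc0 : 0 < c0) :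
    ∃ C T0 : ℝ, 0 ≤ C ∧ ∀ T, T0 ≤ T → ∀ α ∈ Set.Icc 1 b, ∀ Q NA : ℝ,
      Real.log T ^ 30 ≤ Q → Q ≤ T ^ (1 / 2 - ε) → c0 * Q ≤ NA * T ^ (α - 1) → NA ≤ T →
      ∀ c : ℕ → ℂ, (∀ a, ‖c a‖ ≤ 1) →
      ∑ q ∈ Icc 1 ⌊2 * Q⌋₊, ∑ χ ∈ pc q, ‖∑ a ∈ Icc 1 ⌊NA⌋₊, c a * χ a‖ *
        ‖∑ m ∈ Ioc ⌊T ^ (α - 1 + ε / 4)⌋₊ (NN M (T ^ α)), (ArithmeticFunction.vonMangoldt m : ℂ) *
          ∑ k ∈ Icc 1 (NN M (T ^ α) / m), (betaV ⌊T ^ (1 / 2 - ε / 2)⌋₊ k : ℂ) * gW W (T ^ α) χ (m * k)‖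
        ≤ C * NA * T ^ α * Real.sqrt Q / Real.log T ^ 8 := by
  obtain ⟨C2, hC2, ht2⟩ := type2 hM hW
  set K : ℝ := 1 + 8 * Real.exp M + 8 / c0 + 16 / c0 with hK
  have hKpos : 0 < K := by positivity
  have ev1 : ∀ᶠ T : ℝ in Filter.atTop, Real.log T ^ 30 ≤ T ^ (ε / 4) := by
    have h1 := (isLittleO_log_rpow_rpow_atTop (30 : ℝ) (show 0 < ε / 4 by positivity)).def (show (0 : ℝ) < 1 by norm_num)
    filter_upwards [h1, Filter.eventually_ge_atTop 1] with T hT hT1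
    have h2 : (0 : ℝ) ≤ Real.log T := Real.log_nonneg hT1
    rw [Real.norm_of_nonneg (by positivity), Real.norm_of_nonneg (by positivity), one_mul] at hT
    have h3 : Real.log T ^ (30 : ℝ) = Real.log T ^ (30 : ℕ) := by
      rw [← Real.rpow_natCast]; norm_num
    rw [← h3]; exact hT
  have ev2 : ∀ᶠ T : ℝ in Filter.atTop, 1 ≤ Real.log T :=
    Real.tendsto_log_atTop.eventually_ge_atTop 1
  obtain ⟨T0, hT0⟩ := Filter.eventually_atTop.1 (ev1.and (ev2.and (Filter.eventually_ge_atTop (1 : ℝ))))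
  refine ⟨(2 * b + 2 * M + 1) * C2 * (b + 2) ^ 3 * Real.sqrt K, T0, by positivity, ?_⟩
  intro T hT α hα Q NA hsQ hQT hQN hNAT c hc
  obtain ⟨hst, hL, hT1⟩ := hT0 T hT
  obtain ⟨hα1, hα2⟩ := hα
  have hTpos : 0 < T := by linarith
  set L := Real.log T with hLdef
  have hLpos : 0 < L := by linarith
  set x := T ^ α with hxdef
  set h := T ^ (α - 1) with hhdef
  set v := T ^ (1 / 2 - ε / 2) with hvdef
  set t := T ^ (ε / 4) with htdef
  set u := T ^ (α - 1 + ε / 4) with hudef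
  have hxh : x = h * T := by
    rw [hxdef, hhdef, Real.rpow_sub_one hTpos.ne']
    field_simp
  have hut : u = h * t := by rw [hudef, hhdef, htdef, Real.rpow_add hTpos]
  have hx1 : 1 ≤ x := Real.one_le_rpow hT1 (by linarith)
  have hh1 : 1 ≤ h := Real.one_le_rpow hT1 (by linarith)
  have hv1 : 1 ≤ v := Real.one_le_rpow hT1 (by linarith)
  have hu1 : 1 ≤ u := Real.one_le_rpow hT1 (by linarith)
  set s : ℝ := L ^ 30 with hsdef
  have hs1 : 1 ≤ s := one_le_pow₀ hL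
  have hspos : 0 < s := by linarith
  have hQpos : 0 < Q := by linarith
  have hQs : Q * s ≤ v := by
    have h1 : s ≤ T ^ (ε / 2) := hst.trans (Real.rpow_le_rpow_of_exponent_le hT1 (by linarith))
    calc Q * s ≤ T ^ (1 / 2 - ε) * T ^ (ε / 2) := mul_le_mul hQT h1 hspos.le (by positivity)
      _ = v := by rw [← Real.rpow_add hTpos]; congr 1; ring
  have hQ2s : Q ^ 2 * s ≤ T := by
    have h1 : s ≤ T ^ (2 * ε) := hst.trans (Real.rpow_le_rpow_of_exponent_le hT1 (by linarith))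
    have h2 : Q ^ 2 ≤ T ^ (1 - 2 * ε) := by
      have : Q ^ 2 ≤ (T ^ (1 / 2 - ε)) ^ 2 := pow_le_pow_left₀ hQpos.le hQT 2
      rw [← Real.rpow_natCast (T ^ (1 / 2 - ε)), ← Real.rpow_mul hTpos.le] at this
      refine this.trans (le_of_eq ?_)
      congr 1
      push_cast
      ring
    calc Q ^ 2 * s ≤ T ^ (1 - 2 * ε) * T ^ (2 * ε) := mul_le_mul h2 h1 hspos.le (by positivity)
      _ = T := by
        rw [← Real.rpow_add hTpos]
        have : 1 - 2 * ε + 2 * ε = 1 := by ring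
        rw [this, Real.rpow_one]
  have hNApos : 0 < NA := by
    by_contra hcon
    have h1 : NA * h ≤ 0 := mul_nonpos_of_nonpos_of_nonneg (not_lt.1 hcon) (by linarith)
    have h2 : 0 < c0 * Q := by positivity
    linarith
  set A := ⌊NA⌋₊ with hAdef
  set Q' := ⌊2 * Q⌋₊ with hQ'def
  set U := ⌊u⌋₊ with hUdef
  set V := ⌊v⌋₊ with hVdef
  have hAle : (A : ℝ) ≤ NA := Nat.floor_le hNApos.le
  have hQ'le : (Q' : ℝ) ≤ 2 * Q := Nat.floor_le (by positivity)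
  have hU2 : u / 2 ≤ U := co2_floor_half hu1
  have hV2 : v / 2 ≤ V := co2_floor_half hv1
  have hU1 : 1 ≤ U := (Nat.one_le_floor_iff u).2 hu1
  have hV1 : 1 ≤ V := (Nat.one_le_floor_iff v).2 hv1
  set N := NN M x with hNdef
  have hNle : (N : ℝ) ≤ x * Real.exp M := Nat.floor_le (by positivity)
  have hlogx : Real.log x ≤ b * L := by
    rw [hxdef, Real.log_rpow hTpos]
    exact mul_le_mul_of_nonneg_right hα2 hLpos.le
  have hlogx0 : 0 ≤ Real.log x := Real.log_nonneg hx1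
  have hlogA : Real.log A ≤ L := by
    rcases Nat.eq_zero_or_pos A with h0 | h0
    · rw [h0]; simp; exact hLpos.le
    · exact Real.log_le_log (by exact_mod_cast h0) (hAle.trans hNAT)
  have hlogA0 : 0 ≤ Real.log A := Real.log_natCast_nonneg A
  set J := Nat.log 2 N + 1 with hJdef
  have hJN : N ≤ 2 ^ J * U := by
    have h1 : N < 2 ^ J := Nat.lt_pow_succ_log_self (by norm_num) N
    calc N ≤ 2 ^ J := h1.le
      _ ≤ 2 ^ J * U := Nat.le_mul_of_pos_right _ hU1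
  have hJle : (J : ℝ) ≤ (2 * b + 2 * M + 1) * L := by
    have h1 : (Nat.log 2 N : ℝ) ≤ 2 * (b * L + M) := by
      rcases Nat.eq_zero_or_pos N with h0 | h0
      · rw [h0]; simp; positivity
      · have h2 : 2 ^ Nat.log 2 N ≤ N := Nat.pow_log_le_self 2 h0.ne'
        have h3 : ((2 : ℝ) ^ Nat.log 2 N) ≤ x * Real.exp M := by
          refine le_trans ?_ hNle
          exact_mod_cast h2
        have h4 := Real.log_le_log (by positivity) h3
        rw [Real.log_pow, Real.log_mul (by positivity) (by positivity), Real.log_exp] at h4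
        have h5 := Real.log_two_gt_d9
        have h6 : (0 : ℝ) ≤ Nat.log 2 N := by positivity
        have h7 : (Nat.log 2 N : ℝ) * (1 / 2) ≤ (Nat.log 2 N : ℝ) * Real.log 2 :=
          mul_le_mul_of_nonneg_left (by linarith) h6
        linarith
    have h2 : (J : ℝ) = Nat.log 2 N + 1 := by rw [hJdef]; push_cast; ring
    rw [h2]
    have h3 : M ≤ M * L := le_mul_of_one_le_right hM.le hL
    have h4 : (2 * b + 2 * M + 1) * L = 2 * (b * L) + 2 * (M * L) + L := by ring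
    rw [h4]
    linarith
  set B : ℝ := C2 * ((b + 2) * L) ^ 3 * (Real.sqrt K * NA * x * Real.sqrt Q / L ^ 15) with hBdef
  have hB0 : 0 ≤ B := by positivity
  -- one block
  have hblock : ∀ j : ℕ, ∑ q ∈ Icc 1 Q', ∑ χ ∈ pc q, ‖∑ a ∈ Icc 1 A, c a * χ a‖ *
        ‖∑ m ∈ Ioc (2 ^ j * U) (2 * (2 ^ j * U)), (ArithmeticFunction.vonMangoldt m : ℂ) *
          ∑ k ∈ Icc 1 (N / m), (betaV V k : ℂ) * gW W x χ (m * k)‖ ≤ B := by
    intro j
    have hmj : 1 ≤ 2 ^ j * U := Nat.one_le_iff_ne_zero.2 (by positivity)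
    rcases le_or_gt N (2 ^ j * U * V) with hcase | hcase
    · have hz : ∀ (q : ℕ) (χ : DirichletCharacter ℂ q),
          ∑ m ∈ Ioc (2 ^ j * U) (2 * (2 ^ j * U)), (ArithmeticFunction.vonMangoldt m : ℂ) *
            ∑ k ∈ Icc 1 (N / m), (betaV V k : ℂ) * gW W x χ (m * k) = 0 := by
        intro q χ
        apply sum_eq_zero
        intro m hm
        rw [mem_Ioc] at hm
        have : ∑ k ∈ Icc 1 (N / m), (betaV V k : ℂ) * gW W x χ (m * k) = 0 := by
          apply sum_eq_zero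
          intro k hk
          rw [mem_Icc] at hk
          have hkV : k ≤ V := by
            have h1 : N / m ≤ (m * V) / m :=
              Nat.div_le_div_right (hcase.trans (Nat.mul_le_mul_right V hm.1.le))
            rw [Nat.mul_div_cancel_left V (by omega)] at h1
            omega
          rw [betaV_eq_zero hkV]
          simp
        rw [this, mul_zero]
      have : ∑ q ∈ Icc 1 Q', ∑ χ ∈ pc q, ‖∑ a ∈ Icc 1 A, c a * χ a‖ *
        ‖∑ m ∈ Ioc (2 ^ j * U) (2 * (2 ^ j * U)), (ArithmeticFunction.vonMangoldt m : ℂ) *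
          ∑ k ∈ Icc 1 (N / m), (betaV V k : ℂ) * gW W x χ (m * k)‖ = 0 := by
        apply sum_eq_zero
        intro q _
        apply sum_eq_zero
        intro χ _
        rw [hz q χ, norm_zero, mul_zero]
      rw [this]
      exact hB0
    · have hmjV : ((2 ^ j * U : ℕ) : ℝ) * V ≤ x * Real.exp M := by
        refine le_trans ?_ hNle
        exact_mod_cast hcase.le
      have hmj' : (1 : ℝ) ≤ ((2 ^ j * U : ℕ) : ℝ) := by exact_mod_cast hmj
      have hV1' : (1 : ℝ) ≤ V := by exact_mod_cast hV1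
      have hmjle : ((2 ^ j * U : ℕ) : ℝ) ≤ x * Real.exp M :=
        le_trans (le_mul_of_one_le_right (by positivity) hV1') hmjV
      have h1 := ht2 x Q' A (2 ^ j * U) hx1 hmj hmjle c hc (betaV V) (betaV_abs_le V)
      refine le_trans h1 ?_
      have hUm : (U : ℝ) ≤ ((2 ^ j * U : ℕ) : ℝ) := by
        exact_mod_cast Nat.le_mul_of_pos_left U (by positivity)
      have h2 := co2_alg (A := (A : ℝ)) (Q' := (Q' : ℝ)) (V := (V : ℝ)) (U := (U : ℝ)) (NA := NA)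
        (m := ((2 ^ j * U : ℕ) : ℝ)) (E := Real.exp M) (v := v) (t := t) hxh (by linarith) hTpos
        (by positivity) hAle (by positivity) hQ'le hQpos hspos hsQ (by linarith) hmjV hV2 hQs hUm
        (by rw [← hut]; exact hU2) hst hc0 hQN hQ2s
      rw [hBdef]
      rw [mul_assoc C2, mul_assoc C2]
      apply mul_le_mul_of_nonneg_left _ hC2
      apply mul_le_mul
      · apply pow_le_pow_left₀ (by positivity)
        have h9 : (b + 2) * L = b * L + L + L := by ring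
        rw [h9]
        linarith
      · rw [Real.sqrt_le_iff]
        refine ⟨by positivity, ?_⟩
        have h3 : (Real.sqrt K * NA * x * Real.sqrt Q / L ^ 15) ^ 2 = NA * x * (K * (NA * x * Q / s)) := by
          rw [div_pow, mul_pow, mul_pow, mul_pow, Real.sq_sqrt hKpos.le, Real.sq_sqrt hQpos.le, hsdef]
          field_simp
        rw [h3]
        apply mul_le_mul (mul_le_mul_of_nonneg_right hAle (by linarith)) h2 (by positivity) (by positivity)
      · positivity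
      · positivity
  -- assembly
  have hsplit : ∀ (q : ℕ) (χ : DirichletCharacter ℂ q),
      ‖∑ m ∈ Ioc U N, (ArithmeticFunction.vonMangoldt m : ℂ) *
          ∑ k ∈ Icc 1 (N / m), (betaV V k : ℂ) * gW W x χ (m * k)‖
      ≤ ∑ j ∈ range J, ‖∑ m ∈ Ioc (2 ^ j * U) (2 * (2 ^ j * U)), (ArithmeticFunction.vonMangoldt m : ℂ) *
          ∑ k ∈ Icc 1 (N / m), (betaV V k : ℂ) * gW W x χ (m * k)‖ := by
    intro q χ
    rw [co2_cover _ U N J _ hJN, co2_blocks]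
    · exact norm_sum_le _ _
    · intro m hm
      have : N / m = 0 := Nat.div_eq_of_lt hm
      rw [this]
      simp
  calc ∑ q ∈ Icc 1 Q', ∑ χ ∈ pc q, ‖∑ a ∈ Icc 1 A, c a * χ a‖ *
        ‖∑ m ∈ Ioc U N, (ArithmeticFunction.vonMangoldt m : ℂ) *
          ∑ k ∈ Icc 1 (N / m), (betaV V k : ℂ) * gW W x χ (m * k)‖
      ≤ ∑ q ∈ Icc 1 Q', ∑ χ ∈ pc q, ∑ j ∈ range J, ‖∑ a ∈ Icc 1 A, c a * χ a‖ *
        ‖∑ m ∈ Ioc (2 ^ j * U) (2 * (2 ^ j * U)), (ArithmeticFunction.vonMangoldt m : ℂ) *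
          ∑ k ∈ Icc 1 (N / m), (betaV V k : ℂ) * gW W x χ (m * k)‖ := by
        refine sum_le_sum fun q _ => sum_le_sum fun χ _ => ?_
        rw [← mul_sum]
        exact mul_le_mul_of_nonneg_left (hsplit q χ) (norm_nonneg _)
    _ = ∑ j ∈ range J, ∑ q ∈ Icc 1 Q', ∑ χ ∈ pc q, ‖∑ a ∈ Icc 1 A, c a * χ a‖ *
        ‖∑ m ∈ Ioc (2 ^ j * U) (2 * (2 ^ j * U)), (ArithmeticFunction.vonMangoldt m : ℂ) *
          ∑ k ∈ Icc 1 (N / m), (betaV V k : ℂ) * gW W x χ (m * k)‖ := by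
        rw [sum_comm]
        refine sum_congr rfl fun q _ => ?_
        rw [sum_comm]
    _ ≤ ∑ j ∈ range J, B := sum_le_sum fun j _ => hblock j
    _ = J * B := by rw [sum_const, card_range, nsmul_eq_mul]
    _ ≤ ((2 * b + 2 * M + 1) * L) * B := mul_le_mul_of_nonneg_right hJle hB0
    _ ≤ (2 * b + 2 * M + 1) * C2 * (b + 2) ^ 3 * Real.sqrt K * NA * x * Real.sqrt Q / L ^ 8 := by
        have h1 : ((2 * b + 2 * M + 1) * L) * B
            = (2 * b + 2 * M + 1) * C2 * (b + 2) ^ 3 * Real.sqrt K * NA * x * Real.sqrt Q / L ^ 11 := by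
          rw [hBdef]
          field_simp
        rw [h1]
        apply div_le_div_of_nonneg_left (by positivity) (by positivity)
        exact pow_le_pow_right₀ hL (by norm_num)

end H69LB
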