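import Pool.Agent.H69.LB.Defs

/-!
# DOF: rapid decay of oscillatory integrals

Substitute `v = e^η`: `∫ W(η) e(t e^η) dη = ∫_0^∞ φ(v) e(t v) dv`, `φ(v) = W(log v)/v` for `v > 0` and `0` for `v ≤ 0`, a `C^∞`
function with compact support in `[e^{-M}, e^M]`. Its Fourier transform is a Schwartz function, so it is
`O(|t|^{-K})` (`SchwartzMap.decay`, `SchwartzMap.fourierTransformCLM`); or integrate by parts `K` times directly in
`η`: `∫ W e(t e^η) = -(2πi t)^{-1} ∫ (W e^{-η})' e(t e^η)`, and `(W e^{-η})'` satisfies `WS M` again (induction on `K`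
over all `W`).
-/

namespace H69LB

open MeasureTheory

private theorem dof_ws {M : ℝ} {W : ℝ → ℝ} (hW : WS M W) :
    WS M (deriv fun η => W η * Real.exp (-η)) := by
  have hf : ContDiff ℝ (⊤ : ℕ∞) fun η => W η * Real.exp (-η) :=
    hW.smooth.mul (Real.contDiff_exp.comp contDiff_neg)
  refine ⟨(contDiff_infty_iff_deriv.mp hf).2, fun η hη => ?_⟩
  have hd : HasDerivAt (fun η => W η * Real.exp (-η)) (deriv (fun η => W η * Real.exp (-η)) η) η :=
    ((hf.differentiable (by simp)) η).hasDerivAt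
  rcases le_total 0 η with h | h
  · have h1 : HasDerivWithinAt (fun η => W η * Real.exp (-η)) 0 (Set.Ici η) η := by
      refine (hasDerivWithinAt_const η (Set.Ici η) (0 : ℝ)).congr (fun y hy => ?_) ?_
      · have hy' : M ≤ |y| := by
          rw [abs_of_nonneg h] at hη
          rw [abs_of_nonneg (h.trans hy)]
          exact hη.trans hy
        rw [hW.zero y hy', zero_mul]
      · rw [hW.zero η hη, zero_mul]
    exact (uniqueDiffWithinAt_Ici η).eq_deriv _ hd.hasDerivWithinAt h1
  · have h1 : HasDerivWithinAt (fun η => W η * Real.exp (-η)) 0 (Set.Iic η) η := by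
      refine (hasDerivWithinAt_const η (Set.Iic η) (0 : ℝ)).congr (fun y hy => ?_) ?_
      · have hy0 : y ≤ η := hy
        have hy' : M ≤ |y| := by
          rw [abs_of_nonpos h] at hη
          rw [abs_of_nonpos (hy0.trans h)]
          linarith
        rw [hW.zero y hy', zero_mul]
      · rw [hW.zero η hη, zero_mul]
    exact (uniqueDiffWithinAt_Iic η).eq_deriv _ hd.hasDerivWithinAt h1

private theorem dof_int {M : ℝ} {W : ℝ → ℝ} (hW : WS M W) {g : ℝ → ℂ} (hg : Continuous g) :
    Integrable fun η => ((W η : ℝ) : ℂ) * g η := by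
  have hc : Continuous fun η => ((W η : ℝ) : ℂ) * g η :=
    (Complex.continuous_ofReal.comp hW.smooth.continuous).mul hg
  refine hc.integrable_of_hasCompactSupport ?_
  refine HasCompactSupport.intro (isCompact_Icc (a := -M) (b := M)) fun x hx => ?_
  have h : M ≤ |x| := by
    by_contra h
    push Not at h
    exact hx ⟨(abs_lt.mp h).1.le, (abs_lt.mp h).2.le⟩
  rw [hW.zero x h, Complex.ofReal_zero, zero_mul]

private theorem dof_ee (t : ℝ) : ‖ee t‖ = 1 := by
  unfold ee
  have h : (2 * (Real.pi : ℂ) * t * Complex.I) = ((2 * Real.pi * t : ℝ) : ℂ) * Complex.I := by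
    push_cast
    ring
  rw [h]
  exact Complex.norm_exp_ofReal_mul_I _

private theorem dof_deriv (t η : ℝ) : HasDerivAt (fun η : ℝ => ee (t * Real.exp η))
    (ee (t * Real.exp η) * (2 * Real.pi * t * Real.exp η * Complex.I)) η := by
  unfold ee
  have h1 : HasDerivAt (fun η : ℝ => ((t * Real.exp η : ℝ) : ℂ)) ((t * Real.exp η : ℝ) : ℂ) η :=
    ((Real.hasDerivAt_exp η).const_mul t).ofReal_comp
  have h2 := ((h1.const_mul (2 * (Real.pi : ℂ))).mul_const Complex.I).cexp
  refine h2.congr_deriv ?_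
  push_cast
  ring

theorem dof {M : ℝ} {W : ℝ → ℝ} (hW : WS M W) (K : ℕ) :
    ∃ C : ℝ, 0 ≤ C ∧ ∀ t : ℝ, t ≠ 0 → ‖∫ η, ((W η : ℝ) : ℂ) * ee (t * Real.exp η)‖ ≤ C / |t| ^ K := by
  induction K generalizing W with
  | zero =>
    refine ⟨∫ η, ‖((W η : ℝ) : ℂ)‖, integral_nonneg fun _ => norm_nonneg _, fun t _ => ?_⟩
    rw [pow_zero, div_one]
    refine (norm_integral_le_integral_norm _).trans (le_of_eq ?_)
    congr 1
    funext η
    rw [norm_mul, dof_ee, mul_one]
  | succ K ih =>
    obtain ⟨C, hC, h⟩ := ih (dof_ws hW)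
    refine ⟨C, hC, fun t ht => ?_⟩
    set f : ℝ → ℝ := fun η => W η * Real.exp (-η) with hf
    have hfs : ContDiff ℝ (⊤ : ℕ∞) f := hW.smooth.mul (Real.contDiff_exp.comp contDiff_neg)
    have hcE : Continuous fun η : ℝ => ee (t * Real.exp η) :=
      continuous_iff_continuousAt.mpr fun η => (dof_deriv t η).continuousAt
    have hu : ∀ η, HasDerivAt (fun η => ((f η : ℝ) : ℂ)) ((deriv f η : ℝ) : ℂ) η := fun η =>
      (((hfs.differentiable (by simp)) η).hasDerivAt).ofReal_comp
    have hfW : WS M f := ⟨hfs, fun η hη => by rw [hf]; simp only; rw [hW.zero η hη, zero_mul]⟩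
    have hcE' : Continuous fun η : ℝ =>
        ee (t * Real.exp η) * (2 * Real.pi * t * Real.exp η * Complex.I) :=
      hcE.mul (by fun_prop)
    have hib := integral_mul_deriv_eq_deriv_mul_of_integrable (fun η _ => hu η)
      (fun η _ => dof_deriv t η) (dof_int hfW hcE') (dof_int (dof_ws hW) hcE) (dof_int hfW hcE)
    have h2 : ∫ η, ((f η : ℝ) : ℂ) * (ee (t * Real.exp η) * (2 * Real.pi * t * Real.exp η * Complex.I)) =
        (2 * Real.pi * t * Complex.I) * ∫ η, ((W η : ℝ) : ℂ) * ee (t * Real.exp η) := by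
      rw [← integral_const_mul]
      congr 1
      funext η
      have h3 : ((f η : ℝ) : ℂ) * ((Real.exp η : ℝ) : ℂ) = ((W η : ℝ) : ℂ) := by
        rw [← Complex.ofReal_mul, hf]
        simp only
        rw [mul_assoc, ← Real.exp_add, neg_add_cancel, Real.exp_zero, mul_one]
      rw [← h3]
      ring
    rw [h2] at hib
    have hn := congrArg norm hib
    rw [norm_neg, norm_mul] at hn
    have h4 : ‖(2 * (Real.pi : ℂ) * t * Complex.I)‖ = 2 * Real.pi * |t| := by
      rw [norm_mul, norm_mul, norm_mul, Complex.norm_I, mul_one, Complex.norm_real, Complex.norm_real,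
        Real.norm_eq_abs, Real.norm_eq_abs, abs_of_pos Real.pi_pos]
      simp
    rw [h4] at hn
    have h5 := h t ht
    have ht' : 0 < |t| := abs_pos.mpr ht
    rw [← hn] at h5
    have h6 : |t| * ‖∫ η, ((W η : ℝ) : ℂ) * ee (t * Real.exp η)‖ ≤ C / |t| ^ K := by
      refine le_trans ?_ h5
      gcongr
      nlinarith [Real.pi_gt_three]
    rw [pow_succ, ← div_div, le_div_iff₀ ht', mul_comm]
    exact h6

end H69LB
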