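import Pool.Agent.H69.LB.Zdf

/-!
# EXA: the kernel of the explicit formula

`F̃(ξ) = F(ξ) e^ξ` is `C^∞` with compact support; put `q(v) = π⁻¹ ∫ F̃(ξ) e^{iξv} dξ`: up to scaling the Fourier
transform of a Schwartz function, so it is continuous and `O((1+|v|)^{-3})` (`SchwartzMap.decay`), and Fourier
inversion gives `∫ q(v) e^{-isv} dv = 2 F̃(s)` for all real `s`. Hence
* `∫ q(v) cos(s v) dv = F̃(s) + F̃(-s)`, `∫ q = 2 F(0)`;
* with `pk b u = (1/2) ∫ e^{-b|s|} e^{isu} ds` (`b > 0`; `integral_exp_mul_complex_Ioi`) and Fubini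
  `∫ q(v) pk b (v - g) dv = (1/2) ∫ e^{-b|s|} e^{-isg} (∫ q(v) e^{isv} dv) ds = ∫ e^{-b|s|} e^{-isg} F̃(-s) ds
   = ∫ e^{-b|ξ|} e^{iξg} F̃(ξ) dξ`, and `|ξ| = ξ` on the support of `F` (`F ξ = 0` for `ξ ≤ 1`).
(An alternative for the last point: for `ξ > 0`, `∫ pk b (v-g) e^{iξv} dv = π e^{-bξ} e^{iξg}` and Fubini.)
-/

open MeasureTheory
open scoped ContDiff

namespace H69LB

private theorem EXA_integrableOn_Iic {a : ℂ} (ha : 0 < a.re) :
    IntegrableOn (fun s : ℝ => Complex.exp (a * s)) (Set.Iic 0) :=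
  integrableOn_exp_mul_complex_Iic ha 0

private theorem EXA_integrable_abs {b : ℝ} (hb : 0 < b) (u : ℝ) :
    Integrable (fun s : ℝ => ((Real.exp (-b * |s|) : ℝ) : ℂ) *
      Complex.exp (Complex.I * ((s * u : ℝ) : ℂ))) := by
  rw [← integrableOn_univ, ← Set.Iic_union_Ioi (a := (0 : ℝ))]
  refine IntegrableOn.union ?_ ?_
  · refine (integrableOn_exp_mul_complex_Iic (a := (b : ℂ) + Complex.I * u) (by simpa using hb) 0).congr_fun
      (fun s hs => ?_) measurableSet_Iic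
    have hs' : |s| = -s := abs_of_nonpos hs
    simp only [hs', Complex.ofReal_exp]
    rw [← Complex.exp_add]
    congr 1
    push_cast
    ring
  · refine (integrableOn_exp_mul_complex_Ioi (a := -(b : ℂ) + Complex.I * u) (by simpa using hb) 0).congr_fun
      (fun s hs => ?_) measurableSet_Ioi
    have hs' : |s| = s := abs_of_pos hs
    simp only [hs', Complex.ofReal_exp]
    rw [← Complex.exp_add]
    congr 1
    push_cast
    ring

/-- the Poisson kernel is a Fourier transform -/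
private theorem EXA_pk {b : ℝ} (hb : 0 < b) (u : ℝ) :
    ((pk b u : ℝ) : ℂ) = 1 / 2 * ∫ s : ℝ, ((Real.exp (-b * |s|) : ℝ) : ℂ) *
      Complex.exp (Complex.I * ((s * u : ℝ) : ℂ)) := by
  have hint := EXA_integrable_abs hb u
  rw [← integral_add_compl (measurableSet_Iic (a := (0 : ℝ))) hint, Set.compl_Iic]
  have h1 : ∫ s in Set.Iic (0 : ℝ), ((Real.exp (-b * |s|) : ℝ) : ℂ) *
      Complex.exp (Complex.I * ((s * u : ℝ) : ℂ)) = 1 / ((b : ℂ) + Complex.I * u) := by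
    rw [setIntegral_congr_fun (g := fun s : ℝ => Complex.exp (((b : ℂ) + Complex.I * u) * s))
      measurableSet_Iic (fun s hs => ?_)]
    · rw [integral_exp_mul_complex_Iic (a := (b : ℂ) + Complex.I * u) (by simpa using hb) 0]
      simp
    · have hs' : |s| = -s := abs_of_nonpos hs
      simp only [hs', Complex.ofReal_exp]
      rw [← Complex.exp_add]
      congr 1
      push_cast
      ring
  have h2 : ∫ s in Set.Ioi (0 : ℝ), ((Real.exp (-b * |s|) : ℝ) : ℂ) *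
      Complex.exp (Complex.I * ((s * u : ℝ) : ℂ)) = 1 / ((b : ℂ) - Complex.I * u) := by
    rw [setIntegral_congr_fun (g := fun s : ℝ => Complex.exp ((-(b : ℂ) + Complex.I * u) * s))
      measurableSet_Ioi (fun s hs => ?_)]
    · rw [integral_exp_mul_complex_Ioi (a := -(b : ℂ) + Complex.I * u) (by simpa using hb) 0]
      simp only [Complex.ofReal_zero, mul_zero, Complex.exp_zero]
      rw [show -(b : ℂ) + Complex.I * u = -((b : ℂ) - Complex.I * u) by ring, div_neg, neg_div,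
        neg_neg]
    · have hs' : |s| = s := abs_of_pos hs
      simp only [hs', Complex.ofReal_exp]
      rw [← Complex.exp_add]
      congr 1
      push_cast
      ring
  rw [h1, h2]
  have n1 : (b : ℂ) + Complex.I * u ≠ 0 := by
    intro h
    have := congrArg Complex.re h
    simp at this
    exact hb.ne' this
  have n2 : (b : ℂ) - Complex.I * u ≠ 0 := by
    intro h
    have := congrArg Complex.re h
    simp at this
    exact hb.ne' this
  have n3 : ((b : ℂ) ^ 2 + (u : ℂ) ^ 2) ≠ 0 := by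
    have : (0 : ℝ) < b ^ 2 + u ^ 2 := by positivity
    exact_mod_cast this.ne'
  unfold pk
  push_cast
  rw [div_add_div _ _ n1 n2, mul_div_assoc', eq_div_iff (mul_ne_zero n1 n2), div_mul_eq_mul_div,
    div_eq_iff n3]
  ring_nf
  rw [Complex.I_sq]
  ring

open scoped FourierTransform SchwartzMap in
/-- the kernel -/
private noncomputable def EXA_q (f : 𝓢(ℝ, ℂ)) (v : ℝ) : ℂ :=
  (Real.pi : ℂ)⁻¹ * (𝓕 f) (-(v / (2 * Real.pi)))

open scoped FourierTransform SchwartzMap in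
private theorem EXA_decay (f : 𝓢(ℝ, ℂ)) :
    ∃ C : ℝ, 0 ≤ C ∧ ∀ v, ‖EXA_q f v‖ ≤ C * (1 + |v|) ^ (-3 : ℝ) := by
  obtain ⟨C, hC0, hC⟩ : ∃ C : ℝ, 0 ≤ C ∧ ∀ w : ℝ, (1 + |w|) ^ 3 * ‖(𝓕 f) w‖ ≤ C := by
    have h := SchwartzMap.one_add_le_sup_seminorm_apply (𝕜 := ℝ) (m := (3, 0)) (k := 3) (n := 0)
      le_rfl le_rfl (𝓕 f)
    refine ⟨2 ^ 3 * ((Finset.Iic (3, 0)).sup fun m => SchwartzMap.seminorm ℝ m.1 m.2) (𝓕 f), ?_,
      fun w => ?_⟩
    · exact mul_nonneg (by positivity) (apply_nonneg _ _)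
    · have := h w
      rwa [norm_iteratedFDeriv_zero, Real.norm_eq_abs] at this
  have hpi := Real.pi_pos
  have hpi1 : 1 ≤ 2 * Real.pi := by linarith [Real.pi_gt_three]
  refine ⟨Real.pi⁻¹ * ((2 * Real.pi) ^ 3 * C), by positivity, fun v => ?_⟩
  have h1 := hC (-(v / (2 * Real.pi)))
  rw [abs_neg, abs_div, abs_of_pos (by positivity : 0 < 2 * Real.pi)] at h1
  have h2 : 1 + |v| ≤ 2 * Real.pi * (1 + |v| / (2 * Real.pi)) := by
    have : 2 * Real.pi * (1 + |v| / (2 * Real.pi)) = 2 * Real.pi + |v| := by field_simp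
    rw [this]
    linarith
  have h3 : (0 : ℝ) < 1 + |v| := by positivity
  have h4 : (1 + |v|) ^ 3 * ‖(𝓕 f) (-(v / (2 * Real.pi)))‖ ≤ (2 * Real.pi) ^ 3 * C := by
    calc (1 + |v|) ^ 3 * ‖(𝓕 f) (-(v / (2 * Real.pi)))‖
        ≤ (2 * Real.pi * (1 + |v| / (2 * Real.pi))) ^ 3 * ‖(𝓕 f) (-(v / (2 * Real.pi)))‖ := by
          gcongr
      _ = (2 * Real.pi) ^ 3 * ((1 + |v| / (2 * Real.pi)) ^ 3 *
            ‖(𝓕 f) (-(v / (2 * Real.pi)))‖) := by ring
      _ ≤ _ := by gcongr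
  have h5 : (1 + |v|) ^ (-3 : ℝ) = ((1 + |v|) ^ 3)⁻¹ := by
    rw [Real.rpow_neg h3.le]
    norm_num
  rw [h5, ← div_eq_mul_inv, le_div_iff₀ (by positivity)]
  unfold EXA_q
  rw [norm_mul, norm_inv, Complex.norm_real, Real.norm_eq_abs, abs_of_pos hpi]
  calc Real.pi⁻¹ * ‖(𝓕 f) (-(v / (2 * Real.pi)))‖ * (1 + |v|) ^ 3
      = Real.pi⁻¹ * ((1 + |v|) ^ 3 * ‖(𝓕 f) (-(v / (2 * Real.pi)))‖) := by ring
    _ ≤ _ := by gcongr

open scoped FourierTransform SchwartzMap in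
private theorem EXA_integrable (f : 𝓢(ℝ, ℂ)) : Integrable (EXA_q f) := by
  unfold EXA_q
  have h := (𝓕 f).integrable (μ := volume)
  have h2 : Integrable (fun v : ℝ => (𝓕 f) ((-(2 * Real.pi)⁻¹) * v)) :=
    h.comp_mul_left' (by
      have := Real.pi_pos
      exact neg_ne_zero.2 (inv_ne_zero (by positivity)))
  refine (h2.const_mul (Real.pi : ℂ)⁻¹).congr (Filter.Eventually.of_forall fun v => ?_)
  show (Real.pi : ℂ)⁻¹ * (𝓕 f) ((-(2 * Real.pi)⁻¹) * v) = (Real.pi : ℂ)⁻¹ * (𝓕 f) (-(v / (2 * Real.pi)))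
  congr 2
  rw [div_eq_inv_mul, neg_mul]

open scoped FourierTransform SchwartzMap in
private theorem EXA_inv (f : 𝓢(ℝ, ℂ)) (s : ℝ) :
    ∫ v : ℝ, EXA_q f v * Complex.exp (Complex.I * ((s * v : ℝ) : ℂ)) = 2 * f (-s) := by
  have hpi := Real.pi_pos
  have h1 : (𝓕⁻ (𝓕 f)) (-s) = f (-s) := by rw [FourierTransform.fourierInv_fourier_eq f]
  rw [SchwartzMap.fourierInv_coe, Real.fourierInv_eq'] at h1
  have h2 := Measure.integral_comp_mul_left
    (fun v : ℝ => EXA_q f v * Complex.exp (Complex.I * ((s * v : ℝ) : ℂ))) (-(2 * Real.pi))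
  have h3 : (fun w : ℝ => EXA_q f (-(2 * Real.pi) * w) *
      Complex.exp (Complex.I * ((s * (-(2 * Real.pi) * w) : ℝ) : ℂ)))
      = fun w : ℝ => (Real.pi : ℂ)⁻¹ *
        (Complex.exp ((↑(2 * Real.pi * inner ℝ w (-s)) * Complex.I)) • (𝓕 f) w) := by
    funext w
    unfold EXA_q
    rw [show -(-(2 * Real.pi) * w / (2 * Real.pi)) = w by field_simp, smul_eq_mul, mul_assoc]
    congr 1
    rw [mul_comm]
    congr 2
    simp
    ring
  rw [h3, integral_const_mul, h1, abs_inv, abs_neg, abs_of_pos (by positivity : 0 < 2 * Real.pi)] at h2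
  rw [eq_comm, inv_smul_eq_iff₀ (by positivity)] at h2
  rw [h2, Complex.real_smul]
  push_cast
  have : (Real.pi : ℂ) ≠ 0 := by exact_mod_cast hpi.ne'
  field_simp

private theorem EXA_pois (f : SchwartzMap ℝ ℂ) {b : ℝ} (hb : 0 < b) (g : ℝ) :
    ∫ v, EXA_q f v * ((pk b (v - g) : ℝ) : ℂ)
      = ∫ ξ, ((Real.exp (-b * |ξ|) : ℝ) : ℂ) * Complex.exp (Complex.I * ((ξ * g : ℝ) : ℂ)) * f ξ := by
  have hk := EXA_integrable_abs hb 0
  have hI : Integrable (fun p : ℝ × ℝ => (EXA_q f p.1 * (((Real.exp (-b * |p.2|) : ℝ) : ℂ) *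
      Complex.exp (Complex.I * ((p.2 * 0 : ℝ) : ℂ)))) *
        Complex.exp (Complex.I * ((p.2 * (p.1 - g) : ℝ) : ℂ))) (volume.prod volume) := by
    refine ((EXA_integrable f).mul_prod hk).mul_bdd (c := 1) ?_ ?_
    · exact (by fun_prop : Continuous fun p : ℝ × ℝ =>
        Complex.exp (Complex.I * ((p.2 * (p.1 - g) : ℝ) : ℂ))).aestronglyMeasurable
    · refine Filter.Eventually.of_forall fun p => ?_
      rw [mul_comm Complex.I, Complex.norm_exp_ofReal_mul_I]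
  have e1 : ∀ v : ℝ, EXA_q f v * ((pk b (v - g) : ℝ) : ℂ)
      = 1 / 2 * ∫ s : ℝ, (EXA_q f v * (((Real.exp (-b * |s|) : ℝ) : ℂ) *
      Complex.exp (Complex.I * ((s * 0 : ℝ) : ℂ)))) *
        Complex.exp (Complex.I * ((s * (v - g) : ℝ) : ℂ)) := by
    intro v
    rw [EXA_pk hb, ← mul_assoc, mul_comm (EXA_q f v) (1 / 2), mul_assoc, ← integral_const_mul]
    congr 1
    refine integral_congr_ae (Filter.Eventually.of_forall fun s => ?_)
    simp only [mul_zero, Complex.ofReal_zero, Complex.exp_zero, mul_one]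
    ring
  have e2 : ∀ s : ℝ, ∫ v : ℝ, (EXA_q f v * (((Real.exp (-b * |s|) : ℝ) : ℂ) *
      Complex.exp (Complex.I * ((s * 0 : ℝ) : ℂ)))) *
        Complex.exp (Complex.I * ((s * (v - g) : ℝ) : ℂ))
      = ((Real.exp (-b * |s|) : ℝ) : ℂ) * Complex.exp (Complex.I * ((-s * g : ℝ) : ℂ)) *
        (2 * f (-s)) := by
    intro s
    rw [← EXA_inv f s, ← integral_const_mul]
    refine integral_congr_ae (Filter.Eventually.of_forall fun v => ?_)
    simp only [mul_zero, Complex.ofReal_zero, Complex.exp_zero, mul_one]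
    have : Complex.exp (Complex.I * ((s * (v - g) : ℝ) : ℂ))
        = Complex.exp (Complex.I * ((-s * g : ℝ) : ℂ)) * Complex.exp (Complex.I * ((s * v : ℝ) : ℂ)) := by
      rw [← Complex.exp_add]
      congr 1
      push_cast
      ring
    rw [this]
    ring
  calc ∫ v, EXA_q f v * ((pk b (v - g) : ℝ) : ℂ)
      = 1 / 2 * ∫ v : ℝ, ∫ s : ℝ, (EXA_q f v * (((Real.exp (-b * |s|) : ℝ) : ℂ) *
      Complex.exp (Complex.I * ((s * 0 : ℝ) : ℂ)))) *
        Complex.exp (Complex.I * ((s * (v - g) : ℝ) : ℂ)) := by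
        simp_rw [e1]
        rw [integral_const_mul]
    _ = 1 / 2 * ∫ s : ℝ, ∫ v : ℝ, (EXA_q f v * (((Real.exp (-b * |s|) : ℝ) : ℂ) *
      Complex.exp (Complex.I * ((s * 0 : ℝ) : ℂ)))) *
        Complex.exp (Complex.I * ((s * (v - g) : ℝ) : ℂ)) := by
        rw [integral_integral_swap hI]
    _ = ∫ s : ℝ, ((Real.exp (-b * |(-s)|) : ℝ) : ℂ) *
          Complex.exp (Complex.I * ((-s * g : ℝ) : ℂ)) * f (-s) := by
        simp_rw [e2]
        rw [← integral_const_mul]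
        refine integral_congr_ae (Filter.Eventually.of_forall fun s => ?_)
        simp only [abs_neg]
        ring
    _ = _ := integral_neg_eq_self (fun ξ : ℝ => ((Real.exp (-b * |ξ|) : ℝ) : ℂ) *
        Complex.exp (Complex.I * ((ξ * g : ℝ) : ℂ)) * f ξ) volume

theorem exists_q {F : ℝ → ℂ} (hF : ContDiff ℝ ∞ F) (hFc : HasCompactSupport F) (h0 : ∀ ξ ≤ 1, F ξ = 0) :
    ∃ q : ℝ → ℂ, Continuous q ∧ (∃ C : ℝ, 0 ≤ C ∧ ∀ v, ‖q v‖ ≤ C * (1 + |v|) ^ (-3 : ℝ)) ∧
      (∀ b : ℝ, 0 < b → ∀ g : ℝ, ∫ v, q v * ((pk b (v - g) : ℝ) : ℂ)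
        = ∫ ξ, F ξ * ((Real.exp ((1 - b) * ξ) : ℝ) : ℂ) * Complex.exp (Complex.I * ((ξ * g : ℝ) : ℂ))) ∧
      (∀ s : ℝ, ∫ v, q v * ((Real.cos (v * s) : ℝ) : ℂ)
        = F s * ((Real.exp s : ℝ) : ℂ) + F (-s) * ((Real.exp (-s) : ℝ) : ℂ)) := by
  have hG : ContDiff ℝ ∞ (fun ξ : ℝ => F ξ * ((Real.exp ξ : ℝ) : ℂ)) :=
    hF.mul (Complex.ofRealCLM.contDiff.comp Real.contDiff_exp)
  have hGc : HasCompactSupport (fun ξ : ℝ => F ξ * ((Real.exp ξ : ℝ) : ℂ)) := hFc.mul_right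
  set f : SchwartzMap ℝ ℂ := hGc.toSchwartzMap hG with hf
  have hfv : ∀ ξ, f ξ = F ξ * ((Real.exp ξ : ℝ) : ℂ) := fun ξ => rfl
  refine ⟨EXA_q f, ?_, EXA_decay f, ?_, ?_⟩
  · unfold EXA_q
    exact continuous_const.mul ((SchwartzMap.continuous _).comp (by fun_prop))
  · intro b hb g
    rw [EXA_pois f hb g]
    refine integral_congr_ae (Filter.Eventually.of_forall fun ξ => ?_)
    simp only [hfv]
    by_cases hξ : ξ ≤ 1
    · simp [h0 ξ hξ]
    · have hξ0 : 0 < ξ := by linarith [not_le.1 hξ]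
      rw [abs_of_pos hξ0, show (1 - b) * ξ = -b * ξ + ξ by ring, Real.exp_add]
      push_cast
      ring
  · intro s
    have h1 := EXA_inv f s
    have h2 := EXA_inv f (-s)
    rw [neg_neg] at h2
    have i1 : Integrable (fun v : ℝ => EXA_q f v * Complex.exp (Complex.I * ((s * v : ℝ) : ℂ))) := by
      refine (EXA_integrable f).mul_bdd (c := 1) ?_ ?_
      · exact (by fun_prop : Continuous fun v : ℝ =>
          Complex.exp (Complex.I * ((s * v : ℝ) : ℂ))).aestronglyMeasurable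
      · refine Filter.Eventually.of_forall fun p => ?_
        rw [mul_comm Complex.I, Complex.norm_exp_ofReal_mul_I]
    have i2 : Integrable (fun v : ℝ => EXA_q f v * Complex.exp (Complex.I * ((-s * v : ℝ) : ℂ))) := by
      refine (EXA_integrable f).mul_bdd (c := 1) ?_ ?_
      · exact (by fun_prop : Continuous fun v : ℝ =>
          Complex.exp (Complex.I * ((-s * v : ℝ) : ℂ))).aestronglyMeasurable
      · refine Filter.Eventually.of_forall fun p => ?_
        rw [mul_comm Complex.I, Complex.norm_exp_ofReal_mul_I]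
    have h3 : (fun v : ℝ => EXA_q f v * ((Real.cos (v * s) : ℝ) : ℂ))
        = fun v : ℝ => 1 / 2 * (EXA_q f v * Complex.exp (Complex.I * ((s * v : ℝ) : ℂ)) +
          EXA_q f v * Complex.exp (Complex.I * ((-s * v : ℝ) : ℂ))) := by
      funext v
      rw [Complex.ofReal_cos, Complex.cos]
      rw [show ((v * s : ℝ) : ℂ) * Complex.I = Complex.I * ((s * v : ℝ) : ℂ) by push_cast; ring,
        show -((v * s : ℝ) : ℂ) * Complex.I = Complex.I * ((-s * v : ℝ) : ℂ) by push_cast; ring]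
      ring
    rw [h3, integral_const_mul, integral_add i1 i2, h1, h2, hfv, hfv]
    ring

end H69LB
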