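import Pool.Agent.H69.LB.Exa

/-!
# EXB: the explicit formula

`q` from `exists_q`. `S t = ∑' w_i pk 1 (t - γ_i) = A t - D t`, `D t = ∑' Λ(n) n^{-3/2} cos(t log n)`;
`0 ≤ S t ≤ C (1+|t|)^{1/4}` (`boundW`, `pk 1 u = 1/(1+u²)`); `∑ Λ(n) n^{-3/2}` converges
(`ArithmeticFunction.LSeriesSummable_vonMangoldt`).
1. `PsiF F g = ∫ q(v) pk 1 (v - g) dv` (`b = 1`). So `∑ w_i PsiF F (γ_i) = ∑ w_i ∫ q(v) pk 1 (v - γ_i) dv = ∫ q S`
   (`hasSum_integral_of_summable_integral_norm` or `integral_tsum`; absolute convergence since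
   `∫ ‖q‖ S ≤ ∫ C (1+|v|)^{-3} (1+|v|)^{1/4} < ∞`); also `∑ w_i ‖PsiF F (γ_i)‖ ≤ ∫ ‖q‖ S`: the summability.
2. `∫ q D = ∑ Λ(n) n^{-3/2} ∫ q(v) cos(v log n) = ∑ Λ(n) n^{-3/2} F(log n) n = ∑ Λ(n) n^{-1/2} F(log n)` (`F(-log n) = 0`; `n ≥ 1`;
   for `n = 0` both are `0`).
3. `∫ q A`: by `arch` and monotone partial sums (`pk b 0 ≥ pk b v`), `A = k0 + pk (1/2) + lim_n R_n`,
   `R_n = ∑_{j<n} (pk (bj j) 0 - pk (bj j))`, `0 ≤ R_n ≤ A - k0 - pk (1/2)`; dominated convergence: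
   `∫ q A = k0 ∫ q + ∫ q pk (1/2) + lim ∫ q R_n`. `∫ q = 0` (`s = 0`, `F 0 = 0`), so `∫ q R_n = -∑_{j<n} ∫ q pk (bj j)
   = -∑_{j<n} ∫ F(ξ) e^{(1 - bj j) ξ} dξ`, of absolute value at most `∫ ‖F‖ ∑_j e^{-(2j + 5/2) ξ} ≤ C ∫ ‖F‖ e^{-ξ/2}` (`ξ ≥ 1` on the
   support, `∑_j e^{-2j} ≤ 2`), and `∫ q pk (1/2) = ∫ F(ξ) e^{ξ/2} dξ` (`b = 1/2`, `g = 0`).
-/

open MeasureTheory
open scoped ContDiff

namespace H69LB

private theorem exb_pk_nonneg {a : ℝ} (ha : 0 ≤ a) (v : ℝ) : 0 ≤ pk a v := by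
  unfold pk; positivity

private theorem exb_pk_le {a : ℝ} (ha : 0 < a) (v : ℝ) : pk a v ≤ pk a 0 := by
  unfold pk
  have h1 : 0 < a ^ 2 := by positivity
  apply div_le_div_of_nonneg_left ha.le (by positivity)
  nlinarith [sq_nonneg v]

private theorem exb_pk_cont {a : ℝ} (ha : 0 < a) : Continuous (pk a) := by
  unfold pk
  refine continuous_const.div (by fun_prop) (fun v => ?_)
  positivity

private theorem exb_bj_pos (j : ℕ) : 0 < bj j := by
  unfold bj; positivity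

/-- continuous functions of growth `(1+|v|)^{1/4}` are integrable against `q` -/
private theorem exb_int0 {q : ℝ → ℂ} (hq : Continuous q) {C : ℝ}
    (hb : ∀ v, ‖q v‖ ≤ C * (1 + |v|) ^ (-3 : ℝ)) {g : ℝ → ℝ} (hg : Continuous g) {M : ℝ}
    (hM : ∀ v, |g v| ≤ M * (1 + |v|) ^ (1 / 4 : ℝ)) :
    Integrable (fun v => q v * ((g v : ℝ) : ℂ)) := by
  have h1 : Integrable (fun v : ℝ => (1 + ‖v‖) ^ (-(11 / 4) : ℝ)) :=
    integrable_one_add_norm (by simp; norm_num)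
  have hM0 : 0 ≤ M := by
    have := hM 0
    have h2 := abs_nonneg (g 0)
    simp at this
    linarith
  have hC0 : 0 ≤ C := by
    have := hb 0
    have h2 := norm_nonneg (q 0)
    simp at this
    linarith
  refine Integrable.mono' (h1.const_mul (C * M)) ?_ (Filter.Eventually.of_forall fun v => ?_)
  · exact (hq.mul (Complex.continuous_ofReal.comp hg)).aestronglyMeasurable
  · rw [norm_mul, Complex.norm_real, Real.norm_eq_abs]
    have hpos : 0 < 1 + |v| := by positivity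
    have h3 : (1 + ‖v‖) ^ (-(11 / 4) : ℝ) = (1 + |v|) ^ (-3 : ℝ) * (1 + |v|) ^ (1 / 4 : ℝ) := by
      rw [← Real.rpow_add hpos, Real.norm_eq_abs]
      norm_num
    rw [h3]
    calc ‖q v‖ * |g v| ≤ (C * (1 + |v|) ^ (-3 : ℝ)) * (M * (1 + |v|) ^ (1 / 4 : ℝ)) := by
          apply mul_le_mul (hb v) (hM v) (abs_nonneg _)
          positivity
      _ = _ := by ring

private theorem exb_one_le (v : ℝ) : (1 : ℝ) ≤ (1 + |v|) ^ (1 / 4 : ℝ) :=
  Real.one_le_rpow (by linarith [abs_nonneg v]) (by norm_num)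

/-- bounded continuous functions are integrable against `q` -/
private theorem exb_int1 {q : ℝ → ℂ} (hq : Continuous q) {C : ℝ}
    (hb : ∀ v, ‖q v‖ ≤ C * (1 + |v|) ^ (-3 : ℝ)) {g : ℝ → ℝ} (hg : Continuous g) {M : ℝ}
    (hM : ∀ v, |g v| ≤ M) :
    Integrable (fun v => q v * ((g v : ℝ) : ℂ)) := by
  refine exb_int0 hq hb hg (M := M) fun v => (hM v).trans ?_
  have h1 := exb_one_le v
  have hM0 : 0 ≤ M := (abs_nonneg _).trans (hM 0)
  nlinarith

private theorem exb_summ :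
    Summable fun n : ℕ => ArithmeticFunction.vonMangoldt n * (n : ℝ) ^ (-(3 / 2) : ℝ) := by
  have h := ArithmeticFunction.LSeriesSummable_vonMangoldt (s := ((3 / 2 : ℝ) : ℂ))
    (by rw [Complex.ofReal_re]; norm_num)
  have h2 := h.norm
  refine h2.congr fun n => ?_
  rcases Nat.eq_zero_or_pos n with h0 | h0
  · subst h0; simp
  · rw [LSeries.norm_term_eq, if_neg h0.ne', Complex.ofReal_re, Complex.norm_real, Real.norm_eq_abs,
      abs_of_nonneg ArithmeticFunction.vonMangoldt_nonneg, Real.rpow_neg (Nat.cast_nonneg n)]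
    rfl

/-- `D t = ∑ Λ(n) n^{-3/2} cos(t log n)` -/
private noncomputable def exbD (t : ℝ) : ℝ :=
  ∑' n : ℕ, ArithmeticFunction.vonMangoldt n * (n : ℝ) ^ (-(3 / 2) : ℝ) * Real.cos (t * Real.log n)

private theorem exb_term_nonneg (n : ℕ) :
    0 ≤ ArithmeticFunction.vonMangoldt n * (n : ℝ) ^ (-(3 / 2) : ℝ) :=
  mul_nonneg ArithmeticFunction.vonMangoldt_nonneg (by positivity)

private theorem exb_term_le (t : ℝ) (n : ℕ) :
    ‖ArithmeticFunction.vonMangoldt n * (n : ℝ) ^ (-(3 / 2) : ℝ) * Real.cos (t * Real.log n)‖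
      ≤ ArithmeticFunction.vonMangoldt n * (n : ℝ) ^ (-(3 / 2) : ℝ) := by
  rw [norm_mul, Real.norm_eq_abs, abs_of_nonneg (exb_term_nonneg n), Real.norm_eq_abs]
  exact mul_le_of_le_one_right (exb_term_nonneg n) (Real.abs_cos_le_one _)

private theorem exbD_cont : Continuous exbD := by
  unfold exbD
  refine continuous_tsum (fun n => by fun_prop) exb_summ fun n t => exb_term_le t n

private theorem exbD_le (t : ℝ) :
    |exbD t| ≤ ∑' n : ℕ, ArithmeticFunction.vonMangoldt n * (n : ℝ) ^ (-(3 / 2) : ℝ) := by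
  unfold exbD
  rw [← Real.norm_eq_abs]
  exact tsum_of_norm_bounded exb_summ.hasSum fun n => exb_term_le t n

/-- step 2 -/
private theorem exb_step2 {F1 : ℝ → ℂ} (h0 : ∀ ξ ≤ 1, F1 ξ = 0) {q : ℝ → ℂ} (hq : Continuous q) {C : ℝ}
    (hb : ∀ v, ‖q v‖ ≤ C * (1 + |v|) ^ (-3 : ℝ))
    (hcos : ∀ s : ℝ, ∫ v, q v * ((Real.cos (v * s) : ℝ) : ℂ)
        = F1 s * ((Real.exp s : ℝ) : ℂ) + F1 (-s) * ((Real.exp (-s) : ℝ) : ℂ)) :
    ∫ v, q v * ((exbD v : ℝ) : ℂ) =
      ∑' n : ℕ, ((ArithmeticFunction.vonMangoldt n * (n : ℝ) ^ (-(1 / 2) : ℝ) : ℝ) : ℂ) * F1 (Real.log n) := by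
  have hqi : Integrable q := by
    have := exb_int1 hq hb (g := fun _ => (1 : ℝ)) continuous_const (M := 1) (by simp)
    simpa using this
  set f : ℕ → ℝ → ℂ := fun n v => q v *
    ((ArithmeticFunction.vonMangoldt n * (n : ℝ) ^ (-(3 / 2) : ℝ) * Real.cos (v * Real.log n) : ℝ) : ℂ) with hf
  have hfi : ∀ n, Integrable (f n) := fun n =>
    exb_int1 hq hb (by fun_prop) (M := ArithmeticFunction.vonMangoldt n * (n : ℝ) ^ (-(3 / 2) : ℝ))
      fun v => by
        have := exb_term_le v n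
        rwa [Real.norm_eq_abs] at this
  have hfn : ∀ n v, ‖f n v‖ ≤ ArithmeticFunction.vonMangoldt n * (n : ℝ) ^ (-(3 / 2) : ℝ) * ‖q v‖ := by
    intro n v
    rw [hf]
    simp only
    rw [norm_mul, Complex.norm_real, mul_comm]
    exact mul_le_mul_of_nonneg_right (exb_term_le v n) (norm_nonneg _)
  have hsum : Summable fun n => ∫ v, ‖f n v‖ := by
    refine Summable.of_nonneg_of_le (fun n => integral_nonneg fun v => norm_nonneg _) (fun n => ?_)
      (exb_summ.mul_right (∫ v, ‖q v‖))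
    rw [← integral_const_mul]
    exact integral_mono (hfi n).norm (hqi.norm.const_mul _) (hfn n)
  have key := hasSum_integral_of_summable_integral_norm hfi hsum
  have h1 : ∀ v, ∑' n, f n v = q v * ((exbD v : ℝ) : ℂ) := by
    intro v
    rw [hf]
    simp only
    rw [tsum_mul_left, exbD, Complex.ofReal_tsum]
  simp only [h1] at key
  rw [← key.tsum_eq]
  refine tsum_congr fun n => ?_
  rw [hf]
  simp only
  have h2 : ∀ v, q v * ((ArithmeticFunction.vonMangoldt n * (n : ℝ) ^ (-(3 / 2) : ℝ) *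
      Real.cos (v * Real.log n) : ℝ) : ℂ) =
      ((ArithmeticFunction.vonMangoldt n * (n : ℝ) ^ (-(3 / 2) : ℝ) : ℝ) : ℂ) *
        (q v * ((Real.cos (v * Real.log n) : ℝ) : ℂ)) := by
    intro v
    rw [Complex.ofReal_mul]
    ring
  simp only [h2]
  rw [integral_const_mul, hcos]
  rcases Nat.eq_zero_or_pos n with hn | hn
  · subst hn; simp
  · have hn' : (0 : ℝ) < n := by exact_mod_cast hn
    have h3 : F1 (-Real.log n) = 0 := by
      apply h0
      have : 0 ≤ Real.log n := Real.log_natCast_nonneg n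
      linarith
    rw [h3, zero_mul, add_zero, Real.exp_log hn']
    have h4 : (n : ℝ) ^ (-(1 / 2) : ℝ) = (n : ℝ) ^ (-(3 / 2) : ℝ) * n := by
      rw [← Real.rpow_add_one hn'.ne']
      norm_num
    rw [h4, ← mul_assoc, Complex.ofReal_mul]
    push_cast
    ring

/-- step 1 -/
private theorem exb_step1 {ι : Type} [Countable ι] {γ w : ι → ℝ} {F : ℝ → Finset ι} {A : ℝ → ℝ} {k0 : ℝ}
    (Z : Zer γ w F A k0) {F1 : ℝ → ℂ} {q : ℝ → ℂ} (hq : Continuous q) {C : ℝ}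
    (hb : ∀ v, ‖q v‖ ≤ C * (1 + |v|) ^ (-3 : ℝ))
    (hpk : ∀ b : ℝ, 0 < b → ∀ g : ℝ, ∫ v, q v * ((pk b (v - g) : ℝ) : ℂ)
        = ∫ ξ, F1 ξ * ((Real.exp ((1 - b) * ξ) : ℝ) : ℂ) * Complex.exp (Complex.I * ((ξ * g : ℝ) : ℂ))) :
    Summable (fun i => w i * ‖PsiF F1 (γ i)‖) ∧
    (∑' i, (w i : ℂ) * PsiF F1 (γ i)) = ∫ v, q v * ((A v - exbD v : ℝ) : ℂ) := by
  have hS : ∀ t, HasSum (fun i => w i * pk 1 (t - γ i)) (A t - exbD t) := Z.hasSum
  obtain ⟨C2, hC2, hW⟩ := Z.boundW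
  have hSle : ∀ t, A t - exbD t ≤ C2 * (1 + |t|) ^ (1 / 4 : ℝ) := by
    intro t
    rw [← (hS t).tsum_eq]
    refine le_trans (le_of_eq ?_) (hW t)
    refine tsum_congr fun i => ?_
    rw [pk, one_pow, mul_one_div]
  have hSnn : ∀ t, 0 ≤ A t - exbD t := fun t =>
    (hS t).nonneg fun i => mul_nonneg (Z.w_nonneg i) (exb_pk_nonneg zero_le_one _)
  have hScont : Continuous fun t => A t - exbD t := Z.cont.sub exbD_cont
  have hSint : Integrable fun v => q v * ((A v - exbD v : ℝ) : ℂ) :=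
    exb_int0 hq hb hScont (M := C2) fun v => by
      rw [abs_of_nonneg (hSnn v)]; exact hSle v
  set f : ι → ℝ → ℂ := fun i v => q v * ((w i * pk 1 (v - γ i) : ℝ) : ℂ) with hf
  have hfi : ∀ i, Integrable (f i) := fun i =>
    exb_int1 hq hb (g := fun v => w i * pk 1 (v - γ i))
      (continuous_const.mul ((exb_pk_cont one_pos).comp (by fun_prop))) (M := w i * pk 1 0)
      fun v => by
        rw [abs_of_nonneg (mul_nonneg (Z.w_nonneg i) (exb_pk_nonneg zero_le_one _))]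
        exact mul_le_mul_of_nonneg_left (exb_pk_le one_pos _) (Z.w_nonneg i)
  have hfn : ∀ i v, ‖f i v‖ = ‖q v‖ * (w i * pk 1 (v - γ i)) := by
    intro i v
    rw [hf]
    simp only
    rw [norm_mul, Complex.norm_real, Real.norm_eq_abs,
      abs_of_nonneg (mul_nonneg (Z.w_nonneg i) (exb_pk_nonneg zero_le_one _))]
  have hsum : Summable fun i => ∫ v, ‖f i v‖ := by
    refine summable_of_sum_le (c := ∫ v, ‖q v * ((A v - exbD v : ℝ) : ℂ)‖)
      (fun i => integral_nonneg fun v => norm_nonneg _) fun s => ?_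
    rw [← integral_finsetSum s fun i _ => (hfi i).norm]
    refine integral_mono (integrable_finsetSum s fun i _ => (hfi i).norm) hSint.norm fun v => ?_
    simp only [hfn]
    rw [← Finset.mul_sum, norm_mul, Complex.norm_real, Real.norm_eq_abs, abs_of_nonneg (hSnn v)]
    refine mul_le_mul_of_nonneg_left ?_ (norm_nonneg _)
    exact sum_le_hasSum s (fun i _ => mul_nonneg (Z.w_nonneg i) (exb_pk_nonneg zero_le_one _)) (hS v)
  have key := hasSum_integral_of_summable_integral_norm hfi hsum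
  have h1 : ∀ v, ∑' i, f i v = q v * ((A v - exbD v : ℝ) : ℂ) := by
    intro v
    rw [hf]
    simp only
    rw [tsum_mul_left, ← Complex.ofReal_tsum, (hS v).tsum_eq]
  simp only [h1] at key
  have h2 : ∀ i, ∫ v, f i v = (w i : ℂ) * PsiF F1 (γ i) := by
    intro i
    have h3 : ∀ v, f i v = (w i : ℂ) * (q v * ((pk 1 (v - γ i) : ℝ) : ℂ)) := by
      intro v
      rw [hf]
      simp only
      rw [Complex.ofReal_mul]
      ring
    simp only [h3]
    rw [integral_const_mul, hpk 1 one_pos, PsiF]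
    simp
  simp only [h2] at key
  refine ⟨?_, key.tsum_eq⟩
  refine Summable.of_nonneg_of_le (fun i => mul_nonneg (Z.w_nonneg i) (norm_nonneg _)) (fun i => ?_) hsum
  calc w i * ‖PsiF F1 (γ i)‖ = ‖(w i : ℂ) * PsiF F1 (γ i)‖ := by
        rw [norm_mul, Complex.norm_real, Real.norm_eq_abs, abs_of_nonneg (Z.w_nonneg i)]
    _ = ‖∫ v, f i v‖ := by rw [h2]
    _ ≤ _ := norm_integral_le_integral_norm _

/-- the sum of the exponentials -/
private theorem exb_geom (n : ℕ) {ξ : ℝ} (hξ : 1 ≤ ξ) :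
    ∑ j ∈ Finset.range n, Real.exp ((1 - bj j) * ξ) ≤ 2 * Real.exp (-(ξ / 2)) := by
  have h1 : ∀ j : ℕ, Real.exp ((1 - bj j) * ξ) ≤ (1 / 2 : ℝ) ^ j * Real.exp (-(ξ / 2)) := by
    intro j
    have h2 : (1 - bj j) * ξ ≤ (j : ℝ) * (-1) + -(ξ / 2) := by
      unfold bj
      have hj : (0 : ℝ) ≤ j := Nat.cast_nonneg j
      nlinarith
    have h3 : Real.exp (-1) ≤ 1 / 2 := by
      rw [Real.exp_neg, inv_eq_one_div]
      apply one_div_le_one_div_of_le (by norm_num)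
      have := Real.add_one_le_exp (1 : ℝ)
      linarith
    calc Real.exp ((1 - bj j) * ξ) ≤ Real.exp ((j : ℝ) * (-1) + -(ξ / 2)) := Real.exp_le_exp.2 h2
      _ = Real.exp (-1) ^ j * Real.exp (-(ξ / 2)) := by rw [Real.exp_add, Real.exp_nat_mul]
      _ ≤ _ := by gcongr
  calc ∑ j ∈ Finset.range n, Real.exp ((1 - bj j) * ξ)
      ≤ ∑ j ∈ Finset.range n, (1 / 2 : ℝ) ^ j * Real.exp (-(ξ / 2)) := Finset.sum_le_sum fun j _ => h1 j
    _ = (∑ j ∈ Finset.range n, (1 / 2 : ℝ) ^ j) * Real.exp (-(ξ / 2)) := by rw [Finset.sum_mul]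
    _ ≤ 2 * Real.exp (-(ξ / 2)) := by
      refine mul_le_mul_of_nonneg_right ?_ (Real.exp_pos _).le
      have h4 : ∑ j ∈ Finset.range n, (1 / 2 : ℝ) ^ j ≤ ∑' j : ℕ, (1 / 2 : ℝ) ^ j :=
        summable_geometric_two.sum_le_tsum _ fun j _ => by positivity
      rwa [tsum_geometric_two] at h4

/-- step 3 -/
private theorem exb_step3 {ι : Type} {γ w : ι → ℝ} {F : ℝ → Finset ι} {A : ℝ → ℝ} {k0 : ℝ}
    (Z : Zer γ w F A k0) {F1 : ℝ → ℂ} (hF : Continuous F1) (hFc : HasCompactSupport F1)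
    (h0 : ∀ ξ ≤ 1, F1 ξ = 0) {q : ℝ → ℂ} (hq : Continuous q) {C : ℝ}
    (hb : ∀ v, ‖q v‖ ≤ C * (1 + |v|) ^ (-3 : ℝ))
    (hpk : ∀ b : ℝ, 0 < b → ∀ g : ℝ, ∫ v, q v * ((pk b (v - g) : ℝ) : ℂ)
        = ∫ ξ, F1 ξ * ((Real.exp ((1 - b) * ξ) : ℝ) : ℂ) * Complex.exp (Complex.I * ((ξ * g : ℝ) : ℂ)))
    (hq0 : ∫ v, q v = 0) :
    ‖∫ v, q v * ((A v - k0 - pk (1 / 2) v : ℝ) : ℂ)‖ ≤ 2 * ∫ ξ, ‖F1 ξ‖ * Real.exp (-(ξ / 2)) := by
  have hqi : Integrable q := by
    have := exb_int1 hq hb (g := fun _ => (1 : ℝ)) continuous_const (M := 1) (by simp)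
    simpa using this
  set R : ℕ → ℝ → ℝ := fun n t => ∑ j ∈ Finset.range n, (pk (bj j) 0 - pk (bj j) t) with hR
  have hRnn : ∀ n t, 0 ≤ R n t := fun n t =>
    Finset.sum_nonneg fun j _ => sub_nonneg.2 (exb_pk_le (exb_bj_pos j) t)
  have hRmono : ∀ t, Monotone fun n => R n t := by
    intro t
    refine monotone_nat_of_le_succ fun n => ?_
    rw [hR]
    simp only
    rw [Finset.sum_range_succ]
    have := exb_pk_le (exb_bj_pos n) t
    linarith
  have hRlim : ∀ t, Filter.Tendsto (fun n => R n t) Filter.atTop (nhds (A t - k0 - pk (1 / 2) t)) := Z.arch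
  have hRle : ∀ n t, R n t ≤ A t - k0 - pk (1 / 2) t := fun n t =>
    (hRmono t).ge_of_tendsto (hRlim t) n
  obtain ⟨CA, hCA, hA⟩ := Z.boundA
  have hRcont : ∀ n, Continuous (R n) := by
    intro n
    rw [hR]
    refine continuous_finsetSum _ fun j _ => continuous_const.sub (exb_pk_cont (exb_bj_pos j))
  have hLcont : Continuous fun t => A t - k0 - pk (1 / 2) t :=
    (Z.cont.sub continuous_const).sub (exb_pk_cont (by norm_num))
  have hLnn : ∀ t, 0 ≤ A t - k0 - pk (1 / 2) t := fun t => (hRnn 0 t).trans (hRle 0 t)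
  have hLle : ∀ t, |A t - k0 - pk (1 / 2) t| ≤ (CA + |k0|) * (1 + |t|) ^ (1 / 4 : ℝ) := by
    intro t
    rw [abs_of_nonneg (hLnn t)]
    have h1 := hA t
    have h2 := exb_one_le t
    have h3 := exb_pk_nonneg (a := 1 / 2) (by norm_num) t
    have h4 := le_abs_self (A t)
    have h5 := neg_abs_le k0
    have h6 : |k0| ≤ |k0| * (1 + |t|) ^ (1 / 4 : ℝ) := le_mul_of_one_le_right (abs_nonneg _) h2
    nlinarith
  have hLint : Integrable fun v => q v * ((A v - k0 - pk (1 / 2) v : ℝ) : ℂ) :=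
    exb_int0 hq hb hLcont hLle
  have hconv : Filter.Tendsto (fun n => ∫ v, q v * ((R n v : ℝ) : ℂ)) Filter.atTop
      (nhds (∫ v, q v * ((A v - k0 - pk (1 / 2) v : ℝ) : ℂ))) := by
    refine tendsto_integral_of_dominated_convergence
      (fun v => ‖q v * ((A v - k0 - pk (1 / 2) v : ℝ) : ℂ)‖) (fun n => ?_) hLint.norm (fun n => ?_) ?_
    · exact (hq.mul (Complex.continuous_ofReal.comp (hRcont n))).aestronglyMeasurable
    · refine Filter.Eventually.of_forall fun v => ?_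
      rw [norm_mul, norm_mul, Complex.norm_real, Complex.norm_real, Real.norm_eq_abs, Real.norm_eq_abs,
        abs_of_nonneg (hRnn n v), abs_of_nonneg (hLnn v)]
      exact mul_le_mul_of_nonneg_left (hRle n v) (norm_nonneg _)
    · refine Filter.Eventually.of_forall fun v => ?_
      exact ((Complex.continuous_ofReal.tendsto _).comp (hRlim v)).const_mul _
  refine le_of_tendsto hconv.norm (Filter.Eventually.of_forall fun n => ?_)
  -- the integral of `q R_n`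
  have hpki : ∀ j : ℕ, Integrable fun v => q v * ((pk (bj j) v : ℝ) : ℂ) := fun j =>
    exb_int1 hq hb (exb_pk_cont (exb_bj_pos j)) (M := pk (bj j) 0) fun v => by
      rw [abs_of_nonneg (exb_pk_nonneg (exb_bj_pos j).le v)]
      exact exb_pk_le (exb_bj_pos j) v
  have hEi : ∀ j : ℕ, Integrable fun ξ => ‖F1 ξ‖ * Real.exp ((1 - bj j) * ξ) := by
    intro j
    refine Continuous.integrable_of_hasCompactSupport (by fun_prop) ?_
    exact hFc.norm.mul_right
  have hEi2 : Integrable fun ξ => ‖F1 ξ‖ * Real.exp (-(ξ / 2)) := by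
    refine Continuous.integrable_of_hasCompactSupport (by fun_prop) ?_
    exact hFc.norm.mul_right
  have hj : ∀ j : ℕ, ‖∫ v, q v * ((pk (bj j) v : ℝ) : ℂ)‖ ≤ ∫ ξ, ‖F1 ξ‖ * Real.exp ((1 - bj j) * ξ) := by
    intro j
    have h1 := hpk (bj j) (exb_bj_pos j) 0
    simp only [sub_zero] at h1
    rw [h1]
    refine (norm_integral_le_integral_norm _).trans (le_of_eq (integral_congr_ae
      (Filter.Eventually.of_forall fun ξ => ?_)))
    simp only [mul_zero, Complex.ofReal_zero, Complex.exp_zero, mul_one]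
    rw [norm_mul, Complex.norm_real, Real.norm_eq_abs, Real.abs_exp]
  have hn : ∫ v, q v * ((R n v : ℝ) : ℂ) = -∑ j ∈ Finset.range n, ∫ v, q v * ((pk (bj j) v : ℝ) : ℂ) := by
    have h1 : ∀ v, q v * ((R n v : ℝ) : ℂ) =
        ∑ j ∈ Finset.range n, (q v * ((pk (bj j) 0 : ℝ) : ℂ) - q v * ((pk (bj j) v : ℝ) : ℂ)) := by
      intro v
      rw [hR]
      simp only
      rw [Complex.ofReal_sum, Finset.mul_sum]
      refine Finset.sum_congr rfl fun j _ => ?_
      rw [Complex.ofReal_sub, mul_sub]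
    have h2 : ∀ j ∈ Finset.range n,
        Integrable fun v => q v * ((pk (bj j) 0 : ℝ) : ℂ) - q v * ((pk (bj j) v : ℝ) : ℂ) :=
      fun j _ => (hqi.mul_const _).sub (hpki j)
    simp only [h1]
    rw [integral_finsetSum _ h2, ← Finset.sum_neg_distrib]
    refine Finset.sum_congr rfl fun j _ => ?_
    rw [integral_sub (hqi.mul_const _) (hpki j), integral_mul_const, hq0, zero_mul, zero_sub]
  rw [hn, norm_neg]
  calc ‖∑ j ∈ Finset.range n, ∫ v, q v * ((pk (bj j) v : ℝ) : ℂ)‖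
      ≤ ∑ j ∈ Finset.range n, ‖∫ v, q v * ((pk (bj j) v : ℝ) : ℂ)‖ := norm_sum_le _ _
    _ ≤ ∑ j ∈ Finset.range n, ∫ ξ, ‖F1 ξ‖ * Real.exp ((1 - bj j) * ξ) := Finset.sum_le_sum fun j _ => hj j
    _ = ∫ ξ, ∑ j ∈ Finset.range n, ‖F1 ξ‖ * Real.exp ((1 - bj j) * ξ) :=
        (integral_finsetSum _ fun j _ => hEi j).symm
    _ ≤ ∫ ξ, 2 * (‖F1 ξ‖ * Real.exp (-(ξ / 2))) := by
        refine integral_mono (integrable_finsetSum _ fun j _ => hEi j) (hEi2.const_mul 2) fun ξ => ?_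
        simp only
        rw [← Finset.mul_sum]
        rcases le_total ξ 1 with h | h
        · rw [h0 ξ h]; simp
        · have := exb_geom n h
          nlinarith [norm_nonneg (F1 ξ)]
    _ = _ := integral_const_mul _ _

theorem expl {ι : Type} [Countable ι] {γ w : ι → ℝ} {F : ℝ → Finset ι} {A : ℝ → ℝ} {k0 : ℝ}
    (Z : Zer γ w F A k0) :
    ∃ C : ℝ, 0 ≤ C ∧ ∀ F1 : ℝ → ℂ, ContDiff ℝ ∞ F1 → HasCompactSupport F1 → (∀ ξ ≤ 1, F1 ξ = 0) →
      Summable (fun i => w i * ‖PsiF F1 (γ i)‖) ∧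
      ‖(∑' i, (w i : ℂ) * PsiF F1 (γ i)) - (∫ ξ, F1 ξ * ((Real.exp (ξ / 2) : ℝ) : ℂ))
        + ∑' n : ℕ, ((ArithmeticFunction.vonMangoldt n * (n : ℝ) ^ (-(1 / 2) : ℝ) : ℝ) : ℂ) * F1 (Real.log n)‖
        ≤ C * ∫ ξ, ‖F1 ξ‖ * Real.exp (-(ξ / 2)) := by
  refine ⟨2, by norm_num, fun F1 hF hFc h0 => ?_⟩
  obtain ⟨q, hq, ⟨C, hC, hb⟩, hpk, hcos⟩ := exists_q hF hFc h0
  have hqi : Integrable q := by
    have := exb_int1 hq hb (g := fun _ => (1 : ℝ)) continuous_const (M := 1) (by simp)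
    simpa using this
  have hq0 : ∫ v, q v = 0 := by
    have h1 := hcos 0
    simp only [mul_zero, Real.cos_zero, Complex.ofReal_one, mul_one, neg_zero] at h1
    rw [h1, h0 0 zero_le_one]
    simp
  obtain ⟨hs1, hs2⟩ := exb_step1 Z hq hb hpk
  refine ⟨hs1, ?_⟩
  have hs3 := exb_step3 Z hF.continuous hFc h0 hq hb hpk hq0
  have hs4 := exb_step2 h0 hq hb hcos
  have hhalf : ∫ v, q v * ((pk (1 / 2) v : ℝ) : ℂ) = ∫ ξ, F1 ξ * ((Real.exp (ξ / 2) : ℝ) : ℂ) := by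
    have h1 := hpk (1 / 2) (by norm_num) 0
    simp only [sub_zero] at h1
    rw [h1]
    refine integral_congr_ae (Filter.Eventually.of_forall fun ξ => ?_)
    simp only [mul_zero, Complex.ofReal_zero, Complex.exp_zero, mul_one]
    congr 3
    ring_nf
  obtain ⟨CA, hCA, hA⟩ := Z.boundA
  have hAi : Integrable fun v => q v * ((A v : ℝ) : ℂ) := exb_int0 hq hb Z.cont hA
  have hDi : Integrable fun v => q v * ((exbD v : ℝ) : ℂ) := exb_int1 hq hb exbD_cont exbD_le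
  have hpki : Integrable fun v => q v * ((pk (1 / 2) v : ℝ) : ℂ) :=
    exb_int1 hq hb (exb_pk_cont (by norm_num)) (M := pk (1 / 2) 0) fun v => by
      rw [abs_of_nonneg (exb_pk_nonneg (by norm_num) v)]
      exact exb_pk_le (by norm_num) v
  have e1 : ∫ v, q v * ((A v - exbD v : ℝ) : ℂ) = (∫ v, q v * ((A v : ℝ) : ℂ)) - ∫ v, q v * ((exbD v : ℝ) : ℂ) := by
    rw [← integral_sub hAi hDi]
    refine integral_congr_ae (Filter.Eventually.of_forall fun v => ?_)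
    simp only
    rw [Complex.ofReal_sub, mul_sub]
  have e2 : ∫ v, q v * ((A v - k0 - pk (1 / 2) v : ℝ) : ℂ) =
      (∫ v, q v * ((A v : ℝ) : ℂ)) - (∫ v, q v) * (k0 : ℂ) - ∫ v, q v * ((pk (1 / 2) v : ℝ) : ℂ) := by
    have h3 : Integrable fun v => q v * ((A v : ℝ) : ℂ) - q v * (k0 : ℂ) := hAi.sub (hqi.mul_const _)
    rw [← integral_mul_const, ← integral_sub hAi (hqi.mul_const _), ← integral_sub h3 hpki]
    refine integral_congr_ae (Filter.Eventually.of_forall fun v => ?_)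
    simp only
    rw [Complex.ofReal_sub, Complex.ofReal_sub, mul_sub, mul_sub]
  have e3 : (∑' i, (w i : ℂ) * PsiF F1 (γ i)) - (∫ ξ, F1 ξ * ((Real.exp (ξ / 2) : ℝ) : ℂ))
        + ∑' n : ℕ, ((ArithmeticFunction.vonMangoldt n * (n : ℝ) ^ (-(1 / 2) : ℝ) : ℝ) : ℂ) * F1 (Real.log n)
      = ∫ v, q v * ((A v - k0 - pk (1 / 2) v : ℝ) : ℂ) := by
    rw [hs2, ← hs4, ← hhalf, e1, e2, hq0]
    ring
  rw [e3]
  exact hs3

end H69LB
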