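import Pool.Agent.H69.LB.Defs

/-!
# EXD: expansion of an additive character in multiplicative ones, and the covering by primitive characters

* `expand_char`: `∑_χ τ(χ⁻¹) χ(m) = ∑_{b : ZMod r} e(b) ∑_χ χ⁻¹(b) χ(m) = φ(r) e(m)` for a unit `m`
  (`DirichletCharacter.sum_char_inv_mul_char_eq`; non-units `b` give `0`), with `m = -n a`,
  `e(m) = ZMod.stdAddChar (-(n a)) = ee (-(n a / r))` (`ZMod.stdAddChar_coe`).
* `sum_le_cover`: every `ψ ≠ 1` modulo `r` is `changeLevel h χ` with `q = ψ.conductor ∣ r`, `q ≠ 1`,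
  `χ = ψ.primitiveCharacter ∈ pc q` (`DirichletCharacter.changeLevel_primitiveCharacter`,
  `primitiveCharacter_isPrimitive`, `eq_one_iff_conductor_eq_one`). So the sum over `ψ ≠ 1` is at most the
  sum over all pairs `(q, χ)`, the summands being nonnegative.
-/

namespace H69LB

open Finset

private theorem Exd_inverse_mul_eq_one {r : ℕ} [NeZero r] (b m : ZMod r) :
    Ring.inverse b * m = 1 ↔ b = m ∧ IsUnit m := by
  constructor
  · intro h
    by_cases hb : IsUnit b
    · obtain ⟨u, rfl⟩ := hb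
      rw [Ring.inverse_unit] at h
      have hm : m = u := by
        calc m = (u : ZMod r) * ((↑u⁻¹ : ZMod r) * m) := by rw [← mul_assoc, Units.mul_inv, one_mul]
          _ = u := by rw [h, mul_one]
      exact ⟨hm.symm, hm ▸ u.isUnit⟩
    · rw [Ring.inverse_non_unit b hb, zero_mul] at h
      have hs : Subsingleton (ZMod r) := subsingleton_of_zero_eq_one h
      exact ⟨Subsingleton.elim _ _, by rw [Subsingleton.elim m 1]; exact isUnit_one⟩
  · rintro ⟨rfl, hb⟩
    exact Ring.inverse_mul_cancel _ hb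

theorem expand_char {r : ℕ} [NeZero r] {n a : ℕ} (hn : n.Coprime r) (ha : a.Coprime r) :
    ee (-((n : ℝ) * a / r)) = (Nat.totient r : ℂ)⁻¹ * ∑ χ : DirichletCharacter ℂ r,
      gaussSum χ⁻¹ (ZMod.stdAddChar (N := r)) * (χ (-1) * (χ a * χ n)) := by
  have hφ : (Nat.totient r : ℂ) ≠ 0 := by
    have : 0 < Nat.totient r := Nat.totient_pos.mpr (NeZero.pos r)
    exact_mod_cast this.ne'
  rw [eq_inv_mul_iff_mul_eq₀ hφ]
  set m : ZMod r := -1 * ((a : ZMod r) * (n : ZMod r)) with hm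
  have hmu : IsUnit m := by
    rw [hm]
    refine (isUnit_one.neg).mul (IsUnit.mul ?_ ?_)
    · exact (ZMod.isUnit_iff_coprime a r).mpr ha
    · exact (ZMod.isUnit_iff_coprime n r).mpr hn
  have h1 : ∀ χ : DirichletCharacter ℂ r,
      gaussSum χ⁻¹ (ZMod.stdAddChar (N := r)) * (χ (-1) * (χ a * χ n))
        = ∑ b : ZMod r, ZMod.stdAddChar b * χ (Ring.inverse b * m) := by
    intro χ
    rw [← map_mul, ← map_mul, ← hm, gaussSum, Finset.sum_mul]
    refine Finset.sum_congr rfl fun b _ => ?_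
    rw [MulChar.inv_apply, map_mul χ (Ring.inverse b) m]
    ring
  rw [Finset.sum_congr rfl fun χ _ => h1 χ, Finset.sum_comm]
  have h2 : ∀ b : ZMod r, ∑ χ : DirichletCharacter ℂ r, ZMod.stdAddChar b * χ (Ring.inverse b * m)
      = if b = m then (Nat.totient r : ℂ) * ZMod.stdAddChar m else 0 := by
    intro b
    rw [← Finset.mul_sum, DirichletCharacter.sum_characters_eq]
    by_cases hb : b = m
    · rw [if_pos hb, if_pos ((Exd_inverse_mul_eq_one b m).mpr ⟨hb, hmu⟩), hb, mul_comm]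
    · rw [if_neg hb, if_neg (fun h => hb ((Exd_inverse_mul_eq_one b m).mp h).1), mul_zero]
  rw [Finset.sum_congr rfl fun b _ => h2 b, Finset.sum_ite_eq' univ m, if_pos (Finset.mem_univ _)]
  congr 1
  have hmc : m = ((-((n : ℤ) * a) : ℤ) : ZMod r) := by
    rw [hm]; push_cast; ring
  rw [hmc, ZMod.stdAddChar_coe, ee]
  congr 1
  push_cast
  ring

open Classical in
theorem sum_le_cover {r : ℕ} [NeZero r] (F : DirichletCharacter ℂ r → ℝ)
    (G : ∀ q : ℕ, DirichletCharacter ℂ q → ℝ) (hG0 : ∀ q χ, 0 ≤ G q χ)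
    (hG : ∀ (q : ℕ) (h : q ∣ r) (χ : DirichletCharacter ℂ q), χ ∈ pc q →
      F (DirichletCharacter.changeLevel h χ) ≤ G q χ) :
    ∑ χ ∈ (univ : Finset (DirichletCharacter ℂ r)).erase 1, F χ
      ≤ ∑ q ∈ r.divisors.erase 1, ∑ χ ∈ pc q, G q χ := by
  rw [Finset.sum_sigma']
  have hpc : ∀ ψ : DirichletCharacter ℂ r, ψ ≠ 1 → ψ.primitiveCharacter ∈ pc ψ.conductor := by
    intro ψ hψ
    rw [pc, Finset.mem_filter]
    refine ⟨Finset.mem_univ _, ψ.primitiveCharacter_isPrimitive, fun h => hψ ?_⟩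
    rw [← DirichletCharacter.changeLevel_primitiveCharacter ψ, h, map_one]
  have hq : ∀ ψ : DirichletCharacter ℂ r, ψ ≠ 1 → ψ.conductor ∈ r.divisors.erase 1 := by
    intro ψ hψ
    rw [Finset.mem_erase, Nat.mem_divisors]
    exact ⟨fun h => hψ (DirichletCharacter.eq_one_iff_conductor_eq_one.mpr h),
      ψ.conductor_dvd_level, NeZero.ne r⟩
  let i : DirichletCharacter ℂ r → (Σ q : ℕ, DirichletCharacter ℂ q) :=
    fun ψ => ⟨ψ.conductor, ψ.primitiveCharacter⟩
  have hinj : Set.InjOn i ((univ : Finset (DirichletCharacter ℂ r)).erase 1) := by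
    intro ψ₁ _ ψ₂ _ h
    have key : ∀ (q₁ q₂ : ℕ) (χ₁ : DirichletCharacter ℂ q₁) (χ₂ : DirichletCharacter ℂ q₂)
        (h₁ : q₁ ∣ r) (h₂ : q₂ ∣ r),
        (⟨q₁, χ₁⟩ : Σ q : ℕ, DirichletCharacter ℂ q) = ⟨q₂, χ₂⟩ →
        DirichletCharacter.changeLevel h₁ χ₁ = DirichletCharacter.changeLevel h₂ χ₂ := by
      intro q₁ q₂ χ₁ χ₂ h₁ h₂ he
      cases he
      rfl
    have := key _ _ ψ₁.primitiveCharacter ψ₂.primitiveCharacter ψ₁.conductor_dvd_level
      ψ₂.conductor_dvd_level h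
    rwa [DirichletCharacter.changeLevel_primitiveCharacter,
      DirichletCharacter.changeLevel_primitiveCharacter] at this
  calc ∑ χ ∈ (univ : Finset (DirichletCharacter ℂ r)).erase 1, F χ
      ≤ ∑ χ ∈ (univ : Finset (DirichletCharacter ℂ r)).erase 1, G (i χ).1 (i χ).2 := by
        refine Finset.sum_le_sum fun ψ hψ => ?_
        have hψ1 := (Finset.mem_erase.mp hψ).1
        have := hG ψ.conductor ψ.conductor_dvd_level ψ.primitiveCharacter (hpc ψ hψ1)
        rwa [DirichletCharacter.changeLevel_primitiveCharacter] at this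
    _ = ∑ x ∈ ((univ : Finset (DirichletCharacter ℂ r)).erase 1).image i, G x.1 x.2 :=
        (Finset.sum_image (f := fun x : (Σ q : ℕ, DirichletCharacter ℂ q) => G x.1 x.2) hinj).symm
    _ ≤ ∑ x ∈ (r.divisors.erase 1).sigma fun q => pc q, G x.1 x.2 := by
        refine Finset.sum_le_sum_of_subset_of_nonneg ?_ fun x _ _ => hG0 _ _
        intro x hx
        obtain ⟨ψ, hψ, rfl⟩ := Finset.mem_image.mp hx
        have hψ1 := (Finset.mem_erase.mp hψ).1
        exact Finset.mem_sigma.mpr ⟨hq ψ hψ1, hpc ψ hψ1⟩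

end H69LB
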