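import Pool.Agent.H69.LB.Brg
import Pool.Agent.H69.LB.Fin

/-!
# The lower bound for the form factor `FF` of the library of helper4, helper5, helper6
-/

open Filter Topology
open Pool.Agent Pool.Agent.H6

namespace H69LB

/-- RH implies `F(α, T) ≥ 3/2 - |α| - ε` for `T` large, uniformly in `|α| ≥ 1` -/
theorem lb_FF (hRH : RiemannHypothesis) :
    ∀ ε > 0, ∀ᶠ T in atTop, ∀ α : ℝ, 1 ≤ |α| → 3 / 2 - |α| - ε ≤ FF gZ wZ FZ T α := by
  intro ε hε
  filter_upwards [main (zer hRH) ε hε] with T hT α hα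
  rw [← FFz_eq]
  exact hT α hα

end H69LB
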