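import Pool.Agent.H69.LB.Gsp

/-!
# GSI: Gauss sums of imprimitive characters with squarefree modulus

Let `r = q m` be squarefree and `χ` a character modulo `q`, `ψ = changeLevel χ` modulo `r`. For one prime
`p ∤ q`, `r = q p`: `ψ x = χ x - [p ∣ x] χ x`; the sum of `χ(x) e_r(x)` over all residues modulo `r`
vanishes (translation by `q`), the sum over the multiples of `p` is `χ(p) τ(χ)`. So
`τ(ψ) = -χ(p) τ(χ)`, and by induction on the prime factors of `m`, `τ(ψ) = μ(m) χ(m) τ(χ)`.
-/

namespace H69LB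

open Finset

/-- one prime step, the sum over all residues -/
theorem gsi_sum_zero {q p r : ℕ} [NeZero r] (hr : r = q * p) (hp : 1 < p) (hq : 0 < q)
    (χ : DirichletCharacter ℂ q) :
    ∑ x : ZMod r, χ (x.cast : ZMod q) * ZMod.stdAddChar (N := r) x = 0 := by
  have hqr : q ∣ r := ⟨p, hr⟩
  set S := ∑ x : ZMod r, χ (x.cast : ZMod q) * ZMod.stdAddChar (N := r) x with hS
  have h1 : S = S * ZMod.stdAddChar (N := r) (q : ZMod r) := by
    conv_lhs => rw [hS, ← Equiv.sum_comp (Equiv.addRight (q : ZMod r))]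
    rw [hS, Finset.sum_mul]
    refine Finset.sum_congr rfl fun x _ => ?_
    simp only [Equiv.coe_addRight]
    rw [AddChar.map_add_eq_mul]
    have h2 : ((x + (q : ZMod r)).cast : ZMod q) = (x.cast : ZMod q) := by
      rw [← ZMod.castHom_apply (h := hqr), map_add, map_natCast]
      simp
    rw [h2, mul_assoc]
  have h3 : ZMod.stdAddChar (N := r) (q : ZMod r) ≠ 1 := by
    intro h
    have h4 : (q : ZMod r) = 0 := by
      apply ZMod.injective_stdAddChar
      rw [h, AddChar.map_zero_eq_one]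
    rw [ZMod.natCast_eq_zero_iff] at h4
    have h5 := Nat.le_of_dvd hq h4
    rw [hr] at h5
    nlinarith
  have h4 : S * (ZMod.stdAddChar (N := r) (q : ZMod r) - 1) = 0 := by
    rw [mul_sub, ← h1]
    ring
  exact (mul_eq_zero.1 h4).resolve_right (sub_ne_zero.2 h3)

theorem gsi_crt {q p : ℕ} [NeZero (q * p)] (hpq : Nat.Coprime p q) (z : ZMod (q * p)) :
    ZMod.chineseRemainder hpq.symm z = ((z.cast : ZMod q), (z.cast : ZMod p)) := by
  obtain ⟨n, rfl⟩ := ZMod.natCast_zmod_surjective z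
  rw [map_natCast, ZMod.cast_natCast (dvd_mul_right q p), ZMod.cast_natCast (dvd_mul_left p q)]
  rfl

/-- one prime step -/
theorem gsi_step {q p r : ℕ} [NeZero r] [NeZero q] (hr : r = q * p) (hp : p.Prime)
    (hpq : Nat.Coprime p q) (h : q ∣ r) (χ : DirichletCharacter ℂ q) :
    gaussSum (DirichletCharacter.changeLevel h χ) (ZMod.stdAddChar (N := r)) =
      -(χ (p : ZMod q)) * gaussSum χ (ZMod.stdAddChar (N := q)) := by
  classical
  have : Fact p.Prime := ⟨hp⟩
  have hpr : p ∣ r := ⟨q, by rw [hr, mul_comm]⟩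
  have hq0 : 0 < q := Nat.pos_of_ne_zero (NeZero.ne q)
  -- the Chinese remainder theorem
  have hinj : ∀ x y : ZMod r, (x.cast : ZMod q) = y.cast → (x.cast : ZMod p) = y.cast → x = y := by
    subst hr
    intro x y h1 h2
    apply (ZMod.chineseRemainder hpq.symm).injective
    have e := gsi_crt hpq
    rw [e, e, h1, h2]
  have hunit : ∀ x : ZMod r, IsUnit x ↔ IsUnit (x.cast : ZMod q) ∧ (x.cast : ZMod p) ≠ 0 := by
    subst hr
    intro x
    have e := gsi_crt hpq
    rw [← MulEquiv.isUnit_map (ZMod.chineseRemainder hpq.symm), e, Prod.isUnit_iff, isUnit_iff_ne_zero]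
  -- the value of the character
  have hval : ∀ x : ZMod r, DirichletCharacter.changeLevel h χ x =
      χ (x.cast : ZMod q) - if (x.cast : ZMod p) = 0 then χ (x.cast : ZMod q) else 0 := by
    intro x
    by_cases hx : IsUnit x
    · obtain ⟨u, rfl⟩ := hx
      rw [DirichletCharacter.changeLevel_eq_cast_of_dvd]
      have h1 := ((hunit (u : ZMod r)).1 u.isUnit).2
      rw [if_neg h1, sub_zero]
    · rw [MulChar.map_nonunit _ hx]
      rw [hunit] at hx
      by_cases h1 : (x.cast : ZMod p) = 0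
      · rw [if_pos h1, sub_self]
      · rw [if_neg h1]
        have h2 : ¬ IsUnit (x.cast : ZMod q) := fun h2 => hx ⟨h2, h1⟩
        rw [MulChar.map_nonunit _ h2, sub_zero]
  have hpu : IsUnit (p : ZMod q) := (ZMod.isUnit_iff_coprime p q).2 hpq
  unfold gaussSum
  simp only [hval, sub_mul]
  rw [Finset.sum_sub_distrib, gsi_sum_zero hr hp.one_lt hq0 χ, zero_sub]
  rw [neg_mul, neg_inj]
  simp only [ite_mul, zero_mul]
  rw [← Finset.sum_filter, Finset.mul_sum]
  symm
  refine Finset.sum_bij (fun (y : ZMod q) _ => ((p * y.val : ℕ) : ZMod r)) ?_ ?_ ?_ ?_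
  · intro y _
    rw [Finset.mem_filter]
    refine ⟨Finset.mem_univ _, ?_⟩
    rw [ZMod.cast_natCast hpr]
    simp
  · intro y _ y' _ hyy
    have h1 : (((p * y.val : ℕ) : ZMod r).cast : ZMod q) = ((p * y'.val : ℕ) : ZMod r).cast :=
      congrArg (fun z : ZMod r => (z.cast : ZMod q)) hyy
    rw [ZMod.cast_natCast h, ZMod.cast_natCast h, Nat.cast_mul, Nat.cast_mul, ZMod.natCast_val,
      ZMod.natCast_val, ZMod.cast_id', id, id] at h1
    exact hpu.mul_left_cancel h1
  · intro x hx
    rw [Finset.mem_filter] at hx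
    obtain ⟨u, hu⟩ := hpu
    refine ⟨(↑u⁻¹ : ZMod q) * (x.cast : ZMod q), Finset.mem_univ _, ?_⟩
    apply hinj
    · rw [ZMod.cast_natCast h]
      rw [Nat.cast_mul, ZMod.natCast_val, ZMod.cast_id', id, ← hu, ← mul_assoc]
      simp
    · rw [ZMod.cast_natCast hpr, hx.2]
      simp
  · intro y _
    rw [ZMod.cast_natCast h]
    have h1 : (((p * y.val : ℕ)) : ZMod q) = (p : ZMod q) * y := by
      rw [Nat.cast_mul, ZMod.natCast_val, ZMod.cast_id', id]
    rw [h1, map_mul]
    have h2 : ZMod.stdAddChar (N := r) ((p * y.val : ℕ) : ZMod r) = ZMod.stdAddChar (N := q) y := by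
      have e1 := ZMod.stdAddChar_coe (N := r) ((p * y.val : ℕ) : ℤ)
      have e2 := ZMod.stdAddChar_coe (N := q) ((y.val : ℕ) : ℤ)
      rw [Int.cast_natCast] at e1 e2
      rw [e1]
      have e3 : ((y.val : ℕ) : ZMod q) = y := by rw [ZMod.natCast_val, ZMod.cast_id', id]
      rw [e3] at e2
      rw [e2]
      congr 1
      have hp0 : (p : ℂ) ≠ 0 := by exact_mod_cast hp.ne_zero
      have hq1 : (q : ℂ) ≠ 0 := by exact_mod_cast hq0.ne'
      rw [hr]
      push_cast
      field_simp
    rw [h2]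
    ring

theorem gsi_general {q : ℕ} [NeZero q] (χ : DirichletCharacter ℂ q) (m : ℕ) :
    ∀ (r : ℕ) [NeZero r] (_ : r = q * m) (h : q ∣ r), Squarefree r →
      gaussSum (DirichletCharacter.changeLevel h χ) (ZMod.stdAddChar (N := r)) =
        (ArithmeticFunction.moebius m : ℂ) * χ (m : ZMod q) *
          gaussSum χ (ZMod.stdAddChar (N := q)) := by
  induction m using induction_on_primes with
  | zero =>
    intro r hr0 hr
    exact absurd (by rw [hr, mul_zero]) (NeZero.ne r)
  | one =>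
    intro r hr0 hr h _
    rw [mul_one] at hr
    subst hr
    simp [DirichletCharacter.changeLevel_self]
  | prime_mul p a hp ih =>
    intro r hr0 hr h hsq
    have hr' : r = (q * a) * p := by rw [hr]; ring
    have hqa : NeZero (q * a) := ⟨by
      intro h0
      rw [hr', h0, zero_mul] at hsq
      exact not_squarefree_zero hsq⟩
    have hd1 : q ∣ q * a := dvd_mul_right q a
    have hd2 : q * a ∣ r := ⟨p, hr'⟩
    have hsq2 : Squarefree (q * a) := hsq.squarefree_of_dvd hd2
    have hcop : Nat.Coprime (q * a) p := by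
      rw [hr'] at hsq
      exact Nat.coprime_of_squarefree_mul hsq
    have hcp : Nat.Coprime p q := (Nat.Coprime.coprime_mul_right hcop).symm
    have hca : Nat.Coprime p a := (Nat.Coprime.coprime_mul_left hcop).symm
    have e1 : DirichletCharacter.changeLevel h χ =
        DirichletCharacter.changeLevel hd2 (DirichletCharacter.changeLevel hd1 χ) :=
      DirichletCharacter.changeLevel_trans χ hd1 hd2
    rw [e1, gsi_step hr' hp hcop.symm hd2, ih (q * a) rfl hd1 hsq2]
    have e2 : DirichletCharacter.changeLevel hd1 χ (p : ZMod (q * a)) = χ (p : ZMod q) := by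
      have hu : IsUnit (p : ZMod (q * a)) := (ZMod.isUnit_iff_coprime p (q * a)).2 hcop.symm
      obtain ⟨u, hu⟩ := hu
      rw [← hu, DirichletCharacter.changeLevel_eq_cast_of_dvd, hu, ZMod.cast_natCast hd1]
    rw [e2, ArithmeticFunction.isMultiplicative_moebius.map_mul_of_coprime hca,
      ArithmeticFunction.moebius_apply_prime hp]
    push_cast
    rw [map_mul]
    ring

theorem gaussSum_changeLevel_inv {q r : ℕ} [NeZero r] (h : q ∣ r) (hr : Squarefree r)
    {χ : DirichletCharacter ℂ q} (hχ : χ.IsPrimitive) :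
    ‖gaussSum (DirichletCharacter.changeLevel h χ)⁻¹ (ZMod.stdAddChar (N := r))‖ ≤ Real.sqrt q := by
  obtain ⟨m, hm⟩ := h
  have hq : NeZero q := ⟨by
    rintro rfl
    rw [zero_mul] at hm
    exact NeZero.ne r hm⟩
  have h : q ∣ r := ⟨m, hm⟩
  have e1 : (DirichletCharacter.changeLevel h χ)⁻¹ = DirichletCharacter.changeLevel h χ⁻¹ :=
    (map_inv _ χ).symm
  have hinv : (χ⁻¹).IsPrimitive := by
    rw [DirichletCharacter.isPrimitive_def, DirichletCharacter.conductor_inv]
    exact hχ
  have e2 : ‖gaussSum χ⁻¹ (ZMod.stdAddChar (N := q))‖ = Real.sqrt q := by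
    rw [← norm_gaussSum_sq hinv, Real.sqrt_sq (norm_nonneg _)]
  rw [e1, gsi_general χ⁻¹ m r hm h hr, norm_mul, norm_mul, e2]
  have h1 : ‖((ArithmeticFunction.moebius m : ℤ) : ℂ)‖ ≤ 1 := by
    rw [Complex.norm_intCast]
    exact_mod_cast ArithmeticFunction.abs_moebius_le_one
  have h2 : ‖χ⁻¹ (m : ZMod q)‖ ≤ 1 := DirichletCharacter.norm_le_one _ _
  have h3 : ‖((ArithmeticFunction.moebius m : ℤ) : ℂ)‖ * ‖χ⁻¹ (m : ZMod q)‖ ≤ 1 :=
    mul_le_one₀ h1 (norm_nonneg _) h2
  exact mul_le_of_le_one_left (Real.sqrt_nonneg _) h3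

theorem gaussSum_one_eq {r : ℕ} [NeZero r] (hr : Squarefree r) :
    gaussSum (1 : DirichletCharacter ℂ r) (ZMod.stdAddChar (N := r)) = (ArithmeticFunction.moebius r : ℂ) := by
  have h := gsi_general (q := 1) (1 : DirichletCharacter ℂ 1) r r (one_mul r).symm (one_dvd r) hr
  rw [map_one] at h
  rw [h]
  have h1 : gaussSum (1 : DirichletCharacter ℂ 1) (ZMod.stdAddChar (N := 1)) = 1 := by
    unfold gaussSum
    rw [Fintype.sum_eq_single (0 : ZMod 1) (fun x hx => absurd (Subsingleton.elim x 0) hx)]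
    rw [AddChar.map_zero_eq_one, mul_one]
    have : (0 : ZMod 1) = 1 := Subsingleton.elim _ _
    rw [this, map_one]
  have h2 : (1 : DirichletCharacter ℂ 1) ((r : ℕ) : ZMod 1) = 1 := by
    have : ((r : ℕ) : ZMod 1) = 1 := Subsingleton.elim _ _
    rw [this, map_one]
  rw [h1, h2, mul_one, mul_one]

end H69LB
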