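import Pool.Agent.H69.LB.Defs

/-!
# LSA: the additive large sieve (Gallagher's proof)

Let `S(t) = ∑_{n ≤ N} c n e(nt)`, `E = ∑ ‖c n‖²`.
1. `∫_u^{u+1} ‖S‖² = E` and `∫_u^{u+1} ‖S'‖² ≤ (2πN)² E` (orthogonality of `t ↦ e(nt)` on an interval of
   length one; `S'(t) = ∑ 2πi n c n e(nt)`), so `∫ ‖S‖ ‖S'‖ ≤ 2πN E` (Cauchy-Schwarz).
2. For a `C¹` function `f : ℝ → ℝ` and an interval `I` of length `d > 0` containing `θ`:
   `f θ ≤ d⁻¹ ∫_I f + ∫_I |f'|` (`f θ ≤ f t + ∫_I |f'|` for `t ∈ I`, average over `t`). Use `f = ‖S‖²`,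
   `|f'| ≤ 2 ‖S‖ ‖S'‖`.
3. The points `a/q`, `1 ≤ a ≤ q ≤ Q`, `(a,q) = 1` are distinct for distinct pairs and
   `|a/q - a'/q'| ≥ 1/(q q') ≥ 1/Q²`. The intervals `I = [a/q - 1/(2Q²), a/q + 1/(2Q²))`, of length
   `d = 1/Q²`, are disjoint and contained in `[1/Q - 1/(2Q²), 1 + 1/(2Q²)] ⊆ [u, u+1]`,
   `u = 1/Q - 1/(2Q²)` (as `1/Q ≥ 1/Q²`). Sum 2. over the points: `≤ Q² E + 4πN E ≤ (Q² + 13 N) E`.
-/

namespace H69LB

open Finset

section LSAaux

open MeasureTheory

/-- the exponential polynomial -/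
private noncomputable def LSA_S (c : ℕ → ℂ) (N : ℕ) (t : ℝ) : ℂ := ∑ n ∈ Icc 1 N, c n * ee ((n : ℝ) * t)

private lemma LSA_ee (n : ℕ) (t : ℝ) : ee ((n : ℝ) * t) = Complex.exp ((2 * Real.pi * n * Complex.I) * (t : ℂ)) := by
  unfold ee
  push_cast
  congr 1
  ring

private lemma LSA_cont (c : ℕ → ℂ) (N : ℕ) : Continuous (LSA_S c N) := by
  unfold LSA_S
  simp_rw [LSA_ee]
  fun_prop

private lemma LSA_deriv (c : ℕ → ℂ) (N : ℕ) (t : ℝ) :
    HasDerivAt (LSA_S c N) (LSA_S (fun n => c n * (2 * Real.pi * n * Complex.I)) N t) t := by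
  unfold LSA_S
  simp_rw [LSA_ee]
  apply HasDerivAt.fun_sum
  intro n _
  have h0 : HasDerivAt (fun t : ℝ => (t : ℂ)) 1 t := by
    have := (hasDerivAt_id t).ofReal_comp
    simpa using this
  have h1 : HasDerivAt (fun t : ℝ => (2 * Real.pi * n * Complex.I : ℂ) * (t : ℂ)) (2 * Real.pi * n * Complex.I : ℂ) t := by
    simpa using h0.const_mul (2 * Real.pi * n * Complex.I : ℂ)
  have h2 := (h1.cexp).const_mul (c n)
  refine h2.congr_deriv ?_
  ring

private lemma LSA_int (k : ℤ) (u : ℝ) : ∫ t in u..(u + 1), Complex.exp ((2 * Real.pi * k * Complex.I) * (t : ℂ)) = if k = 0 then 1 else 0 := by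
  split_ifs with h
  · rw [h]
    simp
  · have hc : (2 * Real.pi * k * Complex.I : ℂ) ≠ 0 := by
      have h1 : (Real.pi : ℂ) ≠ 0 := by exact_mod_cast Real.pi_ne_zero
      have h2 : (k : ℂ) ≠ 0 := by exact_mod_cast h
      have h3 := Complex.I_ne_zero
      simp [h1, h2, h3]
    rw [integral_exp_mul_complex hc]
    have : Complex.exp ((2 * Real.pi * k * Complex.I) * ((u + 1 : ℝ) : ℂ)) = Complex.exp ((2 * Real.pi * k * Complex.I) * (u : ℂ)) := by
      rw [Complex.exp_eq_exp_iff_exists_int]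
      refine ⟨k, ?_⟩
      push_cast
      ring
    rw [this, sub_self, zero_div]

private lemma LSA_orth (d : ℕ → ℂ) (N : ℕ) (u : ℝ) :
    ∫ t in u..(u + 1), ‖LSA_S d N t‖ ^ 2 = ∑ n ∈ Icc 1 N, ‖d n‖ ^ 2 := by
  have h1 : ∀ t : ℝ, ((‖LSA_S d N t‖ ^ 2 : ℝ) : ℂ) = ∑ n ∈ Icc 1 N, ∑ m ∈ Icc 1 N,
      (d n * (starRingEnd ℂ) (d m)) * Complex.exp ((2 * Real.pi * ((n : ℤ) - (m : ℤ) : ℤ) * Complex.I) * (t : ℂ)) := by
    intro t
    rw [Complex.ofReal_pow, ← Complex.mul_conj']
    unfold LSA_S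
    rw [map_sum, Finset.sum_mul_sum]
    apply Finset.sum_congr rfl
    intro n _
    apply Finset.sum_congr rfl
    intro m _
    rw [LSA_ee, LSA_ee, map_mul, ← Complex.exp_conj]
    have e : (starRingEnd ℂ) ((2 * Real.pi * m * Complex.I) * (t : ℂ)) = -((2 * Real.pi * m * Complex.I) * (t : ℂ)) := by
      simp only [map_mul, Complex.conj_ofReal, Complex.conj_I, map_natCast]
      have : (starRingEnd ℂ) 2 = 2 := by exact Complex.conj_ofNat 2
      rw [this]; ring
    rw [e]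
    have e2 : ((2 * Real.pi * ((n : ℤ) - (m : ℤ) : ℤ) * Complex.I) * (t : ℂ) : ℂ)
        = (2 * Real.pi * n * Complex.I) * (t : ℂ) + -((2 * Real.pi * m * Complex.I) * (t : ℂ)) := by
      push_cast; ring
    rw [e2, Complex.exp_add]
    ring
  apply Complex.ofReal_injective
  rw [← intervalIntegral.integral_ofReal]
  simp_rw [h1]
  rw [intervalIntegral.integral_finsetSum]
  · rw [Complex.ofReal_sum]
    apply Finset.sum_congr rfl
    intro n hn
    rw [intervalIntegral.integral_finsetSum]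
    · have h2 : ∀ m ∈ Icc 1 N, ∫ t in u..(u + 1), (d n * (starRingEnd ℂ) (d m)) *
          Complex.exp ((2 * Real.pi * ((n : ℤ) - (m : ℤ) : ℤ) * Complex.I) * (t : ℂ)) = if m = n then (d n * (starRingEnd ℂ) (d n)) else 0 := by
        intro m _
        rw [intervalIntegral.integral_const_mul, LSA_int]
        by_cases h : m = n
        · rw [if_pos (by rw [h]; ring), if_pos h, h, mul_one]
        · rw [if_neg (by intro h'; apply h; omega), if_neg h, mul_zero]
      rw [Finset.sum_congr rfl h2, Finset.sum_ite_eq' , if_pos hn, Complex.mul_conj', Complex.ofReal_pow]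
    · intro m _
      apply Continuous.intervalIntegrable
      fun_prop
  · intro n _
    apply Continuous.intervalIntegrable
    fun_prop

/-- Gallagher's inequality on an interval. -/
private lemma LSA_gal {f f' : ℝ → ℝ} (hf : ∀ t, HasDerivAt f (f' t) t) (hf' : Continuous f') (θ d : ℝ) (hd : 0 < d) :
    f θ ≤ d⁻¹ * (∫ t in (θ - d / 2)..(θ + d / 2), f t) + ∫ t in (θ - d / 2)..(θ + d / 2), |f' t| := by
  have hfc : Continuous f := continuous_iff_continuousAt.mpr fun t => (hf t).continuousAt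
  set K := ∫ t in (θ - d / 2)..(θ + d / 2), |f' t| with hK
  have h1 : ∀ t ∈ Set.Icc (θ - d / 2) (θ + d / 2), f θ ≤ f t + K := by
    intro t ht
    have h2 : ∫ s in t..θ, f' s = f θ - f t :=
      intervalIntegral.integral_eq_sub_of_hasDerivAt (fun s _ => hf s) (hf'.intervalIntegrable _ _)
    have h3 : |∫ s in t..θ, f' s| ≤ K := by
      rw [hK]
      have hc : Continuous (fun s => |f' s|) := hf'.abs
      rcases le_total t θ with h | h
      · refine (intervalIntegral.abs_integral_le_integral_abs h).trans ?_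
        apply intervalIntegral.integral_mono_interval ht.1 h (by linarith)
        · exact ae_of_all _ fun s => abs_nonneg _
        · exact hc.intervalIntegrable _ _
      · rw [intervalIntegral.integral_symm, abs_neg]
        refine (intervalIntegral.abs_integral_le_integral_abs h).trans ?_
        apply intervalIntegral.integral_mono_interval (by linarith) h ht.2
        · exact ae_of_all _ fun s => abs_nonneg _
        · exact hc.intervalIntegrable _ _
    rw [h2] at h3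
    linarith [(abs_le.mp h3).2]
  have h4 : ∫ t in (θ - d / 2)..(θ + d / 2), f θ ≤ ∫ t in (θ - d / 2)..(θ + d / 2), (f t + K) := by
    apply intervalIntegral.integral_mono_on (by linarith) (by simp) (by apply Continuous.intervalIntegrable; fun_prop) h1
  rw [intervalIntegral.integral_add (hfc.intervalIntegrable _ _) (by simp), intervalIntegral.integral_const,
    intervalIntegral.integral_const, smul_eq_mul, smul_eq_mul] at h4
  have h5 : θ + d / 2 - (θ - d / 2) = d := by ring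
  rw [h5] at h4
  have h6 : d * f θ ≤ d * (d⁻¹ * (∫ t in (θ - d / 2)..(θ + d / 2), f t) + K) := by
    rw [mul_add, ← mul_assoc, mul_inv_cancel₀ hd.ne', one_mul]
    exact h4
  exact le_of_mul_le_mul_left h6 hd

/-- sum of integrals over separated intervals -/
private lemma LSA_sum_int {ι : Type*} (P : Finset ι) (θ : ι → ℝ) (d u : ℝ) (hd : 0 < d)
    (hsep : ∀ i ∈ P, ∀ j ∈ P, i ≠ j → d ≤ |θ i - θ j|) (hin : ∀ i ∈ P, u ≤ θ i - d / 2 ∧ θ i + d / 2 ≤ u + 1)
    {f : ℝ → ℝ} (hf : Continuous f) (h0 : ∀ t, 0 ≤ f t) :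
    ∑ i ∈ P, ∫ t in (θ i - d / 2)..(θ i + d / 2), f t ≤ ∫ t in u..(u + 1), f t := by
  have h1 : ∀ i ∈ P, ∫ t in (θ i - d / 2)..(θ i + d / 2), f t = ∫ t in Set.Ioc (θ i - d / 2) (θ i + d / 2), f t := by
    intro i _
    rw [intervalIntegral.integral_of_le (by linarith)]
  rw [Finset.sum_congr rfl h1, intervalIntegral.integral_of_le (by linarith)]
  rw [← integral_biUnion_finset]
  · apply setIntegral_mono_set
    · exact (hf.intervalIntegrable u (u + 1)).1
    · exact ae_of_all _ fun t => h0 t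
    · apply LE.le.eventuallyLE
      intro t ht
      simp only [Set.mem_iUnion, exists_prop] at ht
      obtain ⟨i, hi, ht1, ht2⟩ := ht
      have := hin i hi
      exact ⟨by linarith [this.1], by linarith [this.2]⟩
  · intro i _
    exact measurableSet_Ioc
  · intro i hi j hj hij
    rw [Function.onFun, Set.disjoint_left]
    intro t ht ht'
    have h2 := hsep i hi j hj hij
    have : |θ i - θ j| < d := by
      rw [abs_lt]
      constructor
      · linarith [ht.1, ht.2, ht'.1, ht'.2]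
      · linarith [ht.1, ht.2, ht'.1, ht'.2]
    linarith
  · intro i _
    exact (hf.intervalIntegrable (θ i - d / 2) (θ i + d / 2)).1

end LSAaux

theorem LSA (Q N : ℕ) (c : ℕ → ℂ) :
    ∑ q ∈ Icc 1 Q, ∑ a ∈ (Icc 1 q).filter (fun a => Nat.Coprime a q),
      ‖∑ n ∈ Icc 1 N, c n * ee ((n : ℝ) * a / q)‖ ^ 2
        ≤ ((Q : ℝ) ^ 2 + 13 * N) * ∑ n ∈ Icc 1 N, ‖c n‖ ^ 2 := by
  set E := ∑ n ∈ Icc 1 N, ‖c n‖ ^ 2 with hE
  have hE0 : 0 ≤ E := Finset.sum_nonneg fun n _ => by positivity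
  rcases Nat.eq_zero_or_pos Q with rfl | hQ
  · simp only [Nat.cast_zero]
    rw [show Icc 1 0 = (∅ : Finset ℕ) from rfl, Finset.sum_empty]
    positivity
  rcases Nat.eq_zero_or_pos N with rfl | hN
  · have : ∀ q ∈ Icc 1 Q, ∑ a ∈ (Icc 1 q).filter (fun a => Nat.Coprime a q),
      ‖∑ n ∈ Icc 1 0, c n * ee ((n : ℝ) * a / q)‖ ^ 2 = 0 := by
      intro q _
      apply Finset.sum_eq_zero
      intro a _
      rw [show Icc 1 0 = (∅ : Finset ℕ) from rfl, Finset.sum_empty]
      simp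
    rw [Finset.sum_eq_zero this]
    positivity
  have hQ' : (1 : ℝ) ≤ Q := by exact_mod_cast hQ
  have hN' : (1 : ℝ) ≤ N := by exact_mod_cast hN
  set d : ℝ := 1 / (Q : ℝ) ^ 2 with hd
  have hd0 : 0 < d := by positivity
  set u : ℝ := 1 / Q - d / 2 with hu
  -- the set of points
  set P : Finset (Σ _ : ℕ, ℕ) := (Icc 1 Q).sigma (fun q => (Icc 1 q).filter (fun a => Nat.Coprime a q)) with hP
  set θ : (Σ _ : ℕ, ℕ) → ℝ := fun i => (i.2 : ℝ) / i.1 with hθ
  have hmem : ∀ i ∈ P, 1 ≤ i.1 ∧ i.1 ≤ Q ∧ 1 ≤ i.2 ∧ i.2 ≤ i.1 ∧ Nat.Coprime i.2 i.1 := by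
    intro i hi
    rw [hP, Finset.mem_sigma, Finset.mem_filter, Finset.mem_Icc, Finset.mem_Icc] at hi
    exact ⟨hi.1.1, hi.1.2, hi.2.1.1, hi.2.1.2, hi.2.2⟩
  have hsep : ∀ i ∈ P, ∀ j ∈ P, i ≠ j → d ≤ |θ i - θ j| := by
    intro i hi j hj hij
    obtain ⟨a1, a2, a3, a4, a5⟩ := hmem i hi
    obtain ⟨b1, b2, b3, b4, b5⟩ := hmem j hj
    have hi1 : (1 : ℝ) ≤ i.1 := by exact_mod_cast a1
    have hj1 : (1 : ℝ) ≤ j.1 := by exact_mod_cast b1
    have hi2 : (i.1 : ℝ) ≤ Q := by exact_mod_cast a2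
    have hj2 : (j.1 : ℝ) ≤ Q := by exact_mod_cast b2
    have hne : (i.2 : ℤ) * j.1 - j.2 * i.1 ≠ 0 := by
      intro h
      have h1 : i.2 * j.1 = j.2 * i.1 := by
        have : (i.2 : ℤ) * j.1 = j.2 * i.1 := by linarith
        exact_mod_cast this
      have h2 : i.1 ∣ j.1 := by
        have : i.1 ∣ i.2 * j.1 := by rw [h1]; exact Dvd.intro_left _ rfl
        exact (Nat.Coprime.symm a5).dvd_of_dvd_mul_left this
      have h3 : j.1 ∣ i.1 := by
        have : j.1 ∣ j.2 * i.1 := by rw [← h1]; exact Dvd.intro_left _ rfl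
        exact (Nat.Coprime.symm b5).dvd_of_dvd_mul_left this
      have h4 : i.1 = j.1 := Nat.dvd_antisymm h2 h3
      have h5 : i.2 = j.2 := by
        rw [h4] at h1
        exact Nat.eq_of_mul_eq_mul_right (by omega) h1
      apply hij
      obtain ⟨i1, i2⟩ := i
      obtain ⟨j1, j2⟩ := j
      simp only at h4 h5
      rw [h4, h5]
    have h6 : (1 : ℝ) ≤ |((i.2 : ℤ) * j.1 - j.2 * i.1 : ℤ)| := by
      have := Int.one_le_abs hne
      exact_mod_cast this
    have h7 : θ i - θ j = (((i.2 : ℤ) * j.1 - j.2 * i.1 : ℤ) : ℝ) / (i.1 * j.1) := by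
      simp only [hθ]
      push_cast
      field_simp
    rw [h7, abs_div, abs_of_pos (by positivity : (0 : ℝ) < i.1 * j.1), hd, div_le_div_iff₀ (by positivity) (by positivity)]
    have h8 : (i.1 : ℝ) * j.1 ≤ Q ^ 2 := by nlinarith
    have h9 : |(((i.2 : ℤ) * j.1 - j.2 * i.1 : ℤ) : ℝ)| = ((|((i.2 : ℤ) * j.1 - j.2 * i.1 : ℤ)| : ℤ) : ℝ) := by
      rw [Int.cast_abs]
    rw [h9]
    nlinarith
  have hin : ∀ i ∈ P, u ≤ θ i - d / 2 ∧ θ i + d / 2 ≤ u + 1 := by
    intro i hi
    obtain ⟨a1, a2, a3, a4, a5⟩ := hmem i hi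
    have hi1 : (1 : ℝ) ≤ i.1 := by exact_mod_cast a1
    have hi2 : (i.1 : ℝ) ≤ Q := by exact_mod_cast a2
    have hi3 : (1 : ℝ) ≤ i.2 := by exact_mod_cast a3
    have hi4 : (i.2 : ℝ) ≤ i.1 := by exact_mod_cast a4
    have h1 : (1 : ℝ) / Q ≤ θ i := by
      simp only [hθ]
      rw [div_le_div_iff₀ (by positivity) (by positivity)]
      nlinarith
    have h2 : θ i ≤ 1 := by
      simp only [hθ]
      rw [div_le_one (by positivity)]
      exact hi4
    have h3 : d ≤ 1 / Q := by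
      rw [hd, div_le_div_iff₀ (by positivity) (by positivity)]
      nlinarith
    constructor
    · rw [hu]; linarith
    · rw [hu]; linarith
  set c' : ℕ → ℂ := fun n => c n * (2 * Real.pi * n * Complex.I) with hc'
  set f : ℝ → ℝ := fun t => ‖LSA_S c N t‖ ^ 2 with hf
  set f' : ℝ → ℝ := fun t => 2 * inner ℝ (LSA_S c N t) (LSA_S c' N t) with hf'
  have hder : ∀ t, HasDerivAt f (f' t) t := fun t => (LSA_deriv c N t).norm_sq
  have hSc := LSA_cont c N
  have hSc' := LSA_cont c' N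
  have hfc : Continuous f := by rw [hf]; fun_prop
  have hfc' : Continuous f' := by
    rw [hf']
    exact continuous_const.mul (hSc.inner hSc')
  have hE1 : ∫ t in u..(u + 1), f t = E := LSA_orth c N u
  have hE2 : ∫ t in u..(u + 1), ‖LSA_S c' N t‖ ^ 2 ≤ (2 * Real.pi * N) ^ 2 * E := by
    rw [LSA_orth, hE, Finset.mul_sum]
    apply Finset.sum_le_sum
    intro n hn
    rw [Finset.mem_Icc] at hn
    have hn' : (n : ℝ) ≤ N := by exact_mod_cast hn.2
    simp only [hc']
    rw [norm_mul, mul_pow, mul_comm]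
    apply mul_le_mul_of_nonneg_right _ (by positivity)
    have : ‖(2 * Real.pi * n * Complex.I : ℂ)‖ = 2 * Real.pi * n := by
      rw [norm_mul, norm_mul, norm_mul, Complex.norm_I, mul_one, Complex.norm_real, Real.norm_eq_abs, abs_of_pos Real.pi_pos]
      simp
    rw [this]
    have := Real.pi_pos
    gcongr
  have hpi := Real.pi_pos
  have hE3 : ∫ t in u..(u + 1), |f' t| ≤ 4 * Real.pi * N * E := by
    set lam : ℝ := 2 * Real.pi * N with hlam
    have hlam0 : 0 < lam := by positivity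
    have h1 : ∫ t in u..(u + 1), |f' t| ≤ ∫ t in u..(u + 1), (lam * f t + lam⁻¹ * ‖LSA_S c' N t‖ ^ 2) := by
      apply intervalIntegral.integral_mono_on (by linarith) (hfc'.abs.intervalIntegrable _ _)
        (by apply Continuous.intervalIntegrable; fun_prop)
      intro t _
      simp only [hf', hf]
      rw [abs_mul, abs_two]
      have h2 := abs_real_inner_le_norm (LSA_S c N t) (LSA_S c' N t)
      set A := ‖LSA_S c N t‖
      set B := ‖LSA_S c' N t‖
      have hA : 0 ≤ A := norm_nonneg _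
      have hB : 0 ≤ B := norm_nonneg _
      have h3 : 2 * (A * B) ≤ lam * A ^ 2 + lam⁻¹ * B ^ 2 := by
        have h4 : 0 ≤ lam⁻¹ * (lam * A - B) ^ 2 := by positivity
        have h5 : lam⁻¹ * (lam * A - B) ^ 2 = lam * A ^ 2 - 2 * (A * B) + lam⁻¹ * B ^ 2 := by
          field_simp
          ring
        linarith
      linarith
    rw [intervalIntegral.integral_add (by apply Continuous.intervalIntegrable; fun_prop) (by apply Continuous.intervalIntegrable; fun_prop),
      intervalIntegral.integral_const_mul, intervalIntegral.integral_const_mul, hE1] at h1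
    refine h1.trans ?_
    have h6 : lam⁻¹ * (∫ t in u..(u + 1), ‖LSA_S c' N t‖ ^ 2) ≤ lam⁻¹ * (lam ^ 2 * E) :=
      mul_le_mul_of_nonneg_left hE2 (by positivity)
    have h7 : lam⁻¹ * (lam ^ 2 * E) = lam * E := by field_simp
    rw [h7] at h6
    calc lam * E + lam⁻¹ * (∫ t in u..(u + 1), ‖LSA_S c' N t‖ ^ 2) ≤ lam * E + lam * E := by linarith
      _ = 4 * Real.pi * N * E := by rw [hlam]; ring
  have hpt : ∀ i ∈ P, f (θ i) ≤ d⁻¹ * (∫ t in (θ i - d / 2)..(θ i + d / 2), f t) + ∫ t in (θ i - d / 2)..(θ i + d / 2), |f' t| :=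
    fun i _ => LSA_gal hder hfc' (θ i) d hd0
  have hsum : ∑ i ∈ P, f (θ i) ≤ d⁻¹ * E + 4 * Real.pi * N * E := by
    refine (Finset.sum_le_sum hpt).trans ?_
    rw [Finset.sum_add_distrib, ← Finset.mul_sum]
    have h1 := LSA_sum_int P θ d u hd0 hsep hin hfc (fun t => by simp only [hf]; positivity)
    have h2 := LSA_sum_int P θ d u hd0 hsep hin hfc'.abs (fun t => abs_nonneg _)
    rw [hE1] at h1
    have h3 : d⁻¹ * (∑ i ∈ P, ∫ t in (θ i - d / 2)..(θ i + d / 2), f t) ≤ d⁻¹ * E :=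
      mul_le_mul_of_nonneg_left h1 (by positivity)
    linarith
  have hLHS : ∑ q ∈ Icc 1 Q, ∑ a ∈ (Icc 1 q).filter (fun a => Nat.Coprime a q),
      ‖∑ n ∈ Icc 1 N, c n * ee ((n : ℝ) * a / q)‖ ^ 2 = ∑ i ∈ P, f (θ i) := by
    rw [hP, Finset.sum_sigma]
    apply Finset.sum_congr rfl
    intro q _
    apply Finset.sum_congr rfl
    intro a _
    simp only [hf, hθ]
    unfold LSA_S
    congr 2
    apply Finset.sum_congr rfl
    intro n _
    rw [mul_div_assoc]
  rw [hLHS]
  refine hsum.trans ?_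
  have h1 : d⁻¹ = (Q : ℝ) ^ 2 := by rw [hd]; simp
  rw [h1]
  have h2 : 4 * Real.pi * N * E ≤ 13 * N * E := by
    have h3 : 4 * Real.pi ≤ 13 := by linarith [Real.pi_lt_d2]
    have h4 : 0 ≤ (N : ℝ) * E := by positivity
    nlinarith
  linarith

end H69LB
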