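import Pool.Agent.H69.LB.Gsi
import Pool.Agent.H69.LB.Exd

/-!
# RED: reduction of one denominator to primitive characters

Let `r` be squarefree, `r ≤ x e^{-M}`. In `thW` only primes `p` with `W(log(p/x)) ≠ 0` matter, and for those
`log(p/x) > -M`, so `p > x e^{-M} ≥ r` and `p` is coprime to `r`. Let `a` be coprime to `r`. By `expand_char`
(as functions of `n = p`)
`thW (e(-·a/r)) = φ(r)^{-1} ∑_χ τ(χ⁻¹) χ(-1) χ(a) thW(χ)`, the sum over all characters modulo `r`.
Sum over `a` (`A_r(χ) = ∑_{a ∈ Ioc A1 A2, (a,r)=1} χ(a)`). The character `χ = 1` contributes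
`φ(r)^{-1} μ(r) #{a} thW(1)` (`gaussSum_one_eq`; `χ(a) = χ(p) = χ(-1) = 1`). The others contribute at most
`φ(r)^{-1} ∑_{χ ≠ 1} ‖τ(χ⁻¹)‖ ‖A_r(χ)‖ ‖thW(χ)‖` (`‖χ(-1)‖ = 1`). Apply `sum_le_cover` with
`G q χ = √q ‖∑_{a ∈ Ioc A1 A2, (a, r/q) = 1} χ(a)‖ ‖thW χ‖`: for `ψ = changeLevel h χ`, `χ ∈ pc q`, `q ∣ r`:
`‖τ(ψ⁻¹)‖ ≤ √q` (`gaussSum_changeLevel_inv`); for `a` coprime to `r`, `ψ(a) = χ(a)`
(`DirichletCharacter.changeLevel_eq_cast_of_dvd'`); and for `a` coprime to `r/q` but not to `r`, `a` is not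
coprime to `q` and `χ(a) = 0`; so the `a`-sums agree; for the relevant primes `ψ(p) = χ(p)`, so `thW ψ = thW χ`.
-/

namespace H69LB

open Finset

/-- only primes coprime to `r` matter -/
private theorem RED_thW_congr {M : ℝ} {W : ℝ → ℝ} (hW : WS M W) {x : ℝ} (hx : 0 < x) {r : ℕ}
    (hr0 : r ≠ 0) (hrx : (r : ℝ) ≤ x * Real.exp (-M)) {g g' : ℕ → ℂ}
    (h : ∀ p : ℕ, p.Prime → p.Coprime r → g p = g' p) : thW W M x g = thW W M x g' := by
  unfold thW
  refine sum_congr rfl fun p hp => ?_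
  have hpp : p.Prime := (mem_filter.1 hp).2
  have hp0 : (0 : ℝ) < p := by exact_mod_cast hpp.pos
  by_cases hw : W (Real.log (p / x)) = 0
  · simp [hw]
  · have h1 : |Real.log (p / x)| < M := by
      by_contra hc
      exact hw (hW.zero _ (not_lt.1 hc))
    have h2 : -M < Real.log (p / x) := (abs_lt.1 h1).1
    have h3 : Real.exp (-M) < p / x := (Real.lt_log_iff_exp_lt (div_pos hp0 hx)).1 h2
    have h4 : x * Real.exp (-M) < p := by
      rw [lt_div_iff₀ hx] at h3
      linarith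
    have h5 : r < p := by exact_mod_cast lt_of_le_of_lt hrx h4
    have h6 : p.Coprime r := by
      rw [Nat.Prime.coprime_iff_not_dvd hpp]
      intro hd
      exact absurd (Nat.le_of_dvd (Nat.pos_of_ne_zero hr0) hd) (not_le.2 h5)
    rw [h p hpp h6]

private theorem RED_thW_sum {ι : Type*} (W : ℝ → ℝ) (M x : ℝ) (s : Finset ι) (c : ι → ℂ)
    (g : ι → ℕ → ℂ) :
    thW W M x (fun n => ∑ i ∈ s, c i * g i n) = ∑ i ∈ s, c i * thW W M x (g i) := by
  unfold thW
  simp only [mul_sum]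
  rw [sum_comm]
  refine sum_congr rfl fun i _ => sum_congr rfl fun p _ => ?_
  ring

private theorem RED_changeLevel {q r : ℕ} (h : q ∣ r) (χ : DirichletCharacter ℂ q) {n : ℕ}
    (hn : n.Coprime r) : DirichletCharacter.changeLevel h χ (n : ZMod r) = χ (n : ZMod q) := by
  have h1 := DirichletCharacter.changeLevel_eq_cast_of_dvd' χ h (a := (n : ℤ))
    (by exact_mod_cast Nat.isCoprime_iff_coprime.2 hn)
  simpa using h1

private theorem RED_zero {q : ℕ} (χ : DirichletCharacter ℂ q) {n : ℕ}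
    (hn : ¬ n.Coprime q) : χ (n : ZMod q) = 0 := by
  apply χ.map_nonunit
  rwa [ZMod.isUnit_iff_coprime]

theorem red {M : ℝ} (hM : 0 < M) {W : ℝ → ℝ} (hW : WS M W) {x : ℝ} (hx : 0 < x) {r : ℕ} (hr : Squarefree r)
    (hrx : (r : ℝ) ≤ x * Real.exp (-M)) (A1 A2 : ℕ) :
    ‖(∑ a ∈ (Ioc A1 A2).filter (fun a => Nat.Coprime a r), thW W M x (fun n => ee (-((n : ℝ) * a / r))))
        - (((ArithmeticFunction.moebius r : ℝ) / (Nat.totient r : ℝ) : ℝ) : ℂ) *
          (((Ioc A1 A2).filter (fun a => Nat.Coprime a r)).card : ℂ) * thW W M x (fun _ => 1)‖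
      ≤ (Nat.totient r : ℝ)⁻¹ * ∑ q ∈ r.divisors.erase 1, Real.sqrt q * ∑ χ ∈ pc q,
        ‖∑ a ∈ (Ioc A1 A2).filter (fun a => Nat.Coprime a (r / q)), χ a‖ *
          ‖thW W M x (fun n => χ n)‖ := by
  have hr0 : r ≠ 0 := hr.ne_zero
  have : NeZero r := ⟨hr0⟩
  set S : Finset ℕ := (Ioc A1 A2).filter (fun a => Nat.Coprime a r) with hS
  have hcop : ∀ a ∈ S, a.Coprime r := fun a ha => (mem_filter.1 ha).2
  have e1 : ∀ a ∈ S, thW W M x (fun n => ee (-((n : ℝ) * a / r)))
      = ∑ χ : DirichletCharacter ℂ r, ((Nat.totient r : ℂ)⁻¹ *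
          (gaussSum χ⁻¹ (ZMod.stdAddChar (N := r)) * (χ (-1) * χ a))) * thW W M x (fun n => χ n) := by
    intro a ha
    rw [← RED_thW_sum]
    apply RED_thW_congr hW hx hr0 hrx
    intro p _ hpr
    rw [expand_char hpr (hcop a ha), mul_sum]
    refine sum_congr rfl fun χ _ => ?_
    ring
  have e2 : ∑ a ∈ S, thW W M x (fun n => ee (-((n : ℝ) * a / r)))
      = ∑ χ : DirichletCharacter ℂ r, ((Nat.totient r : ℂ)⁻¹ *
          (gaussSum χ⁻¹ (ZMod.stdAddChar (N := r)) * (χ (-1) * ∑ a ∈ S, χ a))) *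
            thW W M x (fun n => χ n) := by
    rw [sum_congr rfl e1, sum_comm]
    refine sum_congr rfl fun χ _ => ?_
    rw [← sum_mul, ← mul_sum, ← mul_sum, ← mul_sum]
  have e3 : ((Nat.totient r : ℂ)⁻¹ *
          (gaussSum (1 : DirichletCharacter ℂ r)⁻¹ (ZMod.stdAddChar (N := r)) *
            ((1 : DirichletCharacter ℂ r) (-1) * ∑ a ∈ S, (1 : DirichletCharacter ℂ r) a))) *
            thW W M x (fun n => (1 : DirichletCharacter ℂ r) n)
      = (((ArithmeticFunction.moebius r : ℝ) / (Nat.totient r : ℝ) : ℝ) : ℂ) *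
          (S.card : ℂ) * thW W M x (fun _ => 1) := by
    have a1 : ∑ a ∈ S, (1 : DirichletCharacter ℂ r) a = (S.card : ℂ) := by
      rw [card_eq_sum_ones, Nat.cast_sum]
      refine sum_congr rfl fun a ha => ?_
      rw [MulChar.one_apply ((ZMod.isUnit_iff_coprime a r).2 (hcop a ha))]
      simp
    have a2 : (1 : DirichletCharacter ℂ r) (-1) = 1 := MulChar.one_apply isUnit_one.neg
    have a3 : thW W M x (fun n => (1 : DirichletCharacter ℂ r) n) = thW W M x (fun _ => 1) := by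
      apply RED_thW_congr hW hx hr0 hrx
      intro p _ hpr
      exact MulChar.one_apply ((ZMod.isUnit_iff_coprime p r).2 hpr)
    rw [a1, a2, a3, inv_one, gaussSum_one_eq hr]
    push_cast
    ring
  classical
  rw [e2, ← add_sum_erase univ _ (mem_univ (1 : DirichletCharacter ℂ r)), e3, add_sub_cancel_left]
  refine (norm_sum_le _ _).trans ?_
  have e4 : ∀ χ : DirichletCharacter ℂ r, ‖((Nat.totient r : ℂ)⁻¹ *
          (gaussSum χ⁻¹ (ZMod.stdAddChar (N := r)) * (χ (-1) * ∑ a ∈ S, χ a))) *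
            thW W M x (fun n => χ n)‖
      = (Nat.totient r : ℝ)⁻¹ * (‖gaussSum χ⁻¹ (ZMod.stdAddChar (N := r))‖ *
          (‖∑ a ∈ S, χ a‖ * ‖thW W M x (fun n => χ n)‖)) := by
    intro χ
    have b1 : ‖χ (-1)‖ = 1 := by
      have := DirichletCharacter.unit_norm_eq_one χ (-1 : (ZMod r)ˣ)
      simpa using this
    have b2 : ‖(Nat.totient r : ℂ)⁻¹‖ = (Nat.totient r : ℝ)⁻¹ := by
      rw [norm_inv, Complex.norm_natCast]
    rw [norm_mul, norm_mul, norm_mul, norm_mul, b1, b2]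
    ring
  simp only [e4]
  rw [← mul_sum]
  refine mul_le_mul_of_nonneg_left ?_ (by positivity)
  refine (sum_le_cover _ (fun q χ => Real.sqrt q *
    (‖∑ a ∈ (Ioc A1 A2).filter (fun a => Nat.Coprime a (r / q)), χ a‖ *
      ‖thW W M x (fun n => χ n)‖)) (fun q χ => by positivity) ?_).trans (le_of_eq ?_)
  · intro q h χ hχ
    have hχp : χ.IsPrimitive := (mem_filter.1 hχ).2.1
    have c1 : ∑ a ∈ S, DirichletCharacter.changeLevel h χ (a : ZMod r)
        = ∑ a ∈ (Ioc A1 A2).filter (fun a => Nat.Coprime a (r / q)), χ (a : ZMod q) := by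
      have d1 : ∑ a ∈ S, DirichletCharacter.changeLevel h χ (a : ZMod r)
          = ∑ a ∈ S, χ (a : ZMod q) :=
        sum_congr rfl fun a ha => RED_changeLevel h χ (hcop a ha)
      rw [d1]
      apply sum_subset
      · intro a ha
        rw [hS, mem_filter] at ha
        rw [mem_filter]
        exact ⟨ha.1, ha.2.coprime_dvd_right (Nat.div_dvd_of_dvd h)⟩
      · intro a ha hna
        rw [mem_filter] at ha
        apply RED_zero
        intro haq
        apply hna
        rw [hS, mem_filter]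
        refine ⟨ha.1, ?_⟩
        have := Nat.Coprime.mul_right haq ha.2
        rwa [Nat.mul_div_cancel' h] at this
    have c2 : thW W M x (fun n => DirichletCharacter.changeLevel h χ (n : ZMod r))
        = thW W M x (fun n => χ (n : ZMod q)) := by
      apply RED_thW_congr hW hx hr0 hrx
      intro p _ hpr
      exact RED_changeLevel h χ hpr
    simp only [c1, c2]
    exact mul_le_mul_of_nonneg_right (gaussSum_changeLevel_inv h hr hχp) (by positivity)
  · refine sum_congr rfl fun q _ => ?_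
    rw [← mul_sum]

end H69LB
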