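import Pool.Agent.H69.LB.Exb
import Pool.Agent.H69.LB.Zta
import Pool.Agent.H69.LB.Dof
import Pool.Agent.H69.LB.Co3

/-!
# ZPR: the zeros in terms of the primes

`W = Wof χ`, `x = T^α`, `y = log x`, `h = T^(α-1)`, `F1 = Fof (bP χ P T α) y` (`Fof_eq`; smooth, compact support, `F1 ξ = 0` for
`ξ ≤ y - M`, and `y - M ≥ 1` for `T` large). `expl` gives `∑' w_i PsiF F1 (γ_i) = ∫ F1 e^{ξ/2} - ∑' Λ(n) n^{-1/2} F1(log n) + error`:
* error `≤ C ∫ ‖F1‖ e^{-ξ/2} ≤ C ∑|c_p| ∫ W ≤ C L² T^{1/2}` (`sum_abs_cf`);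
* `∫ F1 e^{ξ/2} = -2π x ∑ c_p ∫ W(η) e^η ee(-(x θ_p e^η)) dη`, and `x θ_p ≥ x δ/(2 cH h) = c T` (`mem_Th`), so `dof` with `K = 3` gives
  `≤ C x (L² T^{1/2}/h) T^{-3} ≤ 1`;
* `-∑' Λ(n) n^{-1/2} F1(log n) = 2π ∑_p c_p psW W M x (ee(-(n θ_p)))` (`log n - y = log(n/x)`, `W = 0` for `n > NN M x`), and
  `psW_sub_thW`: the difference to `thW` is `≤ 2π ∑|c_p| C √x (1+log x) ≤ C L³ T^{1/2-ε} h^{-1} (h T)^{1/2} ≤ C L³ T^{1-ε}`.
All errors together are `≤ T` for `T` large.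

`zside`: subtract the zeros outside `(0, T]`: `∑_{i ∈ F T} = ∑' - ∑'_{i ∉ F T}` (summable), and by `tail_zeros`, `mem_F`
`‖∑'_{i ∉ F T} w_i PsiF‖ ≤ C L² T^{1-ε} ∑' w_i/(1+γ_i²) ≤ C' L² T^{1-ε} ≤ T` (`boundW` at `t = 0`).
-/

open MeasureTheory

namespace H69LB

private theorem zpr_ee (t : ℝ) : ‖ee t‖ = 1 := by
  unfold ee
  have h : (2 * (Real.pi : ℂ) * t * Complex.I) = ((2 * Real.pi * t : ℝ) : ℂ) * Complex.I := by
    push_cast
    ring
  rw [h]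
  exact Complex.norm_exp_ofReal_mul_I _

private theorem zpr_ee_cont : Continuous ee := by
  unfold ee
  fun_prop

private theorem zpr_growth {C ε : ℝ} (M : ℝ) (hε : 0 < ε) (hC : 0 ≤ C) : ∃ T0 : ℝ, ∀ T, T0 ≤ T →
    1 ≤ T ∧ 1 ≤ Real.log T ∧ M ≤ Real.log T ∧ C * Real.log T ^ 3 * T ^ (1 - ε) ≤ T := by
  have h1 : ∀ᶠ T : ℝ in Filter.atTop, 1 ≤ Real.log T := Real.tendsto_log_atTop.eventually_ge_atTop 1
  have h2 : ∀ᶠ T : ℝ in Filter.atTop, M ≤ Real.log T := Real.tendsto_log_atTop.eventually_ge_atTop _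
  have h3 : ∀ᶠ T : ℝ in Filter.atTop, ‖Real.log T ^ (3 : ℝ)‖ ≤ (1 / (1 + C)) * ‖T ^ ε‖ :=
    (isLittleO_log_rpow_rpow_atTop 3 hε).bound (by positivity)
  obtain ⟨T0, hT0⟩ := Filter.eventually_atTop.1 (h1.and (h2.and h3))
  refine ⟨max T0 1, fun T hT => ?_⟩
  obtain ⟨h1, h2, h3⟩ := hT0 T ((le_max_left _ _).trans hT)
  have hT1 : 1 ≤ T := (le_max_right _ _).trans hT
  refine ⟨hT1, h1, h2, ?_⟩
  have hTp : 0 < T := by linarith
  rw [show (3 : ℝ) = ((3 : ℕ) : ℝ) by norm_num, Real.rpow_natCast, Real.norm_of_nonneg (by positivity),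
    Real.norm_of_nonneg (by positivity), one_div, inv_mul_eq_div, le_div_iff₀ (by positivity)] at h3
  have h4 : T ^ (1 - ε) * T ^ ε = T := by
    rw [← Real.rpow_add hTp]; simp
  have h5 : 0 < T ^ (1 - ε) := by positivity
  have h6 : C * Real.log T ^ 3 ≤ T ^ ε := by
    have : 0 ≤ Real.log T ^ 3 := by positivity
    nlinarith
  calc C * Real.log T ^ 3 * T ^ (1 - ε) ≤ T ^ ε * T ^ (1 - ε) := by gcongr
    _ = T := by rw [mul_comm, h4]

private theorem zpr_int {M : ℝ} {W : ℝ → ℝ} (hW : WS M W) {g : ℝ → ℂ} (hg : Continuous g) :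
    Integrable fun η => ((W η : ℝ) : ℂ) * g η := by
  have hc : Continuous fun η => ((W η : ℝ) : ℂ) * g η :=
    (Complex.continuous_ofReal.comp hW.smooth.continuous).mul hg
  refine hc.integrable_of_hasCompactSupport ?_
  refine HasCompactSupport.intro (isCompact_Icc (a := -M) (b := M)) fun x hx => ?_
  have h : M ≤ |x| := by
    by_contra h
    push Not at h
    exact hx ⟨(abs_lt.mp h).1.le, (abs_lt.mp h).2.le⟩
  rw [hW.zero x h, Complex.ofReal_zero, zero_mul]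

private theorem zpr_norm_le (χ : ℝ → ℝ) (P : Par) (T α ξ : ℝ) :
    ‖Fof (bP χ P T α) (α * Real.log T) ξ‖ * Real.exp (-(ξ / 2)) ≤
      2 * Real.pi * (∑ p ∈ Th P T α, |cf p|) * |Wof χ (ξ - α * Real.log T)| := by
  rw [Fof_eq, norm_neg, norm_mul, Complex.norm_real, Real.norm_eq_abs]
  have h1 : ‖∑ p ∈ Th P T α, (cf p : ℂ) * ee (-((p.1 : ℝ) / p.2 * Real.exp ξ))‖
      ≤ ∑ p ∈ Th P T α, |cf p| := by
    refine norm_sum_le_of_le _ fun p _ => ?_
    rw [norm_mul, zpr_ee, mul_one, Complex.norm_real, Real.norm_eq_abs]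
  have h2 : |2 * Real.pi * Real.exp (ξ / 2) * Wof χ (ξ - α * Real.log T)|
      = 2 * Real.pi * Real.exp (ξ / 2) * |Wof χ (ξ - α * Real.log T)| := by
    rw [abs_mul, abs_of_pos (by positivity)]
  rw [h2]
  have h3 : Real.exp (ξ / 2) * Real.exp (-(ξ / 2)) = 1 := by
    rw [← Real.exp_add, add_neg_cancel, Real.exp_zero]
  calc 2 * Real.pi * Real.exp (ξ / 2) * |Wof χ (ξ - α * Real.log T)| *
        ‖∑ p ∈ Th P T α, (cf p : ℂ) * ee (-((p.1 : ℝ) / p.2 * Real.exp ξ))‖ * Real.exp (-(ξ / 2))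
      = 2 * Real.pi * ‖∑ p ∈ Th P T α, (cf p : ℂ) * ee (-((p.1 : ℝ) / p.2 * Real.exp ξ))‖ *
        |Wof χ (ξ - α * Real.log T)| * (Real.exp (ξ / 2) * Real.exp (-(ξ / 2))) := by ring
    _ ≤ 2 * Real.pi * (∑ p ∈ Th P T α, |cf p|) * |Wof χ (ξ - α * Real.log T)| * 1 := by
        rw [h3]
        gcongr
    _ = _ := by ring

private theorem zpr_err {M : ℝ} {χ : ℝ → ℝ} (hW : WS M (Wof χ)) (P : Par) (T α : ℝ) :
    ∫ ξ, ‖Fof (bP χ P T α) (α * Real.log T) ξ‖ * Real.exp (-(ξ / 2)) ≤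
      2 * Real.pi * (∑ p ∈ Th P T α, |cf p|) * ∫ η, |Wof χ η| := by
  have hi : Integrable fun η => |Wof χ η| := by
    have h := (zpr_int hW (g := fun _ => 1) continuous_const).norm
    refine h.congr (Filter.Eventually.of_forall fun η => ?_)
    simp only [mul_one, Complex.norm_real, Real.norm_eq_abs]
  have h2 := integral_sub_right_eq_self (μ := volume) (fun η => |Wof χ η|) (α * Real.log T)
  rw [← h2, ← integral_const_mul]
  refine integral_mono_of_nonneg (Filter.Eventually.of_forall fun ξ => by positivity) ?_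
    (Filter.Eventually.of_forall fun ξ => zpr_norm_le χ P T α ξ)
  exact (hi.comp_sub_right (α * Real.log T)).const_mul _

private theorem zpr_pole_eq {M : ℝ} {χ : ℝ → ℝ} (hW : WS M (Wof χ)) (P : Par) {T : ℝ} (hT : 0 < T) (α : ℝ) :
    ∫ ξ, Fof (bP χ P T α) (α * Real.log T) ξ * ((Real.exp (ξ / 2) : ℝ) : ℂ) =
      -(2 * Real.pi * ((T ^ α : ℝ) : ℂ)) * ∑ p ∈ Th P T α, (cf p : ℂ) *
        ∫ η, ((Wof χ η * Real.exp η : ℝ) : ℂ) * ee (-(T ^ α * ((p.1 : ℝ) / p.2)) * Real.exp η) := by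
  set g : ℝ → ℂ := fun η => -(2 * Real.pi * ((T ^ α : ℝ) : ℂ)) * ∑ p ∈ Th P T α, (cf p : ℂ) *
    (((Wof χ η * Real.exp η : ℝ) : ℂ) * ee (-(T ^ α * ((p.1 : ℝ) / p.2)) * Real.exp η)) with hg
  have hy : Real.exp (α * Real.log T) = T ^ α := by
    rw [Real.rpow_def_of_pos hT, mul_comm]
  have h1 : ∀ ξ, Fof (bP χ P T α) (α * Real.log T) ξ * ((Real.exp (ξ / 2) : ℝ) : ℂ) =
      g (ξ - α * Real.log T) := by
    intro ξ
    rw [Fof_eq, hg]
    simp only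
    have h2 : Real.exp ξ = T ^ α * Real.exp (ξ - α * Real.log T) := by
      rw [← hy, ← Real.exp_add]; congr 1; ring
    have h3 : ((Real.exp (ξ / 2) : ℝ) : ℂ) * ((Real.exp (ξ / 2) : ℝ) : ℂ) =
        ((T ^ α : ℝ) : ℂ) * ((Real.exp (ξ - α * Real.log T) : ℝ) : ℂ) := by
      rw [← Complex.ofReal_mul, ← Complex.ofReal_mul, ← h2, ← Real.exp_add]; congr 2; ring
    have h4 : ∀ p : ℕ × ℕ, ee (-(T ^ α * ((p.1 : ℝ) / p.2)) * Real.exp (ξ - α * Real.log T)) =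
        ee (-((p.1 : ℝ) / p.2 * Real.exp ξ)) := by
      intro p
      rw [h2]; congr 1; ring
    simp only [h4]
    rw [Finset.mul_sum, Finset.mul_sum, neg_mul, Finset.sum_mul, ← Finset.sum_neg_distrib]
    refine Finset.sum_congr rfl fun p _ => ?_
    push_cast
    push_cast at h3
    linear_combination (-(2 * (Real.pi : ℂ) * (Wof χ (ξ - α * Real.log T) : ℂ) * (cf p : ℂ) *
      ee (-((p.1 : ℝ) / p.2 * Real.exp ξ)))) * h3
  rw [integral_congr_ae (Filter.Eventually.of_forall h1),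
    integral_sub_right_eq_self (μ := volume) g (α * Real.log T), hg]
  rw [integral_const_mul, integral_finsetSum]
  · congr 1
    refine Finset.sum_congr rfl fun p _ => ?_
    rw [integral_const_mul]
  · intro p _
    refine Integrable.const_mul ?_ _
    have hc : Continuous fun η : ℝ => ((Real.exp η : ℝ) : ℂ) *
        ee (-(T ^ α * ((p.1 : ℝ) / p.2)) * Real.exp η) := by
      refine (by fun_prop : Continuous fun η : ℝ => ((Real.exp η : ℝ) : ℂ)).mul ?_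
      exact zpr_ee_cont.comp (by fun_prop)
    refine (zpr_int hW hc).congr (Filter.Eventually.of_forall fun η => ?_)
    simp only
    push_cast
    ring

private theorem zpr_tsum {M : ℝ} {χ : ℝ → ℝ} (hM : 0 < M) (hW : WS M (Wof χ)) (P : Par) {T : ℝ} (hT : 0 < T)
    (α : ℝ) :
    ∑' n : ℕ, ((ArithmeticFunction.vonMangoldt n * (n : ℝ) ^ (-(1 / 2) : ℝ) : ℝ) : ℂ) *
      Fof (bP χ P T α) (α * Real.log T) (Real.log n) =
    -(2 * Real.pi) * ∑ p ∈ Th P T α, (cf p : ℂ) *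
      psW (Wof χ) M (T ^ α) (fun n => ee (-((n : ℝ) * p.1 / p.2))) := by
  have hx : 0 < T ^ α := Real.rpow_pos_of_pos hT α
  have hlx : Real.log (T ^ α) = α * Real.log T := Real.log_rpow hT α
  rw [tsum_eq_sum (s := Finset.Icc 1 (NN M (T ^ α)))]
  · unfold psW
    simp only [Finset.mul_sum]
    rw [Finset.sum_comm]
    refine Finset.sum_congr rfl fun n hn => ?_
    rw [Finset.mem_Icc] at hn
    have hn0 : (0 : ℝ) < n := by exact_mod_cast hn.1
    rw [Fof_eq, Real.log_div hn0.ne' hx.ne', hlx, Real.exp_log hn0, Finset.mul_sum, ← Finset.sum_neg_distrib,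
      Finset.mul_sum]
    refine Finset.sum_congr rfl fun p _ => ?_
    have h1 : (n : ℝ) ^ (-(1 / 2) : ℝ) * Real.exp (Real.log n / 2) = 1 := by
      rw [Real.rpow_def_of_pos hn0, ← Real.exp_add]
      rw [show Real.log n * (-(1 / 2)) + Real.log n / 2 = 0 by ring, Real.exp_zero]
    have h2 : (((n : ℝ) ^ (-(1 / 2) : ℝ) : ℝ) : ℂ) * ((Real.exp (Real.log n / 2) : ℝ) : ℂ) = 1 := by
      rw [← Complex.ofReal_mul, h1, Complex.ofReal_one]
    have h3 : (n : ℝ) * p.1 / p.2 = (p.1 : ℝ) / p.2 * n := by ring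
    rw [h3]
    push_cast at h2 ⊢
    linear_combination (-(2 * (Real.pi : ℂ) * (ArithmeticFunction.vonMangoldt n : ℂ) *
      (Wof χ (Real.log n - α * Real.log T) : ℂ) * (cf p : ℂ) * ee (-((p.1 : ℝ) / p.2 * n)))) * h2
  · intro n hn
    rcases Nat.eq_zero_or_pos n with rfl | h0
    · simp
    · have h1 : NN M (T ^ α) < n := by
        by_contra h
        exact hn (Finset.mem_Icc.2 ⟨h0, not_lt.1 h⟩)
      have hn0 : (0 : ℝ) < n := by exact_mod_cast h0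
      have h2 : T ^ α * Real.exp M < n := (Nat.floor_lt (by positivity)).1 h1
      have h3 : α * Real.log T + M ≤ Real.log n := by
        have h4 := Real.log_le_log (by positivity) h2.le
        rwa [Real.log_mul hx.ne' (Real.exp_pos M).ne', Real.log_exp, hlx] at h4
      have h5 : Wof χ (Real.log n - α * Real.log T) = 0 := by
        refine hW.zero _ ?_
        rw [abs_of_nonneg (by linarith)]
        linarith
      rw [Fof_eq, h5]
      simp

private theorem zpr_F_zero {η1 η2 : ℝ} {χ : ℝ → ℝ} (h : Pc η1 η2 χ) (P : Par) {M : ℝ} (hM1 : -M ≤ η1)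
    {T α ξ : ℝ} (h2 : ξ ≤ α * Real.log T - M) : Fof (bP χ P T α) (α * Real.log T) ξ = 0 := by
  have h5 : Wof χ (ξ - α * Real.log T) = 0 := by
    unfold Wof
    rw [h.zero _ (Or.inl (by linarith)), mul_zero]
  rw [Fof_eq, h5]
  simp

private theorem zpr_compact {η1 η2 : ℝ} {χ : ℝ → ℝ} (h : Pc η1 η2 χ) (P : Par) (T α : ℝ) :
    HasCompactSupport (Fof (bP χ P T α) (α * Real.log T)) := by
  refine HasCompactSupport.intro (isCompact_Icc (a := η1 + α * Real.log T) (b := η2 + α * Real.log T))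
    fun ξ hξ => ?_
  have h5 : Wof χ (ξ - α * Real.log T) = 0 := by
    unfold Wof
    rw [h.zero _, mul_zero]
    rw [Set.mem_Icc, not_and_or, not_le, not_le] at hξ
    rcases hξ with h1 | h1
    · left; linarith
    · right; linarith
  rw [Fof_eq, h5]
  simp

private theorem zpr_pows {b ε C : ℝ} (hb : 1 ≤ b) (hC : 0 ≤ C) {T α : ℝ} (hT : 1 ≤ T) (hL : 1 ≤ Real.log T)
    (hα : α ∈ Set.Icc 1 b) :
    C * Real.log T ^ 2 * T ^ (1 / 2 - ε) / T ^ (α - 1) ≤ C * (Real.log T ^ 3 * T ^ (1 - ε)) ∧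
    T ^ α * (C * Real.log T ^ 2 * T ^ (1 / 2 - ε) / T ^ (α - 1)) / T ^ 3 ≤ C * (Real.log T ^ 3 * T ^ (1 - ε)) ∧
    (C * Real.log T ^ 2 * T ^ (1 / 2 - ε) / T ^ (α - 1)) * (Real.sqrt (T ^ α) * (1 + Real.log (T ^ α))) ≤
      C * (1 + b) * (Real.log T ^ 3 * T ^ (1 - ε)) := by
  obtain ⟨ha1, ha2⟩ := hα
  have hTp : 0 < T := by linarith
  have hL2 : Real.log T ^ 2 ≤ Real.log T ^ 3 := pow_le_pow_right₀ hL (by norm_num)
  have e1 : T ^ (1 / 2 - ε) / T ^ (α - 1) = T ^ (1 / 2 - ε - (α - 1)) := (Real.rpow_sub hTp _ _).symm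
  have e2 : T ^ α * (T ^ (1 / 2 - ε) / T ^ (α - 1)) / T ^ 3 = T ^ (-(3 / 2) - ε) := by
    rw [e1, ← Real.rpow_natCast T 3, ← Real.rpow_add hTp, ← Real.rpow_sub hTp]
    congr 1
    push_cast
    ring
  have e3 : (T ^ (1 / 2 - ε) / T ^ (α - 1)) * Real.sqrt (T ^ α) = T ^ (3 / 2 - ε - α / 2) := by
    rw [e1, Real.sqrt_eq_rpow, ← Real.rpow_mul hTp.le, ← Real.rpow_add hTp]
    congr 1
    ring
  have g1 : T ^ (1 / 2 - ε - (α - 1)) ≤ T ^ (1 - ε) := Real.rpow_le_rpow_of_exponent_le hT (by linarith)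
  have g2 : T ^ (-(3 / 2) - ε) ≤ T ^ (1 - ε) := Real.rpow_le_rpow_of_exponent_le hT (by linarith)
  have g3 : T ^ (3 / 2 - ε - α / 2) ≤ T ^ (1 - ε) := Real.rpow_le_rpow_of_exponent_le hT (by linarith)
  refine ⟨?_, ?_, ?_⟩
  · calc C * Real.log T ^ 2 * T ^ (1 / 2 - ε) / T ^ (α - 1)
        = C * (Real.log T ^ 2 * (T ^ (1 / 2 - ε) / T ^ (α - 1))) := by ring
      _ ≤ C * (Real.log T ^ 3 * T ^ (1 - ε)) := by rw [e1]; gcongr
  · calc T ^ α * (C * Real.log T ^ 2 * T ^ (1 / 2 - ε) / T ^ (α - 1)) / T ^ 3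
        = C * (Real.log T ^ 2 * (T ^ α * (T ^ (1 / 2 - ε) / T ^ (α - 1)) / T ^ 3)) := by ring
      _ ≤ C * (Real.log T ^ 3 * T ^ (1 - ε)) := by rw [e2]; gcongr
  · rw [Real.log_rpow hTp]
    have h1 : 1 + α * Real.log T ≤ (1 + b) * Real.log T := by nlinarith
    calc (C * Real.log T ^ 2 * T ^ (1 / 2 - ε) / T ^ (α - 1)) * (Real.sqrt (T ^ α) * (1 + α * Real.log T))
        = C * (Real.log T ^ 2 * (1 + α * Real.log T) *
          ((T ^ (1 / 2 - ε) / T ^ (α - 1)) * Real.sqrt (T ^ α))) := by ring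
      _ ≤ C * (Real.log T ^ 2 * ((1 + b) * Real.log T) * T ^ (1 - ε)) := by rw [e3]; gcongr
      _ = _ := by ring

theorem primes_side {ι : Type} [Countable ι] {γ w : ι → ℝ} {F : ℝ → Finset ι} {A : ℝ → ℝ} {k0 : ℝ}
    (Z : Zer γ w F A k0) {η1 η2 : ℝ} {χ : ℝ → ℝ} (h : Pc η1 η2 χ) (P : Par) (hP : P.Ok) {M : ℝ} (hM : 0 < M)
    (hM1 : -M ≤ η1) (hM2 : η2 ≤ M) {b : ℝ} (hb : 1 ≤ b) :
    ∃ T0 : ℝ, ∀ T, T0 ≤ T → ∀ α ∈ Set.Icc 1 b,
      Summable (fun i => w i * ‖PsiF (Fof (bP χ P T α) (α * Real.log T)) (γ i)‖) ∧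
      ‖(∑' i, (w i : ℂ) * PsiF (Fof (bP χ P T α) (α * Real.log T)) (γ i))
        - 2 * Real.pi * ∑ p ∈ Th P T α, (cf p : ℂ) *
          thW (Wof χ) M (T ^ α) (fun n => ee (-((n : ℝ) * p.1 / p.2)))‖ ≤ T := by
  obtain ⟨C1, hC1, hex⟩ := expl Z
  have hW : WS M (Wof χ) := Wof_WS h hM1 hM2
  have hW2 : WS M (fun η => Wof χ η * Real.exp η) :=
    ⟨hW.smooth.mul Real.contDiff_exp, fun η hη => by rw [hW.zero η hη, zero_mul]⟩
  obtain ⟨C2, T2, hC2, hS⟩ := sum_abs_cf P hP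
  obtain ⟨T3, hTh⟩ := mem_Th P hP
  obtain ⟨C3, hC3, hdof⟩ := dof hW2 3
  obtain ⟨C4, hC4, hpp⟩ := psW_sub_thW hM hW
  set IW : ℝ := ∫ η, |Wof χ η| with hIWd
  have hIW : 0 ≤ IW := integral_nonneg fun _ => abs_nonneg _
  have hδ := hP.δ_pos
  have hcH := hP.cH_pos
  have hb0 : 0 ≤ b := by linarith
  set D : ℝ := 2 * P.cH / P.δ with hD
  have hD0 : 0 < D := by positivity
  obtain ⟨T5, hgr⟩ := zpr_growth (C := 2 * Real.pi * C2 * (C1 * IW + C3 * D ^ 3 + C4 * (1 + b))) (M + 1)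
    hP.ε_pos (by positivity)
  refine ⟨max (max T2 T3) T5, fun T hT α hα => ?_⟩
  have hT2 : T2 ≤ T := le_trans (le_trans (le_max_left _ _) (le_max_left _ _)) hT
  have hT3 : T3 ≤ T := le_trans (le_trans (le_max_right _ _) (le_max_left _ _)) hT
  obtain ⟨hT1, hL, hLM, hbig⟩ := hgr T (le_trans (le_max_right _ _) hT)
  have hTp : 0 < T := by linarith
  have hα1 : 1 ≤ α := hα.1
  have hy : M + 1 ≤ α * Real.log T := by nlinarith
  have hzero : ∀ ξ ≤ 1, Fof (bP χ P T α) (α * Real.log T) ξ = 0 := fun ξ hξ =>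
    zpr_F_zero h P hM1 (by linarith)
  obtain ⟨hsum, hexp⟩ := hex _ (Fof_smooth h P T α) (zpr_compact h P T α) hzero
  refine ⟨hsum, ?_⟩
  have hx : 1 ≤ T ^ α := Real.one_le_rpow hT1 (by linarith)
  have hSle := hS T hT2 α hα1
  set S : ℝ := ∑ p ∈ Th P T α, |cf p| with hSd
  have hS0 : 0 ≤ S := Finset.sum_nonneg fun _ _ => abs_nonneg _
  obtain ⟨q1, q2, q3⟩ := zpr_pows (ε := P.ε) hb hC2 hT1 hL hα
  set K : ℝ := Real.log T ^ 3 * T ^ (1 - P.ε) with hK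
  -- the error term
  have herr : C1 * ∫ ξ, ‖Fof (bP χ P T α) (α * Real.log T) ξ‖ * Real.exp (-(ξ / 2)) ≤
      2 * Real.pi * C2 * (C1 * IW) * K := by
    calc C1 * ∫ ξ, ‖Fof (bP χ P T α) (α * Real.log T) ξ‖ * Real.exp (-(ξ / 2))
        ≤ C1 * (2 * Real.pi * S * IW) := by
          gcongr
          exact zpr_err hW P T α
      _ = 2 * Real.pi * C1 * IW * S := by ring
      _ ≤ 2 * Real.pi * C1 * IW * (C2 * K) := by
          gcongr
          exact hSle.trans q1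
      _ = _ := by ring
  -- the pole
  have hpole : ‖∫ ξ, Fof (bP χ P T α) (α * Real.log T) ξ * ((Real.exp (ξ / 2) : ℝ) : ℂ)‖ ≤
      2 * Real.pi * C2 * (C3 * D ^ 3) * K := by
    rw [zpr_pole_eq hW P hTp α, norm_mul, norm_neg]
    have n1 : ‖2 * (Real.pi : ℂ) * ((T ^ α : ℝ) : ℂ)‖ = 2 * Real.pi * T ^ α := by
      rw [norm_mul, norm_mul, Complex.norm_real, Complex.norm_real, Real.norm_eq_abs, Real.norm_eq_abs,
        abs_of_pos Real.pi_pos, abs_of_pos (by linarith)]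
      simp
    rw [n1]
    have n2 : ‖∑ p ∈ Th P T α, (cf p : ℂ) *
        ∫ η, ((Wof χ η * Real.exp η : ℝ) : ℂ) * ee (-(T ^ α * ((p.1 : ℝ) / p.2)) * Real.exp η)‖ ≤
        S * (C3 * D ^ 3 / T ^ 3) := by
      rw [hSd, Finset.sum_mul]
      refine norm_sum_le_of_le _ fun p hp => ?_
      rw [norm_mul, Complex.norm_real, Real.norm_eq_abs]
      refine mul_le_mul_of_nonneg_left ?_ (abs_nonneg _)
      obtain ⟨-, -, -, -, -, hp1, -⟩ := hTh T hT3 α hα1 p hp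
      have hlow : T / D ≤ T ^ α * ((p.1 : ℝ) / p.2) := by
        have e : T / D = T ^ α * (P.δ / (2 * (P.cH * T ^ (α - 1)))) := by
          rw [hD, Real.rpow_sub hTp, Real.rpow_one]
          field_simp
        rw [e]
        gcongr
      have hpos : 0 < T / D := by positivity
      have ht : -(T ^ α * ((p.1 : ℝ) / p.2)) ≠ 0 := by
        have : 0 < T ^ α * ((p.1 : ℝ) / p.2) := lt_of_lt_of_le hpos hlow
        exact neg_ne_zero.2 this.ne'
      refine (hdof _ ht).trans ?_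
      rw [abs_neg, abs_of_pos (lt_of_lt_of_le hpos hlow)]
      calc C3 / (T ^ α * ((p.1 : ℝ) / p.2)) ^ 3 ≤ C3 / (T / D) ^ 3 := by gcongr
        _ = C3 * D ^ 3 / T ^ 3 := by field_simp
    calc 2 * Real.pi * T ^ α * ‖∑ p ∈ Th P T α, (cf p : ℂ) *
          ∫ η, ((Wof χ η * Real.exp η : ℝ) : ℂ) * ee (-(T ^ α * ((p.1 : ℝ) / p.2)) * Real.exp η)‖
        ≤ 2 * Real.pi * T ^ α * (S * (C3 * D ^ 3 / T ^ 3)) := by gcongr
      _ = 2 * Real.pi * (C3 * D ^ 3) * (T ^ α * S / T ^ 3) := by ring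
      _ ≤ 2 * Real.pi * (C3 * D ^ 3) * (C2 * K) := by
          gcongr
          refine le_trans ?_ q2
          gcongr
      _ = _ := by ring
  -- the prime powers
  have hppw : ‖2 * (Real.pi : ℂ) * ∑ p ∈ Th P T α, (cf p : ℂ) *
      (psW (Wof χ) M (T ^ α) (fun n => ee (-((n : ℝ) * p.1 / p.2))) -
        thW (Wof χ) M (T ^ α) (fun n => ee (-((n : ℝ) * p.1 / p.2))))‖ ≤
      2 * Real.pi * C2 * (C4 * (1 + b)) * K := by
    rw [norm_mul]
    have n1 : ‖2 * (Real.pi : ℂ)‖ = 2 * Real.pi := by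
      rw [norm_mul, Complex.norm_real, Real.norm_eq_abs, abs_of_pos Real.pi_pos]
      simp
    rw [n1]
    have hlog : 0 ≤ Real.log (T ^ α) := Real.log_nonneg hx
    have n2 : ‖∑ p ∈ Th P T α, (cf p : ℂ) *
        (psW (Wof χ) M (T ^ α) (fun n => ee (-((n : ℝ) * p.1 / p.2))) -
          thW (Wof χ) M (T ^ α) (fun n => ee (-((n : ℝ) * p.1 / p.2))))‖ ≤
        S * (C4 * Real.sqrt (T ^ α) * (1 + Real.log (T ^ α))) := by
      rw [hSd, Finset.sum_mul]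
      refine norm_sum_le_of_le _ fun p hp => ?_
      rw [norm_mul, Complex.norm_real, Real.norm_eq_abs]
      refine mul_le_mul_of_nonneg_left ?_ (abs_nonneg _)
      exact hpp _ hx _ fun n => (zpr_ee _).le
    calc 2 * Real.pi * ‖∑ p ∈ Th P T α, (cf p : ℂ) *
          (psW (Wof χ) M (T ^ α) (fun n => ee (-((n : ℝ) * p.1 / p.2))) -
            thW (Wof χ) M (T ^ α) (fun n => ee (-((n : ℝ) * p.1 / p.2))))‖
        ≤ 2 * Real.pi * (S * (C4 * Real.sqrt (T ^ α) * (1 + Real.log (T ^ α)))) := by gcongr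
      _ = 2 * Real.pi * C4 * (S * (Real.sqrt (T ^ α) * (1 + Real.log (T ^ α)))) := by ring
      _ ≤ 2 * Real.pi * C4 * (C2 * (1 + b) * K) := by
          refine mul_le_mul_of_nonneg_left (le_trans ?_ q3) (by positivity)
          gcongr
      _ = _ := by ring
  -- assembling
  rw [zpr_tsum hM hW P hTp α] at hexp
  set X : ℂ := ∑' i, (w i : ℂ) * PsiF (Fof (bP χ P T α) (α * Real.log T)) (γ i) with hX
  set B : ℂ := ∫ ξ, Fof (bP χ P T α) (α * Real.log T) ξ * ((Real.exp (ξ / 2) : ℝ) : ℂ) with hB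
  have hid : X - 2 * Real.pi * ∑ p ∈ Th P T α, (cf p : ℂ) *
      thW (Wof χ) M (T ^ α) (fun n => ee (-((n : ℝ) * p.1 / p.2))) =
      (X - B + -(2 * Real.pi) * ∑ p ∈ Th P T α, (cf p : ℂ) *
        psW (Wof χ) M (T ^ α) (fun n => ee (-((n : ℝ) * p.1 / p.2)))) + B +
      2 * (Real.pi : ℂ) * ∑ p ∈ Th P T α, (cf p : ℂ) *
      (psW (Wof χ) M (T ^ α) (fun n => ee (-((n : ℝ) * p.1 / p.2))) -
        thW (Wof χ) M (T ^ α) (fun n => ee (-((n : ℝ) * p.1 / p.2)))) := by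
    simp only [mul_sub, Finset.sum_sub_distrib]
    ring
  rw [hid]
  refine (norm_add₃_le).trans ?_
  have hfin : 2 * Real.pi * C2 * (C1 * IW) * K + 2 * Real.pi * C2 * (C3 * D ^ 3) * K +
      2 * Real.pi * C2 * (C4 * (1 + b)) * K ≤ T := by
    refine le_trans (le_of_eq ?_) hbig
    rw [hK]
    ring
  linarith [hexp.trans herr]

theorem zside {ι : Type} [Countable ι] {γ w : ι → ℝ} {F : ℝ → Finset ι} {A : ℝ → ℝ} {k0 : ℝ}
    (Z : Zer γ w F A k0) {η1 η2 : ℝ} {χ : ℝ → ℝ} (h : Pc η1 η2 χ) (P : Par) (hP : P.Ok) {M : ℝ} (hM : 0 < M)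
    (hM1 : -M ≤ η1) (hM2 : η2 ≤ M) (hcH : P.cH = 2 * Real.pi * Real.exp η2 / (1 - P.δ)) {b : ℝ} (hb : 1 ≤ b) :
    ∃ T0 : ℝ, ∀ T, T0 ≤ T → ∀ α ∈ Set.Icc 1 b,
      ‖(∑ i ∈ F T, (w i : ℂ) * PsiF (Fof (bP χ P T α) (α * Real.log T)) (γ i))
        - 2 * Real.pi * ∑ p ∈ Th P T α, (cf p : ℂ) *
          thW (Wof χ) M (T ^ α) (fun n => ee (-((n : ℝ) * p.1 / p.2)))‖ ≤ 2 * T := by
  obtain ⟨T1, hps⟩ := primes_side Z h P hP hM hM1 hM2 hb
  obtain ⟨C1, T2, hC1, htail⟩ := tail_zeros h P hP hcH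
  obtain ⟨C2, hC2, hbW⟩ := Z.boundW
  obtain ⟨T3, hgr⟩ := zpr_growth (C := C1 * C2) 0 hP.ε_pos (by positivity)
  refine ⟨max (max T1 T2) T3, fun T hT α hα => ?_⟩
  have hT1 : T1 ≤ T := le_trans (le_trans (le_max_left _ _) (le_max_left _ _)) hT
  have hT2 : T2 ≤ T := le_trans (le_trans (le_max_right _ _) (le_max_left _ _)) hT
  obtain ⟨hT1', hL, -, hbig⟩ := hgr T (le_trans (le_max_right _ _) hT)
  obtain ⟨hsum, hmain⟩ := hps T hT1 α hα
  set a : ι → ℂ := fun i => (w i : ℂ) * PsiF (Fof (bP χ P T α) (α * Real.log T)) (γ i) with ha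
  have hna : ∀ i, ‖a i‖ = w i * ‖PsiF (Fof (bP χ P T α) (α * Real.log T)) (γ i)‖ := by
    intro i
    rw [ha]
    simp only
    rw [norm_mul, Complex.norm_real, Real.norm_eq_abs, abs_of_nonneg (Z.w_nonneg i)]
  have hsa : Summable a := by
    refine Summable.of_norm ?_
    refine hsum.congr fun i => ?_
    rw [hna i]
  have hsw : Summable fun i => w i / (1 + γ i ^ 2) := by
    refine (Z.hasSum 0).summable.congr fun i => ?_
    unfold pk
    rw [zero_sub, neg_sq, one_pow]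
    ring
  have hbW0 : ∑' i, w i / (1 + γ i ^ 2) ≤ C2 := by
    have := hbW 0
    simpa using this
  classical
  -- the tail
  have htl : ‖(∑' i, a i) - ∑ i ∈ F T, a i‖ ≤ T := by
    have h1 : (∑' i, a i) - ∑ i ∈ F T, a i = ∑' i, (if i ∈ F T then 0 else a i) := by
      have h2 : ∑ i ∈ F T, a i = ∑' i, (if i ∈ F T then a i else 0) := by
        rw [tsum_eq_sum (s := F T)]
        · exact Finset.sum_congr rfl fun i hi => by rw [if_pos hi]
        · intro i hi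
          rw [if_neg hi]
      have h3 : Summable fun i => (if i ∈ F T then a i else 0) :=
        summable_of_ne_finset_zero (s := F T) fun i hi => by rw [if_neg hi]
      rw [h2, ← hsa.tsum_sub h3]
      refine tsum_congr fun i => ?_
      split_ifs <;> simp
    rw [h1]
    have hC : 0 ≤ C1 * Real.log T ^ 2 * T ^ (1 - P.ε) := by positivity
    have h4 : ∀ i, ‖(if i ∈ F T then 0 else a i)‖ ≤
        C1 * Real.log T ^ 2 * T ^ (1 - P.ε) * (w i / (1 + γ i ^ 2)) := by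
      intro i
      have hwi := Z.w_nonneg i
      split_ifs with hi
      · rw [norm_zero]; positivity
      · rw [hna i]
        have hg : γ i ≤ 0 ∨ T < γ i := by
          rw [Z.mem_F, not_and_or, not_lt, not_le] at hi
          exact hi
        have h5 := htail T hT2 α hα.1 (γ i) hg
        calc w i * ‖PsiF (Fof (bP χ P T α) (α * Real.log T)) (γ i)‖
            ≤ w i * (C1 * Real.log T ^ 2 * T ^ (1 - P.ε) / (1 + γ i ^ 2)) := by gcongr
          _ = _ := by ring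
    have h5 : Summable fun i => C1 * Real.log T ^ 2 * T ^ (1 - P.ε) * (w i / (1 + γ i ^ 2)) := hsw.mul_left _
    refine (tsum_of_norm_bounded h5.hasSum h4).trans ?_
    rw [tsum_mul_left]
    calc C1 * Real.log T ^ 2 * T ^ (1 - P.ε) * ∑' i, w i / (1 + γ i ^ 2)
        ≤ C1 * Real.log T ^ 2 * T ^ (1 - P.ε) * C2 := by gcongr
      _ = C1 * C2 * Real.log T ^ 2 * T ^ (1 - P.ε) := by ring
      _ ≤ C1 * C2 * Real.log T ^ 3 * T ^ (1 - P.ε) := by
          have : Real.log T ^ 2 ≤ Real.log T ^ 3 := pow_le_pow_right₀ hL (by norm_num)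
          gcongr
      _ ≤ T := hbig
  have hid : (∑ i ∈ F T, a i) - 2 * Real.pi * ∑ p ∈ Th P T α, (cf p : ℂ) *
          thW (Wof χ) M (T ^ α) (fun n => ee (-((n : ℝ) * p.1 / p.2))) =
      ((∑' i, a i) - 2 * Real.pi * ∑ p ∈ Th P T α, (cf p : ℂ) *
          thW (Wof χ) M (T ^ α) (fun n => ee (-((n : ℝ) * p.1 / p.2)))) -
      ((∑' i, a i) - ∑ i ∈ F T, a i) := by ring
  rw [hid]
  refine (norm_sub_le _ _).trans ?_
  linarith

end H69LB
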